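import Mathlib

/-! Shared definitions for the project BC. -/

namespace Pool.Agent.P.MP_e7a540_nt.BC

open Complex Filter Topology
open scoped Real

noncomputable section

/-- the Gaussian integers -/
abbrev ZI : Type := GaussianInt

/-- the residue ring -/
abbrev RR (l : ℕ) : Type := ZI ⧸ Ideal.span {(l : ZI)}

/-- the characters of the residue ring -/
abbrev CH (l : ℕ) : Type := MulChar (RR l) ℂ

/-- the value of a character at a Gaussian integer -/
def ev {l : ℕ} (χ : CH l) (a : ZI) : ℂ := χ (Ideal.Quotient.mk _ a)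

/-- the characters which are trivial on the rational integers -/
def XX (l : ℕ) : Set (CH l) := {χ | ∀ n : ℤ, ¬ (l : ℤ) ∣ n → ev χ (n : ZI) = 1}

/-- their number -/
def gg (l : ℕ) : ℕ := (XX l).ncard

/-- primary elements -/
def Pr (a : ZI) : Prop := (⟨2, 2⟩ : ZI) ∣ a - 1

/-- primitive primary elements -/
def PQ (a : ZI) : Prop := Pr a ∧ IsCoprime a.re a.im

/-- primitive primary elements different from one and prime to `l` -/
def PP (l : ℕ) : Set ZI := {a | PQ a ∧ a ≠ 1 ∧ IsCoprime a (l : ZI)}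

/-- the terms of the theta series -/
def tm {l : ℕ} (χ : CH l) (τ : ℂ) (a : {a : ZI // Pr a}) : ℂ :=
  ev χ a * (a : ZI) * cexp (2 * π * I * ((a : ZI).norm : ℤ) * τ)

/-- the theta series -/
def th {l : ℕ} (χ : CH l) (τ : ℂ) : ℂ := ∑' a, tm χ τ a

/-- the theta series of a function on the Gaussian integers -/
def TH (φ : ZI → ℂ) (τ : ℂ) : ℂ := ∑' a : ZI, φ a * a * cexp (2 * π * I * (a.norm : ℤ) * τ)

/-- the finite Fourier transform modulo `m` -/
def FT (m : ZI) (φ : ZI → ℂ) (w : ZI) : ℂ :=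
  ∑ᶠ r : ZI ⧸ Ideal.span {m}, φ r.out * cexp (2 * π * I * (((r.out * star w : ZI) : ℂ) / m).re)

open Classical in
/-- the character on the primary elements, zero elsewhere -/
def ph {l : ℕ} (χ : CH l) (a : ZI) : ℂ := if Pr a then ev χ a else 0

/-- the root number -/
def WW {l : ℕ} (χ : CH l) : ℂ :=
  (if l % 4 = 1 then 1 else -1) * (if ev χ ⟨0, 1⟩ = 1 then 1 else -I) * ev χ ⟨1, 1⟩

/-- the smoothed sum at the centre -/
def sm {l : ℕ} (χ : CH l) (t : ℝ) : ℂ :=
  ∑' a : {a : ZI // Pr a},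
    ev χ a * ((a : ZI) / (((a : ZI).norm : ℤ) : ℂ)) * rexp (-t * ((a : ZI).norm : ℤ))

/-- the central value vanishes -/
def Van {l : ℕ} (χ : CH l) : Prop := Tendsto (sm χ) (𝓝[>] 0) (𝓝 0)

/-- the characters of sign one -/
def XP (l : ℕ) : Set (CH l) := {χ | χ ∈ XX l ∧ χ ≠ 1 ∧ WW χ = 1}

/-- the order of a Gaussian integer modulo `l` and the rational integers -/
def od (l : ℕ) (a : ZI) : ℕ := sInf {n | 0 < n ∧ (l : ℤ) ∣ (a ^ n).im}

/-- the weight -/
def wt (l : ℕ) (a : ZI) : ℝ :=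
  rexp (-(a.norm : ℝ) / l) / √(a.norm : ℝ) * ((od l a).divisors.card / od l a)

/-- the sum of the weights -/
def TT (l : ℕ) : ℝ := ∑' a : PP l, wt l a

/-- a sum over divisors -/
def DD (g : ℕ) (σ : ℝ) : ℝ := ∑ n ∈ g.divisors, (n.divisors.card : ℝ) * (n : ℝ) ^ (-σ)

end

end Pool.Agent.P.MP_e7a540_nt.BC
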