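import Pool.Agent.P.MP_e7a540_nt.BC.If

/-! The final count. -/

namespace Pool.Agent.P.MP_e7a540_nt.BC

open Complex Filter Topology CongruenceSubgroup
open UpperHalfPlane hiding I
open scoped Real ComplexConjugate MatrixGroups

/-- the forms of sign one -/
def PL (l : ℕ) [Fact l.Prime] : Set (CuspForm (Gamma0 (32 * l ^ 2)) 2) :=
  {f | (∃ χ : CH l, χ ≠ 1 ∧ χ ∈ XX l ∧ ∀ τ : ℍ, HasSum (tm χ τ) (f τ)) ∧
    ∀ s : ℂ, (32 * l ^ 2 : ℂ) ^ (s / 2) * ModularForm.Λ two_pos f s =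
      (32 * l ^ 2 : ℂ) ^ ((2 - s) / 2) * ModularForm.Λ two_pos f (2 - s)}

theorem fin_count (hGRP : S_GRP) (hMOD : S_MOD) (hLV : S_LV) (hINJ : S_INJ) (l : ℕ)
    [hl : Fact l.Prime] (h2 : l ≠ 2) : (PL l).ncard = (XP l).ncard ∧
      {f ∈ PL l | ModularForm.L two_pos f 1 ≠ 0}.ncard + {χ ∈ XP l | Van χ}.ncard =
        (XP l).ncard := by
  classical
  choose! F hF using hMOD l hl.out h2
  have inj : Set.InjOn F (XP l) := fun χ h χ' h' e =>
    hINJ l hl.out h2 χ h.1 χ' h'.1 fun τ hτ => by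
      have a := (hF χ h.1 ⟨τ, hτ⟩).tsum_eq
      have b := (hF χ' h'.1 ⟨τ, hτ⟩).tsum_eq
      rw [e] at a
      exact a.trans b.symm
  have e1 : PL l = F '' XP l := by
    ext f
    constructor
    · rintro ⟨⟨χ, h1, hX, hs⟩, hfe⟩
      refine ⟨χ, ⟨hX, h1, (hLV l h2 χ hX h1 f hs).2.2.1 hfe⟩, ?_⟩
      ext τ
      exact (hF χ hX τ).unique (hs τ)
    · rintro ⟨χ, ⟨hX, h1, hW⟩, rfl⟩
      exact ⟨⟨χ, h1, hX, hF χ hX⟩, (hLV l h2 χ hX h1 _ (hF χ hX)).2.2.2 hW⟩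
  have e2 : {f ∈ PL l | ModularForm.L two_pos f 1 ≠ 0} = F '' {χ ∈ XP l | ¬ Van χ} := by
    ext f
    rw [e1]
    constructor
    · rintro ⟨⟨χ, h, rfl⟩, hL⟩
      exact ⟨χ, ⟨h, fun v => hL ((hLV l h2 χ h.1 h.2.1 _ (hF χ h.1)).2.1.2 v)⟩, rfl⟩
    · rintro ⟨χ, ⟨h, v⟩, rfl⟩
      exact ⟨⟨χ, h, rfl⟩, fun hL => v ((hLV l h2 χ h.1 h.2.1 _ (hF χ h.1)).2.1.1 hL)⟩
  have fin : (XP l).Finite := (hGRP l hl.out h2).1.subset fun χ h => h.1
  refine ⟨by rw [e1, inj.ncard_image], ?_⟩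
  rw [e2, (inj.mono fun χ h => h.1).ncard_image, ← Set.ncard_union_eq _
    (fin.subset fun χ h => h.1) (fin.subset fun χ h => h.1)]
  · congr 1
    ext χ
    simp only [Set.mem_union, Set.mem_ofPred_eq]
    tauto
  · exact Set.disjoint_left.2 fun χ h h' => h.2 h'.2

theorem fin_asy (C : ℝ) : ∀ᶠ x : ℝ in atTop,
    192 * (Real.log x ^ C * Real.log x ^ C * x ^ (-(1 / 16 : ℝ))) ≤ x ^ (-(1 / 17 : ℝ)) := by
  have h := ((isLittleO_log_rpow_rpow_atTop (C + C) (s := 1 / 272)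
    (by norm_num)).tendsto_div_nhds_zero).const_mul 192
  rw [mul_zero] at h
  filter_upwards [eventually_gt_atTop 1, h.eventually (gt_mem_nhds one_pos)] with x hx hs
  have x0 : 0 < x := by linarith
  have e : x ^ (-(1 / 16 : ℝ)) = (x ^ (1 / 272 : ℝ))⁻¹ * x ^ (-(1 / 17 : ℝ)) := by
    rw [← Real.rpow_neg x0.le, ← Real.rpow_add x0]; norm_num
  rw [← Real.rpow_add (Real.log_pos hx), e, ← mul_assoc (Real.log x ^ _), ← div_eq_mul_inv,
    ← mul_assoc]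
  exact mul_le_of_le_one_left (by positivity) hs.le

theorem fin_main (hGRP : S_GRP) (hMOD : S_MOD) (hLV : S_LV) (hINJ : S_INJ) (hAVG : S_AVG)
    (hARI : S_ARI) (hTT : S_TT) : ∃ l₀ : ℕ, ∀ (l : ℕ) [Fact l.Prime], l₀ ≤ l →
      1 - Real.log l ^ (-(1 / 17 : ℝ)) ≤
        ({f ∈ PL l | ModularForm.L two_pos f 1 ≠ 0}.ncard : ℝ) / (PL l).ncard := by
  obtain ⟨C, hA⟩ := hARI.2
  have tl : Tendsto (fun l : ℕ => Real.log l) atTop atTop :=
    Real.tendsto_log_atTop.comp tendsto_natCast_atTop_atTop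
  obtain ⟨l₀, h₀⟩ := eventually_atTop.1 (hA.and (hTT.and ((tl.eventually (fin_asy C)).and
    ((tl.eventually_gt_atTop 1).and (eventually_ge_atTop 100)))))
  refine ⟨l₀, fun l hl hl₀ => ?_⟩
  obtain ⟨hA, hT, hasy, hx, h100⟩ := h₀ l hl₀
  have h2 : l ≠ 2 := by omega
  obtain ⟨c1, c2⟩ := fin_count hGRP hMOD hLV hINJ l h2
  obtain ⟨-, hg, hg', -, hP, -⟩ := hGRP l hl.out h2
  have g0 : 0 < gg l := by omega
  obtain ⟨d0, d1, -⟩ := hA (gg l) g0 hg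
  have L0 : 0 < Real.log (Real.log l) := Real.log_pos hx
  have d2 : DD (gg l) 1 ≤ Real.log (Real.log l) ^ C := by
    refine le_trans (Finset.sum_le_sum fun n hn => ?_) d1
    have : (1 : ℝ) ≤ n := by exact_mod_cast Nat.pos_of_mem_divisors hn
    refine mul_le_mul_of_nonneg_left (Real.rpow_le_rpow_of_exponent_le this ?_) (by positivity)
    have : 0 < 18 / Real.log (Real.log l) := by positivity
    linarith
  have D0 : 0 ≤ DD (gg l) 1 := Finset.sum_nonneg fun n _ => by positivity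
  have T0 : 0 ≤ TT l := tsum_nonneg fun a => by unfold wt; positivity
  have P8 : (gg l : ℝ) ≤ 8 * (XP l).ncard := by exact_mod_cast (by omega : gg l ≤ 8 * (XP l).ncard)
  have P0 : (0 : ℝ) < (XP l).ncard := by exact_mod_cast (by omega : 0 < (XP l).ncard)
  have b : ({χ ∈ XP l | Van χ}.ncard : ℝ) ≤ Real.log l ^ (-(1 / 17 : ℝ)) * (XP l).ncard :=
    calc _ ≤ _ := hAVG l hl.out h100
      _ ≤ 24 * (8 * (XP l).ncard) * Real.log (Real.log l) ^ C * Real.log (Real.log l) ^ C *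
          Real.log l ^ (-(1 / 16 : ℝ)) := by gcongr; exact hT hl.out
      _ = 192 * (Real.log (Real.log l) ^ C * Real.log (Real.log l) ^ C *
          Real.log l ^ (-(1 / 16 : ℝ))) * (XP l).ncard := by ring
      _ ≤ _ := by gcongr
  have c3 : ({f ∈ PL l | ModularForm.L two_pos f 1 ≠ 0}.ncard : ℝ) + {χ ∈ XP l | Van χ}.ncard =
    (XP l).ncard := by exact_mod_cast c2
  rw [c1, le_div_iff₀ P0]
  linarith

end Pool.Agent.P.MP_e7a540_nt.BC
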