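import Pool.Agent.P.MP_e7a540_nt.BC.GalWp
import Pool.Agent.P.MP_8b7eba_nt.CG.LTheta

/-! Field endomorphisms of the complex numbers permute the division values of the lemniscatic
functions; hence vanishing of the central value of a Hecke series is invariant under them. -/

namespace Pool.Agent.P.MP_e7a540_nt.BC.BW

open Complex Filter Topology PeriodPair
open MP_8b7eba_nt.CG.L (Reps exists_reps latE gp mem_gp coe_ne)

/-- the conductor of the lemniscatic character -/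
def pp : GaussianInt := ⟨2, 2⟩

theorem p0 : pp ≠ 0 := by decide

theorem mem_lat {x : ℂ} : x ∈ gp.lattice ↔ ∃ α : GaussianInt, (α : ℂ) = x := by
  simpa using mem_gp x

theorem mul_mem (α : GaussianInt) {z : ℂ} (h : z ∈ gp.lattice) : α * z ∈ gp.lattice := by
  obtain ⟨β, rfl⟩ := mem_lat.1 h
  exact mem_lat.2 ⟨α * β, map_mul _ _ _⟩

theorem coe_i : ((⟨0, 1⟩ : GaussianInt) : ℂ) = I := by simp [GaussianInt.toComplex_def]

theorem I_mem {z : ℂ} (h : z ∈ gp.lattice) : I * z ∈ gp.lattice := coe_i ▸ mul_mem _ h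

theorem mem_I {z : ℂ} (h : I * z ∈ gp.lattice) : z ∈ gp.lattice := by
  simpa [← mul_assoc] using I_mem h

theorem div_mem {r m : GaussianInt} (hm : m ≠ 0) : (r / m : ℂ) ∈ gp.lattice ↔ m ∣ r := by
  have := coe_ne hm
  refine mem_lat.trans ⟨fun ⟨a, h⟩ => ⟨a, GaussianInt.toComplex_injective ?_⟩,
    fun ⟨a, h⟩ => ⟨a, ?_⟩⟩
  · rw [map_mul, h]; field_simp
  · rw [h, map_mul]; field_simp

/-- multiplication by `i` -/
noncomputable def rot : gp.lattice ≃ gp.lattice where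
  toFun l := ⟨I * l, I_mem l.2⟩
  invFun l := ⟨I * (-l), I_mem (neg_mem l.2)⟩
  left_inv l := Subtype.ext (by simp [← mul_assoc])
  right_inv l := Subtype.ext (by simp [← mul_assoc])

theorem pP_I (z : ℂ) : ℘[gp] (I * z) = -℘[gp] z := by
  rw [weierstrassP, weierstrassP, ← tsum_neg, ← rot.tsum_eq]
  refine tsum_congr fun l => ?_
  change 1 / (I * z - I * l) ^ 2 - 1 / (I * l) ^ 2 = _
  rw [← mul_sub, mul_pow, mul_pow, I_sq]
  simp only [neg_mul, one_mul, div_neg]
  ring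

theorem pQ_I (z : ℂ) : ℘'[gp] (I * z) = I * ℘'[gp] z := by
  rw [derivWeierstrassP, derivWeierstrassP, mul_neg, ← tsum_mul_left, ← rot.tsum_eq]
  refine congrArg _ (tsum_congr fun l => ?_)
  change 2 / (I * z - I * l) ^ 3 = _
  rw [← mul_sub, mul_pow, I_pow_three, neg_mul, div_neg, mul_comm I, div_mul_eq_div_div, div_I]
  ring

theorem g3 : gp.g₃ = 0 := by
  have h := gp.derivWeierstrassP_sq _ (mt mem_I gp.ω₁_div_two_notMem_lattice)
  rw [pP_I, pQ_I, mul_pow, gp.derivWeierstrassP_sq _ gp.ω₁_div_two_notMem_lattice, I_sq] at h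
  linear_combination h / 2

theorem pP_eq {z w : ℂ} (h : z - w ∈ gp.lattice) : ℘[gp] z = ℘[gp] w ∧ ℘'[gp] z = ℘'[gp] w := by
  rw [← gp.weierstrassP_add_coe w ⟨_, h⟩, ← gp.derivWeierstrassP_add_coe w ⟨_, h⟩]
  simp

section
variable (τ : ℂ →+* ℂ) (hτ : τ I = I)
include hτ

theorem exists_T : ∃ (c : ℂ) (T : ℂ → ℂ), c ≠ 0 ∧ (∀ z ∈ gp.lattice, T z = 0) ∧
    (∀ z ∉ gp.lattice, T z ∉ gp.lattice ∧ ℘[gp] (T z) = c ^ 2 * τ (℘[gp] z) ∧
      ℘'[gp] (T z) = c ^ 3 * τ (℘'[gp] z)) ∧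
    ∀ (α : GaussianInt) z, T (α * z) - α * T z ∈ gp.lattice := by
  obtain ⟨c, c0, hc⟩ : ∃ c : ℂ, c ≠ 0 ∧ c ^ 4 * τ gp.g₂ = gp.g₂ := by
    by_cases h : gp.g₂ = 0
    · exact ⟨1, one_ne_zero, by simp [h]⟩
    have h1 : τ gp.g₂ ≠ 0 := by simpa using h
    obtain ⟨c, hc⟩ := IsAlgClosed.exists_pow_nat_eq (gp.g₂ / τ gp.g₂) (n := 4) (by norm_num)
    exact ⟨c, fun e => div_ne_zero h h1 (by rw [← hc, e]; simp), by rw [hc]; field_simp⟩
  have ex : ∀ z, ∃ w, (z ∈ gp.lattice → w = 0) ∧ (z ∉ gp.lattice → w ∉ gp.lattice ∧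
      ℘[gp] w = c ^ 2 * τ (℘[gp] z) ∧ ℘'[gp] w = c ^ 3 * τ (℘'[gp] z)) := fun z => by
    by_cases hz : z ∈ gp.lattice
    · exact ⟨0, fun _ => rfl, fun h => (h hz).elim⟩
    have h := congrArg τ (gp.derivWeierstrassP_sq z hz)
    simp only [g3, map_sub, map_mul, map_pow, map_ofNat, map_zero] at h
    obtain ⟨w, hw⟩ := wp_surj2 (L := gp) (x := c ^ 2 * τ (℘[gp] z)) (y := c ^ 3 * τ (℘'[gp] z)) (by
      rw [g3]; linear_combination c ^ 6 * h - c ^ 2 * τ (℘[gp] z) * hc)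
    exact ⟨w, fun h => (hz h).elim, fun _ => hw⟩
  choose T h0 h1 using ex
  let q := gp.lattice.mkQ
  have hq : ∀ {x y}, q x = q y ↔ x - y ∈ gp.lattice := Submodule.Quotient.eq _
  have key : ∀ z w, z ∉ gp.lattice → w ∉ gp.lattice → ℘[gp] w = c ^ 2 * τ (℘[gp] z) →
      ℘'[gp] w = c ^ 3 * τ (℘'[gp] z) → q (T z) = q w := fun z w hz hw a b =>
    hq.2 (wp_inj2 (h1 z hz).1 hw ((h1 z hz).2.1.trans a.symm) ((h1 z hz).2.2.trans b.symm))
  have per : ∀ z, ∀ l ∈ gp.lattice, q (T (z + l)) = q (T z) + q (T l) := fun z l hl => by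
    rw [h0 l hl, map_zero, add_zero]
    by_cases hz : z ∈ gp.lattice
    · rw [h0 z hz, h0 _ (add_mem hz hl)]
    obtain ⟨a, b⟩ := pP_eq (z := z + l) (w := z) (by simpa using hl)
    exact key _ _ (mt (gp.lattice.add_mem_iff_left hl).1 hz) (h1 z hz).1
      (by rw [a, (h1 z hz).2.1]) (by rw [b, (h1 z hz).2.2])
  have bad : ∀ d, {e | q (T (d + e)) ≠ q (T d) + q (T e)}.Countable := fun d => by
    by_cases hd : d ∈ gp.lattice
    · exact Set.countable_empty.mono fun e he => he (by rw [add_comm, per e d hd, add_comm])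
    refine (((cnt gp).preimage (add_right_injective d)).union (cnt_level gp (℘[gp] d))).mono
      fun e he => ?_
    by_contra h
    refine he ?_
    by_cases h2 : e ∈ gp.lattice
    · exact per d e h2
    have h4 : d + e ∉ gp.lattice := fun x => h (Or.inl x)
    have h5 : ℘[gp] d ≠ ℘[gp] e := fun x => h (Or.inr ⟨x.symm, h2⟩)
    obtain ⟨a1, a2, a3⟩ := h1 d hd
    obtain ⟨b1, b2, b3⟩ := h1 e h2
    have h6 : ℘[gp] (T d) ≠ ℘[gp] (T e) := by
      rw [a2, b2]
      exact fun x => h5 (τ.injective (mul_left_cancel₀ (pow_ne_zero 2 c0) x))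
    have h7 : T d + T e ∉ gp.lattice := fun x => h6
      ((pP_eq (w := -T e) (by rwa [sub_neg_eq_add])).1.trans (gp.weierstrassP_neg _))
    obtain ⟨e1, e2⟩ := add_formula hd h2 h4 h5
    obtain ⟨f1, f2⟩ := add_formula a1 b1 h7 h6
    have s : sl gp (T d) (T e) = c * τ (sl gp d e) := by
      simp only [sl, a2, a3, b2, b3, map_div₀, map_sub, ← mul_sub]
      rw [mul_div_mul_comm, pow_succ', mul_div_cancel_right₀ _ (pow_ne_zero 2 c0)]
    have x : fX gp (T d) (T e) = c ^ 2 * τ (fX gp d e) := by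
      simp only [fX, s, a2, b2, map_div₀, map_sub, map_pow, map_ofNat]
      ring
    rw [← map_add]
    refine key _ _ h4 h7 (by rw [← f1, ← e1, x]) ?_
    rw [← f2, ← e2]
    simp only [fY, s, x, b2, b3, map_neg, map_add, map_mul, map_sub]
    ring
  let U : ℂ →+ ℂ ⧸ gp.lattice := AddMonoidHom.mk' (fun z => q (T z)) fun a b => by
    have hc := ((bad (a + b)).union (bad b)).union ((bad a).preimage (add_right_injective b))
    obtain ⟨e, he⟩ := (hc.isConnected_compl_of_one_lt_rank (by simp)).nonempty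
    simp only [Set.mem_compl_iff, Set.mem_union, Set.mem_ofPred_eq, Set.mem_preimage, not_or,
      not_not] at he
    obtain ⟨⟨e1, e2⟩, e3⟩ := he
    rw [← add_assoc, e1, e2, ← add_assoc] at e3
    exact add_right_cancel e3
  have hI : ∀ z, U (I * z) = q (I * T z) := fun z => by
    by_cases hz : z ∈ gp.lattice
    · change q (T _) = _
      rw [h0 z hz, h0 _ (I_mem hz), mul_zero]
    obtain ⟨a1, a2, a3⟩ := h1 z hz
    exact key _ _ (mt mem_I hz) (mt mem_I a1) (by rw [pP_I, pP_I, a2, map_neg, mul_neg])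
      (by rw [pQ_I, pQ_I, a3, map_mul, hτ, mul_left_comm])
  refine ⟨c, T, c0, h0, h1, fun α z => hq.1 ?_⟩
  have e : ∀ w : ℂ, α * w = α.re • w + α.im • (I * w) := fun w => by
    simp [GaussianInt.toComplex_def]; ring
  change U _ = _
  rw [e, e, map_add, map_add, map_zsmul, map_zsmul, map_zsmul, map_zsmul, hI]
  rfl

/-- multiplication by `b` acts on the `m`-division values as `τ` does, up to the weight `c` -/
def Act (τ : ℂ →+* ℂ) (m : GaussianInt) (c : ℂ) (b : GaussianInt) : Prop :=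
  c ≠ 0 ∧ IsCoprime b m ∧ ∀ r : GaussianInt, ¬ m ∣ r →
    ℘[gp] (b * r / m) = c ^ 2 * τ (℘[gp] (r / m)) ∧ ℘'[gp] (b * r / m) = c ^ 3 * τ (℘'[gp] (r / m))

theorem exists_act {m : GaussianInt} (hm : m ≠ 0) : ∃ c b, Act τ m c b := by
  obtain ⟨c, T, c0, h0, h1, h2⟩ := exists_T τ hτ
  have m0 := coe_ne hm
  have h3 := h2 m (1 / m)
  rw [mul_one_div_cancel m0, h0 1 (mem_lat.2 ⟨1, map_one _⟩), zero_sub, neg_mem_iff] at h3
  obtain ⟨b, hb⟩ := mem_lat.1 h3
  have h4 : ∀ r : GaussianInt, T (r / m) - b * r / m ∈ gp.lattice := fun r => by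
    have := h2 r (1 / m)
    rwa [mul_one_div, show r * T (1 / m) = b * r / m by rw [hb]; field_simp] at this
  refine ⟨c, b, c0, (IsRelPrime.isCoprime ?_), fun r hr => ?_⟩
  · rintro d ⟨b', e1⟩ ⟨m', e2⟩
    have h5 : m ∣ m' := by
      by_contra h
      refine (h1 _ (mt (div_mem hm).1 h)).1 ((gp.lattice.sub_mem_iff_left ?_).1 (h4 m'))
      rw [← map_mul, div_mem hm, e1, e2]
      exact ⟨b', by ring⟩
    rw [e2] at h5 hm
    exact isUnit_of_dvd_one ((mul_dvd_mul_iff_right (right_ne_zero_of_mul hm)).1 (by rwa [one_mul]))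
  · obtain ⟨-, a, b⟩ := h1 _ (mt (div_mem hm).1 hr)
    rw [← a, ← b]
    exact ⟨(pP_eq (h4 r)).1.symm, (pP_eq (h4 r)).2.symm⟩

omit hτ in
theorem Act.rot {m b : GaussianInt} {c : ℂ} (h : Act τ m c b) :
    Act τ m (-I * c) (⟨0, 1⟩ * b) := by
  refine ⟨mul_ne_zero (neg_ne_zero.2 I_ne_zero) h.1,
    .mul_left ⟨⟨0, -1⟩, 0, by rw [zero_mul, add_zero]; rfl⟩ h.2.1, fun r hr => ?_⟩
  rw [map_mul, coe_i, mul_assoc, mul_div_assoc, pP_I, pQ_I, (h.2.2 r hr).1, (h.2.2 r hr).2]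
  exact ⟨by linear_combination -c ^ 2 * τ (℘[gp] (r / m)) * I_sq,
    by linear_combination I * c ^ 3 * τ (℘'[gp] (r / m)) * I_sq⟩

omit hτ in
theorem dvd_iff {a : GaussianInt} :
    pp ∣ a ↔ 4 ∣ a.re + a.im ∧ 4 ∣ a.im - a.re := by
  refine ⟨fun ⟨k, e⟩ => ?_, fun ⟨⟨x, h⟩, ⟨y, h'⟩⟩ => ⟨⟨x, y⟩, ?_⟩⟩
  · simp only [e, pp, Zsqrtd.re_mul, Zsqrtd.im_mul]; omega
  · ext <;> simp only [pp, Zsqrtd.re_mul, Zsqrtd.im_mul] <;> omega

theorem exists_prim {m : GaussianInt} (hm : m ≠ 0) (h2 : pp ∣ m) :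
    ∃ c b, Act τ m c b ∧ pp ∣ b - 1 := by
  obtain ⟨c, b, h⟩ := exists_act τ hτ hm
  have h3 : (b.re + b.im) % 2 = 1 := by
    by_contra h3
    have h4 : (⟨1, 1⟩ : GaussianInt) ∣ b := ⟨⟨(b.re + b.im) / 2, (b.im - b.re) / 2⟩, by
      ext <;> simp only [Zsqrtd.re_mul, Zsqrtd.im_mul] <;> omega⟩
    have h5 := h.2.1.isUnit_of_dvd' h4 (Dvd.dvd.trans ⟨2, by decide⟩ h2)
    exact absurd ((Zsqrtd.norm_eq_one_iff' (by norm_num) _).2 h5) (by decide)
  by_contra! hc
  have a := hc _ _ h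
  have a1 := hc _ _ (h.rot τ)
  have a2 := hc _ _ ((h.rot τ).rot τ)
  have a3 := hc _ _ (((h.rot τ).rot τ).rot τ)
  simp only [dvd_iff, Zsqrtd.re_mul, Zsqrtd.im_mul, Zsqrtd.re_sub, Zsqrtd.im_sub, Zsqrtd.re_one,
    Zsqrtd.im_one] at a a1 a2 a3
  omega

end

theorem gs_mul (t : ℝ) (l w : ℂ) : gs t (l * w) = l⁻¹ * gs (t * normSq l) w := by
  rw [gs, gs, normSq_mul, show -t * (normSq l * normSq w) = -(t * normSq l) * normSq w by ring]
  ring

theorem gs_le {t : ℝ} (ht : 0 < t) (w : ℂ) : ‖gs t w‖ ≤ t⁻¹ * ‖w‖⁻¹ ^ 3 := by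
  by_cases hw : w = 0
  · simp [gs, hw]
  have h0 := norm_pos_iff.2 hw
  have h1 : Real.exp (-t * normSq w) ≤ (t * ‖w‖ ^ 2)⁻¹ := by
    rw [neg_mul, Real.exp_neg, normSq_eq_norm_sq]
    exact inv_anti₀ (by positivity) (by linarith [Real.add_one_le_exp (t * ‖w‖ ^ 2)])
  rw [gs, norm_div, norm_real, Real.norm_of_nonneg (Real.exp_pos _).le]
  calc _ ≤ (t * ‖w‖ ^ 2)⁻¹ / ‖w‖ := by gcongr
    _ = _ := by field_simp

theorem summable_gs {t : ℝ} (ht : 0 < t) (z : ℂ) :
    Summable fun β : GaussianInt => gs t (z + β) := by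
  have h := (ZLattice.summable_norm_sub_inv_pow gp.lattice 3 (by simp) (-z)).mul_left t⁻¹
  rw [← (latE one_ne_zero mem_gp).summable_iff] at h
  refine .of_norm_bounded h fun β => (gs_le ht _).trans_eq ?_
  simp [latE, add_comm]

theorem scale_lim {c : ℝ} (hc : 0 < c) : Tendsto (fun t : ℝ => t * c) (𝓝[>] 0) (𝓝[>] 0) :=
  tendsto_nhdsWithin_iff.2 ⟨by
    simpa using (tendsto_id.mul_const c).mono_left (nhdsWithin_le_nhds (a := (0 : ℝ))),
    by filter_upwards [self_mem_nhdsWithin] with x hx using mul_pos hx hc⟩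

open Classical in
/-- the restriction of `χ` to the primary Gaussian integers -/
noncomputable def pr (χ : GaussianInt → ℂ) (α : GaussianInt) : ℂ :=
  if pp ∣ α - 1 then χ α else 0

theorem pr_congr {χ : GaussianInt → ℂ} {α β : GaussianInt} (h : pp ∣ α - 1 ↔ pp ∣ β - 1)
    (e : χ α = χ β) : pr χ α = pr χ β := by
  rw [pr, pr, h, e]

/-- the second difference of the Weierstrass zeta function -/
noncomputable def dd (z : ℂ) : ℂ :=
  ℘'[gp] z / (℘[gp] z - ℘[gp] ((1 : GaussianInt) / pp))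

section
variable {l : GaussianInt} (l0 : l ≠ 0) (hl : pp ∣ 2 + 2 * l)
  {χ : GaussianInt → ℂ} (hper : ∀ α β, χ (α + l * β) = χ α) (h0 : χ 0 = 0)
  (hneg : ∀ α, χ (-α) = χ α)
include l0 hl hper h0 hneg

theorem lim_eq {ι : Type} {R : Finset ι} {r : ι → GaussianInt}
    (hR : Reps (fun _ => True) (pp * l) R r) :
    Tendsto (fun t => ∑' α : GaussianInt, pr χ α * gs t α) (𝓝[>] 0)
      (𝓝 ((-2 * (pp * l : GaussianInt) : ℂ)⁻¹ *
        ∑ c ∈ R, pr χ (r c) * dd (r c / (pp * l : GaussianInt)))) := by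
  have hm := mul_ne_zero p0 l0
  have m0 := coe_ne hm
  have hs : ∀ {t : ℝ}, 0 < t → ∀ s : GaussianInt, ∑' α, pr χ α * gs t (α + s : GaussianInt) =
      ∑ c ∈ R, pr χ (r c) * (((pp * l : GaussianInt) : ℂ)⁻¹ * ∑' β : GaussianInt,
        gs (t * normSq (pp * l : GaussianInt)) (r c / (pp * l : GaussianInt) +
          s / (pp * l : GaussianInt) + β)) := fun {t} ht s =>
    (hR.hasSum hm (fun _ h => (h trivial).elim) fun c _ =>
      ((((summable_gs (mul_pos ht (normSq_pos.2 m0)) _).hasSum.mul_left _).mul_left _).congr_fun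
        fun β => by
      rw [← gs_mul, pr_congr (β := r c) (by
        rw [add_sub_right_comm, mul_assoc]; exact dvd_add_left (dvd_mul_right _ _))
        (by rw [mul_comm pp, mul_assoc, hper])]
      congr 2
      rw [map_add, map_add, map_mul _ (pp * l)]
      field_simp
      ring)).tsum_eq
  have hz : ∀ (t : ℝ) (s : GaussianInt), pp ∣ 2 + 2 * s → l ∣ s →
      ∑' α, pr χ α * gs t (α + s : GaussianInt) = 0 := fun t s h1 ⟨k, h2⟩ => by
    refine CharZero.eq_neg_self_iff.1 ?_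
    rw [← tsum_neg, ← (Equiv.subLeft (-(2 * s))).tsum_eq]
    refine tsum_congr fun α => ?_
    rw [Equiv.subLeft_apply, show -(2 * s) - α + s = -1 * (α + s) by ring, map_mul, gs_mul,
      pr_congr (β := α) (by
        rw [show -(2 * s) - α - 1 = -(α - 1 + (2 + 2 * s)) by ring, dvd_neg]
        exact dvd_add_left h1)
      (by rw [show -(2 * s) - α = -(α + l * (2 * k)) by rw [h2]; ring, hneg, hper])]
    simp
  have u0 : ((1 : GaussianInt) / pp : ℂ) ∉ gp.lattice := mt (div_mem p0).1 (by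
    rw [dvd_iff]; decide)
  have e1 : (l / (pp * l : GaussianInt) : ℂ) = (1 : GaussianInt) / pp := by
    have := coe_ne l0
    simp only [map_mul, map_one]; field_simp
  have h1 : ∀ c ∈ R, Tendsto (fun t => pr χ (r c) * ∑' β : gp.lattice,
      (gs t (r c / (pp * l : GaussianInt) - β + (1 : GaussianInt) / pp) +
        gs t (r c / (pp * l : GaussianInt) - β - (1 : GaussianInt) / pp) -
          2 * gs t (r c / (pp * l : GaussianInt) - β))) (𝓝[>] 0)
      (𝓝 (pr χ (r c) * dd (r c / (pp * l : GaussianInt)))) := fun c _ => by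
    by_cases h : l ∣ r c
    · obtain ⟨k, h⟩ := h
      simp [pr, h, (zero_add (l * k) ▸ hper 0 k).trans h0]
    have a : ∀ {x : GaussianInt}, l ∣ x → ((r c + x : GaussianInt) / (pp * l : GaussianInt) : ℂ) ∉
        gp.lattice := fun hx e => h ((dvd_add_left hx).1 ((dvd_mul_left l pp).trans
      ((div_mem hm).1 e)))
    exact (lim_second u0 (by simpa using a (dvd_zero l))
      (by rw [← e1, ← add_div, ← map_add]; exact a dvd_rfl)
      (by rw [← e1, ← sub_div, ← map_sub, sub_eq_add_neg]; exact a dvd_rfl.neg_right)).const_mul _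
  refine (((tendsto_finsetSum R h1).comp (scale_lim (normSq_pos.2 m0))).const_mul _).congr' ?_
  filter_upwards [self_mem_nhdsWithin] with t ht
  have a := hs ht 0
  have b := hs ht l
  have d := hs ht (-l)
  rw [hz t _ hl dvd_rfl] at b
  rw [hz t _ (by
    rw [show 2 + 2 * -l = 2 + 2 * l - pp * (⟨1, -1⟩ * l) by
      rw [← mul_assoc, show pp * ⟨1, -1⟩ = 4 by decide]; ring]
    exact hl.sub (dvd_mul_right _ _)) dvd_rfl.neg_right] at d
  simp only [add_zero, map_zero, zero_div, map_neg, neg_div, e1] at a b d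
  have s := summable_gs (mul_pos ht (normSq_pos.2 m0))
  have h2 : ∀ z u : ℂ, ∑' β : gp.lattice, (gs (t * normSq (pp * l : GaussianInt)) (z - β + u) +
      gs (t * normSq (pp * l : GaussianInt)) (z - β - u) -
        2 * gs (t * normSq (pp * l : GaussianInt)) (z - β)) =
      ∑' β : GaussianInt, gs (t * normSq (pp * l : GaussianInt)) (z + u + β) +
        ∑' β : GaussianInt, gs (t * normSq (pp * l : GaussianInt)) (z + -u + β) -
          2 * ∑' β : GaussianInt, gs (t * normSq (pp * l : GaussianInt)) (z + β) := fun z u => by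
    rw [← tsum_mul_left, ← (s _).tsum_add (s _), ← ((s _).add (s _)).tsum_sub ((s _).mul_left 2),
      ← (Equiv.neg _).tsum_eq, ← (latE one_ne_zero mem_gp).tsum_eq]
    refine tsum_congr fun β => ?_
    simp [latE, sub_eq_add_neg, add_right_comm]
  simp only [Function.comp_apply, h2, mul_sub, mul_add, Finset.sum_sub_distrib,
    Finset.sum_add_distrib, mul_left_comm _ (2 : ℂ), ← Finset.mul_sum]
  simp only [mul_left_comm _ ((pp * l : GaussianInt) : ℂ)⁻¹, ← Finset.mul_sum] at a b d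
  rw [a, mul_inv]
  linear_combination (1 / 2) * b + (1 / 2) * d

theorem galois (hmul : ∀ α β, χ (α * β) = χ α * χ β) (τ : ℂ →+* ℂ) (hτ : τ I = I)
    (lim : Tendsto (fun t => ∑' α : GaussianInt, pr χ α * gs t α) (𝓝[>] 0) (𝓝 0)) :
    Tendsto (fun t => ∑' α : GaussianInt, pr (τ ∘ χ) α * gs t α) (𝓝[>] 0) (𝓝 0) := by
  have hm := mul_ne_zero p0 l0
  obtain ⟨R, hR⟩ := exists_reps hm
  obtain ⟨c, b, ⟨c0, hb, h⟩, h1⟩ := exists_prim τ hτ hm (dvd_mul_right _ _)
  have hR' : Reps (fun _ => True) (pp * l) R fun r => b * r := ⟨fun α _ => by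
      obtain ⟨u, v, e⟩ := hb
      obtain ⟨r, h2, w, h3⟩ := hR.ex (u * α) trivial
      exact ⟨r, h2, v * α + b * w, by rw [id] at h3; linear_combination -α * e + b * h3⟩,
    fun r h r' h' e => hR.inj r h r' h' (hb.symm.dvd_of_dvd_mul_left (by rwa [id, id, mul_sub]))⟩
  have h2 := tendsto_nhds_unique (lim_eq l0 hl hper h0 hneg hR) lim
  rw [mul_eq_zero, inv_eq_zero] at h2
  have h3 := congrArg τ (h2.resolve_left (mul_ne_zero (by norm_num) (coe_ne hm)))
  simp only [id] at h3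
  have h4 := lim_eq l0 hl (χ := τ ∘ χ) (fun α β => congrArg τ (hper α β)) (by simp [h0])
    (fun α => congrArg τ (hneg α)) hR'
  have e1 : (l / (pp * l : GaussianInt) : ℂ) = (1 : GaussianInt) / pp := by
    have := coe_ne l0
    simp only [map_mul, map_one]; field_simp
  have h5 := (h l fun e => by
    exact absurd (dvd_iff.1 ((mul_dvd_mul_iff_right l0).1 (by rwa [one_mul]) : pp ∣ 1))
      (by decide)).1
  rw [mul_div_assoc, e1, (pP_eq (w := (1 : GaussianInt) / pp) (by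
    rw [← mul_div_assoc, ← map_mul, ← sub_div, ← map_sub, mul_one, div_mem p0]; exact h1)).1] at h5
  rwa [Finset.sum_congr rfl (g := fun r => c * τ (χ b) * τ (pr χ r * dd (r / (pp * l : GaussianInt))))
    fun r _ => ?_, ← Finset.mul_sum, ← map_sum, h3, map_zero, mul_zero, mul_zero] at h4
  by_cases h6 : pp ∣ r - 1
  · have h7 : pp ∣ b * r - 1 := by
      rw [show b * r - 1 = b * (r - 1) + (b - 1) by ring]
      exact (h6.mul_left b).add h1
    obtain ⟨a1, a2⟩ := h r fun e => by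
      have := ((dvd_mul_right pp l).trans e).sub h6
      rw [sub_sub_cancel, dvd_iff] at this
      exact absurd this (by decide)
    simp only [pr, if_pos h6, if_pos h7, dd, map_mul, Function.comp_apply, hmul, map_div₀, map_sub]
    simp only [map_mul] at a1 a2
    rw [a1, a2]
    nth_rw 1 [h5]
    rw [← mul_sub, mul_div_mul_comm, pow_succ', mul_div_cancel_right₀ _ (pow_ne_zero 2 c0)]
    ring
  · have h7 : ¬ pp ∣ b * r - 1 := fun e => h6 (by
      rw [show r - 1 = b * r - 1 - r * (b - 1) by ring]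
      exact e.sub (h1.mul_left r))
    simp [pr, h6, h7]

end

end Pool.Agent.P.MP_e7a540_nt.BC.BW
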