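import Mathlib

/-! The addition theorem for the Weierstrass functions (the part of `MP_8b7eba_nt.R1.Add` and
`CG.LWp` which needs only Mathlib). -/

namespace Pool.Agent.P.MP_e7a540_nt.BC.BW

open Complex Filter Topology Finset

variable (L : PeriodPair)

theorem cnt : (L.lattice : Set ℂ).Countable := countable_of_Lindelof_of_discrete (X := L.lattice)

theorem conn {s : Set ℂ} (hs : s.Countable) : IsPreconnected sᶜ :=
  (hs.isConnected_compl_of_one_lt_rank (by simp)).2

theorem ev_notMem : ∀ᶠ t in 𝓝[≠] (0 : ℂ), t ∉ L.lattice := by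
  filter_upwards [mem_nhdsWithin_of_mem_nhds (L.compl_lattice_sdiff_singleton_mem_nhds 0),
    self_mem_nhdsWithin] with t h h0 hm
  exact h ⟨hm, h0⟩

theorem tend_a : Tendsto (fun t => t ^ 2 * L.weierstrassP t) (𝓝[≠] 0) (𝓝 1) := by
  have h := (L.analyticAt_weierstrassPExcept 0).continuousAt
  have h1 : ContinuousAt (fun t => t ^ 2 * L.weierstrassPExcept 0 t + 1) 0 := by fun_prop
  have h2 := h1.tendsto.mono_left (nhdsWithin_le_nhds (s := {0}ᶜ))
  simp only [ne_eq, OfNat.ofNat_ne_zero, not_false_eq_true, zero_pow, zero_mul, zero_add] at h2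
  refine h2.congr' ?_
  filter_upwards [self_mem_nhdsWithin] with t ht
  have h0 : t ≠ 0 := ht
  rw [← L.weierstrassPExcept_add 0 t]
  simp only [Submodule.coe_zero, sub_zero, ne_eq, OfNat.ofNat_ne_zero, not_false_eq_true, zero_pow,
    div_zero]
  field_simp

theorem tend_b : Tendsto (fun t => t ^ 3 * L.derivWeierstrassP t) (𝓝[≠] 0) (𝓝 (-2)) := by
  have h := (L.analyticAt_derivWeierstrassPExcept 0).continuousAt
  have h1 : ContinuousAt (fun t => t ^ 3 * L.derivWeierstrassPExcept 0 t - 2) 0 := by fun_prop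
  have h2 := h1.tendsto.mono_left (nhdsWithin_le_nhds (s := {0}ᶜ))
  simp only [ne_eq, OfNat.ofNat_ne_zero, not_false_eq_true, zero_pow, zero_mul, zero_sub] at h2
  refine h2.congr' ?_
  filter_upwards [self_mem_nhdsWithin] with t ht
  have h0 : t ≠ 0 := ht
  rw [← L.derivWeierstrassPExcept_sub 0 t]
  simp only [Submodule.coe_zero, sub_zero]
  field_simp

theorem tend_id : Tendsto (fun t : ℂ => t) (𝓝[≠] 0) (𝓝 0) := tendsto_id.mono_left nhdsWithin_le_nhds

theorem ev_ne {h : ℂ → ℂ} (hh : ContinuousAt h 0) :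
    ∀ᶠ t in 𝓝[≠] (0 : ℂ), L.weierstrassP t ≠ h t := by
  have h1 := (tend_a L).sub ((tend_id.pow 2).mul (hh.tendsto.mono_left nhdsWithin_le_nhds))
  filter_upwards [h1.eventually_ne (b₂ := 0) (by simp)] with t ht e
  exact ht (by rw [e, sub_self])

theorem cnt_eq {U : Set ℂ} {h : ℂ → ℂ} (hU : IsPreconnected U) (h0 : ∀ᶠ t in 𝓝[≠] (0 : ℂ), t ∈ U)
    (hL : U ⊆ (L.lattice : Set ℂ)ᶜ) (hh : AnalyticOnNhd ℂ h U) (hc : ContinuousAt h 0) :
    ({t | L.weierstrassP t = h t} ∩ U).Countable := by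
  rcases (L.analyticOnNhd_weierstrassP.mono hL).eqOn_or_eventually_ne_of_preconnected hh hU with
    e | e
  · obtain ⟨t, h1, h2⟩ := (h0.and (ev_ne L hc)).exists
    exact absurd (e h1) h2
  · exact (HereditarilyLindelofSpace.isLindelof _).countable_of_isDiscrete
      (isDiscrete_of_codiscreteWithin e)

theorem cnt_level (v : ℂ) : ({t | L.weierstrassP t = v} ∩ (L.lattice : Set ℂ)ᶜ).Countable :=
  cnt_eq L (conn (cnt L)) (ev_notMem L) le_rfl analyticOnNhd_const continuousAt_const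

variable {L}

theorem dP {z : ℂ} (hz : z ∉ L.lattice) : HasDerivAt L.weierstrassP (L.derivWeierstrassP z) z := by
  rw [← L.deriv_weierstrassP]
  exact (L.analyticOnNhd_weierstrassP z hz).differentiableAt.hasDerivAt

theorem dQ {z : ℂ} (hz : z ∉ L.lattice) :
    HasDerivAt L.derivWeierstrassP (6 * L.weierstrassP z ^ 2 - L.g₂ / 2) z := by
  have hP := L.analyticOnNhd_weierstrassP
  have hQ := L.analyticOnNhd_derivWeierstrassP
  have hg : AnalyticOnNhd ℂ
      (fun w => deriv L.derivWeierstrassP w - (6 * L.weierstrassP w ^ 2 - L.g₂ / 2))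
      (L.lattice : Set ℂ)ᶜ :=
    hQ.deriv.sub ((analyticOnNhd_const.mul (hP.pow 2)).sub analyticOnNhd_const)
  have hfg : ∀ w ∈ (L.lattice : Set ℂ)ᶜ, L.derivWeierstrassP w *
      (deriv L.derivWeierstrassP w - (6 * L.weierstrassP w ^ 2 - L.g₂ / 2)) = 0 := by
    intro w hw
    have h1 := ((hQ w hw).differentiableAt.hasDerivAt).fun_pow 2
    have h2 := ((((dP hw).fun_pow 3).const_mul 4).fun_sub ((dP hw).const_mul L.g₂)).sub_const L.g₃
    have h3 := h1.unique (h2.congr_of_eventuallyEq (by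
      filter_upwards [L.isClosed_lattice.isOpen_compl.mem_nhds hw] with v hv
      exact L.derivWeierstrassP_sq v hv))
    simp only [Nat.cast_ofNat, Nat.add_one_sub_one] at h3
    linear_combination h3 / 2
  rcases hQ.eq_zero_or_eq_zero_of_mul_eq_zero hg hfg (conn (cnt L)) with e | e
  · obtain ⟨t, h1, h2⟩ := ((ev_notMem L).and ((tend_b L).eventually_ne (b₂ := 0) (by simp))).exists
    exact absurd (by rw [e t h1, mul_zero]) h2
  · rw [← sub_eq_zero.1 (e z hz)]
    exact (hQ z hz).differentiableAt.hasDerivAt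

/-- the slope of the chord -/
noncomputable def sl (L : PeriodPair) (a b : ℂ) : ℂ :=
  (L.derivWeierstrassP a - L.derivWeierstrassP b) / (L.weierstrassP a - L.weierstrassP b)

/-- the first coordinate of the sum -/
noncomputable def fX (L : PeriodPair) (a b : ℂ) : ℂ :=
  sl L a b ^ 2 / 4 - L.weierstrassP a - L.weierstrassP b

/-- the second coordinate of the sum -/
noncomputable def fY (L : PeriodPair) (a b : ℂ) : ℂ :=
  -(L.derivWeierstrassP b + sl L a b * (fX L a b - L.weierstrassP b))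

theorem deriv_zero {s t : ℂ} (ht : t ∉ L.lattice) (hs : s - t ∉ L.lattice)
    (hne : L.weierstrassP t ≠ L.weierstrassP (s - t)) :
    HasDerivAt (fun t => fX L t (s - t)) 0 t ∧ HasDerivAt (fun t => fY L t (s - t)) 0 t := by
  have h0 := sub_ne_zero.2 hne
  have e1 := L.derivWeierstrassP_sq t ht
  have e2 := L.derivWeierstrassP_sq (s - t) hs
  have p1 := dP ht
  have q1 := dQ ht
  have p2 := (dP hs).comp_const_sub s t
  have q2 := (dQ hs).comp_const_sub s t
  have hm : HasDerivAt (fun t => sl L t (s - t))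
      (2 * (L.weierstrassP t - L.weierstrassP (s - t))) t := by
    refine ((q1.fun_sub q2).fun_div (p1.fun_sub p2) h0).congr_deriv ?_
    rw [div_eq_iff (pow_ne_zero 2 h0)]
    linear_combination e2 - e1
  have e3 : sl L t (s - t) * (L.weierstrassP t - L.weierstrassP (s - t)) =
      L.derivWeierstrassP t - L.derivWeierstrassP (s - t) := div_mul_cancel₀ _ h0
  have hX : HasDerivAt (fun t => fX L t (s - t)) 0 t := by
    refine ((((hm.fun_pow 2).div_const 4).fun_sub p1).fun_sub p2).congr_deriv ?_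
    simp only [Nat.cast_ofNat, Nat.add_one_sub_one]
    linear_combination e3
  refine ⟨hX, ((q2.fun_add (hm.fun_mul (hX.fun_sub p2))).fun_neg).congr_deriv ?_⟩
  refine mul_left_cancel₀ h0 ?_
  unfold fX
  linear_combination (e2 - e1) / 2 - (sl L t (s - t) *
    (L.weierstrassP t - L.weierstrassP (s - t)) + L.derivWeierstrassP t +
      L.derivWeierstrassP (s - t)) / 2 * e3

/-- the numerator of the expansion at the pole -/
noncomputable def nu (g₂ g₃ t a b x y : ℂ) : ℂ :=
  (12 * x ^ 2 - g₂) * a * t - 2 * b * y + (y ^ 2 - g₃ - 8 * x ^ 3) * t ^ 3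

theorem expand {a b : ℂ} (ha : a ∉ L.lattice) (hne : L.weierstrassP a ≠ L.weierstrassP b) :
    fX L a b = L.weierstrassP b + a * nu L.g₂ L.g₃ a (a ^ 2 * L.weierstrassP a)
      (a ^ 3 * L.derivWeierstrassP a) (L.weierstrassP b) (L.derivWeierstrassP b) /
        (4 * (a ^ 2 * L.weierstrassP a - a ^ 2 * L.weierstrassP b) ^ 2) ∧
    fY L a b = -(L.derivWeierstrassP b +
      (a ^ 3 * L.derivWeierstrassP a - a ^ 3 * L.derivWeierstrassP b) *
        nu L.g₂ L.g₃ a (a ^ 2 * L.weierstrassP a) (a ^ 3 * L.derivWeierstrassP a)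
          (L.weierstrassP b) (L.derivWeierstrassP b) /
        (4 * (a ^ 2 * L.weierstrassP a - a ^ 2 * L.weierstrassP b) ^ 3)) := by
  have h0 := sub_ne_zero.2 hne
  have h1 : a ≠ 0 := fun e => ha (e ▸ L.lattice.zero_mem)
  have e : L.g₃ = 4 * L.weierstrassP a ^ 3 - L.g₂ * L.weierstrassP a -
      L.derivWeierstrassP a ^ 2 := by linear_combination L.derivWeierstrassP_sq a ha
  unfold fY fX sl nu
  rw [e, ← mul_sub (a ^ 2)]
  constructor
  · field_simp
    ring
  · field_simp
    ring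

theorem add_formula {a b : ℂ} (ha : a ∉ L.lattice) (hb : b ∉ L.lattice) (hs : a + b ∉ L.lattice)
    (hne : L.weierstrassP a ≠ L.weierstrassP b) :
    fX L a b = L.weierstrassP (a + b) ∧ fY L a b = L.derivWeierstrassP (a + b) := by
  obtain ⟨s, rfl⟩ : ∃ s, b = s - a := ⟨a + b, by ring⟩
  rw [add_sub_cancel] at hs ⊢
  have ho := L.isClosed_lattice.isOpen_compl
  set U : Set ℂ := ((L.lattice : Set ℂ) ∪ (fun t => s - t) ⁻¹' L.lattice)ᶜ with hU
  have mU : ∀ t, t ∈ U ↔ t ∉ L.lattice ∧ s - t ∉ L.lattice := fun t => by simp [hU]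
  have cU : ((L.lattice : Set ℂ) ∪ (fun t => s - t) ⁻¹' L.lattice).Countable :=
    (cnt L).union ((cnt L).preimage sub_right_injective)
  have oU : IsOpen U :=
    (L.isClosed_lattice.union (L.isClosed_lattice.preimage (by fun_prop))).isOpen_compl
  have hs0 : s - 0 ∉ L.lattice := by rwa [sub_zero]
  have cP : ContinuousAt (fun t => L.weierstrassP (s - t)) 0 :=
    ((dP hs0).comp_const_sub s 0).continuousAt
  have cQ : ContinuousAt (fun t => L.derivWeierstrassP (s - t)) 0 :=
    ((dQ hs0).comp_const_sub s 0).continuousAt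
  have eU : ∀ᶠ t in 𝓝[≠] (0 : ℂ), t ∈ U := by
    have : ∀ᶠ t in 𝓝 (0 : ℂ), s - t ∈ (L.lattice : Set ℂ)ᶜ :=
      (show ContinuousAt (fun t : ℂ => s - t) 0 by fun_prop).eventually (ho.mem_nhds hs0)
    filter_upwards [ev_notMem L, mem_nhdsWithin_of_mem_nhds this] with t h1 h2
    exact (mU t).2 ⟨h1, h2⟩
  have aP : AnalyticOnNhd ℂ (fun t => L.weierstrassP (s - t)) U := fun t ht =>
    (L.analyticOnNhd_weierstrassP _ ((mU t).1 ht).2).comp (f := fun t => s - t) (by fun_prop)
  have cZ := cnt_eq L (conn cU) eU (fun t ht => ((mU t).1 ht).1) aP cP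
  set V : Set ℂ := U ∩ (fun t => L.weierstrassP t - L.weierstrassP (s - t)) ⁻¹' {0}ᶜ with hV
  have mV : ∀ t, t ∈ V ↔ (t ∉ L.lattice ∧ s - t ∉ L.lattice) ∧
      L.weierstrassP t ≠ L.weierstrassP (s - t) := fun t => by simp [hV, mU, sub_eq_zero]
  have oV : IsOpen V :=
    ((L.analyticOnNhd_weierstrassP.mono (fun t ht => ((mU t).1 ht).1)).sub
      aP).continuousOn.isOpen_inter_preimage oU isOpen_compl_singleton
  have pV : IsPreconnected V := by
    have : V = (((L.lattice : Set ℂ) ∪ (fun t => s - t) ⁻¹' L.lattice) ∪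
        ({t | L.weierstrassP t = L.weierstrassP (s - t)} ∩ U))ᶜ := by
      ext t
      simp only [mV, Set.mem_compl_iff, Set.mem_union, Set.mem_inter_iff, mU, SetLike.mem_coe,
        Set.mem_preimage, Set.mem_ofPred_eq]
      tauto
    rw [this]
    exact conn (cU.union cZ)
  have eV : ∀ᶠ t in 𝓝[≠] (0 : ℂ), t ∈ V := by
    filter_upwards [eU, ev_ne L cP] with t h1 h2
    exact (mV t).2 ⟨(mU t).1 h1, h2⟩
  have hd := fun t (ht : t ∈ V) => deriv_zero ((mV t).1 ht).1.1 ((mV t).1 ht).1.2 ((mV t).1 ht).2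
  have key : ∀ (f g : ℂ → ℂ) (c : ℂ), (∀ t ∈ V, HasDerivAt f 0 t) → (∀ t ∈ V, f t = g t) →
      Tendsto g (𝓝[≠] 0) (𝓝 c) → f a = c := by
    intro f g c h1 h2 h3
    refine tendsto_nhds_unique (tendsto_const_nhds.congr' ?_) h3
    filter_upwards [eV] with t ht
    rw [← h2 t ht]
    exact oV.is_const_of_deriv_eq_zero pV
      (fun t ht => (h1 t ht).differentiableAt.differentiableWithinAt) (fun t ht => (h1 t ht).deriv)
      ((mV a).2 ⟨⟨ha, hb⟩, hne⟩) ht
  have tP := cP.tendsto.mono_left (nhdsWithin_le_nhds (s := {0}ᶜ))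
  have tQ := cQ.tendsto.mono_left (nhdsWithin_le_nhds (s := {0}ᶜ))
  rw [sub_zero] at tP tQ
  have tD := (tend_a L).sub ((tend_id.pow 2).mul tP)
  have tN : Tendsto (fun t => nu L.g₂ L.g₃ t (t ^ 2 * L.weierstrassP t)
      (t ^ 3 * L.derivWeierstrassP t) (L.weierstrassP (s - t)) (L.derivWeierstrassP (s - t)))
      (𝓝[≠] 0) (𝓝 (nu L.g₂ L.g₃ 0 1 (-2) (L.weierstrassP s) (L.derivWeierstrassP s))) :=
    ((((((tP.pow 2).const_mul 12).sub_const _).mul (tend_a L)).mul tend_id).sub
      (((tend_b L).const_mul 2).mul tQ)).add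
      ((((tQ.pow 2).sub_const _).sub ((tP.pow 3).const_mul 8)).mul (tend_id.pow 3))
  constructor
  · refine (key _ _ _ (fun t ht => (hd t ht).1)
      (fun t ht => (expand ((mV t).1 ht).1.1 ((mV t).1 ht).2).1)
      (tP.add ((tend_id.mul tN).div ((tD.pow 2).const_mul 4) (by simp)))).trans ?_
    simp
  · refine (key _ _ _ (fun t ht => (hd t ht).2)
      (fun t ht => (expand ((mV t).1 ht).1.1 ((mV t).1 ht).2).2)
      (tQ.add ((((tend_b L).sub ((tend_id.pow 3).mul tQ)).mul tN).div ((tD.pow 3).const_mul 4)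
        (by simp))).neg).trans ?_
    unfold nu
    ring

end Pool.Agent.P.MP_e7a540_nt.BC.BW
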