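import Pool.Agent.P.MP_e7a540_nt.BC.GalAdd

/-! Second differences of Gaussian lattice sums and the Weierstrass functions. -/

namespace Pool.Agent.P.MP_e7a540_nt.BC.BW

open Complex Filter Topology Set

variable {L : PeriodPair}

/-- the Weierstrass zeta function -/
noncomputable def wz (L : PeriodPair) (z : ℂ) : ℂ :=
  ∑' l : L.lattice, (1 / (z - l) + 1 / l + z / l ^ 2)

theorem hasSum_wz (z : ℂ) :
    HasSum (fun l : L.lattice => 1 / (z - l) + 1 / l + z / (l : ℂ) ^ 2) (wz L z) := by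
  refine (Summable.of_norm_bounded_eventually ((ZLattice.summable_norm_pow_inv L.lattice 3
    (by simp)).mul_left (2 * ‖z‖ ^ 2)) ?_).hasSum
  refine (isCompact_iff_finite.mp (isCompact_closedBall (0 : L.lattice) (2 * ‖z‖))).subset ?_
  intro l hl
  rw [mem_closedBall_zero_iff]
  by_contra h
  have h1 : 2 * ‖z‖ < ‖(l : ℂ)‖ := not_le.1 h
  have h0 : 0 < ‖(l : ℂ)‖ := by linarith [norm_nonneg z]
  have h2 : ‖(l : ℂ)‖ / 2 ≤ ‖z - l‖ := by linarith [norm_sub_norm_le (l : ℂ) z, norm_sub_rev z l]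
  have h3 : z - l ≠ 0 := norm_pos_iff.1 (by linarith)
  have h4 := norm_pos_iff.1 h0
  refine hl (mem_ofPred.2 ?_)
  rw [show 1 / (z - l) + 1 / l + z / (l : ℂ) ^ 2 = z ^ 2 / (l ^ 2 * (z - l)) by field_simp; ring,
    norm_div, norm_mul, norm_pow, norm_pow]
  calc _ ≤ ‖z‖ ^ 2 / (‖(l : ℂ)‖ ^ 2 * (‖(l : ℂ)‖ / 2)) := by gcongr
    _ = _ := by
      rw [show ‖l‖ = ‖(l : ℂ)‖ from rfl]
      field_simp

theorem wz_neg (z : ℂ) : wz L (-z) = -wz L z := by
  rw [wz, wz, ← tsum_neg, ← (Equiv.neg L.lattice).tsum_eq]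
  refine tsum_congr fun l => ?_
  simp only [Equiv.neg_apply, Submodule.coe_neg]
  rw [show -z - -(l : ℂ) = -(z - l) by ring, div_neg, div_neg]
  ring

theorem dZ {z : ℂ} (hz : z ∉ L.lattice) : HasDerivAt (wz L) (-L.weierstrassP z) z := by
  have h := hasDerivAt_of_tendstoLocallyUniformlyOn (s := (L.lattice : Set ℂ)ᶜ)
    L.isClosed_lattice.isOpen_compl
    L.hasSumLocallyUniformly_weierstrassP.tendstoLocallyUniformlyOn
    (f := fun (s : Finset L.lattice) z => ∑ l ∈ s, -(1 / (z - l) + 1 / l + z / (l : ℂ) ^ 2)) (g := fun z => -wz L z)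
    (.of_forall fun s x hx => .fun_sum fun l _ => ?_) (fun x _ => (hasSum_wz x).neg) hz
  · simpa using h.fun_neg
  have h0 : x - l ≠ 0 := fun e => hx (sub_eq_zero.1 e ▸ l.2)
  have := (((((hasDerivAt_id x).sub_const (l : ℂ)).fun_inv h0).add_const (1 / (l : ℂ))).add
    ((hasDerivAt_id x).div_const ((l : ℂ) ^ 2))).neg
  refine (this.congr_deriv (by simp only [id]; ring)).congr_of_eventuallyEq
    (.of_forall fun y => by simp)

theorem wz_add {z u : ℂ} (hu : u ∉ L.lattice) (hz : z ∉ L.lattice) (h1 : z + u ∉ L.lattice)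
    (h2 : z - u ∉ L.lattice) (hne : L.weierstrassP z ≠ L.weierstrassP u) :
    wz L (z + u) + wz L (z - u) - 2 * wz L z =
      L.derivWeierstrassP z / (L.weierstrassP z - L.weierstrassP u) := by
  have ho := L.isClosed_lattice
  set V : Set ℂ := {z | z ∉ L.lattice ∧ z + u ∉ L.lattice ∧ z - u ∉ L.lattice ∧
    L.weierstrassP z ≠ L.weierstrassP u} with hV
  have oV : IsOpen V := isOpen_iff_mem_nhds.2 fun x hx => by
    have a : ∀ {f : ℂ → ℂ}, Continuous f → f x ∉ L.lattice → ∀ᶠ y in 𝓝 x, f y ∉ L.lattice :=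
      fun hf h => hf.continuousAt.eventually (ho.isOpen_compl.mem_nhds h)
    exact (a continuous_id hx.1).and ((a (by fun_prop) hx.2.1).and ((a (by fun_prop) hx.2.2.1).and
      ((dP hx.1).continuousAt.eventually_ne hx.2.2.2)))
  have pV : IsPreconnected V := by
    have : V = ((L.lattice : Set ℂ) ∪ ((· + u) ⁻¹' L.lattice ∪ ((· - u) ⁻¹' L.lattice ∪
        {t | L.weierstrassP t = L.weierstrassP u} ∩ (L.lattice : Set ℂ)ᶜ)))ᶜ := by
      ext t
      simp only [hV, mem_compl_iff, mem_union, mem_inter_iff, SetLike.mem_coe, mem_preimage,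
        mem_ofPred_eq]
      tauto
    rw [this]
    exact conn ((cnt L).union (((cnt L).preimage (add_left_injective u)).union
      (((cnt L).preimage sub_left_injective).union (cnt_level L _))))
  have hu' : -u ∉ L.lattice := by rwa [neg_mem_iff]
  have hd : ∀ x ∈ V, HasDerivAt (fun z => wz L (z + u) + wz L (z - u) - 2 * wz L z -
      L.derivWeierstrassP z / (L.weierstrassP z - L.weierstrassP u)) 0 x := fun x hx => by
    have h0 := sub_ne_zero.2 hx.2.2.2
    refine (((((dZ hx.2.1).comp_add_const x u).add ((dZ hx.2.2.1).comp_sub_const x u)).sub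
      ((dZ hx.1).const_mul 2)).sub ((dQ hx.1).div ((dP hx.1).sub_const _) h0)).congr_deriv ?_
    have e1 := (add_formula hx.1 hu hx.2.1 hx.2.2.2).1
    have e2 := (add_formula hx.1 hu' (by rw [← sub_eq_add_neg]; exact hx.2.2.1)
      (by rw [L.weierstrassP_neg]; exact hx.2.2.2)).1
    rw [← e1, sub_eq_add_neg x u, ← e2]
    simp only [fX, sl, L.weierstrassP_neg, L.derivWeierstrassP_neg]
    field_simp
    linear_combination 4 * L.derivWeierstrassP_sq x hx.1 - 4 * L.derivWeierstrassP_sq u hu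
  have h := oV.is_const_of_deriv_eq_zero pV
    (fun t ht => (hd t ht).differentiableAt.differentiableWithinAt) (fun t ht => (hd t ht).deriv)
    (x := z) (y := -z) ⟨hz, h1, h2, hne⟩ ⟨by rwa [neg_mem_iff], by
      rwa [← neg_mem_iff, neg_add, neg_neg, ← sub_eq_add_neg], by
      rwa [← neg_add', neg_mem_iff], by rwa [L.weierstrassP_neg]⟩
  rw [show -z + u = -(z - u) by ring, ← neg_add', wz_neg, wz_neg, wz_neg, L.weierstrassP_neg,
    L.derivWeierstrassP_neg] at h
  linear_combination h / 2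

theorem wp_inj2 {z u : ℂ} (hz : z ∉ L.lattice) (hu : u ∉ L.lattice)
    (h : L.weierstrassP z = L.weierstrassP u)
    (h' : L.derivWeierstrassP z = L.derivWeierstrassP u) : z - u ∈ L.lattice := by
  by_contra hn
  have h0 : 0 - (z - u) ∉ L.lattice := by rwa [zero_sub, neg_mem_iff]
  have h1 := eventually_nhdsWithin_iff.1 (ev_ne L ((dP h0).comp_sub_const 0 (z - u)).continuousAt)
  have hc : ((L.lattice : Set ℂ) ∪ ((· - z) ⁻¹' L.lattice ∪ ((· - (z - u)) ⁻¹' L.lattice ∪
      (· - z) ⁻¹' ({t | L.weierstrassP t = L.weierstrassP z} ∩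
        (L.lattice : Set ℂ)ᶜ)))).Countable :=
    (cnt L).union (((cnt L).preimage sub_left_injective).union (((cnt L).preimage
      sub_left_injective).union ((cnt_level L _).preimage sub_left_injective)))
  obtain ⟨e, h2, h3⟩ := (hc.dense_compl ℝ).inter_nhds_nonempty h1
  simp only [mem_compl_iff, mem_union, mem_preimage, SetLike.mem_coe, mem_inter_iff,
    mem_ofPred_eq, not_or, not_and, not_not] at h2
  obtain ⟨a1, a2, a3, a4⟩ := h2
  have a5 : L.weierstrassP z ≠ L.weierstrassP (e - z) := fun h => a2 (a4 h.symm)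
  have b1 := (add_formula hz a2 (by rwa [add_sub_cancel]) a5).1
  have b2 := (add_formula hu a2 (by rwa [show u + (e - z) = e - (z - u) by ring]) (h ▸ a5)).1
  refine h3 (fun h => a1 (h ▸ L.lattice.zero_mem)) ?_
  rw [add_sub_cancel] at b1
  rw [← b1, show e - (z - u) = u + (e - z) by ring, ← b2, fX, fX, sl, sl, h, h']

theorem wp_inj {z u : ℂ} (hz : z ∉ L.lattice) (hu : u ∉ L.lattice)
    (h : L.weierstrassP z = L.weierstrassP u) : z + u ∈ L.lattice ∨ z - u ∈ L.lattice := by
  rcases sq_eq_sq_iff_eq_or_eq_neg.1 (show L.derivWeierstrassP z ^ 2 = L.derivWeierstrassP u ^ 2 by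
    rw [L.derivWeierstrassP_sq z hz, L.derivWeierstrassP_sq u hu, h]) with h' | h'
  · exact .inr (wp_inj2 hz hu h h')
  · have := wp_inj2 hz (u := -u) (by rwa [neg_mem_iff]) (by rwa [L.weierstrassP_neg])
      (by rwa [L.derivWeierstrassP_neg])
    exact .inl (by rwa [sub_neg_eq_add] at this)

theorem wp_surj (c : ℂ) : ∃ z, z ∉ L.lattice ∧ L.weierstrassP z = c := by
  classical
  by_contra! hc
  let f : ℂ → ℂ := fun z => if z ∈ L.lattice then 0 else (L.weierstrassP z - c)⁻¹
  have per : ∀ z w, w ∈ L.lattice → f (z + w) = f z := fun z w hw => by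
    simp only [f, L.lattice.add_mem_iff_left hw, L.weierstrassP_add_coe z ⟨w, hw⟩]
  have d0 : DifferentiableAt ℂ f 0 := by
    have h1 := (L.analyticAt_weierstrassPExcept 0).differentiableAt
    have h2 : DifferentiableAt ℂ
        (fun z => z ^ 2 / (1 + z ^ 2 * (L.weierstrassPExcept 0 z - c))) 0 :=
      DifferentiableAt.fun_div (by fun_prop) (by fun_prop) (by simp)
    refine h2.congr_of_eventuallyEq ?_
    filter_upwards [L.compl_lattice_sdiff_singleton_mem_nhds 0] with z hz
    by_cases h0 : z = 0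
    · simp [f, h0]
    have h3 : z ∉ L.lattice := fun e => hz ⟨e, h0⟩
    have h4 : L.weierstrassP z = L.weierstrassPExcept 0 z + 1 / z ^ 2 := by
      simpa using (L.weierstrassPExcept_add 0 z).symm
    simp only [f, if_neg h3]
    rw [show 1 + z ^ 2 * (L.weierstrassPExcept 0 z - c) = z ^ 2 * (L.weierstrassP z - c) by
      rw [h4]; field_simp; ring, div_mul_cancel_left₀ (pow_ne_zero 2 h0)]
  have df : Differentiable ℂ f := fun z => by
    by_cases hz : z ∈ L.lattice
    · have h1 : f = fun w => f (w - z) := funext fun w => by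
        rw [← per (w - z) z hz, sub_add_cancel]
      rw [h1]
      exact DifferentiableAt.comp z (g := f) (by rwa [sub_self]) (by fun_prop)
    · refine (((dP hz).differentiableAt.sub_const c).fun_inv
        (sub_ne_zero.2 (hc z hz))).congr_of_eventuallyEq ?_
      filter_upwards [L.isClosed_lattice.isOpen_compl.mem_nhds hz] with w hw
      exact if_neg hw
  have h1 := df.apply_eq_apply_of_bounded
    (IsZLattice.isCompact_range_of_periodic L.lattice f df.continuous per).isBounded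
    (L.ω₁ / 2) 0
  simp only [f, if_neg L.ω₁_div_two_notMem_lattice, if_pos L.lattice.zero_mem] at h1
  exact sub_ne_zero.2 (hc _ L.ω₁_div_two_notMem_lattice) (inv_eq_zero.1 h1)

theorem wp_surj2 {x y : ℂ} (h : y ^ 2 = 4 * x ^ 3 - L.g₂ * x - L.g₃) :
    ∃ z, z ∉ L.lattice ∧ L.weierstrassP z = x ∧ L.derivWeierstrassP z = y := by
  obtain ⟨z, hz, rfl⟩ := wp_surj (L := L) x
  rcases sq_eq_sq_iff_eq_or_eq_neg.1 (h.trans (L.derivWeierstrassP_sq z hz).symm) with rfl | rfl
  · exact ⟨z, hz, rfl, rfl⟩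
  · exact ⟨-z, by rwa [neg_mem_iff], L.weierstrassP_neg z, L.derivWeierstrassP_neg z⟩

theorem exp_sub_le (x : ℝ) : |Real.exp x - Real.exp (-x)| ≤ 2 * |x| * Real.exp |x| := by
  wlog h : 0 ≤ x
  · have := this (-x) (by linarith)
    rwa [neg_neg, abs_neg, abs_sub_comm] at this
  have h1 := Real.add_one_le_exp (-(2 * x))
  have h2 : Real.exp (-x) = Real.exp x * Real.exp (-(2 * x)) := by rw [← Real.exp_add]; ring_nf
  rw [abs_of_nonneg h, abs_of_nonneg (sub_nonneg.2 (Real.exp_le_exp.2 (by linarith))), h2]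
  nlinarith [Real.exp_pos x]

theorem gauss_bd {a s r : ℝ} (ha : 0 ≤ a) (hs : 0 ≤ s) (h : r ^ 2 ≤ 4 * a * s) :
    a * (Real.exp (-a - s + r) - Real.exp (-a - s - r)) ^ 2 ≤ 32 * s * Real.exp (2 * s) ∧
    a * |Real.exp (-a - s + r) + Real.exp (-a - s - r) - 2 * Real.exp (-a)| ≤
      34 * s * Real.exp s := by
  have h1 : |r| ≤ a / 2 + 2 * s := abs_le_of_sq_le_sq (by nlinarith [sq_nonneg (a / 2 - 2 * s)])
    (by positivity)
  have h2 : Real.exp (-a - s) * Real.exp |r| ≤ Real.exp s * Real.exp (-(a / 2)) := by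
    rw [← Real.exp_add, ← Real.exp_add]; exact Real.exp_le_exp.2 (by linarith)
  have h3 : ∀ x : ℝ, 0 ≤ x → x ^ 2 * Real.exp (-x) ≤ 2 := fun x hx => by
    have := Real.quadratic_le_exp_of_nonneg hx
    rw [Real.exp_neg, ← div_eq_mul_inv, div_le_iff₀ (Real.exp_pos x)]
    linarith
  constructor
  · have h4 : |Real.exp (-a - s + r) - Real.exp (-a - s - r)| ≤
        2 * |r| * (Real.exp s * Real.exp (-(a / 2))) := by
      rw [Real.exp_add, sub_eq_add_neg _ r, Real.exp_add _ (-r), ← mul_sub, abs_mul,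
        abs_of_pos (Real.exp_pos _)]
      calc _ ≤ Real.exp (-a - s) * (2 * |r| * Real.exp |r|) := by gcongr; exact exp_sub_le r
        _ = 2 * |r| * (Real.exp (-a - s) * Real.exp |r|) := by ring
        _ ≤ _ := by gcongr
    calc _ ≤ a * (2 * |r| * (Real.exp s * Real.exp (-(a / 2)))) ^ 2 := by
          rw [← sq_abs]; gcongr
      _ = 4 * a * r ^ 2 * (Real.exp (2 * s) * Real.exp (-a)) := by
          rw [mul_pow, mul_pow, mul_pow, sq_abs, ← Real.exp_nat_mul, ← Real.exp_nat_mul]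
          ring_nf
      _ ≤ 4 * a * (4 * a * s) * (Real.exp (2 * s) * Real.exp (-a)) := by gcongr
      _ = 16 * s * Real.exp (2 * s) * (a ^ 2 * Real.exp (-a)) := by ring
      _ ≤ 16 * s * Real.exp (2 * s) * 2 := by gcongr; exact h3 a ha
      _ = _ := by ring
  · have h4 : (Real.exp (r / 2) - Real.exp (-(r / 2))) ^ 2 ≤ 4 * a * s * Real.exp |r| := by
      calc _ ≤ (2 * |r / 2| * Real.exp |r / 2|) ^ 2 := by
            rw [← sq_abs]; gcongr; exact exp_sub_le _
        _ = r ^ 2 * Real.exp |r| := by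
            rw [mul_pow, mul_pow, sq_abs, ← Real.exp_nat_mul, abs_div, abs_two]; ring_nf
        _ ≤ _ := by gcongr
    have h5 : Real.exp (-a - s + r) + Real.exp (-a - s - r) - 2 * Real.exp (-a) =
        Real.exp (-a - s) * (Real.exp (r / 2) - Real.exp (-(r / 2))) ^ 2 -
          2 * Real.exp (-a) * (1 - Real.exp (-s)) := by
      simp only [sub_sq, mul_sub, mul_add, mul_assoc, ← Real.exp_nat_mul, ← Real.exp_add,
        mul_left_comm _ (2 : ℝ)]
      ring_nf
    have h6 := Real.add_one_le_exp (-s)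
    have h7 : Real.exp (-s) ≤ 1 := Real.exp_le_one_iff.2 (by linarith)
    have h8 : a * Real.exp (-a) ≤ 1 := by
      rw [Real.exp_neg, ← div_eq_mul_inv, div_le_one (Real.exp_pos a)]
      linarith [Real.add_one_le_exp a]
    have h9 := h3 (a / 2) (by linarith)
    have h10 := Real.one_le_exp hs
    rw [h5]
    calc _ ≤ a * (Real.exp (-a - s) * (4 * a * s * Real.exp |r|) + 2 * Real.exp (-a) * s) := by
          gcongr
          refine (abs_sub _ _).trans ?_
          rw [abs_of_nonneg (by positivity), abs_of_nonneg (mul_nonneg (by positivity) (by linarith))]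
          gcongr
          linarith
      _ = 4 * a ^ 2 * s * (Real.exp (-a - s) * Real.exp |r|) + 2 * s * (a * Real.exp (-a)) := by ring
      _ ≤ 4 * a ^ 2 * s * (Real.exp s * Real.exp (-(a / 2))) + 2 * s * 1 := by gcongr
      _ = 16 * s * Real.exp s * ((a / 2) ^ 2 * Real.exp (-(a / 2))) + 2 * s * 1 := by ring
      _ ≤ 16 * s * Real.exp s * 2 + 2 * s * Real.exp s := by gcongr
      _ = _ := by ring

/-- the smoothed reciprocal -/
noncomputable def gs (t : ℝ) (w : ℂ) : ℂ := Real.exp (-t * normSq w) / w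

theorem gs_bd {t : ℝ} {w u : ℂ} (ht : 0 < t) (h1 : t ≤ 1) (hw : w ≠ 0) (ha : w + u ≠ 0)
    (hb : w - u ≠ 0) : ‖gs t (w + u) + gs t (w - u) - 2 * gs t w‖ ≤
      21 * Real.exp (normSq u) * ‖1 / (w + u) + 1 / (w - u) - 2 * (1 / w)‖ := by
  have hA := normSq_nonneg w
  have hB := normSq_nonneg u
  obtain ⟨b1, b2⟩ := gauss_bd (a := t * normSq w) (s := t * normSq u)
    (r := 2 * t * (w * (starRingEnd ℂ) u).re) (by positivity) (by positivity) (by
      have := re_sq_le_normSq (w * (starRingEnd ℂ) u)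
      rw [normSq_mul, normSq_conj] at this
      nlinarith [sq_nonneg t])
  simp only [gs]
  rw [show -t * normSq (w + u) = -(t * normSq w) - t * normSq u -
    2 * t * (w * (starRingEnd ℂ) u).re by rw [normSq_add]; ring, show -t * normSq (w - u) =
    -(t * normSq w) - t * normSq u + 2 * t * (w * (starRingEnd ℂ) u).re by rw [normSq_sub]; ring,
    neg_mul]
  have h0 : Real.exp (-(t * normSq w)) ≤ 1 := Real.exp_le_one_iff.2 (neg_nonpos.2 (by positivity))
  have h0' := Real.exp_pos (-(t * normSq w))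
  have h2 : Real.exp (t * normSq u) ≤ Real.exp (normSq u) := Real.exp_le_exp.2 (by nlinarith)
  have h3 := Real.one_le_exp hB
  rw [two_mul (t * normSq u), Real.exp_add (t * normSq u)] at b1
  have h4 := Real.exp_pos (t * normSq u)
  generalize Real.exp (t * normSq u) = e at *
  generalize Real.exp (normSq u) = E at *
  generalize Real.exp (-(t * normSq w)) = x at *
  generalize Real.exp (-(t * normSq w) - t * normSq u - _) = y at *
  generalize Real.exp (-(t * normSq w) - t * normSq u + _) = z at *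
  rw [show (y : ℂ) / (w + u) + z / (w - u) - 2 * (x / w) = (w ^ 2 * (z + y - 2 * x : ℝ) +
      u * (w * (z - y : ℝ)) + 2 * u ^ 2 * x) / (w * (w + u) * (w - u)) by
    push_cast; field_simp; ring, show 1 / (w + u) + 1 / (w - u) - 2 * (1 / w) =
      2 * u ^ 2 / (w * (w + u) * (w - u)) by field_simp; ring, norm_div, norm_div, ← mul_div_assoc]
  gcongr
  rw [normSq_eq_norm_sq] at b1 b2
  rw [normSq_eq_norm_sq] at b1 b2
  have c1 : ‖w‖ * |z - y| ≤ 6 * ‖u‖ * e := abs_le_of_sq_le_sq' (by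
    rw [mul_pow, sq_abs]
    refine le_of_mul_le_mul_left ?_ ht
    nlinarith [mul_nonneg ht.le (mul_nonneg (sq_nonneg ‖u‖) (sq_nonneg e))]) (by positivity) |>.2
  have c2 : ‖w‖ ^ 2 * |z + y - 2 * x| ≤ 34 * ‖u‖ ^ 2 * e :=
    le_of_mul_le_mul_left (by linarith) ht
  refine norm_add₃_le.trans ?_
  simp only [norm_mul, norm_pow, norm_real, Real.norm_eq_abs, abs_of_pos h0', norm_ofNat]
  have hu := norm_nonneg u
  nlinarith [mul_le_mul_of_nonneg_left c1 hu, mul_le_mul_of_nonneg_left h2 (sq_nonneg ‖u‖),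
    mul_le_mul_of_nonneg_left h3 (sq_nonneg ‖u‖), mul_le_mul_of_nonneg_left h0 (sq_nonneg ‖u‖)]

theorem lim_second {z u : ℂ} (hu : u ∉ L.lattice) (hz : z ∉ L.lattice) (h1 : z + u ∉ L.lattice)
    (h2 : z - u ∉ L.lattice) :
    Tendsto (fun t => ∑' l : L.lattice, (gs t (z - l + u) + gs t (z - l - u) - 2 * gs t (z - l)))
      (𝓝[>] 0) (𝓝 (L.derivWeierstrassP z / (L.weierstrassP z - L.weierstrassP u))) := by
  have hs : HasSum (fun l : L.lattice => 1 / (z - l + u) + 1 / (z - l - u) - 2 * (1 / (z - l))) _ :=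
    (((hasSum_wz (z + u)).add (hasSum_wz (z - u))).sub ((hasSum_wz z).mul_left 2)).congr_fun
      fun l => by rw [sub_add_eq_add_sub, sub_right_comm]; ring
  rw [← wz_add hu hz h1 h2 fun h => (wp_inj hz hu h).elim h1 h2, ← hs.tsum_eq]
  have hc : ∀ w, Tendsto (fun t => gs t w) (𝓝[>] 0) (𝓝 (1 / w)) := fun w => by
    have : Continuous fun t => gs t w := by unfold gs; fun_prop
    simpa [gs] using (this.tendsto 0).mono_left nhdsWithin_le_nhds
  refine tendsto_tsum_of_dominated_convergence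
    (hs.summable.norm.mul_left (21 * Real.exp (normSq u)))
    (fun l => ((hc _).add (hc _)).sub ((hc _).const_mul 2)) ?_
  filter_upwards [Ioc_mem_nhdsGT one_pos] with t ht l
  have k : ∀ {x : ℂ}, x ∉ L.lattice → x - l ≠ 0 := fun hx e => hx (sub_eq_zero.1 e ▸ l.2)
  exact gs_bd ht.1 ht.2 (k hz) (by rw [sub_add_eq_add_sub]; exact k h1)
    (by rw [sub_right_comm]; exact k h2)

end Pool.Agent.P.MP_e7a540_nt.BC.BW
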