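import Pool.Agent.P.MP_e7a540_nt.BC.Defs

/-! The statements of the project BC. -/

namespace Pool.Agent.P.MP_e7a540_nt.BC

open Complex Filter Topology CongruenceSubgroup
open UpperHalfPlane hiding I
open scoped Real ComplexConjugate MatrixGroups

/-- values of the characters -/
-- deps:
def S_EV : Prop :=
  ∀ l : ℕ, l.Prime → l ≠ 2 → ∀ χ ∈ XX l, (∀ a b, ev χ (a * b) = ev χ a * ev χ b) ∧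
    (∀ a b, ev χ (a + l * b) = ev χ a) ∧ (∀ a, ¬ IsCoprime a (l : ZI) → ev χ a = 0) ∧
    (∀ a, IsCoprime a (l : ZI) → ‖ev χ a‖ = 1) ∧ (∀ a, ‖ev χ a‖ ≤ 1) ∧
    (∀ a, ev χ (star a) = conj (ev χ a)) ∧
    (∀ a, IsCoprime a (l : ZI) → (l : ℤ) ∣ a.im → ev χ a = 1) ∧
    (∀ k, χ ^ k ∈ XX l) ∧ (∀ k a, k ≠ 0 → ev (χ ^ k) a = ev χ a ^ k) ∧
    (WW χ = 1 ∨ WW χ = -1) ∧ ∀ k, k % 4 = 1 → WW (χ ^ k) = WW χ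

/-- few classes have small order -/
-- deps:
def S_CLS : Prop :=
  ∀ l n : ℕ, l.Prime → l ≠ 2 → 0 < n → ∀ A : Finset ZI,
    (∀ a ∈ A, IsCoprime a (l : ZI) ∧ (l : ℤ) ∣ (a ^ n).im) →
    (∀ a ∈ A, ∀ b ∈ A, (l : ℤ) ∣ (a * star b).im → a = b) → A.card ≤ n

/-- the group of characters -/
-- deps: EV CLS
def S_GRP : Prop :=
  ∀ l : ℕ, l.Prime → l ≠ 2 → (XX l).Finite ∧ gg l ≤ l + 1 ∧ l ≤ gg l + 2 ∧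
    (∀ χ ∈ XX l, χ ^ gg l = 1) ∧ gg l ≤ 4 * ((XP l).ncard + 1) ∧
    ∀ a, IsCoprime a (l : ZI) → 0 < od l a ∧ od l a ∣ gg l ∧
      (∀ n, (l : ℤ) ∣ (a ^ n).im ↔ od l a ∣ n) ∧
      ∀ m, {χ ∈ XX l | ev χ a ^ m = 1}.ncard * od l a = gg l * m.gcd (od l a)

/-- primitive elements -/
-- deps:
def S_PRIM : Prop :=
  (∀ a b, PQ a → PQ b → (a * star b).im = 0 → a = b) ∧
  (∀ a n, PQ a → 0 < n → (a ^ n).im = 0 → a = 1) ∧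
  ∀ b, Pr b → ∃! p : ℕ × ZI, p.1 % 2 = 1 ∧ PQ p.2 ∧ b = (-1) ^ (p.1 / 2) * p.1 * p.2

/-- short elements -/
-- deps: CLS PRIM
def S_SH : Prop :=
  (∀ (l n : ℕ) (a : ZI), PQ a → a ≠ 1 → 0 < n → (l : ℤ) ∣ (a ^ n).im → (l : ℤ) ^ 2 ≤ a.norm ^ n) ∧
  ∀ l n : ℕ, l.Prime → l ≠ 2 → 0 < n → ∀ A : Finset ZI,
    (∀ a ∈ A, PQ a ∧ IsCoprime a (l : ZI) ∧ (l : ℤ) ∣ (a ^ n).im ∧ a.norm < l) → A.card ≤ n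

/-- the Poisson formula -/
-- deps:
def S_POI : Prop :=
  (∀ (z : ℂ) (y : ℝ), 0 < y → Summable fun b : ZI => ‖z + b‖ * rexp (-y * normSq (z + b))) ∧
  (∃ C : ℝ, ∀ y : ℝ, 0 < y → ∑' b : ZI, ‖(b : ℂ)‖ * rexp (-y * normSq b) ≤ C * y ^ (-(3 / 2 : ℝ))) ∧
  ∀ z τ : ℂ, 0 < τ.im → ∑' b : ZI, (z + b) * cexp (π * I * τ * normSq (z + b)) =
    I / τ ^ 2 * ∑' w : ZI, w * cexp (-(π * I * normSq w / τ)) * cexp (2 * π * I * (z * conj (w : ℂ)).re)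

/-- the Poisson formula on cosets -/
-- deps: POI
def S_PCO : Prop :=
  (∀ (l : ℕ) (χ : CH l) (τ : ℂ), th χ τ = TH (ph χ) τ) ∧
  (∀ (φ : ZI → ℂ) (C : ℝ), (∀ a, ‖φ a‖ ≤ C) → ∀ τ : ℂ, 0 < τ.im →
    Summable fun a : ZI => ‖φ a * a * cexp (2 * π * I * (a.norm : ℤ) * τ)‖) ∧
  (∀ m : ZI, m ≠ 0 → Finite (ZI ⧸ Ideal.span {m})) ∧
  ∀ (m : ZI) (φ : ZI → ℂ), m ≠ 0 → (∀ a b, φ (a + m * b) = φ a) → ∀ τ : ℂ, 0 < τ.im →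
    TH φ τ = m * I / (2 * (m.norm : ℤ) * τ) ^ 2 * TH (FT m φ) (-1 / (4 * (m.norm : ℤ) * τ))

/-- the Fricke involution -/
-- deps: EV PCO
def S_FRK : Prop :=
  ∀ l : ℕ, l.Prime → l ≠ 2 → ∀ χ ∈ XX l, χ ≠ 1 → ∀ τ : ℂ, 0 < τ.im →
    th χ (-1 / (32 * l ^ 2 * τ)) = -WW χ * (32 * l ^ 2) * τ ^ 2 * th χ τ

/-- the transformation law -/
-- deps: EV PCO
def S_SLA : Prop :=
  ∀ l : ℕ, l.Prime → l ≠ 2 → ∀ χ ∈ XX l, ∀ a b c d : ℤ, a * d - b * c = 1 →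
    (32 * l ^ 2 : ℤ) ∣ c → ∀ τ : ℂ, 0 < τ.im →
      th χ ((a * τ + b) / (c * τ + d)) = (c * τ + d) ^ 2 * th χ τ

/-- modularity -/
-- deps: EV POI PCO SLA
def S_MOD : Prop :=
  ∀ l : ℕ, l.Prime → l ≠ 2 → ∀ χ ∈ XX l, ∃ f : CuspForm (Gamma0 (32 * l ^ 2)) 2,
    ∀ τ : ℍ, HasSum (tm χ τ) (f τ)

/-- the L-function -/
-- deps: EV POI PCO FRK
def S_LV : Prop :=
  ∀ (l : ℕ) [Fact l.Prime], l ≠ 2 → ∀ χ ∈ XX l, χ ≠ 1 →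
    ∀ f : CuspForm (Gamma0 (32 * l ^ 2)) 2, (∀ τ : ℍ, HasSum (tm χ τ) (f τ)) →
      ModularForm.L two_pos f 1 = (1 + WW χ) * sm χ (2 * π / √(32 * l ^ 2)) ∧
      (ModularForm.L two_pos f 1 = 0 ↔ Van χ) ∧
      ((∀ s : ℂ, (32 * l ^ 2 : ℂ) ^ (s / 2) * ModularForm.Λ two_pos f s =
        (32 * l ^ 2 : ℂ) ^ ((2 - s) / 2) * ModularForm.Λ two_pos f (2 - s)) ↔ WW χ = 1)

/-- different characters have different theta series -/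
-- deps: EV PRIM PCO
def S_INJ : Prop :=
  ∀ l : ℕ, l.Prime → l ≠ 2 → ∀ χ ∈ XX l, ∀ χ' ∈ XX l,
    (∀ τ : ℂ, 0 < τ.im → th χ τ = th χ' τ) → χ = χ'

/-- vanishing is invariant under Galois conjugation -/
-- deps: EV GRP
def S_GAL : Prop :=
  ∀ l : ℕ, l.Prime → l ≠ 2 → ∀ χ ∈ XX l, ∀ k, k % 4 = 1 → k.Coprime (gg l) → Van χ → Van (χ ^ k)

/-- reduction to primitive elements -/
-- deps: EV PRIM POI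
def S_DEC : Prop :=
  ∀ l : ℕ, l.Prime → 100 ≤ l → ∃ (c₁ : ℂ) (c : ZI → ℂ), 1 / 3 ≤ ‖c₁‖ ∧
    (∀ a ∈ PP l, ‖c a‖ ≤ 2 * (rexp (-(a.norm : ℝ) / l) / √(a.norm : ℝ))) ∧
    (Summable fun a : PP l => rexp (-((a : ZI).norm : ℝ) / l) / √((a : ZI).norm : ℝ)) ∧
    ∀ χ ∈ XX l, HasSum (fun a : PP l => ev χ a * c a) (sm χ (2 * π / √(32 * l ^ 2)) - c₁)

/-- the average over the Galois orbits -/
-- deps: EV GRP MOD LV GAL DEC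
def S_AVG : Prop :=
  ∀ l : ℕ, l.Prime → 100 ≤ l → ({χ ∈ XP l | Van χ}.ncard : ℝ) ≤
    24 * gg l * (gg l / (gg l).totient) * DD (gg l) 1 * TT l

/-- sums over divisors -/
-- deps:
def S_ARI : Prop :=
  (∀ ε : ℝ, 0 < ε → ∃ C : ℝ, ∀ n : ℕ, (n.divisors.card : ℝ) ≤ C * n ^ ε) ∧
  ∃ C : ℝ, ∀ᶠ l : ℕ in atTop, ∀ g, 0 < g → g ≤ l + 1 →
    (g / g.totient : ℝ) ≤ Real.log (Real.log l) ^ C ∧
    DD g (1 - 18 / Real.log (Real.log l)) ≤ Real.log (Real.log l) ^ C ∧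
    DD g (13 / 20) ≤ rexp (C * Real.log l ^ (7 / 20 : ℝ)) ∧ DD g 0 ≤ (l : ℝ) ^ (1 / 10 : ℝ)

/-- trivial bounds -/
-- deps:
def S_CRU : Prop :=
  (∀ (A : Finset ZI) (Z : ℝ), 0 ≤ Z → (∀ a ∈ A, (a.norm : ℝ) ≤ Z ^ 2) →
    ∑ a ∈ A, 1 / √(a.norm : ℝ) ≤ 8 * Z) ∧
  ∀ A : Finset ZI, ∑ a ∈ A, 1 / √(a.norm : ℝ) ≤ 9 * √(A.card : ℝ)

/-- the long vectors -/
-- deps: CLS GRP PRIM
def S_LONG : Prop :=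
  ∃ C : ℝ, ∀ l : ℕ, l.Prime → l ≠ 2 → ∀ A : Finset ZI, (∀ a ∈ A, a ∈ PP l ∧ (l : ℤ) ≤ a.norm) →
    ∑ a ∈ A, wt l a ≤ C * DD (gg l) 0 / √l

/-- the rank bound -/
-- deps: CLS PRIM
def S_RK : Prop :=
  ∀ᶠ l : ℕ in atTop, l.Prime → ∀ n : ℕ, 0 < n → Real.log n ≤ Real.log l ^ (2 / 5 : ℝ) →
    ∀ A : Finset ZI, (∀ a ∈ A, a ∈ PP l ∧ (l : ℤ) ∣ (a ^ n).im ∧ a.norm ≤ (n : ℤ) ^ 4) →
      ∑ a ∈ A, (a.norm : ℝ) ^ (-(1 / 4 : ℝ)) ≤ (n : ℝ) ^ (18 / Real.log (Real.log l))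

/-- the energy bound -/
-- deps: PRIM SH ARI CRU
def S_EN : Prop :=
  ∃ C : ℝ, ∀ l n : ℕ, l.Prime → l ≠ 2 → 0 < n → n ^ 3 < l →
    ∀ A : Finset ZI, (∀ a ∈ A, a ∈ PP l ∧ (l : ℤ) ∣ (a ^ n).im ∧ a.norm ^ 2 ≤ (n : ℤ) ^ 3) →
      ∑ a ∈ A, 1 / √(a.norm : ℝ) ≤ C * (n : ℝ) ^ (27 / 100 : ℝ)

/-- the sum of the weights is small -/
-- deps: GRP SH ARI CRU LONG RK EN
def S_TT : Prop := ∀ᶠ l : ℕ in atTop, l.Prime → TT l ≤ Real.log l ^ (-(1 / 16 : ℝ))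

end Pool.Agent.P.MP_e7a540_nt.BC
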