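import Pool.Agent.P.MP_e7a540_nt.BC.If
import Pool.Agent.P.MP_74dd9d_nt.Mertens

/-! Proof of ARI. -/

namespace Pool.Agent.P.MP_e7a540_nt.BC

open Filter Topology Finset
open scoped Real

theorem ari_tau (ε : ℝ) (hε : 0 < ε) : ∃ C : ℝ, ∀ n : ℕ, (n.divisors.card : ℝ) ≤ C * n ^ ε := by
  have l2 : 0 < Real.log 2 := Real.log_pos (by norm_num)
  set K : ℝ := 1 + 1 / (ε * Real.log 2) with hK
  have hK0 : 0 < 1 / (ε * Real.log 2) := by positivity
  have hK1 : 1 ≤ K := by linarith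
  set N : ℕ := ⌈(2 : ℝ) ^ (1 / ε)⌉₊ with hN
  refine ⟨K ^ N, fun n => ?_⟩
  rcases Nat.eq_zero_or_pos n with rfl | hn
  · simp only [Nat.divisors_zero, card_empty, Nat.cast_zero]
    positivity
  have h1 : ∀ p ∈ n.primeFactors, ((n.factorization p + 1 : ℕ) : ℝ) ≤
      (if p < N then K else 1) * ((p : ℝ) ^ n.factorization p) ^ ε := by
    intro p hp
    have hp2 : (2 : ℝ) ≤ p := by exact_mod_cast (Nat.prime_of_mem_primeFactors hp).two_le
    set a := n.factorization p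
    split_ifs with h
    · have e1 : ((2 : ℝ) ^ a) ^ ε ≤ ((p : ℝ) ^ a) ^ ε :=
        Real.rpow_le_rpow (by positivity) (pow_le_pow_left₀ (by norm_num) hp2 a) hε.le
      have e2 : ((2 : ℝ) ^ a) ^ ε = Real.exp (a * (ε * Real.log 2)) := by
        rw [Real.rpow_def_of_pos (by positivity), Real.log_pow]
        ring_nf
      have e3 := Real.add_one_le_exp (a * (ε * Real.log 2))
      have e4 : (a : ℝ) + 1 ≤ K * (a * (ε * Real.log 2) + 1) := by
        have : K * (ε * Real.log 2) = ε * Real.log 2 + 1 := by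
          rw [hK]; field_simp
        have h0 : (0 : ℝ) ≤ a * (ε * Real.log 2) := by positivity
        nlinarith
      push_cast
      exact e4.trans (mul_le_mul_of_nonneg_left (by linarith) (by linarith))
    · have e0 : (2 : ℝ) ^ (1 / ε) ≤ p :=
        (Nat.le_ceil _).trans (by exact_mod_cast not_lt.1 h)
      have e1 : (2 : ℝ) ≤ (p : ℝ) ^ ε := by
        have := Real.rpow_le_rpow (by positivity) e0 hε.le
        rwa [← Real.rpow_mul (by norm_num), one_div_mul_cancel hε.ne', Real.rpow_one] at this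
      have e2 : ((p : ℝ) ^ a) ^ ε = ((p : ℝ) ^ ε) ^ a := by
        rw [← Real.rpow_natCast, ← Real.rpow_mul (by positivity), mul_comm,
          Real.rpow_mul (by positivity), Real.rpow_natCast]
      have e3 : ((a + 1 : ℕ) : ℝ) ≤ 2 ^ a := by exact_mod_cast Nat.lt_two_pow_self
      rw [one_mul, e2]
      exact e3.trans (pow_le_pow_left₀ (by norm_num) e1 a)
  rw [Nat.card_divisors hn.ne', Nat.cast_prod]
  refine (prod_le_prod (fun p _ => by positivity) h1).trans ?_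
  rw [prod_mul_distrib, Real.finsetProd_rpow _ _ (fun p _ => by positivity)]
  have h2 : ∏ p ∈ n.primeFactors, (p : ℝ) ^ n.factorization p = n := by
    have := Nat.prod_factorization_pow_eq_self hn.ne'
    rw [Finsupp.prod, Nat.support_factorization] at this
    exact_mod_cast this
  rw [h2]
  refine mul_le_mul_of_nonneg_right ?_ (by positivity)
  rw [prod_ite, prod_const_one, mul_one, prod_const]
  refine pow_le_pow_right₀ hK1 ?_
  calc _ ≤ (range N).card := card_le_card fun p hp => mem_range.2 (mem_filter.1 hp).2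
    _ = N := card_range N

theorem ari_exp {x : ℝ} (h0 : 0 ≤ x) (h1 : x ≤ 3 / 4) : 1 ≤ rexp (4 * x) * (1 - x) := by
  have := Real.add_one_le_exp (4 * x)
  nlinarith

theorem ari_geo {x : ℝ} (h0 : 0 ≤ x) (h1 : x ≤ 3 / 4) (m : ℕ) :
    ∑ k ∈ range m, ((k : ℝ) + 1) * x ^ k ≤ rexp (8 * x) := by
  have e : (∑ k ∈ range m, ((k : ℝ) + 1) * x ^ k) * (1 - x) ^ 2 =
      1 - (m + 1) * x ^ m + m * x ^ (m + 1) := by
    induction m with
    | zero => simp
    | succ m ih =>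
      rw [sum_range_succ, add_mul, ih]
      push_cast
      ring
  have e1 : (∑ k ∈ range m, ((k : ℝ) + 1) * x ^ k) * (1 - x) ^ 2 ≤ 1 := by
    rw [e, pow_succ]
    have h2 : 0 ≤ x ^ m := by positivity
    have h3 : (0 : ℝ) ≤ m * x ^ m := by positivity
    nlinarith
  have e2 := ari_exp h0 h1
  have e3 : rexp (8 * x) = rexp (4 * x) ^ 2 := by
    rw [← Real.exp_nat_mul]; ring_nf
  have e4 : 1 ≤ rexp (8 * x) * (1 - x) ^ 2 := by
    rw [e3, ← mul_pow]
    exact one_le_pow₀ e2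
  have e5 : 0 < (1 - x) ^ 2 := by
    have : 0 < 1 - x := by linarith
    positivity
  exact le_of_mul_le_mul_right (e1.trans e4) e5

theorem ari_x {p : ℕ} (hp : p.Prime) {σ : ℝ} (hσ : 1 / 2 ≤ σ) : (p : ℝ) ^ (-σ) ≤ 3 / 4 := by
  have hp2 : (2 : ℝ) ≤ p := by exact_mod_cast hp.two_le
  have h1 : (p : ℝ) ^ (-σ) ≤ (p : ℝ) ^ (-(1 / 2) : ℝ) :=
    Real.rpow_le_rpow_of_exponent_le (by linarith) (by linarith)
  have h2 : (p : ℝ) ^ (-(1 / 2) : ℝ) ≤ (2 : ℝ) ^ (-(1 / 2) : ℝ) :=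
    Real.rpow_le_rpow_of_nonpos (by norm_num) hp2 (by norm_num)
  have h3 : ((2 : ℝ) ^ (-(1 / 2) : ℝ)) ^ 2 = 1 / 2 := by
    rw [← Real.rpow_natCast, ← Real.rpow_mul (by norm_num)]
    norm_num
  have h4 : 0 ≤ (2 : ℝ) ^ (-(1 / 2) : ℝ) := by positivity
  nlinarith

theorem ari_DD {g : ℕ} (hg : 0 < g) {σ : ℝ} (hσ : 1 / 2 ≤ σ) :
    DD g σ ≤ rexp (8 * ∑ p ∈ g.primeFactors, (p : ℝ) ^ (-σ)) := by
  let F : ArithmeticFunction ℝ := ⟨fun n => (n.divisors.card : ℝ) * (n : ℝ) ^ (-σ), by simp⟩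
  have hF : F.IsMultiplicative := by
    refine ⟨by simp [F], fun {m n} h => ?_⟩
    show ((m * n).divisors.card : ℝ) * ((m * n : ℕ) : ℝ) ^ (-σ) =
      (m.divisors.card : ℝ) * (m : ℝ) ^ (-σ) * ((n.divisors.card : ℝ) * (n : ℝ) ^ (-σ))
    rw [h.card_divisors_mul, Nat.cast_mul, Nat.cast_mul,
      Real.mul_rpow (by positivity) (by positivity)]
    ring
  have hG := hF.mul (ArithmeticFunction.isMultiplicative_zeta.natCast (R := ℝ))
  have e : ∀ n, (F * (ArithmeticFunction.zeta : ArithmeticFunction ℝ)) n = DD n σ := fun n =>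
    ArithmeticFunction.coe_mul_zeta_apply
  rw [← e, hG.multiplicative_factorization _ hg.ne', Finsupp.prod, Nat.support_factorization,
    mul_sum, Real.exp_sum]
  refine prod_le_prod (fun p _ => ?_) fun p hp => ?_
  · rw [e]
    exact sum_nonneg fun _ _ => by positivity
  · have hp' := Nat.prime_of_mem_primeFactors hp
    rw [e, DD, Nat.sum_divisors_prime_pow hp']
    refine le_trans (le_of_eq (sum_congr rfl fun k _ => ?_))
      (ari_geo (by positivity) (ari_x hp' hσ) _)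
    rw [Nat.divisors_prime_pow hp', card_map, card_range]
    push_cast
    rw [← Real.rpow_natCast, ← Real.rpow_mul (by positivity), mul_comm (k : ℝ),
      Real.rpow_mul (by positivity), Real.rpow_natCast]

theorem ari_tot {g : ℕ} (hg : 0 < g) :
    (g / g.totient : ℝ) ≤ rexp (4 * ∑ p ∈ g.primeFactors, (p : ℝ) ^ (-1 : ℝ)) := by
  have h1 : (g.totient : ℝ) = g * ∏ p ∈ g.primeFactors, (1 - (p : ℝ)⁻¹) := by
    have := congrArg (fun q : ℚ => (q : ℝ)) (Nat.totient_eq_mul_prod_factors g)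
    push_cast at this
    exact this
  have h2 : (0 : ℝ) < g.totient := by exact_mod_cast Nat.totient_pos.2 hg
  have h3 : (0 : ℝ) < g := by exact_mod_cast hg
  rw [div_le_iff₀ h2, h1, mul_sum, Real.exp_sum, mul_left_comm, ← prod_mul_distrib]
  refine le_mul_of_one_le_right h3.le (le_trans (le_of_eq prod_const_one.symm)
    (prod_le_prod (fun _ _ => zero_le_one) fun p hp => ?_))
  have := ari_exp (by positivity) (ari_x (Nat.prime_of_mem_primeFactors hp) (σ := 1) (by norm_num))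
  rwa [← Real.rpow_neg_one]

theorem ari_split {g : ℕ} (hg : 0 < g) {t σ : ℝ} (ht : 1 ≤ t) (hσ : 0 ≤ σ)
    (hl : Real.log g ≤ 2 * rexp t) : ∑ p ∈ g.primeFactors, (p : ℝ) ^ (-σ) ≤
      ∑ p ∈ MP_74dd9d_nt.Pr t, (p : ℝ) ^ (-σ) + 2 * rexp t * rexp t ^ (-σ) := by
  rw [← sum_filter_add_sum_filter_not g.primeFactors fun p : ℕ => (p : ℝ) ≤ rexp t]
  refine add_le_add (sum_le_sum_of_subset_of_nonneg (fun p hp => ?_) fun _ _ _ => by positivity) ?_
  · exact MP_74dd9d_nt.mem_Pr.2 ⟨(mem_filter.1 hp).2,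
      Nat.prime_of_mem_primeFactors (mem_filter.1 hp).1⟩
  set B := g.primeFactors.filter fun p : ℕ => ¬ (p : ℝ) ≤ rexp t
  have h1 : ∑ p ∈ B, (p : ℝ) ^ (-σ) ≤ B.card • rexp t ^ (-σ) :=
    sum_le_card_nsmul _ _ _ fun p hp => Real.rpow_le_rpow_of_nonpos (Real.exp_pos t)
      (not_le.1 (mem_filter.1 hp).2).le (by linarith)
  have h2 : ∏ p ∈ B, p ≤ g := Nat.le_of_dvd hg
    ((prod_dvd_prod_of_subset _ _ _ (filter_subset _ _)).trans (Nat.prod_primeFactors_dvd g))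
  have h3 : rexp t ^ B.card ≤ g := by
    calc _ = ∏ _p ∈ B, rexp t := by rw [prod_const]
      _ ≤ ∏ p ∈ B, (p : ℝ) := prod_le_prod (fun _ _ => (Real.exp_pos t).le)
          fun p hp => (not_le.1 (mem_filter.1 hp).2).le
      _ ≤ g := by rw [← Nat.cast_prod]; exact_mod_cast h2
  have h4 := Real.log_le_log (by positivity) h3
  rw [Real.log_pow, Real.log_exp] at h4
  have h5 : (B.card : ℝ) ≤ 2 * rexp t := by
    have : (0 : ℝ) ≤ B.card := by positivity
    nlinarith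
  rw [nsmul_eq_mul] at h1
  exact h1.trans (mul_le_mul_of_nonneg_right h5 (by positivity))

theorem ari_sum (N : ℕ) : ∑ n ∈ Icc 1 N, (n : ℝ) ^ (-(13 / 20 : ℝ)) ≤ 3 * (N : ℝ) ^ (7 / 20 : ℝ) := by
  induction N with
  | zero => simp
  | succ N ih =>
    rw [sum_Icc_succ_top (by omega)]
    have h0 : (0 : ℝ) < (N + 1 : ℕ) := by positivity
    set y : ℝ := ((N + 1 : ℕ) : ℝ) with hy
    have h1 : (1 : ℝ) ≤ y := by rw [hy]; exact_mod_cast Nat.succ_pos N
    have h2 : (N : ℝ) = y * (1 + -(1 / y)) := by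
      field_simp
      rw [hy]; push_cast; ring
    have h3 : -1 ≤ -(1 / y) := by
      have : 1 / y ≤ 1 := (div_le_one h0).2 h1
      linarith
    have h4 := rpow_one_add_le_one_add_mul_self h3 (p := 7 / 20) (by norm_num) (by norm_num)
    have h5 : (N : ℝ) ^ (7 / 20 : ℝ) ≤ y ^ (7 / 20 : ℝ) * (1 + 7 / 20 * -(1 / y)) := by
      rw [h2, Real.mul_rpow h0.le (by linarith)]
      exact mul_le_mul_of_nonneg_left h4 (by positivity)
    have h6 : y ^ (-(13 / 20 : ℝ)) = y ^ (7 / 20 : ℝ) * (1 / y) := by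
      rw [show (-(13 / 20 : ℝ)) = 7 / 20 - 1 by norm_num, Real.rpow_sub h0, Real.rpow_one]
      ring
    have h7 : 0 ≤ y ^ (7 / 20 : ℝ) * (1 / y) := by positivity
    nlinarith

theorem p_ARI :
    S_ARI := by
  refine ⟨ari_tau, 16 * (rexp 18 + 3), ?_⟩
  obtain ⟨K, hK⟩ := ari_tau (1 / 40) (by norm_num)
  have K0 : 0 ≤ K := by
    have := hK 1
    simp at this
    linarith
  have t1 : Tendsto (fun l : ℕ => Real.log (Real.log l)) atTop atTop :=
    Real.tendsto_log_atTop.comp (Real.tendsto_log_atTop.comp tendsto_natCast_atTop_atTop)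
  have t2 : Tendsto (fun l : ℕ => (l : ℝ) ^ (1 / 20 : ℝ)) atTop atTop :=
    (tendsto_rpow_atTop (by norm_num)).comp tendsto_natCast_atTop_atTop
  filter_upwards [t1.eventually_ge_atTop (300 * rexp 2 + 36), t2.eventually_ge_atTop (K ^ 2 * 2),
    eventually_ge_atTop 3] with l hL hl2 hl3 g hg hgl
  have E2 := Real.exp_pos 2
  have E18 := Real.exp_pos 18
  have l3 : (3 : ℝ) ≤ l := by exact_mod_cast hl3
  have g0 : (0 : ℝ) < g := by exact_mod_cast hg
  have gl : (g : ℝ) ≤ l + 1 := by exact_mod_cast hgl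
  have La0 : 0 < Real.log l := Real.log_pos (by linarith)
  set t := Real.log (Real.log l) with ht
  have et : rexp t = Real.log l := Real.exp_log La0
  have ht1 : 1 ≤ t := by linarith
  have ht0 : 0 < t := by linarith
  have hl : Real.log g ≤ 2 * rexp t := by
    rw [et]
    have := Real.log_le_log g0 (show (g : ℝ) ≤ (l : ℝ) ^ 2 by nlinarith)
    rwa [Real.log_pow, Nat.cast_ofNat] at this
  have hs : 18 / t ≤ 1 / 2 := by
    rw [div_le_iff₀ ht0]; linarith
  have hs0 : 0 ≤ 18 / t := by positivity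
  have e18 : rexp t ^ (18 / t) = rexp 18 := by
    rw [← Real.exp_mul, mul_div_cancel₀ _ ht0.ne']
  have hb : ∑ p ∈ g.primeFactors, (p : ℝ) ^ (-(1 - 18 / t)) ≤ rexp 18 * (2 * Real.log t) := by
    refine (ari_split hg ht1 (by linarith) hl).trans ?_
    have h1 : ∑ p ∈ MP_74dd9d_nt.Pr t, (p : ℝ) ^ (-(1 - 18 / t)) ≤
        rexp 18 * MP_74dd9d_nt.SS t := by
      rw [MP_74dd9d_nt.SS, mul_sum]
      refine sum_le_sum fun p hp => ?_
      obtain ⟨a, b⟩ := MP_74dd9d_nt.mem_Pr.1 hp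
      have p0 : (0 : ℝ) < p := by exact_mod_cast b.pos
      rw [neg_sub, Real.rpow_sub p0, Real.rpow_one, ← e18, mul_one_div]
      exact div_le_div_of_nonneg_right (Real.rpow_le_rpow p0.le a hs0) p0.le
    have h2 : 2 * rexp t * rexp t ^ (-(1 - 18 / t)) = rexp 18 * 2 := by
      rw [neg_sub, Real.rpow_sub (Real.exp_pos t), Real.rpow_one, e18]
      field_simp
    have h3 : MP_74dd9d_nt.SS t + 2 ≤ 2 * Real.log t := by
      have a := MP_74dd9d_nt.SS_upper ht1
      have b : rexp (MP_74dd9d_nt.SS t + 2) ≤ t ^ 2 := by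
        rw [Real.exp_add]
        nlinarith
      have c := (Real.le_log_iff_exp_le (by positivity)).2 b
      rwa [Real.log_pow, Nat.cast_ofNat] at c
    nlinarith
  have lt0 : 0 ≤ Real.log t := Real.log_nonneg ht1
  have hC : rexp (8 * ∑ p ∈ g.primeFactors, (p : ℝ) ^ (-(1 - 18 / t))) ≤
      t ^ (16 * (rexp 18 + 3)) := by
    rw [Real.rpow_def_of_pos ht0]
    exact Real.exp_le_exp.2 (by nlinarith)
  refine ⟨(ari_tot hg).trans (le_trans (Real.exp_le_exp.2 ?_) hC),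
    (ari_DD hg (by linarith)).trans hC, (ari_DD hg (by norm_num)).trans (Real.exp_le_exp.2 ?_), ?_⟩
  · have h1 : ∑ p ∈ g.primeFactors, (p : ℝ) ^ (-1 : ℝ) ≤
        ∑ p ∈ g.primeFactors, (p : ℝ) ^ (-(1 - 18 / t)) :=
      sum_le_sum fun p hp => Real.rpow_le_rpow_of_exponent_le
        (by exact_mod_cast (Nat.prime_of_mem_primeFactors hp).one_le) (by linarith)
    have h2 : 0 ≤ ∑ p ∈ g.primeFactors, (p : ℝ) ^ (-1 : ℝ) := sum_nonneg fun _ _ => by positivity
    linarith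
  · have h0 := ari_split hg ht1 (σ := 13 / 20) (by norm_num) hl
    have h1 : ∑ p ∈ MP_74dd9d_nt.Pr t, (p : ℝ) ^ (-(13 / 20 : ℝ)) ≤
        ∑ n ∈ Icc 1 ⌊rexp t⌋₊, (n : ℝ) ^ (-(13 / 20 : ℝ)) :=
      sum_le_sum_of_subset_of_nonneg (fun p hp => by
        have := Nat.mem_primesLE.1 hp
        exact mem_Icc.2 ⟨this.2.one_le, this.1⟩) fun _ _ _ => by positivity
    have h2 := ari_sum ⌊rexp t⌋₊
    have h3 : (⌊rexp t⌋₊ : ℝ) ^ (7 / 20 : ℝ) ≤ rexp t ^ (7 / 20 : ℝ) :=
      Real.rpow_le_rpow (by positivity) (Nat.floor_le (Real.exp_pos t).le) (by norm_num)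
    have h4 : 2 * rexp t * rexp t ^ (-(13 / 20 : ℝ)) = 2 * rexp t ^ (7 / 20 : ℝ) := by
      rw [show (-(13 / 20 : ℝ)) = 7 / 20 - 1 by norm_num, Real.rpow_sub (Real.exp_pos t),
        Real.rpow_one]
      field_simp
    rw [← et]
    have h5 : 0 ≤ rexp t ^ (7 / 20 : ℝ) := by positivity
    nlinarith
  · have y0 : 0 ≤ ((l : ℝ) + 1) ^ (1 / 40 : ℝ) := by positivity
    have h1 : ∀ n : ℕ, n ≤ g → (n.divisors.card : ℝ) ≤ K * ((l : ℝ) + 1) ^ (1 / 40 : ℝ) :=
      fun n hn => (hK n).trans (mul_le_mul_of_nonneg_left (Real.rpow_le_rpow (by positivity)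
        (le_trans (by exact_mod_cast hn) gl) (by norm_num)) K0)
    have h2 : DD g 0 ≤ g.divisors.card • (K * ((l : ℝ) + 1) ^ (1 / 40 : ℝ)) :=
      sum_le_card_nsmul _ _ _ fun n hn => by
        rw [neg_zero, Real.rpow_zero, mul_one]
        exact h1 n (Nat.divisor_le hn)
    rw [nsmul_eq_mul] at h2
    have h3 := mul_le_mul_of_nonneg_right (h1 g le_rfl) (mul_nonneg K0 y0)
    have h4 : ((l : ℝ) + 1) ^ (1 / 40 : ℝ) * ((l : ℝ) + 1) ^ (1 / 40 : ℝ) ≤
        2 * (l : ℝ) ^ (1 / 20 : ℝ) := by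
      rw [← Real.rpow_add (by linarith)]
      have a : ((l : ℝ) + 1) ^ (1 / 40 + 1 / 40 : ℝ) ≤ (2 * l) ^ (1 / 20 : ℝ) := by
        rw [show (1 / 40 + 1 / 40 : ℝ) = 1 / 20 by norm_num]
        exact Real.rpow_le_rpow (by linarith) (by linarith) (by norm_num)
      rw [Real.mul_rpow (by norm_num) (by linarith)] at a
      have b : (2 : ℝ) ^ (1 / 20 : ℝ) ≤ 2 ^ (1 : ℝ) :=
        Real.rpow_le_rpow_of_exponent_le (by norm_num) (by norm_num)
      rw [Real.rpow_one] at b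
      exact a.trans (mul_le_mul_of_nonneg_right b (by positivity))
    have h5 : (l : ℝ) ^ (1 / 10 : ℝ) = (l : ℝ) ^ (1 / 20 : ℝ) * (l : ℝ) ^ (1 / 20 : ℝ) := by
      rw [← Real.rpow_add (by linarith)]
      norm_num
    have h6 : 0 ≤ (l : ℝ) ^ (1 / 20 : ℝ) := by positivity
    have h7 := mul_le_mul_of_nonneg_left h4 (sq_nonneg K)
    have h8 := mul_le_mul_of_nonneg_right hl2 h6
    rw [h5]
    nlinarith

end Pool.Agent.P.MP_e7a540_nt.BC
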