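import Pool.Agent.P.MP_e7a540_nt.BC.If

/-! Proof of AVG. -/

namespace Pool.Agent.P.MP_e7a540_nt.BC

open Complex Filter Topology CongruenceSubgroup
open UpperHalfPlane hiding I
open scoped Real ComplexConjugate MatrixGroups

theorem avg_shift (F : ℕ → ℂ) (N m : ℕ) (hN : ∀ k, F (N + k) = F k) :
    ∑ k ∈ Finset.range N, F (m + k) = ∑ k ∈ Finset.range N, F k := by
  have h1 := Finset.sum_range_add F m N
  have h2 := Finset.sum_range_add F N m
  rw [add_comm N m, h1] at h2
  simp only [hN] at h2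
  linear_combination h2

theorem avg_count (g e : ℕ) (he : e ∣ g) (he0 : 0 < e) :
    ((Finset.range (4 * g)).filter fun k => k % 4 = 1 ∧ e ∣ k).card ≤ g / e := by
  obtain ⟨q, rfl⟩ := he
  rw [Nat.mul_div_cancel_left _ he0]
  conv_rhs => rw [← Finset.card_range q]
  refine Finset.card_le_card_of_injOn (fun k => k / e / 4) ?_ ?_
  · intro k hk
    simp only [Finset.coe_filter, Finset.mem_range, Set.mem_ofPred_eq] at hk
    obtain ⟨h1, -, a, rfl⟩ := hk
    simp only [Finset.coe_range, Set.mem_Iio]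
    rw [Nat.mul_div_cancel_left _ he0]
    have : a < 4 * q := by
      by_contra hc
      have := Nat.mul_le_mul_left e (not_lt.1 hc)
      nlinarith
    omega
  · intro k hk k' hk' h
    simp only [Finset.coe_filter, Finset.mem_range, Set.mem_ofPred_eq] at hk hk'
    obtain ⟨-, h1, a, rfl⟩ := hk
    obtain ⟨-, h2, b, rfl⟩ := hk'
    simp only [Nat.mul_div_cancel_left _ he0] at h
    rw [Nat.mul_mod] at h1 h2
    have hab : a % 4 = b % 4 := by
      have ha : a % 4 < 4 := Nat.mod_lt _ (by norm_num)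
      have hb : b % 4 < 4 := Nat.mod_lt _ (by norm_num)
      have hc : e % 4 < 4 := Nat.mod_lt _ (by norm_num)
      generalize a % 4 = s at *
      generalize b % 4 = t at *
      generalize e % 4 = r at *
      interval_cases r <;> omega
    have : a = b := by omega
    rw [this]

open Classical in
theorem avg_Se (z : ℂ) (hz : ‖z‖ ≤ 1) (g e : ℕ) (he : e ∣ g) (he0 : 0 < e) (hzg : z ^ g = 1) :
    ‖∑ k ∈ Finset.range (4 * g), if k % 4 = 1 ∧ e ∣ k then z ^ k else 0‖ ≤
      if z ^ (4 * e) = 1 then (g : ℝ) / e else 0 := by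
  split_ifs with h
  · rw [← Finset.sum_filter]
    refine (norm_sum_le _ _).trans ?_
    have h1 : ∑ k ∈ (Finset.range (4 * g)).filter fun k => k % 4 = 1 ∧ e ∣ k, ‖z ^ k‖ ≤
        ∑ _k ∈ (Finset.range (4 * g)).filter fun k => k % 4 = 1 ∧ e ∣ k, (1 : ℝ) :=
      Finset.sum_le_sum fun k _ => by rw [norm_pow]; exact pow_le_one₀ (norm_nonneg _) hz
    refine h1.trans ?_
    rw [Finset.sum_const, nsmul_eq_mul, mul_one]
    exact (Nat.cast_le.2 (avg_count g e he he0)).trans Nat.cast_div_le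
  · set F : ℕ → ℂ := fun k => if k % 4 = 1 ∧ e ∣ k then z ^ k else 0 with hF
    have key : ∀ m k, e ∣ m → F (4 * m + k) = z ^ (4 * m) * F k := by
      intro m k hm
      have e1 : (4 * m + k) % 4 = k % 4 := by omega
      have e2 : e ∣ 4 * m + k ↔ e ∣ k := (Nat.dvd_add_right (hm.mul_left 4))
      simp only [hF, e1, e2]
      split_ifs
      · rw [pow_add]
      · simp
    have h1 := avg_shift F (4 * g) (4 * e) fun k => by
      rw [key g k he, mul_comm 4 g, pow_mul, hzg]; simp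
    simp only [key e _ dvd_rfl] at h1
    rw [← Finset.mul_sum] at h1
    have h2 : (z ^ (4 * e) - 1) * ∑ k ∈ Finset.range (4 * g), F k = 0 := by linear_combination h1
    rcases mul_eq_zero.1 h2 with h3 | h3
    · exact absurd (sub_eq_zero.1 h3) h
    · rw [h3]; simp

open ArithmeticFunction.Moebius in
theorem avg_moeb (k g : ℕ) (hg : 0 < g) :
    (if k.Coprime g then (1 : ℂ) else 0) =
      ∑ e ∈ g.divisors, if e ∣ k then ((μ e : ℤ) : ℂ) else 0 := by
  rw [← Finset.sum_filter]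
  have h1 : g.divisors.filter (· ∣ k) = (k.gcd g).divisors := by
    ext e
    simp only [Finset.mem_filter, Nat.mem_divisors, Nat.dvd_gcd_iff]
    have := Nat.gcd_pos_of_pos_right k hg
    constructor
    · rintro ⟨⟨a, -⟩, b⟩; exact ⟨⟨b, a⟩, by omega⟩
    · rintro ⟨⟨a, b⟩, -⟩; exact ⟨⟨b, by omega⟩, a⟩
  rw [h1]
  have h2 := congrArg (fun f : ArithmeticFunction ℂ => f (k.gcd g))
    (ArithmeticFunction.coe_moebius_mul_coe_zeta (R := ℂ))
  simp only [ArithmeticFunction.coe_mul_zeta_apply, ArithmeticFunction.intCoe_apply,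
    ArithmeticFunction.one_apply] at h2
  rw [h2]

/-- the exponents of the Galois action -/
def avgU (g : ℕ) : Finset ℕ := (Finset.range (4 * g)).filter fun k => k % 4 = 1 ∧ k.Coprime g

open Classical in
theorem avg_U (z : ℂ) (hz : ‖z‖ ≤ 1) (g : ℕ) (hg : 0 < g) (hzg : z ^ g = 1) :
    ‖∑ k ∈ avgU g, z ^ k‖ ≤ ∑ e ∈ g.divisors, if z ^ (4 * e) = 1 then (g : ℝ) / e else 0 := by
  have h1 : ∑ k ∈ avgU g, z ^ k = ∑ e ∈ g.divisors, ((ArithmeticFunction.moebius e : ℤ) : ℂ) *
      ∑ k ∈ Finset.range (4 * g), if k % 4 = 1 ∧ e ∣ k then z ^ k else 0 := by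
    simp only [Finset.mul_sum]
    rw [Finset.sum_comm, avgU, Finset.sum_filter]
    refine Finset.sum_congr rfl fun k _ => ?_
    by_cases h4 : k % 4 = 1
    · have h2 := congrArg (· * z ^ k) (avg_moeb k g hg)
      simp only [Finset.sum_mul, ite_mul, one_mul, zero_mul] at h2
      simp only [h4, true_and, mul_ite, mul_zero]
      exact h2
    · simp [h4]
  rw [h1]
  refine (norm_sum_le _ _).trans (Finset.sum_le_sum fun e he => ?_)
  rw [norm_mul]
  have h3 : ‖((ArithmeticFunction.moebius e : ℤ) : ℂ)‖ ≤ 1 := by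
    rw [Complex.norm_intCast]
    exact_mod_cast ArithmeticFunction.abs_moebius_le_one
  refine (mul_le_of_le_one_left (norm_nonneg _) h3).trans ?_
  exact avg_Se z hz g e (Nat.dvd_of_mem_divisors he) (Nat.pos_of_mem_divisors he) hzg

theorem avg_card (g : ℕ) : g.totient ≤ (avgU g).card := by
  have h1 : 2 * g.totient ≤ (4 * g).totient := by
    have := Nat.totient_super_multiplicative 4 g
    have h4 : Nat.totient 4 = 2 := by decide
    rwa [h4] at this
  have h2 : (Finset.range (4 * g)).filter (fun k => (4 * g).Coprime k) ⊆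
      avgU g ∪ (avgU g).image fun k => 4 * g - k := by
    intro k hk
    simp only [Finset.mem_filter, Finset.mem_range] at hk
    obtain ⟨hk, hc⟩ := hk
    have hc1 : k.Coprime g := (Nat.Coprime.coprime_mul_left hc).symm
    have hc2 : k % 2 = 1 := by
      have : Nat.Coprime 2 k := Nat.Coprime.coprime_dvd_left ⟨2 * g, by ring⟩ hc
      exact Nat.odd_iff.1 (Nat.coprime_two_left.1 this)
    simp only [avgU, Finset.mem_union, Finset.mem_image, Finset.mem_filter, Finset.mem_range]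
    by_cases h4 : k % 4 = 1
    · exact Or.inl ⟨hk, h4, hc1⟩
    · refine Or.inr ⟨4 * g - k, ⟨by omega, by omega, ?_⟩, by omega⟩
      have : (4 * g - k).Coprime (4 * g) := (Nat.coprime_self_sub_left hk.le).2 hc.symm
      exact Nat.Coprime.coprime_mul_left_right this
  have h3 := (Finset.card_le_card h2).trans (Finset.card_union_le _ _)
  have h4 := Finset.card_image_le (s := avgU g) (f := fun k => 4 * g - k)
  rw [← Nat.totient_eq_card_coprime] at h3
  omega

theorem avg_gcd (g n : ℕ) (hn : 0 < n) :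
    ∑ e ∈ g.divisors, (((4 * e).gcd n : ℕ) : ℝ) / e ≤ 4 * n.divisors.card * DD g 1 := by
  have hD : ∑ x ∈ g.divisors, (1 : ℝ) / x ≤ DD g 1 := by
    refine Finset.sum_le_sum fun x hx => ?_
    have hx0 := Nat.pos_of_mem_divisors hx
    have h1 : (1 : ℝ) ≤ x.divisors.card := by
      exact_mod_cast Finset.card_pos.2 ⟨1, Nat.one_mem_divisors.2 hx0.ne'⟩
    rw [Real.rpow_neg_one, one_div]
    exact le_mul_of_one_le_left (by positivity) h1
  have h1 : ∀ d ∈ n.divisors,
      (∑ e ∈ g.divisors, if d ∣ e then (d : ℝ) / e else 0) ≤ DD g 1 := by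
    intro d hd
    have hd0 := Nat.pos_of_mem_divisors hd
    refine le_trans ?_ hD
    rw [← Finset.sum_filter]
    have h2 : ∑ e ∈ g.divisors.filter (d ∣ ·), (d : ℝ) / e =
        ∑ x ∈ (g.divisors.filter (d ∣ ·)).image (· / d), (1 : ℝ) / x := by
      rw [Finset.sum_image]
      · refine Finset.sum_congr rfl fun e he => ?_
        obtain ⟨he, q, rfl⟩ := Finset.mem_filter.1 he
        have hq : (q : ℝ) ≠ 0 := by
          have := Nat.pos_of_mem_divisors he
          have : q ≠ 0 := by rintro rfl; simp at this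
          exact_mod_cast this
        have hd' : (d : ℝ) ≠ 0 := by exact_mod_cast hd0.ne'
        rw [Nat.mul_div_cancel_left _ hd0]
        push_cast
        field_simp
      · intro e he e' he' h
        obtain ⟨-, q, rfl⟩ := Finset.mem_filter.1 he
        obtain ⟨-, q', rfl⟩ := Finset.mem_filter.1 he'
        simp only [Nat.mul_div_cancel_left _ hd0] at h
        rw [h]
    rw [h2]
    refine Finset.sum_le_sum_of_subset_of_nonneg ?_ fun _ _ _ => by positivity
    intro x hx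
    obtain ⟨e, he, rfl⟩ := Finset.mem_image.1 hx
    obtain ⟨he, hde⟩ := Finset.mem_filter.1 he
    rw [Nat.mem_divisors] at he ⊢
    exact ⟨(Nat.div_dvd_of_dvd hde).trans he.1, he.2⟩
  have h3 : ∀ e ∈ g.divisors, (((4 * e).gcd n : ℕ) : ℝ) / e ≤
      4 * ∑ d ∈ n.divisors, if d ∣ e then (d : ℝ) / e else 0 := by
    intro e he
    have h4 : (4 * e).gcd n ≤ 4 * e.gcd n := by
      have hp : 0 < e.gcd n := Nat.gcd_pos_of_pos_right _ hn
      refine Nat.le_of_dvd (by omega) ?_
      rw [← Nat.gcd_mul_left]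
      exact Nat.gcd_dvd_gcd_mul_left_right _ _ _
    have h5 : ((e.gcd n : ℕ) : ℝ) / e ≤ ∑ d ∈ n.divisors, if d ∣ e then (d : ℝ) / e else 0 := by
      have := Finset.single_le_sum (f := fun d : ℕ => if d ∣ e then (d : ℝ) / e else 0)
        (s := n.divisors) (fun d _ => by split_ifs <;> positivity)
        (Nat.mem_divisors.2 ⟨Nat.gcd_dvd_right e n, hn.ne'⟩)
      simpa only [Nat.gcd_dvd_left, if_true] using this
    have h6 : (((4 * e).gcd n : ℕ) : ℝ) ≤ 4 * ((e.gcd n : ℕ) : ℝ) := by exact_mod_cast h4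
    calc _ ≤ 4 * ((e.gcd n : ℕ) : ℝ) / e := by gcongr
      _ = 4 * (((e.gcd n : ℕ) : ℝ) / e) := by ring
      _ ≤ _ := by gcongr
  refine (Finset.sum_le_sum h3).trans ?_
  rw [← Finset.mul_sum, Finset.sum_comm, mul_assoc]
  gcongr
  refine (Finset.sum_le_sum h1).trans ?_
  rw [Finset.sum_const, nsmul_eq_mul]

theorem p_AVG (hEV : S_EV) (hGRP : S_GRP) (hMOD : S_MOD) (hLV : S_LV) (hGAL : S_GAL) (hDEC : S_DEC) :
    S_AVG := by
  classical
  intro l hl h100
  have : Fact l.Prime := ⟨hl⟩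
  have h2 : l ≠ 2 := by omega
  obtain ⟨hfin, -, hlg, hpow, -, hod⟩ := hGRP l hl h2
  obtain ⟨c₁, c, hc1, hc, hsum, hdec⟩ := hDEC l hl h100
  have hg : 0 < gg l := by omega
  set g := gg l with hgdef
  have hBfin : {χ ∈ XP l | Van χ}.Finite := hfin.subset fun χ h => h.1.1
  set B := hBfin.toFinset with hB
  have hBm : ∀ χ ∈ B, χ ∈ XX l ∧ χ ≠ 1 ∧ WW χ = 1 ∧ Van χ := fun χ h => by
    have := hBfin.mem_toFinset.1 h
    exact ⟨this.1.1, this.1.2.1, this.1.2.2, this.2⟩
  rw [Set.ncard_eq_toFinset_card _ hBfin, ← hB]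
  set w : PP l → ℝ := fun a => rexp (-((a : ZI).norm : ℝ) / l) / √((a : ZI).norm : ℝ) with hw
  have hw0 : ∀ a, 0 ≤ w a := fun a => by positivity
  -- the Galois orbit
  have horb : ∀ χ ∈ B, HasSum (fun a : PP l => (∑ k ∈ avgU g, ev χ a ^ k) * c a)
      (∑ _k ∈ avgU g, -c₁) := by
    intro χ hχ
    obtain ⟨hX, h1, hW, hV⟩ := hBm χ hχ
    obtain ⟨-, -, -, -, -, -, -, hk, hkp, -, hWk⟩ := hEV l hl h2 χ hX
    simp only [Finset.sum_mul]
    refine hasSum_sum fun k hkU => ?_
    obtain ⟨-, hk4, hkc⟩ := Finset.mem_filter.1 hkU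
    have hne : χ ^ k ≠ 1 := by
      intro h
      have h3 : χ ^ (k.gcd g) = 1 := pow_gcd_eq_one.2 ⟨h, hpow χ hX⟩
      rw [hkc, pow_one] at h3
      exact h1 h3
    obtain ⟨f, hf⟩ := hMOD l hl h2 _ (hk k)
    obtain ⟨hL1, hL2, -⟩ := hLV l h2 _ (hk k) hne f hf
    have h0 := hL2.2 (hGAL l hl h2 χ hX k hk4 hkc hV)
    rw [h0, hWk k hk4, hW] at hL1
    have h5 : sm (χ ^ k) (2 * π / √(32 * l ^ 2)) = 0 := by linear_combination -hL1 / 2
    have h6 := hdec _ (hk k)
    rw [h5, zero_sub] at h6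
    have hk0 : k ≠ 0 := by omega
    simpa only [hkp k _ hk0] using h6
  have hnorm : ∀ χ ∈ B, ∀ a : PP l, ‖ev χ a‖ ≤ 1 ∧ ev χ a ^ g = 1 := by
    intro χ hχ a
    obtain ⟨-, -, -, -, h5, -, h7, -⟩ := hEV l hl h2 χ (hBm χ hχ).1
    refine ⟨h5 _, ?_⟩
    obtain ⟨-, hdv, hiff, -⟩ := hod a a.2.2.2
    have := h7 ((a : ZI) ^ g) a.2.2.2.pow_left ((hiff g).2 hdv)
    simpa only [ev, map_pow] using this
  have hS : ∀ χ ∈ B, Summable fun a : PP l => ‖∑ k ∈ avgU g, ev χ a ^ k‖ * (2 * w a) := by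
    intro χ hχ
    refine Summable.of_nonneg_of_le (fun a => by have := hw0 a; positivity) (fun a => ?_)
      ((hsum.mul_left 2).mul_left ((avgU g).card : ℝ))
    have h1 : ‖∑ k ∈ avgU g, ev χ a ^ k‖ ≤ ((avgU g).card : ℝ) := by
      refine (norm_sum_le _ _).trans ((Finset.sum_le_sum (g := fun _ => (1 : ℝ)) fun k _ => ?_).trans
        (by simp))
      rw [norm_pow]
      exact pow_le_one₀ (norm_nonneg _) (hnorm χ hχ a).1
    have := hw0 a
    exact mul_le_mul_of_nonneg_right h1 (by positivity)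
  have hlow : ∀ χ ∈ B, (g.totient : ℝ) / 3 ≤
      ∑' a : PP l, ‖∑ k ∈ avgU g, ev χ a ^ k‖ * (2 * w a) := by
    intro χ hχ
    have h1 := (horb χ hχ).norm_le_of_bounded (hS χ hχ).hasSum fun a => by
      rw [norm_mul]
      exact mul_le_mul_of_nonneg_left (hc a a.2) (norm_nonneg _)
    refine le_trans ?_ h1
    rw [Finset.sum_const, nsmul_eq_mul, norm_mul, norm_neg, Complex.norm_natCast]
    have h3 : (g.totient : ℝ) ≤ (avgU g).card := by exact_mod_cast avg_card g
    calc _ = (g.totient : ℝ) * (1 / 3) := by ring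
      _ ≤ _ := by gcongr
  have hwt : Summable fun a : PP l => wt l a := by
    refine Summable.of_nonneg_of_le (fun a => by unfold wt; positivity) (fun a => ?_) hsum
    refine mul_le_of_le_one_right (hw0 a) (div_le_one_of_le₀ ?_ (by positivity))
    exact_mod_cast Nat.card_divisors_le_self _
  have hup : ∀ a : PP l, ∑ χ ∈ B, ‖∑ k ∈ avgU g, ev χ a ^ k‖ * (2 * w a) ≤
      8 * (g : ℝ) ^ 2 * DD g 1 * wt l a := by
    intro a
    obtain ⟨hn, -, -, hcnt⟩ := hod a a.2.2.2
    set n := od l a with hndef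
    have hn' : (0 : ℝ) < n := by exact_mod_cast hn
    have h1 : ∑ χ ∈ B, ‖∑ k ∈ avgU g, ev χ a ^ k‖ ≤
        ∑ e ∈ g.divisors, (g : ℝ) ^ 2 / n * ((((4 * e).gcd n : ℕ) : ℝ) / e) := by
      refine (Finset.sum_le_sum fun χ hχ =>
        avg_U _ (hnorm χ hχ a).1 g hg (hnorm χ hχ a).2).trans ?_
      rw [Finset.sum_comm]
      refine Finset.sum_le_sum fun e _ => ?_
      rw [← Finset.sum_filter, Finset.sum_const, nsmul_eq_mul]
      have h3 : (B.filter fun χ => ev χ a ^ (4 * e) = 1).card ≤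
          {χ ∈ XX l | ev χ a ^ (4 * e) = 1}.ncard := by
        rw [← Set.ncard_coe_finset]
        refine Set.ncard_le_ncard (fun χ hχ => ?_) (hfin.subset fun χ h => h.1)
        obtain ⟨h4, h5⟩ := Finset.mem_filter.1 hχ
        exact ⟨(hBm χ h4).1, h5⟩
      have h4 : ((B.filter fun χ => ev χ a ^ (4 * e) = 1).card : ℝ) ≤
          g * (((4 * e).gcd n : ℕ) : ℝ) / n := by
        rw [le_div_iff₀ hn']
        exact_mod_cast (Nat.mul_le_mul_right n h3).trans (hcnt (4 * e)).le
      calc _ ≤ g * (((4 * e).gcd n : ℕ) : ℝ) / n * ((g : ℝ) / e) := by gcongr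
        _ = _ := by ring
    rw [← Finset.mul_sum] at h1
    have h5 : (g : ℝ) ^ 2 / n * ∑ e ∈ g.divisors, (((4 * e).gcd n : ℕ) : ℝ) / e ≤
        (g : ℝ) ^ 2 / n * (4 * n.divisors.card * DD g 1) :=
      mul_le_mul_of_nonneg_left (avg_gcd g n hn) (by positivity)
    rw [← Finset.sum_mul]
    have := hw0 a
    calc _ ≤ (g : ℝ) ^ 2 / n * (4 * n.divisors.card * DD g 1) * (2 * w a) :=
          mul_le_mul_of_nonneg_right (h1.trans h5) (by positivity)
      _ = _ := by simp only [wt, hw, ← hndef]; ring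
  have hfinal := hasSum_le hup (hasSum_sum fun χ hχ => (hS χ hχ).hasSum)
    (hwt.hasSum.mul_left (8 * (g : ℝ) ^ 2 * DD g 1))
  have h7 := (Finset.sum_le_sum hlow).trans hfinal
  rw [Finset.sum_const, nsmul_eq_mul] at h7
  have ht : (0 : ℝ) < g.totient := by exact_mod_cast Nat.totient_pos.2 hg
  have h8 : 24 * (g : ℝ) * (g / g.totient) * DD g 1 * TT l =
      (8 * (g : ℝ) ^ 2 * DD g 1 * TT l) / (g.totient / 3) := by
    field_simp
    ring
  rw [h8, le_div_iff₀ (by positivity)]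
  exact h7

end Pool.Agent.P.MP_e7a540_nt.BC
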