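import Pool.Agent.P.MP_e7a540_nt.BC.If

/-! Proof of CLS. -/

namespace Pool.Agent.P.MP_e7a540_nt.BC

open Complex Filter Topology CongruenceSubgroup
open UpperHalfPlane hiding I
open scoped Real ComplexConjugate MatrixGroups

theorem cls_norm_ndvd (l : ℕ) (hl : l.Prime) (a : ZI) (h : IsCoprime a (l : ZI)) :
    ¬ (l : ℤ) ∣ a.norm := by
  intro hd
  have h0 := h.map (starRingEnd ZI)
  rw [map_natCast] at h0
  have h1 : IsCoprime (a * star a) (l : ZI) := h.mul_left h0
  rw [← Zsqrtd.norm_eq_mul_conj] at h1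
  have h2 : IsUnit (l : ZI) :=
    h1.symm.isUnit_of_dvd (by simpa using (Int.castRingHom ZI).map_dvd hd)
  have h3 := (Zsqrtd.norm_eq_one_iff' (by norm_num) _).2 h2
  rw [Zsqrtd.norm_natCast] at h3
  have h4 : (2 : ℤ) ≤ l := by exact_mod_cast hl.two_le
  nlinarith

theorem p_CLS :
    S_CLS := by
  classical
  intro l n hl hl2 hn A hA hinj
  haveI : Fact l.Prime := ⟨hl⟩
  let K := AlgebraicClosure (ZMod l)
  obtain ⟨j, hj⟩ : ∃ j : K, j * j = ((-1 : ℤ) : K) := by
    obtain ⟨j, hj⟩ := IsAlgClosed.exists_pow_nat_eq ((-1 : ℤ) : K) two_pos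
    exact ⟨j, by rw [← hj, sq]⟩
  let φ : ZI →+* K := Zsqrtd.lift ⟨j, hj⟩
  have hφ : ∀ a : ZI, φ a = (a.re : K) + (a.im : K) * j := fun a => by
    simp [φ, Zsqrtd.lift]
  have hcast : ∀ m : ℤ, (m : K) = 0 ↔ (l : ℤ) ∣ m := fun m => CharP.intCast_eq_zero_iff K l m
  have h2 : (2 : K) ≠ 0 := by
    intro h
    have := (hcast 2).1 (by exact_mod_cast h)
    exact hl2 ((Nat.prime_dvd_prime_iff_eq hl Nat.prime_two).1 (by exact_mod_cast this))
  have hj0 : j ≠ 0 := by
    rintro rfl
    simp at hj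
  have hreal : ∀ a : ZI, φ a = φ (star a) ↔ (l : ℤ) ∣ a.im := fun a => by
    rw [← hcast, hφ, hφ, Zsqrtd.re_star, Zsqrtd.im_star]
    push_cast
    constructor
    · intro h
      have h3 : (2 * j) * (a.im : K) = 0 := by linear_combination h
      exact (mul_eq_zero.1 h3).resolve_left (mul_ne_zero h2 hj0)
    · intro h
      simp [h]
  have hne : ∀ a ∈ A, φ (star a) ≠ 0 := fun a ha h => by
    refine cls_norm_ndvd l hl a (hA a ha).1 ((hcast _).1 ?_)
    rw [← map_intCast φ, Zsqrtd.norm_eq_mul_conj, map_mul, h, mul_zero]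
  calc A.card ≤ (Polynomial.nthRoots n (1 : K)).toFinset.card := by
        refine Finset.card_le_card_of_injOn (fun a => φ a / φ (star a)) (fun a ha => ?_)
          (fun a ha b hb h => hinj a ha b hb ?_)
        · have h1 := (hreal _).2 (hA a ha).2
          rw [star_pow, map_pow, map_pow] at h1
          simp only [Finset.mem_coe, Multiset.mem_toFinset]
          rw [Polynomial.mem_nthRoots hn, div_pow, h1, div_self (pow_ne_zero _ (hne a ha))]
        · rw [← hreal, star_mul, star_star, map_mul, map_mul]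
          exact (div_eq_div_iff (hne a ha) (hne b hb)).1 h
    _ ≤ n := (Multiset.toFinset_card_le _).trans (Polynomial.card_nthRoots n 1)

end Pool.Agent.P.MP_e7a540_nt.BC
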