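import Pool.Agent.P.MP_e7a540_nt.BC.If

/-! Proof of CRU. -/

namespace Pool.Agent.P.MP_e7a540_nt.BC

open Complex Filter Topology CongruenceSubgroup
open UpperHalfPlane hiding I
open scoped Real ComplexConjugate MatrixGroups

theorem cru_sq_le (a : ZI) : ((max a.re.natAbs a.im.natAbs : ℕ) : ℝ) ^ 2 ≤ (a.norm : ℝ) := by
  have h : ((max a.re.natAbs a.im.natAbs : ℕ) : ℤ) ^ 2 ≤ a.norm := by
    rw [Zsqrtd.norm_def]
    rcases le_total a.re.natAbs a.im.natAbs with h | h
    · rw [max_eq_right h, Int.natCast_natAbs, sq_abs]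
      nlinarith [sq_nonneg a.re]
    · rw [max_eq_left h, Int.natCast_natAbs, sq_abs]
      nlinarith [sq_nonneg a.im]
  have h' := (Int.cast_le (R := ℝ)).2 h
  rwa [Int.cast_pow, Int.cast_natCast] at h'

theorem cru_shell (A : Finset ZI) (k : ℕ) :
    ∑ a ∈ A with max a.re.natAbs a.im.natAbs = k, 1 / √(a.norm : ℝ) ≤ if k = 0 then 0 else 8 := by
  split_ifs with hk
  · refine (Finset.sum_eq_zero fun a ha => ?_).le
    have h := (Finset.mem_filter.1 ha).2
    have h1 : a.re = 0 := by omega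
    have h2 : a.im = 0 := by omega
    simp [Zsqrtd.norm_def, h1, h2]
  · have hk0 : (0 : ℝ) < k := by exact_mod_cast Nat.pos_of_ne_zero hk
    have hc : (A.filter fun a => max a.re.natAbs a.im.natAbs = k).card ≤ 8 * k := by
      rw [← Int.card_box hk]
      refine Finset.card_le_card_of_injOn (fun a => (a.re, a.im)) (fun a ha => ?_)
        (fun a _ b _ h => Zsqrtd.ext (congrArg Prod.fst h) (congrArg Prod.snd h))
      exact Finset.mem_coe.2 (Int.mem_box.2 (Finset.mem_filter.1 ha).2)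
    refine (Finset.sum_le_card_nsmul _ _ (1 / (k : ℝ)) fun a ha => ?_).trans ?_
    · refine one_div_le_one_div_of_le hk0 (Real.le_sqrt_of_sq_le ?_)
      rw [← (Finset.mem_filter.1 ha).2]
      exact cru_sq_le a
    · rw [nsmul_eq_mul, mul_one_div, div_le_iff₀ hk0]
      exact_mod_cast hc

theorem cru_one (A : Finset ZI) (Z : ℝ) (hZ : 0 ≤ Z) (h : ∀ a ∈ A, (a.norm : ℝ) ≤ Z ^ 2) :
    ∑ a ∈ A, 1 / √(a.norm : ℝ) ≤ 8 * Z := by
  rw [← Finset.sum_fiberwise_of_maps_to (s := A) (t := Finset.range (⌊Z⌋₊ + 1))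
    (g := fun a => max a.re.natAbs a.im.natAbs) fun a ha => ?_]
  · refine (Finset.sum_le_sum fun k _ => cru_shell A k).trans ?_
    rw [Finset.sum_range_succ']
    simp only [Nat.add_eq_zero_iff, one_ne_zero, and_false, if_false, if_true, Finset.sum_const,
      Finset.card_range, nsmul_eq_mul, add_zero]
    linarith [Nat.floor_le hZ]
  · rw [Finset.mem_range, Nat.lt_succ_iff]
    exact Nat.le_floor (le_of_sq_le_sq ((cru_sq_le a).trans (h a ha)) hZ)

theorem p_CRU :
    S_CRU := by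
  refine ⟨cru_one, fun A => ?_⟩
  rcases A.eq_empty_or_nonempty with rfl | hA
  · simp
  have hc : (0 : ℝ) < A.card := by exact_mod_cast hA.card_pos
  have hs : 0 < √(A.card : ℝ) := Real.sqrt_pos.2 hc
  rw [← Finset.sum_filter_add_sum_filter_not A fun a => (a.norm : ℝ) ≤ √(A.card : ℝ) ^ 2]
  have h1 := cru_one (A.filter fun a => (a.norm : ℝ) ≤ √(A.card : ℝ) ^ 2) _ hs.le
    fun a ha => (Finset.mem_filter.1 ha).2
  have h2 : ∑ a ∈ A with ¬ (a.norm : ℝ) ≤ √(A.card : ℝ) ^ 2, 1 / √(a.norm : ℝ) ≤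
      √(A.card : ℝ) := by
    refine (Finset.sum_le_card_nsmul _ _ (1 / √(A.card : ℝ)) fun a ha => ?_).trans ?_
    · exact one_div_le_one_div_of_le hs
        (Real.le_sqrt_of_sq_le (not_le.1 (Finset.mem_filter.1 ha).2).le)
    · rw [nsmul_eq_mul, mul_one_div, div_le_iff₀ hs, Real.mul_self_sqrt hc.le]
      exact_mod_cast Finset.card_filter_le _ _
  linarith

end Pool.Agent.P.MP_e7a540_nt.BC
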