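import Pool.Agent.P.MP_e7a540_nt.BC.If

/-! Proof of DEC. -/

namespace Pool.Agent.P.MP_e7a540_nt.BC

open Complex Filter Topology CongruenceSubgroup
open UpperHalfPlane hiding I
open scoped Real ComplexConjugate MatrixGroups

noncomputable section

/-- the terms of the alternating series -/
def dec_u (y : ℝ) (k : ℕ) : ℝ := rexp (-y * (2 * k + 1) ^ 2) / (2 * k + 1)

/-- the terms with the multiples of `l` removed -/
def dec_g (l : ℕ) (y : ℝ) (k : ℕ) : ℝ := if l ∣ 2 * k + 1 then 0 else (-1) ^ k * dec_u y k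

theorem dec_u_pos (y : ℝ) (k : ℕ) : 0 < dec_u y k := by unfold dec_u; positivity

theorem dec_u_anti {y : ℝ} (hy : 0 < y) : Antitone (dec_u y) := by
  intro a b hab
  have h : (a : ℝ) ≤ b := by exact_mod_cast hab
  have ha : (0 : ℝ) ≤ a := by positivity
  unfold dec_u
  refine div_le_div₀ (Real.exp_pos _).le (Real.exp_le_exp.2 ?_) (by positivity) (by linarith)
  nlinarith [mul_le_mul_of_nonneg_left (pow_le_pow_left₀ (by positivity : (0 : ℝ) ≤ 2 * a + 1)
    (by linarith : (2 * a + 1 : ℝ) ≤ 2 * b + 1) 2) hy.le]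

theorem dec_u_sum {y : ℝ} (hy : 0 < y) : Summable (dec_u y) := by
  refine .of_nonneg_of_le (fun k => (dec_u_pos y k).le) (fun k => ?_)
    (summable_geometric_of_lt_one (Real.exp_pos (-y)).le (Real.exp_lt_one_iff.2 (by linarith)))
  have hk : (0 : ℝ) ≤ k := by positivity
  rw [← Real.exp_nat_mul, dec_u, div_le_iff₀ (by positivity)]
  have : rexp (-y * (2 * k + 1) ^ 2) ≤ rexp (k * -y) := Real.exp_le_exp.2 (by nlinarith [mul_nonneg hy.le hk, mul_nonneg hy.le (mul_nonneg hk hk)])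
  nlinarith [Real.exp_pos (k * -y)]

theorem dec_abs (y : ℝ) (k : ℕ) : |(-1) ^ k * dec_u y k| = dec_u y k := by
  rw [abs_mul, abs_pow, abs_neg, abs_one, one_pow, one_mul, abs_of_pos (dec_u_pos y k)]

theorem dec_g_sum (l : ℕ) {y : ℝ} (hy : 0 < y) : Summable (dec_g l y) := by
  refine .of_norm_bounded (dec_u_sum hy) fun k => ?_
  unfold dec_g
  split_ifs
  · simpa using (dec_u_pos y k).le
  · rw [Real.norm_eq_abs, dec_abs]

theorem dec_F {l : ℕ} (hl : 100 ≤ l) {y : ℝ} (hy : 1 / l ≤ y) :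
    (2 / 3 - 1 / 50) * rexp (-y) ≤ ∑' k, dec_g l y k ∧ ∑' k, dec_g l y k ≤ 2 * rexp (-y) := by
  have hl' : (100 : ℝ) ≤ l := by exact_mod_cast hl
  have hy0 : 0 < y := lt_of_lt_of_le (by positivity) hy
  have hs : Summable fun k => (-1 : ℝ) ^ k * dec_u y k :=
    .of_norm_bounded (dec_u_sum hy0) fun k => by rw [Real.norm_eq_abs, dec_abs]
  have h1 := (dec_u_anti hy0).alternating_series_le_tendsto hs.hasSum.tendsto_sum_nat 1
  have h2 := (dec_u_anti hy0).tendsto_le_alternating_series hs.hasSum.tendsto_sum_nat 0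
  have e0 : dec_u y 0 = rexp (-y) := by simp [dec_u]
  have e1 : dec_u y 1 ≤ rexp (-y) / 3 := by
    have : rexp (-y * (2 * (1 : ℕ) + 1) ^ 2) ≤ rexp (-y) := Real.exp_le_exp.2 (by push_cast; nlinarith)
    unfold dec_u
    rw [div_le_div_iff₀ (by positivity) (by positivity)]
    push_cast at this ⊢
    linarith
  simp only [Finset.sum_range_succ, Finset.range_zero, Finset.sum_empty, mul_one, mul_zero,
    pow_zero, pow_one, one_mul, zero_add, e0] at h1 h2
  have h3 : ‖∑' k, ((-1 : ℝ) ^ k * dec_u y k - dec_g l y k)‖ ≤ rexp (-y) / 100 * 2 := by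
    refine tsum_of_norm_bounded (hasSum_geometric_two.mul_left (rexp (-y) / 100)) fun k => ?_
    unfold dec_g
    split_ifs with h
    · have hk : (l : ℝ) ≤ 2 * k + 1 := by exact_mod_cast Nat.le_of_dvd (by omega) h
      have hk0 : (0 : ℝ) ≤ k := by positivity
      rw [sub_zero, Real.norm_eq_abs, dec_abs, dec_u, div_le_iff₀ (by positivity)]
      have a1 : 1 ≤ y * l := by rwa [div_le_iff₀ (by positivity)] at hy
      have a2 : 1 ≤ y * (2 * k + 1) := a1.trans (by gcongr)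
      have a3 : rexp (-y * (2 * k + 1) ^ 2) ≤ rexp (-y) * rexp (-1) ^ k := by
        rw [← Real.exp_nat_mul, ← Real.exp_add]
        refine Real.exp_le_exp.2 ?_
        nlinarith [mul_le_mul_of_nonneg_left a2 hk0, mul_nonneg hy0.le hk0]
      have a4 : rexp (-1) ≤ 1 / 2 := by
        rw [Real.exp_neg, ← one_div]
        exact one_div_le_one_div_of_le two_pos (by linarith [Real.add_one_le_exp 1])
      have a5 : rexp (-1) ^ k ≤ (1 / 2) ^ k := by gcongr
      have a6 : 0 < rexp (-y) * (1 / 2) ^ k := by positivity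
      have a7 := mul_le_mul_of_nonneg_left a5 (Real.exp_pos (-y)).le
      nlinarith
    · rw [sub_self, norm_zero]; positivity
  rw [hs.tsum_sub (dec_g_sum l hy0), Real.norm_eq_abs, abs_le] at h3
  have := Real.exp_pos (-y)
  constructor <;> linarith [h3.1, h3.2]

theorem dec_norm (a : ZI) : ‖(a : ℂ)‖ = √(a.norm : ℝ) := by
  rw [Complex.norm_def, GaussianInt.intCast_real_norm]

theorem dec_norm_div (a : ZI) : ‖(a : ℂ) / ((a.norm : ℤ) : ℂ)‖ = 1 / √(a.norm : ℝ) := by
  have h : (0 : ℝ) ≤ a.norm := by exact_mod_cast GaussianInt.norm_nonneg a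
  rw [norm_div, dec_norm, Complex.norm_intCast, abs_of_nonneg h, one_div, Real.sqrt_div_self]

theorem dec_sum (hPOI : S_POI) {y : ℝ} (hy : 0 < y) :
    Summable fun a : ZI => rexp (-y * a.norm) / √(a.norm : ℝ) := by
  refine .of_nonneg_of_le (fun a => by positivity) (fun a => ?_) (hPOI.1 0 y hy)
  rw [zero_add, dec_norm, ← GaussianInt.intCast_real_norm]
  rcases (GaussianInt.norm_nonneg a).eq_or_lt with h | h
  · simp [← h]
  · have h1 : (1 : ℝ) ≤ a.norm := by exact_mod_cast h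
    have h2 : 1 ≤ √(a.norm : ℝ) := Real.one_le_sqrt.2 h1
    rw [div_le_iff₀ (by positivity)]
    nlinarith [Real.exp_pos (-y * a.norm), mul_le_mul h2 h2 zero_le_one (by positivity)]

theorem dec_pr {a : ZI} (ha : Pr a) (k : ℕ) : Pr ((-1) ^ k * (2 * k + 1) * a) := by
  have h4 : (⟨2, 2⟩ : ZI) ∣ 4 := ⟨⟨1, -1⟩, by decide⟩
  have h : (4 : ZI) ∣ (-1) ^ k * (2 * k + 1) - 1 := by
    obtain ⟨j, rfl | rfl⟩ := Nat.even_or_odd' k
    · exact ⟨j, by rw [pow_mul]; push_cast; ring⟩
    · exact ⟨-j - 1, by rw [pow_succ, pow_mul]; push_cast; ring⟩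
  have e : (-1) ^ k * (2 * k + 1) * a - 1 = ((-1) ^ k * (2 * k + 1) - 1) * a + (a - 1) := by ring
  unfold Pr
  rw [e]
  exact dvd_add ((h4.trans h).mul_right a) ha

/-- primary elements are odd multiples of primitive ones -/
def dec_eq (hPRIM : S_PRIM) : {a : ZI // PQ a} × ℕ ≃ {a : ZI // Pr a} :=
  .ofBijective (fun p => ⟨(-1) ^ p.2 * (2 * p.2 + 1) * p.1, dec_pr p.1.2.1 p.2⟩) <| by
    constructor
    · rintro ⟨⟨a, ha⟩, k⟩ ⟨⟨b, hb⟩, j⟩ h
      have h' : (-1) ^ k * (2 * k + 1) * a = (-1) ^ j * (2 * j + 1) * b := congrArg Subtype.val h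
      have := (hPRIM.2.2 _ (dec_pr ha.1 k)).unique (y₁ := (2 * k + 1, a)) (y₂ := (2 * j + 1, b))
        ⟨by omega, ha, by rw [show (2 * k + 1) / 2 = k by omega]; push_cast; rfl⟩
        ⟨by omega, hb, by rw [show (2 * j + 1) / 2 = j by omega, h']; push_cast; rfl⟩
      obtain ⟨h1, rfl⟩ := Prod.mk.inj this
      obtain rfl : k = j := by omega
      rfl
    · rintro ⟨b, hb⟩
      obtain ⟨⟨n, a⟩, ⟨h1, h2, h3⟩, -⟩ := hPRIM.2.2 b hb
      obtain ⟨k, rfl⟩ : ∃ k, n = 2 * k + 1 := ⟨n / 2, by simp only at h1; omega⟩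
      refine ⟨(⟨a, h2⟩, k), Subtype.ext ?_⟩
      simp only [show (2 * k + 1) / 2 = k by omega] at h3
      refine Eq.trans ?_ h3.symm
      push_cast; rfl

theorem dec_term (hEV : S_EV) {l : ℕ} (hp : l.Prime) (h2 : l ≠ 2) {χ : CH l} (hχ : χ ∈ XX l)
    (t : ℝ) (a b : ZI) (k : ℕ) (hb : b = (-1) ^ k * (2 * k + 1) * a) :
    ev χ b * (b / ((b.norm : ℤ) : ℂ)) * rexp (-t * (b.norm : ℤ)) =
      ev χ a * (a / ((a.norm : ℤ) : ℂ)) * dec_g l (t * a.norm) k := by
  obtain ⟨e1, -, e3, -⟩ := hEV l hp h2 χ hχ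
  have hb' : b = (((-1) ^ k * (2 * k + 1) : ℤ) : ZI) * a := by rw [hb]; push_cast; rfl
  have hs : ((-1 : ℤ) ^ k) ^ 2 = 1 := by rw [← pow_mul, mul_comm, pow_mul]; simp
  have hn : b.norm = (2 * k + 1) ^ 2 * a.norm := by
    rw [hb', Zsqrtd.norm_mul, Zsqrtd.norm_intCast, ← sq, mul_pow, hs, one_mul]
  unfold dec_g
  split_ifs with h
  · rw [e3 b fun hc => ?_]
    · simp
    · obtain ⟨m, hm⟩ := h
      have hd : (l : ZI) ∣ b := ⟨(-1) ^ k * m * a, by
        have : (2 * k + 1 : ZI) = l * m := by exact_mod_cast congrArg (Nat.cast : ℕ → ZI) hm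
        rw [hb, this]; ring⟩
      have hu := hc.isUnit_of_dvd' hd dvd_rfl
      rw [← Zsqrtd.norm_eq_one_iff, Zsqrtd.norm_natCast, Int.natAbs_mul, Int.natAbs_natCast] at hu
      exact hp.one_lt.ne' (Nat.eq_one_of_mul_eq_one_right hu)
  · have h' : ¬ (l : ℤ) ∣ (-1) ^ k * (2 * k + 1) := fun hd => h (by
      have := Int.natAbs_dvd_natAbs.2 hd
      rw [Int.natAbs_mul, Int.natAbs_pow] at this
      simpa [show (2 * (k : ℤ) + 1).natAbs = 2 * k + 1 by omega] using this)
    have hk : (2 * k + 1 : ℂ) ≠ 0 := by exact_mod_cast (by omega : 2 * k + 1 ≠ 0)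
    have hev : ev χ b = ev χ a := by rw [hb', e1, hχ _ h', one_mul]
    have hbc : (b : ℂ) = (-1) ^ k * (2 * k + 1) * a := by
      rw [hb', map_mul, map_intCast]; push_cast; rfl
    rw [hev, hn, hbc, dec_u]
    push_cast
    rw [show (-(t : ℂ) * ((2 * k + 1) ^ 2 * (a.norm : ℤ))) = -(t * (a.norm : ℤ)) * (2 * k + 1) ^ 2 by
      ring]
    field_simp

theorem p_DEC (hEV : S_EV) (hPRIM : S_PRIM) (hPOI : S_POI) :
    S_DEC := by
  classical
  intro l hp hl
  have h2 : l ≠ 2 := by omega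
  have hl' : (100 : ℝ) ≤ l := by exact_mod_cast hl
  set t : ℝ := 2 * π / √(32 * l ^ 2) with ht
  have hq : 0 < √(32 * l ^ 2 : ℝ) := by positivity
  have t1 : 1 / l ≤ t := by
    rw [ht, div_le_div_iff₀ (by positivity) hq, one_mul]
    exact (Real.sqrt_le_iff.2 ⟨by positivity, by nlinarith⟩ : _ ≤ 6 * (l : ℝ)).trans
      (by nlinarith [Real.pi_gt_three])
  have t2 : t ≤ 1 / 50 := by
    rw [ht, div_le_div_iff₀ hq (by positivity), one_mul]
    refine le_trans ?_ (Real.le_sqrt_of_sq_le (by nlinarith) : 4 * (l : ℝ) ≤ _)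
    nlinarith [Real.pi_le_four]
  have t0 : 0 < t := lt_of_lt_of_le (by positivity) t1
  have hN : ∀ a, PQ a → (1 : ℝ) ≤ a.norm := fun a ha => by
    have : 0 < a.norm := GaussianInt.norm_pos.2 (by
      rintro rfl
      exact not_isCoprime_zero_zero ha.2)
    exact_mod_cast this
  refine ⟨(∑' k, dec_g l t k : ℝ),
    fun a => a / ((a.norm : ℤ) : ℂ) * (∑' k, dec_g l (t * a.norm) k : ℝ), ?_, fun a ha => ?_, ?_,
    fun χ hχ => ?_⟩
  · rw [Complex.norm_real, Real.norm_eq_abs]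
    refine le_trans ?_ (le_abs_self _)
    nlinarith [(dec_F hl t1).1, Real.add_one_le_exp (-t)]
  · have h1 := hN a ha.1
    have h3 : (a.norm : ℝ) / l ≤ t * a.norm := by
      rw [div_eq_inv_mul, ← one_div]; gcongr
    have h4 := dec_F hl (y := t * a.norm) (le_trans (by gcongr) h3)
    have h5 : rexp (-(t * a.norm)) ≤ rexp (-(a.norm : ℝ) / l) :=
      Real.exp_le_exp.2 (by rw [neg_div]; linarith)
    rw [norm_mul, dec_norm_div, Complex.norm_real, Real.norm_eq_abs,
      abs_of_nonneg (le_trans (by positivity) h4.1), one_div, inv_mul_eq_div, ← mul_div_assoc]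
    gcongr
    linarith [h4.2]
  · exact ((dec_sum hPOI (y := 1 / l) (by positivity)).congr fun a => by
      rw [show -(1 / (l : ℝ)) * a.norm = -(a.norm : ℝ) / l by ring]).subtype (PP l)
  · obtain ⟨-, -, e3, -, e5, -⟩ := hEV l hp h2 χ hχ
    have hs : Summable fun a : {a : ZI // Pr a} =>
        ev χ a * ((a : ZI) / (((a : ZI).norm : ℤ) : ℂ)) * rexp (-t * ((a : ZI).norm : ℤ)) := by
      refine .of_norm_bounded ((dec_sum hPOI t0).subtype {a | Pr a}) fun a => ?_
      rw [norm_mul, norm_mul, dec_norm_div, Complex.norm_real, Real.norm_eq_abs,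
        abs_of_pos (Real.exp_pos _), mul_assoc, one_div, inv_mul_eq_div]
      exact mul_le_of_le_one_left (by positivity) (e5 _)
    set f : ZI → ℂ := fun a => ev χ a * (a / ((a.norm : ℤ) : ℂ) *
      (∑' k, dec_g l (t * a.norm) k : ℝ)) with hf
    have h1 : HasSum (fun a : {a : ZI // PQ a} => f a) (sm χ t) :=
      ((dec_eq hPRIM).hasSum_iff.2 hs.hasSum).prod_fiberwise fun a => by
        have h3 := (Complex.hasSum_ofReal.2 (dec_g_sum l (y := t * a.1.norm)
          (mul_pos t0 (by linarith [hN a.1 a.2]))).hasSum).mul_left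
          (ev χ a.1 * (a.1 / ((a.1.norm : ℤ) : ℂ)))
        rw [mul_assoc] at h3
        exact (funext fun k => dec_term hEV hp h2 hχ t a.1 _ k rfl) ▸ h3
    have h3 : HasSum (Set.indicator {a | PQ a} f) (sm χ t) := hasSum_subtype_iff_indicator.1 h1
    have h4 : f 1 = (∑' k, dec_g l t k : ℝ) := by
      have : ev χ 1 = 1 := by simp [ev]
      simp [hf, this]
    have h5 : PQ 1 := ⟨by simp [Pr], isCoprime_one_left⟩
    have h6 : Set.indicator (PP l) f =
        fun a => Set.indicator {a | PQ a} f a - if a = 1 then f 1 else 0 := by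
      funext a
      by_cases a1 : a = 1
      · subst a1
        rw [Set.indicator_of_notMem fun h => h.2.1 rfl,
          Set.indicator_of_mem (show (1 : ZI) ∈ {a | PQ a} from h5), if_pos rfl, sub_self]
      rw [if_neg a1, sub_zero]
      by_cases a2 : PQ a
      · rw [Set.indicator_of_mem (show a ∈ {a | PQ a} from a2)]
        by_cases a3 : IsCoprime a (l : ZI)
        · exact Set.indicator_of_mem (show a ∈ PP l from ⟨a2, a1, a3⟩) f
        · rw [Set.indicator_of_notMem fun h => a3 h.2.2, hf]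
          simp only [e3 a a3, zero_mul]
      · rw [Set.indicator_of_notMem fun h => a2 h.1,
          Set.indicator_of_notMem (show a ∉ {a | PQ a} from a2)]
    have h7 : HasSum (Set.indicator (PP l) f) (sm χ t - f 1) := by
      rw [h6]
      exact h3.sub (hasSum_ite_eq 1 (f 1))
    rw [← h4]
    exact (hasSum_subtype_iff_indicator (f := f) (s := PP l)).2 h7

end

end Pool.Agent.P.MP_e7a540_nt.BC
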