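import Pool.Agent.P.MP_e7a540_nt.BC.If

/-! Proof of EN. -/

namespace Pool.Agent.P.MP_e7a540_nt.BC

open Complex Filter Topology CongruenceSubgroup
open UpperHalfPlane hiding I
open scoped Real ComplexConjugate MatrixGroups

theorem en_cop {a : ZI} (h : PQ a) : IsCoprime a (star a) := by
  obtain ⟨⟨c, hc⟩, u, v, huv⟩ := h
  have h1 : a.re = 1 + 2 * (c.re - c.im) := by
    have := congrArg Zsqrtd.re hc
    simp at this; linarith
  have h2 : a.im = 2 * (c.re + c.im) := by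
    have := congrArg Zsqrtd.im hc
    simp at this; linarith
  set s := c.re - c.im
  set t := c.re + c.im
  refine ⟨star a + ⟨-(2 * s ^ 2 + 2 * s + 2 * t ^ 2) * u, (2 * s ^ 2 + 2 * s + 2 * t ^ 2) * v⟩,
    ⟨-(2 * s ^ 2 + 2 * s + 2 * t ^ 2) * u, -(2 * s ^ 2 + 2 * s + 2 * t ^ 2) * v⟩, ?_⟩
  rw [h1, h2] at huv
  ext
  · simp [h1, h2]
    linear_combination (-2 * (2 * s ^ 2 + 2 * s + 2 * t ^ 2)) * huv
  · simp [h1, h2]
    ring

theorem en_dvd {x y : ZI} (h : x ∣ y) (hn : x.norm = y.norm) (h0 : x.norm ≠ 0) :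
    ∃ e : ZI, e.norm = 1 ∧ y = x * e := by
  obtain ⟨e, rfl⟩ := h
  refine ⟨e, ?_, rfl⟩
  rw [Zsqrtd.norm_mul] at hn
  exact mul_left_cancel₀ h0 (by rw [← hn, mul_one])

theorem en_unit {a b e : ZI} (ha : Pr a) (hb : Pr b) (he : e.norm = 1) (h : b = e * a) : b = a := by
  have h1 : (⟨2, 2⟩ : ZI) ∣ e - 1 := by
    have : e - 1 = (b - 1) - e * (a - 1) := by rw [h]; ring
    rw [this]
    exact dvd_sub hb (Dvd.dvd.mul_left ha e)
  obtain ⟨c, hc⟩ := h1
  have h2 : e.re = 1 + 2 * (c.re - c.im) := by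
    have := congrArg Zsqrtd.re hc
    simp at this; linarith
  have h3 : e.im = 2 * (c.re + c.im) := by
    have := congrArg Zsqrtd.im hc
    simp at this; linarith
  rw [Zsqrtd.norm_def] at he
  have h4 : c.re + c.im = 0 := by
    by_contra hne
    have : 0 < (c.re + c.im) ^ 2 := by positivity
    rw [h3] at he
    nlinarith [mul_self_nonneg e.re]
  have h5 : e.im = 0 := by rw [h3, h4]; rfl
  rw [h5] at he
  have h6 : e.re = 1 := by
    have h7 : (e.re - 1) * (e.re + 1) = 0 := by linarith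
    rcases mul_eq_zero.mp h7 with h8 | h8
    · linarith
    · omega
  have : e = 1 := by ext <;> simp [h5, h6]
  rw [h, this, one_mul]

theorem en_key {a a0 : ZI} (hn : a.norm = a0.norm) (h0 : a0.norm ≠ 0) :
    ∃ w e : ZI, e.norm = 1 ∧ a0 = EuclideanDomain.gcd a a0 * w ∧
      a * e = EuclideanDomain.gcd a a0 * star w := by
  obtain ⟨v, hv⟩ := EuclideanDomain.gcd_dvd_left a a0
  obtain ⟨w, hw⟩ := EuclideanDomain.gcd_dvd_right a a0
  have hb := EuclideanDomain.gcd_eq_gcd_ab a a0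
  set u := EuclideanDomain.gcd a a0
  have hu : u.norm ≠ 0 := by
    intro h; apply h0; rw [hw, Zsqrtd.norm_mul, h, zero_mul]
  have hu0 : u ≠ 0 := by rintro h; apply hu; rw [h]; simp
  have hc : IsCoprime v w := by
    refine ⟨EuclideanDomain.gcdA a a0, EuclideanDomain.gcdB a a0, mul_left_cancel₀ hu0 ?_⟩
    linear_combination -hb - EuclideanDomain.gcdA a a0 * hv - EuclideanDomain.gcdB a a0 * hw
  have hvw : v.norm = w.norm := by
    apply mul_left_cancel₀ hu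
    rw [← Zsqrtd.norm_mul, ← Zsqrtd.norm_mul, ← hv, ← hw, hn]
  have hv0 : v.norm ≠ 0 := by
    intro h; apply h0; rw [hw, Zsqrtd.norm_mul, ← hvw, h, mul_zero]
  have hd : v ∣ star w := by
    apply hc.dvd_of_dvd_mul_left
    rw [← Zsqrtd.norm_eq_mul_conj, ← hvw, Zsqrtd.norm_eq_mul_conj]
    exact dvd_mul_right _ _
  obtain ⟨e, he, h⟩ := en_dvd hd (by rw [Zsqrtd.norm_conj, hvw]) hv0
  exact ⟨w, e, he, hw, by rw [h, ← mul_assoc, ← hv]⟩

theorem en_ne {a : ZI} (h : Pr a) : 0 < a.norm := by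
  obtain ⟨c, hc⟩ := h
  have h1 : a.re = 1 + 2 * (c.re - c.im) := by
    have := congrArg Zsqrtd.re hc
    simp at this; linarith
  have : a.re ≠ 0 := by omega
  rw [Zsqrtd.norm_def]
  nlinarith [mul_self_nonneg a.im, mul_self_pos.mpr this]

theorem en_norm (k : ℕ) (S : Finset ZI) (hS : ∀ a ∈ S, PQ a ∧ a.norm.natAbs = k) :
    S.card ≤ k.divisors.card := by
  rcases S.eq_empty_or_nonempty with rfl | ⟨a0, h0⟩
  · simp
  have hk : ∀ a ∈ S, a.norm = k := fun a ha => by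
    rw [← (hS a ha).2, Int.natAbs_of_nonneg (en_ne (hS a ha).1.1).le]
  have hp : a0.norm ≠ 0 := (en_ne (hS a0 h0).1.1).ne'
  refine Finset.card_le_card_of_injOn (fun a => (EuclideanDomain.gcd a a0).norm.natAbs) ?_ ?_
  · intro a _
    obtain ⟨w, hw⟩ := EuclideanDomain.gcd_dvd_right a a0
    simp only [Finset.mem_coe, Nat.mem_divisors]
    rw [← (hS a0 h0).2]
    refine ⟨⟨w.norm.natAbs, ?_⟩, Int.natAbs_ne_zero.mpr hp⟩
    rw [← Int.natAbs_mul, ← Zsqrtd.norm_mul, ← hw]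
  · intro a ha b hb hab
    obtain ⟨w, e, he, hw, h1⟩ := en_key ((hk a ha).trans (hk a0 h0).symm) hp
    obtain ⟨w', e', he', hw', h1'⟩ := en_key ((hk b hb).trans (hk a0 h0).symm) hp
    set u := EuclideanDomain.gcd a a0
    set u' := EuclideanDomain.gcd b a0
    have hn : u.norm = u'.norm := by
      have : u.norm.natAbs = u'.norm.natAbs := hab
      have p1 := GaussianInt.norm_nonneg u
      have p2 := GaussianInt.norm_nonneg u'
      omega
    have hu : u.norm ≠ 0 := by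
      intro h; apply hp; rw [hw, Zsqrtd.norm_mul, h, zero_mul]
    have hu0 : u ≠ 0 := by rintro h; apply hu; rw [h]; simp
    have hc : IsCoprime u (star u') := by
      refine IsCoprime.mono ⟨w, hw⟩ ⟨star w', ?_⟩ (en_cop (hS a0 h0).1)
      rw [← star_mul', ← hw']
    have hd : u ∣ u' := by
      apply hc.dvd_of_dvd_mul_right
      rw [← Zsqrtd.norm_eq_mul_conj, ← hn, Zsqrtd.norm_eq_mul_conj]
      exact dvd_mul_right _ _
    obtain ⟨d, hd1, hd⟩ := en_dvd hd hn hu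
    have hww : w = d * w' := by
      apply mul_left_cancel₀ hu0
      rw [← hw, ← mul_assoc, ← hd, ← hw']
    have q1 : d * star d = 1 := by rw [← Zsqrtd.norm_eq_mul_conj, hd1]; rfl
    have q2 : e' * star e' = 1 := by rw [← Zsqrtd.norm_eq_mul_conj, he']; rfl
    rw [hww, star_mul'] at h1
    rw [hd] at h1'
    refine (en_unit (hS a ha).1.1 (hS b hb).1.1 (e := d * d * e * star e') ?_ ?_).symm
    · simp [Zsqrtd.norm_mul, hd1, he, he']
    · linear_combination (-b) * q2 + star e' * h1' - d * d * star e' * h1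
        - d * u * star w' * star e' * q1

theorem en_div (A : Finset ZI) (hA : ∀ a ∈ A, PQ a) (β : ZI) (hβ : β.norm ≠ 0)
    (hd : ∀ a ∈ A, a ∣ β) : A.card ≤ β.norm.natAbs.divisors.card ^ 2 := by
  rw [sq]
  refine Finset.card_le_mul_card_image_of_maps_to (f := fun a : ZI => a.norm.natAbs) ?_ _ ?_
  · intro a ha
    obtain ⟨c, hc⟩ := hd a ha
    refine Nat.mem_divisors.mpr ⟨⟨c.norm.natAbs, ?_⟩, Int.natAbs_ne_zero.mpr hβ⟩
    rw [← Int.natAbs_mul, ← Zsqrtd.norm_mul, ← hc]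
  · intro k hk
    refine (en_norm k _ ?_).trans (Finset.card_le_card ?_)
    · intro a ha
      exact ⟨hA a (Finset.mem_filter.mp ha).1, (Finset.mem_filter.mp ha).2⟩
    · exact Nat.divisors_subset_of_dvd (Nat.mem_divisors.mp hk).2 (Nat.mem_divisors.mp hk).1

theorem en_pr {a b : ZI} (ha : Pr a) (hb : Pr b) : Pr (a * b) := by
  have : a * b - 1 = (a - 1) * b + (b - 1) := by ring
  unfold Pr
  rw [this]
  exact dvd_add (Dvd.dvd.mul_right ha b) hb

theorem en_har (n : ℕ) (hn : 0 < n) :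
    ∑ m ∈ Finset.Icc 1 (n ^ 2), (1 / m : ℝ) ≤ 201 * (n : ℝ) ^ (1 / 100 : ℝ) := by
  have h1 := harmonic_le_one_add_log (n ^ 2)
  rw [harmonic_eq_sum_Icc] at h1
  push_cast at h1
  have h0 : (1 : ℝ) ≤ n := by exact_mod_cast hn
  have h2 := Real.log_le_rpow_div (x := n) (ε := 1 / 100) (by linarith) (by norm_num)
  have h3 : (1 : ℝ) ≤ (n : ℝ) ^ (1 / 100 : ℝ) := Real.one_le_rpow h0 (by norm_num)
  rw [Real.log_pow] at h1
  simp only [one_div] at h1 h2 h3 ⊢
  push_cast at h1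
  rw [div_inv_eq_mul] at h2
  linarith

theorem p_EN (hPRIM : S_PRIM) (hSH : S_SH) (hARI : S_ARI) (hCRU : S_CRU) :
    S_EN := by
  classical
  obtain ⟨C, hC⟩ := hARI.1 (1 / 200) (by norm_num)
  have hC1 : 1 ≤ C := by simpa using hC 1
  refine ⟨43 * C, fun l n hl hl2 hn hnl A hA => ?_⟩
  have hn1 : (1 : ℝ) ≤ n := by exact_mod_cast hn
  have hex : ∀ p : ZI × ZI, ∃ q : ℕ × ZI, Pr (p.1 * p.2) →
      q.1 % 2 = 1 ∧ PQ q.2 ∧ p.1 * p.2 = (-1) ^ (q.1 / 2) * q.1 * q.2 := by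
    intro p
    by_cases h : Pr (p.1 * p.2)
    · obtain ⟨q, hq, -⟩ := hPRIM.2.2 _ h
      exact ⟨q, fun _ => hq⟩
    · exact ⟨(0, 0), fun h' => absurd h' h⟩
  choose F hF using hex
  have hP : ∀ p ∈ A ×ˢ A, (F p).1 % 2 = 1 ∧ PQ (F p).2 ∧
      p.1 * p.2 = (-1) ^ ((F p).1 / 2) * (F p).1 * (F p).2 ∧
      p.1.norm * p.2.norm = ((F p).1 : ℤ) ^ 2 * (F p).2.norm ∧
      p.1.norm * p.2.norm ≤ (n : ℤ) ^ 3 := by
    intro p hp
    obtain ⟨h1, h2⟩ := Finset.mem_product.mp hp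
    obtain ⟨q1, q2, q3⟩ := hF p (en_pr (hA _ h1).1.1.1 (hA _ h2).1.1.1)
    refine ⟨q1, q2, q3, ?_, ?_⟩
    · rw [← Zsqrtd.norm_mul, q3, Zsqrtd.norm_mul, Zsqrtd.norm_mul, Zsqrtd.norm_natCast]
      rcases neg_one_pow_eq_or ZI ((F p).1 / 2) with h | h <;> rw [h] <;> simp [sq]
    · nlinarith [(hA _ h1).2.2, (hA _ h2).2.2, sq_nonneg (p.1.norm - p.2.norm)]
  set B := (A ×ˢ A).image fun p => (F p).2 with hB
  have hl3 : (n : ℤ) ^ 3 < l := by exact_mod_cast hnl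
  have hBc : B.card ≤ n := by
    refine hSH.2 l n hl hl2 hn B fun b hb => ?_
    obtain ⟨p, hp, rfl⟩ := Finset.mem_image.mp hb
    obtain ⟨h1, h2⟩ := Finset.mem_product.mp hp
    obtain ⟨q1, q2, q3, q4, q5⟩ := hP p hp
    have hm : (1 : ℤ) ≤ (F p).1 := by omega
    have hb0 := en_ne q2.1
    refine ⟨q2, ?_, ?_, by nlinarith [one_le_pow₀ (n := 2) hm]⟩
    · have := IsCoprime.mul_left (hA _ h1).1.2.2 (hA _ h2).1.2.2
      rw [q3] at this
      exact this.of_mul_left_right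
    · have h3 : (l : ℤ) ∣ ((p.1 * p.2) ^ n).im := by
        rw [mul_pow, Zsqrtd.im_mul]
        exact dvd_add (Dvd.dvd.mul_left (hA _ h2).2.1 _) (Dvd.dvd.mul_right (hA _ h1).2.1 _)
      have h4 : (p.1 * p.2) ^ n =
          ((((-1) ^ ((F p).1 / 2) * (F p).1) ^ n : ℤ) : ZI) * (F p).2 ^ n := by
        rw [q3, mul_pow]; push_cast; rfl
      rw [h4, Zsqrtd.im_mul, Zsqrtd.re_intCast, Zsqrtd.im_intCast, zero_mul, add_zero] at h3
      have hlp : Prime (l : ℤ) := Nat.prime_iff_prime_int.mp hl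
      refine (hlp.dvd_or_dvd h3).resolve_left fun h => ?_
      have h5 := hlp.dvd_of_dvd_pow h
      have h6 : (l : ℤ) ∣ (F p).1 := by
        rcases neg_one_pow_eq_or ℤ ((F p).1 / 2) with h7 | h7 <;> rw [h7] at h5 <;> simpa using h5
      have := Int.le_of_dvd (by omega) h6
      nlinarith
  set g : ℕ × ZI → ℝ := fun q => 1 / (q.1 : ℝ) * (1 / √(q.2.norm : ℝ)) with hg
  have hg0 : ∀ q, 0 ≤ g q := fun q => by simp only [hg]; positivity
  have hK : ∀ q ∈ (A ×ˢ A).image F,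
      (((A ×ˢ A).filter fun p => F p = q).card : ℝ) ≤ C ^ 2 * (n : ℝ) ^ (3 / 100 : ℝ) := by
    intro q hq
    obtain ⟨p0, hp0, rfl⟩ := Finset.mem_image.mp hq
    obtain ⟨h1, h2⟩ := Finset.mem_product.mp hp0
    have hpos := en_ne (en_pr (hA _ h1).1.1.1 (hA _ h2).1.1.1)
    have e1 : ∀ p ∈ (A ×ˢ A).filter fun p => F p = F p0, p.1 * p.2 = p0.1 * p0.2 := by
      intro p hp
      obtain ⟨h3, h4⟩ := Finset.mem_filter.mp hp
      rw [(hP p h3).2.2.1, (hP p0 hp0).2.2.1, h4]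
    have e2 : ((A ×ˢ A).filter fun p => F p = F p0).card ≤
        (A.filter fun a => a ∣ p0.1 * p0.2).card := by
      refine Finset.card_le_card_of_injOn Prod.fst ?_ ?_
      · intro p hp
        exact Finset.mem_filter.mpr ⟨(Finset.mem_product.mp (Finset.mem_filter.mp hp).1).1,
          ⟨p.2, (e1 p hp).symm⟩⟩
      · intro p hp p' hp' h
        have h5 : p.1 ≠ 0 := by
          intro h0
          have := en_ne (hA _ (Finset.mem_product.mp (Finset.mem_filter.mp hp).1).1).1.1.1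
          rw [h0] at this; simp at this
        refine Prod.ext h (mul_left_cancel₀ h5 ?_)
        rw [e1 p hp, h, e1 p' hp']
    have e3 := en_div (A.filter fun a => a ∣ p0.1 * p0.2)
      (fun a ha => (hA _ (Finset.mem_filter.mp ha).1).1.1) _ hpos.ne'
      (fun a ha => (Finset.mem_filter.mp ha).2)
    have e4 : (((p0.1 * p0.2).norm.natAbs : ℕ) : ℝ) ≤ (n : ℝ) ^ 3 := by
      have : (((p0.1 * p0.2).norm.natAbs : ℕ) : ℤ) ≤ (n : ℤ) ^ 3 := by
        rw [Int.natAbs_of_nonneg hpos.le, Zsqrtd.norm_mul]; exact (hP p0 hp0).2.2.2.2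
      exact_mod_cast this
    have e5 : ((p0.1 * p0.2).norm.natAbs.divisors.card : ℝ) ≤ C * (n : ℝ) ^ (3 / 200 : ℝ) := by
      refine (hC _).trans (mul_le_mul_of_nonneg_left ?_ (by linarith))
      refine (Real.rpow_le_rpow (by positivity) e4 (by norm_num)).trans (le_of_eq ?_)
      rw [← Real.rpow_natCast, ← Real.rpow_mul (by linarith)]
      norm_num
    calc (((A ×ˢ A).filter fun p => F p = F p0).card : ℝ)
        ≤ ((p0.1 * p0.2).norm.natAbs.divisors.card : ℝ) ^ 2 := by exact_mod_cast e2.trans e3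
      _ ≤ (C * (n : ℝ) ^ (3 / 200 : ℝ)) ^ 2 := by gcongr
      _ = _ := by
        rw [mul_pow, ← Real.rpow_natCast ((n : ℝ) ^ _), ← Real.rpow_mul (by linarith)]
        norm_num
  have hsq : (∑ a ∈ A, 1 / √(a.norm : ℝ)) ^ 2 = ∑ p ∈ A ×ˢ A, g (F p) := by
    rw [sq, Finset.sum_mul_sum, ← Finset.sum_product']
    refine Finset.sum_congr rfl fun p hp => ?_
    have q4 : (p.1.norm : ℝ) * p.2.norm = ((F p).1 : ℝ) ^ 2 * (F p).2.norm := by
      exact_mod_cast (hP p hp).2.2.2.1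
    have h0 : (0 : ℝ) ≤ p.1.norm := by exact_mod_cast GaussianInt.norm_nonneg _
    simp only [hg]
    rw [one_div_mul_one_div, one_div_mul_one_div, ← Real.sqrt_mul h0, q4,
      Real.sqrt_mul (by positivity), Real.sqrt_sq (by positivity)]
  have hsub : (A ×ˢ A).image F ⊆ Finset.Icc 1 (n ^ 2) ×ˢ B := by
    intro q hq
    obtain ⟨p, hp, rfl⟩ := Finset.mem_image.mp hq
    obtain ⟨q1, q2, q3, q4, q5⟩ := hP p hp
    refine Finset.mem_product.mpr ⟨Finset.mem_Icc.mpr ⟨by omega, ?_⟩, Finset.mem_image_of_mem _ hp⟩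
    have hb0 := en_ne q2.1
    have hn' : (1 : ℤ) ≤ n := by exact_mod_cast hn
    have h1 : ((F p).1 : ℤ) ^ 2 ≤ ((n : ℤ) ^ 2) ^ 2 := by
      have : (n : ℤ) ^ 3 ≤ (n : ℤ) ^ 4 := pow_le_pow_right₀ hn' (by norm_num)
      nlinarith [sq_nonneg ((F p).1 : ℤ)]
    have h2 := (pow_le_pow_iff_left₀ (by positivity) (by positivity) two_ne_zero).mp h1
    exact_mod_cast h2
  have hB2 : ∑ b ∈ B, 1 / √(b.norm : ℝ) ≤ 9 * (n : ℝ) ^ (1 / 2 : ℝ) := by
    refine (hCRU.2 B).trans ?_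
    rw [← Real.sqrt_eq_rpow]
    gcongr
  have hfin : (∑ a ∈ A, 1 / √(a.norm : ℝ)) ^ 2 ≤ (43 * C * (n : ℝ) ^ (27 / 100 : ℝ)) ^ 2 := by
    rw [hsq, Finset.sum_comp g F]
    calc ∑ q ∈ (A ×ˢ A).image F, ((A ×ˢ A).filter fun p => F p = q).card • g q
        ≤ ∑ q ∈ (A ×ˢ A).image F, C ^ 2 * (n : ℝ) ^ (3 / 100 : ℝ) * g q := by
          refine Finset.sum_le_sum fun q hq => ?_
          rw [nsmul_eq_mul]
          exact mul_le_mul_of_nonneg_right (hK q hq) (hg0 q)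
      _ ≤ C ^ 2 * (n : ℝ) ^ (3 / 100 : ℝ) * ∑ q ∈ Finset.Icc 1 (n ^ 2) ×ˢ B, g q := by
          rw [← Finset.mul_sum]
          exact mul_le_mul_of_nonneg_left
            (Finset.sum_le_sum_of_subset_of_nonneg hsub fun q _ _ => hg0 q) (by positivity)
      _ ≤ C ^ 2 * (n : ℝ) ^ (3 / 100 : ℝ) *
          ((201 * (n : ℝ) ^ (1 / 100 : ℝ)) * (9 * (n : ℝ) ^ (1 / 2 : ℝ))) := by
          refine mul_le_mul_of_nonneg_left ?_ (by positivity)
          rw [Finset.sum_product, ← Finset.sum_mul_sum (f := fun m : ℕ => 1 / (m : ℝ))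
            (g := fun b : ZI => 1 / √(b.norm : ℝ))]
          exact mul_le_mul (en_har n hn) hB2 (Finset.sum_nonneg fun _ _ => by positivity)
            (by positivity)
      _ = 1809 * (C ^ 2 * ((n : ℝ) ^ (27 / 100 : ℝ)) ^ 2) := by
          rw [← Real.rpow_natCast ((n : ℝ) ^ _), ← Real.rpow_mul (by linarith)]
          have : (27 / 100 * (2 : ℕ) : ℝ) = 3 / 100 + 1 / 100 + 1 / 2 := by norm_num
          rw [this, Real.rpow_add (by linarith), Real.rpow_add (by linarith)]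
          ring
      _ ≤ _ := by
          have : 0 ≤ C ^ 2 * ((n : ℝ) ^ (27 / 100 : ℝ)) ^ 2 := by positivity
          nlinarith
  exact (pow_le_pow_iff_left₀ (Finset.sum_nonneg fun _ _ => by positivity) (by positivity)
    two_ne_zero).mp hfin

end Pool.Agent.P.MP_e7a540_nt.BC
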