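import Pool.Agent.P.MP_e7a540_nt.BC.If

/-! Proof of EV. -/

namespace Pool.Agent.P.MP_e7a540_nt.BC

open Complex Filter Topology CongruenceSubgroup
open UpperHalfPlane hiding I
open scoped Real ComplexConjugate MatrixGroups

theorem ev_unit_iff (l : ℕ) (a : ZI) :
    IsUnit (Ideal.Quotient.mk (Ideal.span {(l : ZI)}) a) ↔ IsCoprime a (l : ZI) := by
  constructor
  · intro h
    obtain ⟨b, hb⟩ := h.exists_left_inv
    obtain ⟨b, rfl⟩ := Ideal.Quotient.mk_surjective b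
    rw [← map_mul, ← map_one (Ideal.Quotient.mk _), Ideal.Quotient.eq,
      Ideal.mem_span_singleton] at hb
    obtain ⟨c, hc⟩ := hb
    exact ⟨b, -c, by linear_combination hc⟩
  · rintro ⟨u, v, h⟩
    refine IsUnit.of_mul_eq_one (Ideal.Quotient.mk _ u) ?_
    rw [← map_mul, ← map_one (Ideal.Quotient.mk _), Ideal.Quotient.eq, Ideal.mem_span_singleton]
    exact ⟨-v, by linear_combination h⟩

theorem ev_finite (l : ℕ) (hl : l ≠ 0) : Finite (RR l) := by
  haveI : NeZero l := ⟨hl⟩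
  refine Finite.of_surjective (fun p : ZMod l × ZMod l =>
    (Ideal.Quotient.mk (Ideal.span {(l : ZI)}) ⟨(p.1.val : ℤ), (p.2.val : ℤ)⟩ : RR l)) ?_
  intro r
  obtain ⟨a, rfl⟩ := Ideal.Quotient.mk_surjective r
  refine ⟨((a.re : ZMod l), (a.im : ZMod l)), ?_⟩
  simp only [ZMod.val_intCast]
  rw [Ideal.Quotient.eq, Ideal.mem_span_singleton]
  refine ⟨⟨-(a.re / l), -(a.im / l)⟩, ?_⟩
  ext
  · simp [Int.emod_def]
  · simp [Int.emod_def]

theorem ev_not_unit (l : ℕ) (hl : l.Prime) : ¬ IsUnit (l : ZI) := by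
  intro h
  have h1 := (Zsqrtd.norm_eq_one_iff' (by norm_num) _).2 h
  rw [Zsqrtd.norm_natCast] at h1
  have h2 : (2 : ℤ) ≤ l := by exact_mod_cast hl.two_le
  nlinarith

theorem ev_star_cop (l : ℕ) (a : ZI) (h : IsCoprime a (l : ZI)) : IsCoprime (star a) (l : ZI) := by
  have := h.map (starRingEnd ZI)
  rwa [map_natCast] at this

theorem ev_norm_ndvd (l : ℕ) (hl : l.Prime) (a : ZI) (h : IsCoprime a (l : ZI)) :
    ¬ (l : ℤ) ∣ a.norm := by
  intro hd
  have h1 : IsCoprime (a * star a) (l : ZI) := h.mul_left (ev_star_cop l a h)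
  rw [← Zsqrtd.norm_eq_mul_conj] at h1
  refine ev_not_unit l hl (h1.symm.isUnit_of_dvd ?_)
  simpa using (Int.castRingHom ZI).map_dvd hd

theorem ev_int_cop (l : ℕ) (hl : l.Prime) (n : ℤ) (h : ¬ (l : ℤ) ∣ n) :
    IsCoprime (n : ZI) (l : ZI) := by
  have h1 : IsCoprime (l : ℤ) n :=
    (Nat.prime_iff_prime_int.1 hl).irreducible.coprime_iff_not_dvd.2 h
  simpa using (h1.symm.map (Int.castRingHom ZI))

theorem p_EV :
    S_EV := by
  intro l hl hl2 χ hχ
  haveI := ev_finite l hl.ne_zero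
  have hmul : ∀ a b, ev χ (a * b) = ev χ a * ev χ b := fun a b => by simp [ev]
  have hper : ∀ a b, ev χ (a + l * b) = ev χ a := fun a b => by
    unfold ev
    congr 1
    rw [Ideal.Quotient.eq, Ideal.mem_span_singleton]
    exact ⟨b, by ring⟩
  have hzero : ∀ a, ¬ IsCoprime a (l : ZI) → ev χ a = 0 := fun a h =>
    χ.map_nonunit (fun h' => h ((ev_unit_iff l a).1 h'))
  have hone : ∀ a, IsCoprime a (l : ZI) → ‖ev χ a‖ = 1 := fun a h => by
    obtain ⟨u, hu⟩ := (ev_unit_iff l a).2 h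
    have h1 : ev χ a ^ Nat.card (RR l)ˣ = 1 := by
      unfold ev
      rw [← hu, ← map_pow, ← Units.val_pow_eq_pow_val, pow_card_eq_one', Units.val_one, map_one]
    exact Complex.norm_eq_one_of_pow_eq_one h1 Nat.card_pos.ne'
  have hpow : ∀ k a, k ≠ 0 → ev (χ ^ k) a = ev χ a ^ k := fun k a hk => by
    unfold ev
    exact MulChar.pow_apply' χ hk _
  have h2 : ¬ (l : ℤ) ∣ 2 := fun h => hl2 ((Nat.prime_dvd_prime_iff_eq hl Nat.prime_two).1
    (by exact_mod_cast h))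
  have hm1 : ¬ (l : ℤ) ∣ -1 := fun h => hl.one_lt.ne' (by
    have := Int.natCast_dvd.1 h
    simpa using this)
  have hi : ev χ ⟨0, 1⟩ ^ 2 = 1 := by
    rw [sq, ← hmul, ← hχ (-1) hm1]
    congr 1
  have hj : ev χ ⟨1, 1⟩ ^ 2 = ev χ ⟨0, 1⟩ := by
    have : (⟨1, 1⟩ : ZI) * ⟨1, 1⟩ = ((2 : ℤ) : ZI) * ⟨0, 1⟩ := by decide
    rw [sq, ← hmul, this, hmul, hχ 2 h2, one_mul]
  refine ⟨hmul, hper, hzero, hone, fun a => ?_, fun a => ?_, fun a ha hd => ?_, fun k n hn => ?_,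
    hpow, ?_, fun k hk => ?_⟩
  · by_cases h : IsCoprime a (l : ZI)
    · exact (hone a h).le
    · simp [hzero a h]
  · by_cases h : IsCoprime a (l : ZI)
    · have h1 : ev χ a * ev χ (star a) = 1 := by
        rw [← hmul, ← Zsqrtd.norm_eq_mul_conj]
        exact hχ _ (ev_norm_ndvd l hl a h)
      rw [← Complex.inv_eq_conj (hone a h)]
      exact eq_inv_of_mul_eq_one_right h1
    · rw [hzero a h, hzero (star a) (fun h' => h (by simpa using ev_star_cop l _ h')), map_zero]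
  · obtain ⟨c, hc⟩ := hd
    have h1 : a = (a.re : ZI) + l * ⟨0, c⟩ := by
      ext
      · simp
      · simp [hc]
    rw [h1, hper]
    refine hχ _ fun ⟨d, hd⟩ => ev_not_unit l hl (ha.symm.isUnit_of_dvd ⟨⟨d, c⟩, ?_⟩)
    ext
    · simp [hd]
    · simp [hc]
  · rcases eq_or_ne k 0 with rfl | hk
    · unfold ev
      rw [pow_zero]
      exact MulChar.one_apply ((ev_unit_iff l _).2 (ev_int_cop l hl n hn))
    · rw [hpow k _ hk, hχ n hn, one_pow]
  · rw [← sq_eq_one_iff]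
    unfold WW
    rw [mul_pow, mul_pow, hj]
    have h1 : (if l % 4 = 1 then (1 : ℂ) else -1) ^ 2 = 1 := by split_ifs <;> simp
    rw [h1, one_mul]
    split_ifs with h
    · simp [h]
    · rw [(sq_eq_one_iff.1 hi).resolve_left h]
      simp
  · have hk0 : k ≠ 0 := by omega
    obtain ⟨m, rfl⟩ : ∃ m, k = 4 * m + 1 := ⟨k / 4, by omega⟩
    have h4 : ev χ ⟨1, 1⟩ ^ 4 = 1 := by rw [show 4 = 2 * 2 from rfl, pow_mul, hj, hi]
    have h5 : ev χ ⟨0, 1⟩ ^ 4 = 1 := by rw [show 4 = 2 * 2 from rfl, pow_mul, hi, one_pow]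
    unfold WW
    rw [hpow _ _ hk0, hpow _ _ hk0, pow_succ, pow_succ, pow_mul, pow_mul, h4, h5]
    simp

end Pool.Agent.P.MP_e7a540_nt.BC
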