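import Pool.Agent.P.MP_e7a540_nt.BC.If

/-! Proof of FRK. -/

namespace Pool.Agent.P.MP_e7a540_nt.BC

open Complex Filter Topology CongruenceSubgroup
open UpperHalfPlane hiding I
open scoped Real ComplexConjugate MatrixGroups

lemma frk_pr (a : ZI) : Pr a ↔ (a.re + a.im) % 4 = 1 ∧ (a.re - a.im) % 4 = 1 := by
  unfold Pr
  constructor
  · rintro ⟨c, hc⟩
    have h1 := congrArg Zsqrtd.re hc
    have h2 := congrArg Zsqrtd.im hc
    simp at h1 h2
    omega
  · rintro ⟨h1, h2⟩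
    refine ⟨⟨(a.re + a.im - 1) / 4, (a.im - a.re + 1) / 4⟩, ?_⟩
    ext
    · simp; omega
    · simp; omega

lemma frk_sum {ι : Type} [Fintype ι] (m : ZI) [Finite (ZI ⧸ Ideal.span {m})] (f : ZI → ℂ)
    (hf : ∀ a b, f (a + m * b) = f a) (e : ι → ZI) (he : ∀ i j, m ∣ e i - e j → i = j)
    (hs : ∀ a, f a ≠ 0 → ∃ i, m ∣ a - e i) :
    ∑ᶠ r : ZI ⧸ Ideal.span {m}, f r.out = ∑ i, f (e i) := by
  classical
  have := Fintype.ofFinite (ZI ⧸ Ideal.span {m})
  rw [finsum_eq_sum_of_fintype]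
  symm
  refine Fintype.sum_of_injective (fun i => Ideal.Quotient.mk (Ideal.span {m}) (e i)) ?_ _ _ ?_ ?_
  · intro i j hij
    exact he i j (Ideal.mem_span_singleton.mp (Ideal.Quotient.eq.mp hij))
  · intro r hr
    by_contra h
    obtain ⟨i, hi⟩ := hs _ h
    refine hr ⟨i, ?_⟩
    have : Ideal.Quotient.mk (Ideal.span {m}) r.out = Ideal.Quotient.mk (Ideal.span {m}) (e i) :=
      Ideal.Quotient.eq.mpr (Ideal.mem_span_singleton.mpr hi)
    rw [Ideal.Quotient.mk_out] at this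
    exact this.symm
  · intro i
    have : Ideal.Quotient.mk (Ideal.span {m}) (Ideal.Quotient.mk (Ideal.span {m}) (e i)).out =
        Ideal.Quotient.mk (Ideal.span {m}) (e i) := Ideal.Quotient.mk_out _
    obtain ⟨c, hc⟩ := Ideal.mem_span_singleton.mp (Ideal.Quotient.eq.mp this)
    rw [show (Ideal.Quotient.mk (Ideal.span {m}) (e i)).out = e i + m * c by rw [← hc]; ring, hf]

lemma frk_G (l : ℕ) [Fact l.Prime] (X : ZMod l × ZMod l → ℂ)
    (hX : ∀ c, c ≠ 0 → ∀ p : ZMod l × ZMod l, X (c * p.1, c * p.2) = X p) (h0 : X (0, 0) = 0)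
    (hs : ∑ p, X p = 0) (a b : ZMod l) :
    ∑ p, X p * ZMod.stdAddChar (p.1 * a + p.2 * b) = l * X (-b, a) := by
  classical
  have hl : (l : ℂ) - 1 ≠ 0 := by
    have := (Fact.out : l.Prime).one_lt
    intro h
    have h2 : (l : ℂ) = 1 := by linear_combination h
    have : l = 1 := by exact_mod_cast h2
    omega
  have key : ∀ (g : ZMod l → ℂ) (v : ℂ), g 0 = 0 → (∀ c, c ≠ 0 → g c = v) →
      ∑ c, g c = (l - 1) * v := by
    intro g v g0 gv
    rw [← Finset.add_sum_erase _ _ (Finset.mem_univ (0 : ZMod l)), g0, zero_add,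
      Finset.sum_congr rfl fun c hc => gv c (Finset.ne_of_mem_erase hc), Finset.sum_const,
      Finset.card_erase_of_mem (Finset.mem_univ _), Finset.card_univ, ZMod.card, nsmul_eq_mul,
      Nat.cast_sub (Fact.out : l.Prime).one_le, Nat.cast_one]
  set G := ∑ p, X p * ZMod.stdAddChar (p.1 * a + p.2 * b) with hG
  have h1 : ∑ c : ZMod l, ∑ p, X p * ZMod.stdAddChar (c * (p.1 * a + p.2 * b)) = (l - 1) * G := by
    refine key _ _ (by simpa using hs) fun c hc => ?_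
    refine Fintype.sum_equiv ((Equiv.mulLeft₀ c hc).prodCongr (Equiv.mulLeft₀ c hc)) _ _ fun p => ?_
    have := hX c hc p
    simp only [Equiv.prodCongr_apply, Equiv.mulLeft₀_apply, Prod.map, this]
    congr 2
    ring
  have h2 : ∑ c : ZMod l, ∑ p, X p * ZMod.stdAddChar (c * (p.1 * a + p.2 * b)) =
      l * ∑ p, if p.1 * a + p.2 * b = 0 then X p else 0 := by
    rw [Finset.sum_comm, Finset.mul_sum]
    refine Finset.sum_congr rfl fun p _ => ?_
    rw [← Finset.mul_sum, AddChar.sum_mulShift _ (ZMod.isPrimitive_stdAddChar _), ZMod.card]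
    split_ifs <;> simp [mul_comm]
  have h3 : (∑ p, if p.1 * a + p.2 * b = 0 then X p else 0) = (l - 1) * X (-b, a) := by
    by_cases hab : a = 0 ∧ b = 0
    · obtain ⟨rfl, rfl⟩ := hab
      simp [hs, h0]
    · rw [← key (fun y => X (y * -b, y * a)) _ (by simpa using h0) fun c hc => hX c hc (-b, a)]
      symm
      refine Fintype.sum_of_injective (fun y => (y * -b, y * a)) ?_ _ _ ?_ ?_
      · intro y z h
        simp only [Prod.mk.injEq] at h
        by_contra hne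
        have hd : y - z ≠ 0 := sub_ne_zero.mpr hne
        apply hab
        constructor
        · apply mul_left_cancel₀ hd; linear_combination h.2
        · apply mul_left_cancel₀ hd; linear_combination -h.1
      · intro p hp
        rw [if_neg]
        intro h
        apply hp
        by_cases ha : a = 0
        · have hb : b ≠ 0 := fun hb => hab ⟨ha, hb⟩
          refine ⟨-p.1 / b, Prod.ext ?_ ?_⟩
          · simp only; field_simp
          · simp only; field_simp; linear_combination -h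
        · refine ⟨p.2 / a, Prod.ext ?_ ?_⟩
          · simp only; field_simp; linear_combination -h
          · simp only; field_simp
      · intro y
        rw [if_pos (by ring)]
  apply mul_left_cancel₀ hl
  rw [← h1, h2, h3]
  ring

lemma frk_unit (φ : ZI → ℂ) (τ s : ℂ) (u v : ZI) (huv : u * v = 1) (hn : u.norm = 1)
    (h : HasSum (fun a : ZI => φ a * a * cexp (2 * π * I * (a.norm : ℤ) * τ)) s) :
    HasSum (fun a : ZI => φ (u * a) * a * cexp (2 * π * I * (a.norm : ℤ) * τ)) (v * s) := by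
  have hb : Function.Bijective fun a : ZI => u * a :=
    (Units.mkOfMulEqOne u v huv).mulLeft_bijective
  have h2 := ((Equiv.ofBijective _ hb).hasSum_iff.mpr h).mul_left (v : ℂ)
  refine (congrArg (fun f => HasSum f _) (funext fun a => ?_)).mp h2
  have h3 : (u : ℂ) * v = 1 := by
    rw [← GaussianInt.toComplex_mul, huv, GaussianInt.toComplex_one]
  simp only [Function.comp_apply, Equiv.ofBijective_apply, Zsqrtd.norm_mul, hn, one_mul,
    GaussianInt.toComplex_mul]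
  linear_combination (φ (u * a) * a * cexp (2 * π * I * (a.norm : ℤ) * τ)) * h3

lemma frk_e (l : ℕ) (hl : l ≠ 0) (z : ZI) :
    (((z : ℂ) / ((⟨2, 2⟩ * l : ZI) : ℂ)).re : ℂ) = ((z.re + z.im : ℤ) : ℂ) / (4 * l) := by
  have h : ((z : ℂ) / ((⟨2, 2⟩ * l : ZI) : ℂ)).re = ((z.re + z.im : ℤ) : ℝ) / (4 * l) := by
    have hl' : (l : ℝ) ≠ 0 := by exact_mod_cast hl
    rw [GaussianInt.toComplex_def₂, GaussianInt.toComplex_def₂, Complex.div_re]
    simp [Complex.normSq_apply]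
    field_simp
    ring
  rw [h]
  push_cast
  ring

lemma frk_I (n : ℤ) : cexp (2 * π * I * (n / 4)) = I ^ n := by
  rw [show 2 * π * I * ((n : ℂ) / 4) = n * (π / 2 * I) by ring, Complex.exp_int_mul,
    Complex.exp_pi_div_two_mul_I]

lemma frk_FT (hEV : S_EV) (hPCO : S_PCO) (l : ℕ) (hp : l.Prime) (h2 : l ≠ 2) (χ : CH l)
    (hχ : χ ∈ XX l) (h1 : χ ≠ 1) (κ : ℤ) (hκ : (l * κ) % 4 = 1) (w : ZI) :
    FT (⟨2, 2⟩ * l) (ph χ) w =
      ev χ ⟨1, 1⟩ * l * ev χ ⟨0, 1⟩ * (I ^ (κ * (w.re - w.im)) * ev χ w) := by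
  classical
  have : Fact l.Prime := ⟨hp⟩
  obtain ⟨hmul, hper, hz, -, -, -, hone, -⟩ := hEV l hp h2 χ hχ
  have hl0 : l ≠ 0 := hp.ne_zero
  have hlc : (l : ℂ) ≠ 0 := by exact_mod_cast hl0
  have hodd : (l : ℤ) % 2 = 1 := by
    have := hp.eq_two_or_odd.resolve_left h2
    omega
  let zz : ZMod l × ZMod l → ZI := fun p => ⟨(p.1.val : ℤ), (p.2.val : ℤ)⟩
  have hzz : ∀ x y : ℤ, (l : ZI) ∣ (⟨x, y⟩ : ZI) - zz (x, y) := by
    intro x y
    rw [← Int.cast_natCast, Zsqrtd.intCast_dvd]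
    constructor
    · simp only [zz, Zsqrtd.re_sub]
      rw [← ZMod.intCast_zmod_eq_zero_iff_dvd]
      simp
    · simp only [zz, Zsqrtd.im_sub]
      rw [← ZMod.intCast_zmod_eq_zero_iff_dvd]
      simp
  have hinj : ∀ p q, (l : ZI) ∣ zz p - zz q → p = q := by
    intro p q h
    rw [← Int.cast_natCast, Zsqrtd.intCast_dvd] at h
    simp only [zz, Zsqrtd.re_sub, Zsqrtd.im_sub, ← ZMod.intCast_zmod_eq_zero_iff_dvd,
      Int.cast_sub, Int.cast_natCast, ZMod.natCast_zmod_val, sub_eq_zero] at h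
    exact Prod.ext h.1 h.2
  have hev : ∀ x y : ℤ, ev χ (zz (x, y)) = ev χ ⟨x, y⟩ := by
    intro x y
    obtain ⟨c, hc⟩ := hzz x y
    rw [← hper (zz (x, y)) c, ← hc]
    congr 1
    ring
  have hsum : ∑ p, ev χ (zz p) = 0 := by
    have := hPCO.2.2.1 (l : ZI) (by exact_mod_cast hl0)
    rw [← frk_sum (l : ZI) (ev χ) hper zz hinj fun a _ => ⟨(a.re, a.im), hzz a.re a.im⟩]
    have := Fintype.ofFinite (RR l)
    rw [finsum_eq_sum_of_fintype, ← MulChar.sum_eq_zero_of_ne_one h1]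
    refine Finset.sum_congr rfl fun r _ => ?_
    rw [ev, Ideal.Quotient.mk_out]
  have hG := frk_G l (fun p => ev χ (zz p)) ?_ ?_ hsum w.re w.im
  rotate_left
  · rintro c hc ⟨x, y⟩
    obtain ⟨c, rfl⟩ := ZMod.intCast_surjective c
    obtain ⟨x, rfl⟩ := ZMod.intCast_surjective x
    obtain ⟨y, rfl⟩ := ZMod.intCast_surjective y
    have hc' := hχ c fun h => hc ((ZMod.intCast_zmod_eq_zero_iff_dvd _ _).mpr h)
    simp only [← Int.cast_mul, hev]
    rw [show (⟨c * x, c * y⟩ : ZI) = c * ⟨x, y⟩ by ext <;> simp, hmul, hc', one_mul]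
  · have := hev 0 0
    simp only [Int.cast_zero] at this
    simp only [this]
    refine hz _ fun h => ?_
    have h3 : IsUnit (l : ZI) := isCoprime_zero_left.mp h
    have h4 := (Zsqrtd.isUnit_iff_norm_isUnit _).mp h3
    rw [Zsqrtd.norm_natCast, Int.isUnit_iff] at h4
    have := hp.two_le
    rcases h4 with h4 | h4 <;> nlinarith
  have hm0 : (⟨2, 2⟩ * l : ZI) ≠ 0 :=
    mul_ne_zero (by decide) (by exact_mod_cast hl0)
  have := hPCO.2.2.1 _ hm0
  have htwo : ev χ ⟨2, 2⟩ = ev χ ⟨1, 1⟩ := by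
    have h3 := hχ 2 fun h => h2 ((Nat.prime_dvd_prime_iff_eq hp Nat.prime_two).mp (by exact_mod_cast h))
    rw [show (⟨2, 2⟩ : ZI) = ((2 : ℤ) : ZI) * ⟨1, 1⟩ by decide, hmul, h3, one_mul]
  rw [FT, frk_sum (⟨2, 2⟩ * l)
    (fun a => ph χ a * cexp (2 * π * I * (((a * star w : ZI) : ℂ) / ((⟨2, 2⟩ * l : ZI) : ℂ)).re))
    ?_ (fun p => l * (κ + ⟨2, 2⟩ * 0) + ⟨2, 2⟩ * zz p) ?_ ?_]
  · have h5 := hev (-w.im) w.re
    simp only [Int.cast_neg] at h5
    rw [h5, show (⟨-w.im, w.re⟩ : ZI) = ⟨0, 1⟩ * w by ext <;> simp, hmul] at hG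
    rw [show ev χ ⟨1, 1⟩ * l * ev χ ⟨0, 1⟩ * (I ^ (κ * (w.re - w.im)) * ev χ w) =
      ev χ ⟨1, 1⟩ * I ^ (κ * (w.re - w.im)) * (l * (ev χ ⟨0, 1⟩ * ev χ w)) by ring, ← hG,
      Finset.mul_sum]
    refine Finset.sum_congr rfl fun p _ => ?_
    have hpr : Pr (l * (κ + ⟨2, 2⟩ * 0) + ⟨2, 2⟩ * zz p) := by
      rw [frk_pr]
      simp
      omega
    rw [ph, if_pos hpr, add_comm, hper, hmul, htwo, frk_e l hl0, ← frk_I,
      show p.1 * (w.re : ZMod l) + p.2 * (w.im : ZMod l) =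
        (((zz p).re * w.re + (zz p).im * w.im : ℤ) : ZMod l) by simp [zz], ZMod.stdAddChar_coe,
      show ∀ a b c d : ℂ, a * cexp b * (c * cexp d) = a * c * cexp (b + d) by
        intro a b c d; rw [Complex.exp_add]; ring]
    congr 2
    simp
    field_simp
    ring
  · intro a b
    have h5 : ph χ (a + ⟨2, 2⟩ * l * b) = ph χ a := by
      have h6 : Pr (a + ⟨2, 2⟩ * l * b) ↔ Pr a := by
        unfold Pr
        rw [show a + ⟨2, 2⟩ * l * b - 1 = a - 1 + ⟨2, 2⟩ * (l * b) by ring]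
        exact dvd_add_left (dvd_mul_right _ _)
      rw [ph, ph, h6, show a + ⟨2, 2⟩ * l * b = a + l * (⟨2, 2⟩ * b) by ring, hper]
    simp only [h5]
    congr 1
    rw [frk_e l hl0, frk_e l hl0, Complex.exp_eq_exp_iff_exists_int]
    refine ⟨(b * star w).re, ?_⟩
    simp
    field_simp
    ring
  · intro p q h
    apply hinj
    rw [show (l * (κ + ⟨2, 2⟩ * 0) + ⟨2, 2⟩ * zz p - (l * (κ + ⟨2, 2⟩ * 0) + ⟨2, 2⟩ * zz q) : ZI) =
      ⟨2, 2⟩ * (zz p - zz q) by ring] at h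
    exact (mul_dvd_mul_iff_left (by decide)).mp h
  · intro a ha
    have h5 : Pr a := by
      by_contra h
      simp [ph, h] at ha
    have h6 : Pr (a - l * κ + 1) := by
      rw [frk_pr] at h5 ⊢
      simp
      omega
    obtain ⟨c, hc⟩ := h6
    refine ⟨(c.re, c.im), ?_⟩
    rw [show (a - (l * (κ + ⟨2, 2⟩ * 0) + ⟨2, 2⟩ * zz (c.re, c.im)) : ZI) =
      ⟨2, 2⟩ * (c - zz (c.re, c.im)) by linear_combination hc]
    exact mul_dvd_mul_left _ (hzz c.re c.im)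

lemma frk_pt {l : ℕ} (χ : CH l) (hmul : ∀ a b, ev χ (a * b) = ev χ a * ev χ b)
    (hm : ev χ (-1) = 1) (κ : ℤ) (hk : κ = 1 ∨ κ = -1) (a : ZI) :
    I ^ (κ * (a.re - a.im)) * ev χ a - I ^ (κ * ((-1 * a).re - (-1 * a).im)) * ev χ (-1 * a) =
      2 * κ * I * (ph χ a - ph χ (-1 * a) + ev χ ⟨0, 1⟩ * ph χ (⟨0, 1⟩ * a) -
        ev χ ⟨0, 1⟩ * ph χ (⟨0, -1⟩ * a)) := by
  have hi : ev χ ⟨0, 1⟩ * ev χ ⟨0, 1⟩ = 1 := by
    rw [← hmul, ← hm]; congr 1
  have hi' : ev χ ⟨0, -1⟩ = ev χ ⟨0, 1⟩ := by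
    rw [show (⟨0, -1⟩ : ZI) = -1 * ⟨0, 1⟩ by decide, hmul, hm, one_mul]
  have e1 : ∀ P : Prop, ∀ [Decidable P], ev χ ⟨0, 1⟩ * (if P then ev χ ⟨0, 1⟩ * ev χ a else 0) =
      if P then ev χ a else 0 := by
    intro P _
    split_ifs
    · rw [← mul_assoc, hi, one_mul]
    · simp
  have i2 : (I : ℂ) ^ (2 : ℤ) = -1 := by simp [zpow_ofNat]
  have i3 : (I : ℂ) ^ (3 : ℤ) = -I := by simp [zpow_ofNat]
  simp only [ph, hmul, hm, hi', e1, one_mul, frk_pr]
  rw [Complex.I_zpow_eq_zpow_mod (κ * (a.re - a.im)),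
    Complex.I_zpow_eq_zpow_mod (κ * ((-1 * a).re - (-1 * a).im))]
  have r1 : (-1 * a).re = -a.re := by simp
  have r2 : (-1 * a).im = -a.im := by simp
  have r3 : (⟨0, 1⟩ * a : ZI).re = -a.im := by simp
  have r4 : (⟨0, 1⟩ * a : ZI).im = a.re := by simp
  have r5 : (⟨0, -1⟩ * a : ZI).re = a.im := by simp
  have r6 : (⟨0, -1⟩ * a : ZI).im = -a.re := by simp
  rw [r1, r2, r3, r4, r5, r6]
  generalize a.re = x
  generalize a.im = y
  have hd : (x - y) % 4 = 0 ∨ (x - y) % 4 = 1 ∨ (x - y) % 4 = 2 ∨ (x - y) % 4 = 3 := by omega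
  rcases hk with rfl | rfl <;> rcases hd with hd | hd | hd | hd
  · rw [show (1 * (x - y)) % 4 = 0 by omega, show (1 * (-x - -y)) % 4 = 0 by omega]
    split_ifs <;> first | omega | simp
  · rw [show (1 * (x - y)) % 4 = 1 by omega, show (1 * (-x - -y)) % 4 = 3 by omega, i3]
    split_ifs <;> first | omega | (simp; ring)
  · rw [show (1 * (x - y)) % 4 = 2 by omega, show (1 * (-x - -y)) % 4 = 2 by omega]
    split_ifs <;> first | omega | simp
  · rw [show (1 * (x - y)) % 4 = 3 by omega, show (1 * (-x - -y)) % 4 = 1 by omega, i3]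
    split_ifs <;> first | omega | (simp; ring)
  · rw [show (-1 * (x - y)) % 4 = 0 by omega, show (-1 * (-x - -y)) % 4 = 0 by omega]
    split_ifs <;> first | omega | simp
  · rw [show (-1 * (x - y)) % 4 = 3 by omega, show (-1 * (-x - -y)) % 4 = 1 by omega, i3]
    split_ifs <;> first | omega | (simp; ring)
  · rw [show (-1 * (x - y)) % 4 = 2 by omega, show (-1 * (-x - -y)) % 4 = 2 by omega]
    split_ifs <;> first | omega | simp
  · rw [show (-1 * (x - y)) % 4 = 1 by omega, show (-1 * (-x - -y)) % 4 = 3 by omega, i3]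
    split_ifs <;> first | omega | (simp; ring)

theorem p_FRK (hEV : S_EV) (hPCO : S_PCO) :
    S_FRK := by
  intro l hp h2 χ hχ h1 τ hτ
  obtain ⟨hmul, hper, -, -, hle, -, -, -⟩ := hEV l hp h2 χ hχ
  have hl0 : l ≠ 0 := hp.ne_zero
  have hlc : (l : ℂ) ≠ 0 := by exact_mod_cast hl0
  have hτ0 : τ ≠ 0 := by rintro rfl; simp at hτ
  have hodd : l % 2 = 1 := hp.eq_two_or_odd.resolve_left h2
  have hm : ev χ (-1) = 1 := by
    have := hχ (-1) fun h => hp.one_lt.ne' (by exact_mod_cast Int.eq_one_of_dvd_one (by omega) (dvd_neg.mp h))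
    simpa using this
  have hi : ev χ ⟨0, 1⟩ * ev χ ⟨0, 1⟩ = 1 := by
    rw [← hmul, ← hm]; congr 1
  obtain ⟨κ, hκ⟩ : ∃ κ : ℤ, κ = if l % 4 = 1 then 1 else -1 := ⟨_, rfl⟩
  have hk : κ = 1 ∨ κ = -1 := by rw [hκ]; split_ifs <;> simp
  have hκ4 : (l * κ) % 4 = 1 := by rw [hκ]; split_ifs <;> omega
  have hκc : (κ : ℂ) = if l % 4 = 1 then 1 else -1 := by rw [hκ]; split_ifs <;> simp
  have hph : ∀ a, ‖ph χ a‖ ≤ 1 := by
    intro a
    rw [ph]
    split_ifs
    · exact hle a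
    · simp
  have hP := (hPCO.2.1 (ph χ) 1 hph τ hτ).of_norm.hasSum
  have hS := (hPCO.2.1 (fun w => I ^ (κ * (w.re - w.im)) * ev χ w) 1
    (fun a => by simpa using hle a) τ hτ).of_norm.hasSum
  have hA := hS.sub (frk_unit _ τ _ (-1) (-1) (by decide) (by decide) hS)
  have hB := (((hP.sub (frk_unit _ τ _ (-1) (-1) (by decide) (by decide) hP)).add
    ((frk_unit _ τ _ ⟨0, 1⟩ ⟨0, -1⟩ (by decide) (by decide) hP).mul_left (ev χ ⟨0, 1⟩))).sub
    ((frk_unit _ τ _ ⟨0, -1⟩ ⟨0, 1⟩ (by decide) (by decide) hP).mul_left (ev χ ⟨0, 1⟩))).mul_left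
      (2 * κ * I)
  have hAB := hA.unique ((congrArg (fun f => HasSum f _) (funext fun a => by
    linear_combination (-(a * cexp (2 * π * I * (a.norm : ℤ) * τ))) *
      frk_pt χ hmul hm κ hk a)).mp hB)
  have c1 : ((-1 : ZI) : ℂ) = -1 := by simp
  have c2 : ((⟨0, 1⟩ : ZI) : ℂ) = I := by simp [GaussianInt.toComplex_def']
  have c3 : ((⟨0, -1⟩ : ZI) : ℂ) = -I := by simp [GaussianInt.toComplex_def']
  have c4 : ((⟨2, 2⟩ * l : ZI) : ℂ) = (2 + 2 * I) * l := by simp [GaussianInt.toComplex_def']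
  have c5 : (⟨2, 2⟩ * l : ZI).norm = 8 * l ^ 2 := by simp [Zsqrtd.norm]; ring
  rw [c1, c2, c3] at hAB
  have hτ' : 0 < (-1 / (32 * l ^ 2 * τ) : ℂ).im := by
    have h3 : (-1 / (32 * l ^ 2 * τ) : ℂ) = ((1 / (32 * l ^ 2) : ℝ) : ℂ) * (-τ⁻¹) := by
      push_cast; field_simp
    rw [h3, Complex.im_ofReal_mul, Complex.neg_im, Complex.inv_im]
    have := Complex.normSq_pos.mpr hτ0
    have hl' : (0 : ℝ) < l := by exact_mod_cast hp.pos
    rw [neg_div, neg_neg]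
    positivity
  have hper' : ∀ a b, ph χ (a + ⟨2, 2⟩ * l * b) = ph χ a := by
    intro a b
    have h6 : Pr (a + ⟨2, 2⟩ * l * b) ↔ Pr a := by
      unfold Pr
      rw [show a + ⟨2, 2⟩ * l * b - 1 = a - 1 + ⟨2, 2⟩ * (l * b) by ring]
      exact dvd_add_left (dvd_mul_right _ _)
    rw [ph, ph, h6, show a + ⟨2, 2⟩ * l * b = a + l * (⟨2, 2⟩ * b) by ring, hper]
  rw [hPCO.1, hPCO.1, hPCO.2.2.2 (⟨2, 2⟩ * l) (ph χ)
    (mul_ne_zero (by decide) (by exact_mod_cast hl0)) hper' _ hτ', c4, c5,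
    show (-1 / (4 * ((8 * l ^ 2 : ℤ) : ℂ) * (-1 / (32 * l ^ 2 * τ))) : ℂ) = τ by
      push_cast; field_simp; ring]
  have hT : TH (FT (⟨2, 2⟩ * l) (ph χ)) τ = ev χ ⟨1, 1⟩ * l * ev χ ⟨0, 1⟩ *
      ∑' a : ZI, I ^ (κ * (a.re - a.im)) * ev χ a * a * cexp (2 * π * I * (a.norm : ℤ) * τ) := by
    rw [TH, ← tsum_mul_left]
    refine tsum_congr fun a => ?_
    rw [frk_FT hEV hPCO l hp h2 χ hχ h1 κ hκ4]
    ring
  rw [hT, WW, ← hκc, TH]
  generalize (∑' a : ZI, I ^ (κ * (a.re - a.im)) * ev χ a * a *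
    cexp (2 * π * I * (a.norm : ℤ) * τ)) = S at hAB ⊢
  generalize (∑' a : ZI, ph χ a * a * cexp (2 * π * I * (a.norm : ℤ) * τ)) = P at hAB ⊢
  have hS2 : S = 2 * κ * (I + ev χ ⟨0, 1⟩) * P := by
    linear_combination (1 / 2 : ℂ) * hAB - (2 * κ * ev χ ⟨0, 1⟩ * P) * I_mul_I
  rw [hS2]
  push_cast
  field_simp
  split_ifs with h
  · rw [h]
    linear_combination (ev χ ⟨1, 1⟩ * κ * P * (32 * I + 64)) * I_mul_I
  · have h' : ev χ ⟨0, 1⟩ = -1 := (mul_self_eq_one_iff.mp hi).resolve_left h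
    rw [h']
    linear_combination (-(ev χ ⟨1, 1⟩ * κ * P * (32 * I))) * I_mul_I

end Pool.Agent.P.MP_e7a540_nt.BC
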