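import Pool.Agent.P.MP_e7a540_nt.BC.If
import Pool.Agent.P.MP_e7a540_nt.BC.GalAct

/-! Proof of GAL. -/

namespace Pool.Agent.P.MP_e7a540_nt.BC

open Complex Filter Topology CongruenceSubgroup
open UpperHalfPlane hiding I
open scoped Real ComplexConjugate MatrixGroups

namespace BW

theorem exists_ext {F : Type} [Field F] [Algebra F ℂ] (φ : F ≃+* F) :
    ∃ σ : ℂ →+* ℂ, ∀ a : F, σ (algebraMap F ℂ a) = algebraMap F ℂ (φ a) := by
  obtain ⟨t, hv⟩ := exists_isTranscendenceBasis F ℂ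
  have := IsAlgClosed.isAlgClosure_of_transcendence_basis _ hv
  refine ⟨(IsAlgClosure.equivOfEquiv ℂ ℂ (hv.1.aevalEquiv.symm.toRingEquiv.trans
    ((MvPolynomial.mapEquiv t φ).trans hv.1.aevalEquiv.toRingEquiv))).toRingHom, fun a => ?_⟩
  have h := IsAlgClosure.equivOfEquiv_algebraMap ℂ ℂ (hv.1.aevalEquiv.symm.toRingEquiv.trans
    ((MvPolynomial.mapEquiv t φ).trans hv.1.aevalEquiv.toRingEquiv))
    (hv.1.aevalEquiv (MvPolynomial.C a))
  rw [hv.1.algebraMap_aevalEquiv] at h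
  simpa [hv.1.algebraMap_aevalEquiv] using h

theorem exists_conj {F : Type} [Field F] [Algebra F ℂ] {x y : ℂ} (hx : IsIntegral F x)
    (hy : IsIntegral F y) (h : minpoly F x = minpoly F y) : ∃ σ : ℂ →+* ℂ, σ x = y := by
  obtain ⟨φ, hφ⟩ := minpoly.exists_algEquiv_of_root' (K := F) (L := algebraicClosure F ℂ)
    (x := ⟨y, mem_algebraicClosure_iff'.2 hy⟩) (y := ⟨x, mem_algebraicClosure_iff'.2 hx⟩)
    (Algebra.IsAlgebraic.isAlgebraic _) (by
      rw [IntermediateField.minpoly_eq, h, ← IntermediateField.minpoly_eq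
        (⟨y, mem_algebraicClosure_iff'.2 hy⟩ : algebraicClosure F ℂ)]
      exact minpoly.aeval _ _)
  obtain ⟨σ, hσ⟩ := exists_ext φ.toRingEquiv
  exact ⟨σ, (hσ ⟨x, _⟩).trans (congrArg Subtype.val hφ)⟩

theorem exists_pow {n k : ℕ} (hn : n ≠ 0) (hk : k.Coprime n) :
    ∃ σ : ℂ →+* ℂ, ∀ z : ℂ, z ^ n = 1 → σ z = z ^ k := by
  have : NeZero n := ⟨hn⟩
  have h := isPrimitiveRoot_exp n hn
  have h0 := Nat.pos_of_ne_zero hn
  have h1 := h.pow_of_coprime k hk
  obtain ⟨σ, e⟩ := exists_conj (F := ℚ) (h.isIntegral h0).tower_top (h1.isIntegral h0).tower_top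
    (by rw [← Polynomial.cyclotomic_eq_minpoly_rat h h0, Polynomial.cyclotomic_eq_minpoly_rat h1 h0])
  refine ⟨σ, fun z hz => ?_⟩
  obtain ⟨j, -, rfl⟩ := h.eq_pow_of_pow_eq_one hz
  rw [map_pow, e, ← pow_mul, ← pow_mul, mul_comm k]

theorem sm_eq {l : ℕ} (χ : CH l) :
    sm χ = fun t => ∑' a : ZI, pr (fun a => ev χ (star a)) a * gs t a := by
  funext t
  refine (tsum_subtype {a | Pr a} fun a : ZI =>
    ev χ a * (a / ((a.norm : ℤ) : ℂ)) * rexp (-t * (a.norm : ℤ))).trans ?_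
  rw [← (star_involutive.toPerm _).tsum_eq]
  refine tsum_congr fun a => ?_
  have h : star a ∈ {a | Pr a} ↔ pp ∣ a - 1 := by
    change pp ∣ _ ↔ _
    simp only [dvd_iff, Zsqrtd.re_sub, Zsqrtd.im_sub, Zsqrtd.re_star, Zsqrtd.im_star, Zsqrtd.re_one,
      Zsqrtd.im_one]
    omega
  by_cases h1 : pp ∣ a - 1
  · have h0 : (a : ℂ) ≠ 0 := MP_8b7eba_nt.CG.L.coe_ne fun e => by
      rw [e, dvd_iff] at h1
      exact absurd h1 (by decide)
    have h2 : conj (a : ℂ) ≠ 0 := by simpa using h0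
    rw [Function.Involutive.coe_toPerm, Set.indicator_of_mem (h.2 h1), pr, if_pos h1, gs, Zsqrtd.norm_conj,
      GaussianInt.intCast_real_norm, GaussianInt.intCast_complex_norm, normSq_eq_conj_mul_self,
      GaussianInt.toComplex_star]
    field_simp
  · rw [Function.Involutive.coe_toPerm, Set.indicator_of_notMem (mt h.1 h1), pr, if_neg h1, zero_mul]

end BW

open BW in
theorem p_GAL (hEV : S_EV) (hGRP : S_GRP) :
    S_GAL := by
  intro l hl h2 χ hχ k hk hc hv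
  obtain ⟨a1, a2, a3, -, -, -, -, -, a9, -⟩ := hEV l hl h2 χ hχ
  obtain ⟨-, -, b3, b4, -⟩ := hGRP l hl h2
  have h3 := hl.two_le
  have g0 : gg l ≠ 0 := by omega
  have k0 : k ≠ 0 := by omega
  obtain ⟨σ, hσ⟩ := exists_pow (mul_ne_zero four_ne_zero g0)
    (.mul_right (by rw [Nat.Coprime, Nat.gcd_comm, Nat.gcd_rec, hk]; rfl) hc)
  have hI : σ I = I := by
    rw [hσ I (by rw [pow_mul, I_pow_four, one_pow]), I_pow_eq_pow_mod, hk, pow_one]
  have h4 : ∀ a, ev (χ ^ k) a = σ (ev χ a) := fun a => by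
    rw [a9 k a k0]
    by_cases h : IsCoprime a (l : ZI)
    · refine (hσ _ ?_).symm
      rw [mul_comm, pow_mul, ← a9 _ _ g0, b4 χ hχ, ev, MulChar.one_apply, one_pow]
      obtain ⟨u, v, e⟩ := h
      refine .of_mul_eq_one (Ideal.Quotient.mk _ u) ?_
      rw [← map_mul, ← map_one (Ideal.Quotient.mk _), Ideal.Quotient.eq, Ideal.mem_span_singleton]
      exact ⟨-v, by linear_combination e⟩
    · rw [a3 a h, map_zero, zero_pow k0]
  have nd : ¬ (l : ℤ) ∣ -1 := fun h => hl.not_dvd_one (by exact_mod_cast dvd_neg.1 h)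
  rw [Van, sm_eq] at hv ⊢
  simp only [h4]
  obtain ⟨j, rfl⟩ := hl.odd_of_ne_two h2
  refine galois (l := ((2 * j + 1 : ℕ) : ZI)) (Nat.cast_ne_zero.2 (by omega))
    ⟨⟨1, -1⟩ * (j + 1), by rw [← mul_assoc, show pp * ⟨1, -1⟩ = 4 by decide]; push_cast; ring⟩
    (fun a b => by rw [star_add, star_mul', star_natCast, a2]) ?_ (fun a => ?_)
    (fun a b => by rw [star_mul', a1]) σ hI hv
  · rw [star_zero]
    exact a3 0 fun h => hl.not_dvd_one (by
      have := (Zsqrtd.norm_eq_one_iff' (by norm_num) _).2 (isCoprime_zero_left.1 h)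
      rw [Zsqrtd.norm_natCast] at this
      exact_mod_cast Dvd.intro _ this)
  · have := hχ (-1) nd
    rw [Int.cast_neg, Int.cast_one] at this
    rw [star_neg, ← neg_one_mul, a1, this, one_mul]

end Pool.Agent.P.MP_e7a540_nt.BC
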