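import Pool.Agent.P.MP_e7a540_nt.BC.If

/-! Proof of INJ. -/

namespace Pool.Agent.P.MP_e7a540_nt.BC

open Complex Filter Topology CongruenceSubgroup
open UpperHalfPlane hiding I
open scoped Real ComplexConjugate MatrixGroups

theorem inj_coeff (φ : ZI → ℂ)
    (h : ∀ τ : ℂ, 0 < τ.im → HasSum (fun a : ZI => φ a * a * cexp (2 * π * I * (a.norm : ℤ) * τ)) 0)
    (n : ℕ) : ∑' b : (fun a : ZI => a.norm.natAbs) ⁻¹' {n}, φ b * (b : ZI) = 0 := by
  have key : ∀ c : ℕ → ℂ,
      (∀ τ : ℍ, HasSum (fun m => c m • Function.Periodic.qParam 1 (τ : ℂ) ^ m) 0) →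
      c n = (qExpansion 1 (0 : ModularForm 𝒮ℒ 0)).coeff n := fun c hc =>
    ModularFormClass.qExpansion_coeff_unique one_pos one_mem_strictPeriods_SL
      (f := (0 : ModularForm 𝒮ℒ 0)) hc n
  have h0 := key (fun _ => 0) (fun τ => by simp)
  rw [h0]
  refine key (fun m => ∑' b : (fun a : ZI => a.norm.natAbs) ⁻¹' {m}, φ b * (b : ZI)) fun τ => ?_
  refine ((h τ τ.im_pos).tsum_fiberwise (fun a : ZI => a.norm.natAbs)).congr_fun fun m => ?_
  rw [smul_eq_mul, ← tsum_mul_right]
  refine tsum_congr fun b => ?_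
  have hb : ((b : ZI).norm : ℤ) = (m : ℤ) := by
    have h1 : (b : ZI).norm.natAbs = m := b.2
    have h2 := GaussianInt.norm_nonneg (b : ZI)
    omega
  rw [hb, Function.Periodic.qParam, ← Complex.exp_nat_mul]
  congr 2
  push_cast
  ring

theorem inj_pr (a : ZI) : Pr a ↔ 4 ∣ a.re + a.im - 1 ∧ 4 ∣ a.im - a.re + 1 := by
  constructor
  · rintro ⟨c, hc⟩
    have h1 := congrArg Zsqrtd.re hc
    have h2 := congrArg Zsqrtd.im hc
    simp at h1 h2
    omega
  · rintro ⟨⟨s, hs⟩, t, ht⟩
    refine ⟨⟨s, t⟩, ?_⟩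
    ext <;> simp <;> omega

theorem inj_cancel {b c : ZI} (h : Pr (b * c)) (hb : Pr b) : Pr c := by
  have e : c - 1 = (b * c - 1) - (b - 1) * c := by ring
  unfold Pr
  rw [e]
  exact dvd_sub h (Dvd.dvd.mul_right hb _)

theorem inj_unit {c : ZI} (h : Pr c) (hc : c.norm = 1) : c = 1 := by
  rw [inj_pr] at h
  rw [Zsqrtd.norm_def] at hc
  have h1 : c.re ≤ 1 := by nlinarith [mul_self_nonneg c.im]
  have h2 : -1 ≤ c.re := by nlinarith [mul_self_nonneg c.im]
  have h3 : c.im ≤ 1 := by nlinarith [mul_self_nonneg c.re]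
  have h4 : -1 ≤ c.im := by nlinarith [mul_self_nonneg c.re]
  obtain ⟨x, y⟩ := c
  simp only at *
  ext <;> simp only [Zsqrtd.re_one, Zsqrtd.im_one] <;> interval_cases x <;> interval_cases y <;>
    omega

theorem inj_star {a : ZI} (h : Pr a) : Pr (star a) := by
  rw [inj_pr] at *
  simp only [Zsqrtd.re_star, Zsqrtd.im_star]
  omega

theorem inj_odd {b c : ZI} (h : Pr (b * c)) : (b.re + b.im) % 2 = 1 := by
  rw [inj_pr] at h
  simp only [Zsqrtd.re_mul, Zsqrtd.im_mul] at h
  by_contra h0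
  obtain ⟨k, hk⟩ : ∃ k, b.re = 2 * k - b.im := ⟨(b.re + b.im) / 2, by omega⟩
  obtain ⟨s, hs⟩ := h.1
  rw [hk] at hs
  have : 2 * (k * c.re - b.im * c.im + k * c.im - 2 * s) = 1 := by linarith
  omega

theorem inj_norm {b : ZI} (h : (b.re + b.im) % 2 = 1) :
    ∃ e : ZI, e.norm = 1 ∧ Pr (e * b) := by
  simp only [inj_pr]
  by_cases h1 : b.im % 2 = 0
  · by_cases h2 : 4 ∣ b.re + b.im - 1
    · exact ⟨1, by simp, by simp; omega⟩
    · exact ⟨-1, by simp, by simp; omega⟩
  · by_cases h2 : 4 ∣ b.re - b.im - 1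
    · exact ⟨⟨0, 1⟩, by decide, by simp; omega⟩
    · exact ⟨⟨0, -1⟩, by decide, by simp; omega⟩

theorem inj_same {a b : ZI} (ha : Pr a) (hb : Pr b) (h0 : a.norm ≠ 0) (hn : b.norm = a.norm)
    (hd : a ∣ b) : b = a := by
  obtain ⟨c, rfl⟩ := hd
  rw [Zsqrtd.norm_mul] at hn
  rw [inj_unit (inj_cancel hb ha) (mul_left_cancel₀ h0 (by rw [hn, mul_one])), mul_one]

theorem inj_int (hEV : S_EV) {l : ℕ} (hl : l.Prime) (h2 : l ≠ 2) {χ χ' : CH l} (hχ : χ ∈ XX l)
    (hχ' : χ' ∈ XX l) (n : ℤ) : ev χ (n : ZI) = ev χ' (n : ZI) := by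
  by_cases h : (l : ℤ) ∣ n
  · obtain ⟨k, rfl⟩ := h
    have hn : ¬ IsCoprime (0 : ZI) (l : ZI) := by
      rw [isCoprime_zero_left, ← Zsqrtd.norm_eq_one_iff' (by norm_num), Zsqrtd.norm_natCast]
      intro h
      have h1 : l * l = 1 := by exact_mod_cast h
      have := hl.two_le
      nlinarith
    have a1 := (hEV l hl h2 χ hχ).2.1 0 k
    have a2 := (hEV l hl h2 χ' hχ').2.1 0 k
    rw [zero_add] at a1 a2
    push_cast
    rw [a1, a2, (hEV l hl h2 χ hχ).2.2.1 0 hn, (hEV l hl h2 χ' hχ').2.2.1 0 hn]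
  · rw [hχ n h, hχ' n h]

theorem p_INJ (hEV : S_EV) (hPRIM : S_PRIM) (hPCO : S_PCO) :
    S_INJ := by
  intro l hl h2 χ hχ χ' hχ' hth
  obtain ⟨m1, s1, z1, n1, b1, c1, -⟩ := hEV l hl h2 χ hχ
  obtain ⟨m2, s2, z2, n2, b2, c2, -⟩ := hEV l hl h2 χ' hχ'
  have hb : ∀ ψ : CH l, (∀ a, ‖ev ψ a‖ ≤ 1) → ∀ a, ‖ph ψ a‖ ≤ 1 := fun ψ h a => by
    unfold ph
    split_ifs
    · exact h a
    · simp
  have hco := inj_coeff (fun a => ph χ a - ph χ' a) (fun τ hτ => by
    have a1 := (hPCO.2.1 _ 1 (hb χ b1) τ hτ).of_norm.hasSum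
    have a2 := (hPCO.2.1 _ 1 (hb χ' b2) τ hτ).of_norm.hasSum
    have a3 := hth τ hτ
    rw [hPCO.1, hPCO.1] at a3
    have a4 := a1.sub a2
    unfold TH at a3
    rw [a3, sub_self] at a4
    exact a4.congr_fun fun a => by ring)
  have main : ∀ n : ℕ, ∀ a : ZI, a.norm.natAbs = n → Pr a → ev χ a = ev χ' a := by
    intro n
    induction n using Nat.strong_induction_on with
    | _ n ih =>
    intro a han ha
    by_contra hne
    have split : ∀ b c : ZI, a = b * c → b.norm = 1 ∨ c.norm = 1 := by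
      intro b c hbc
      by_contra hh
      push Not at hh
      obtain ⟨e, he, hp⟩ := inj_norm (inj_odd (b := b) (c := c) (hbc ▸ ha))
      have e1 : a = (e * b) * (star e * c) := by
        have := Zsqrtd.norm_eq_mul_conj e
        rw [he] at this
        rw [hbc]
        linear_combination (b * c) * this
      have hp' : Pr (star e * c) := inj_cancel (e1 ▸ ha) hp
      have a0 : a.norm ≠ 0 := by
        intro h0
        rw [GaussianInt.norm_eq_zero.1 h0, inj_pr] at ha
        simp at ha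
      have f1 : n = b.norm.natAbs * c.norm.natAbs := by
        rw [← han, hbc, Zsqrtd.norm_mul, Int.natAbs_mul]
      have f0 : n ≠ 0 := by omega
      have g1 := GaussianInt.norm_nonneg b
      have g2 := GaussianInt.norm_nonneg c
      have f2 : 2 ≤ b.norm.natAbs := by
        have : b.norm.natAbs ≠ 0 := fun h => f0 (by rw [f1, h, zero_mul])
        omega
      have f3 : 2 ≤ c.norm.natAbs := by
        have : c.norm.natAbs ≠ 0 := fun h => f0 (by rw [f1, h, mul_zero])
        omega
      apply hne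
      rw [e1, m1, m2, ih b.norm.natAbs (by nlinarith) _ (by rw [Zsqrtd.norm_mul, he, one_mul]) hp,
        ih c.norm.natAbs (by nlinarith) _
          (by rw [Zsqrtd.norm_mul, Zsqrtd.norm_conj, he, one_mul]) hp']
    have hint : ∀ k : ℤ, a ≠ k := fun k hk => hne (hk ▸ inj_int hEV hl h2 hχ hχ' k)
    have a1 : a.norm ≠ 1 := fun h => hint 1 (by rw [inj_unit ha h]; simp)
    have a0 : a.norm ≠ 0 := fun h => hint 0 (by rw [GaussianInt.norm_eq_zero.1 h]; simp)
    have hirr : Irreducible a := by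
      refine ⟨fun h => a1 ((Zsqrtd.norm_eq_one_iff' (by norm_num) a).2 h), fun b c hbc => ?_⟩
      rw [← Zsqrtd.norm_eq_one_iff' (by norm_num), ← Zsqrtd.norm_eq_one_iff' (by norm_num)]
      exact split b c hbc
    have hpq : PQ a := by
      refine ⟨ha, ?_⟩
      rw [Int.isCoprime_iff_gcd_eq_one]
      obtain ⟨x, hx⟩ := Int.gcd_dvd_left a.re a.im
      obtain ⟨y, hy⟩ := Int.gcd_dvd_right a.re a.im
      generalize a.re.gcd a.im = g at *
      rcases split (g : ZI) ⟨x, y⟩ (by ext <;> simp [hx, hy]) with h | h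
      · rw [Zsqrtd.norm_natCast] at h
        have h1 : g * g = 1 := by exact_mod_cast h
        exact Nat.eq_one_of_mul_eq_one_left h1
      · exfalso
        rw [Zsqrtd.norm_def] at h
        simp only at h
        by_cases hy0 : y = 0
        · exact hint a.re (by ext <;> simp [hy, hy0])
        · have hx0 : x = 0 := by
            by_contra hx0
            nlinarith [Int.one_le_abs hx0, Int.one_le_abs hy0, abs_mul_abs_self x,
              abs_mul_abs_self y]
          rw [inj_pr, hx, hx0] at ha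
          omega
    have hst : a ≠ star a := fun h => by
      have := congrArg Zsqrtd.im h
      rw [Zsqrtd.im_star] at this
      exact hint a.re (by ext <;> simp; omega)
    have hcop : IsCoprime a (l : ZI) := by
      by_contra h
      exact hne (by rw [z1 a h, z2 a h])
    have hsum := hco n
    rw [tsum_subtype (f := fun b : ZI => (ph χ b - ph χ' b) * b),
      tsum_eq_sum (s := {a, star a}), Finset.sum_pair hst, Set.indicator_of_mem (by exact han),
      Set.indicator_of_mem (by show (star a).norm.natAbs = n; rw [Zsqrtd.norm_conj, han])] at hsum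
    · simp only [ph, if_pos ha, if_pos (inj_star ha), c1, c2] at hsum
      have := hPCO.2.2.1 (l : ZI) (by exact_mod_cast hl.ne_zero)
      have hu : IsUnit (Ideal.Quotient.mk (Ideal.span {(l : ZI)}) a) := by
        obtain ⟨x, y, hxy⟩ := hcop
        refine IsUnit.of_mul_eq_one (Ideal.Quotient.mk _ x) ?_
        rw [← map_mul, ← map_one (Ideal.Quotient.mk (Ideal.span {(l : ZI)})),
          Ideal.Quotient.eq, Ideal.mem_span_singleton]
        exact ⟨-y, by linear_combination hxy⟩
      obtain ⟨N, hN, hN1⟩ := (isOfFinOrder_of_finite hu.unit).exists_pow_eq_one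
      have hN2 : ∀ ψ : CH l, ev ψ a ^ N = 1 := fun ψ => by
        have := congrArg Units.val hN1
        rw [Units.val_pow_eq_pow_val, hu.unit_spec, Units.val_one] at this
        rw [ev, ← map_pow, this, map_one]
      have u1 : ev χ a * conj (ev χ a) = 1 := by rw [mul_conj, normSq_eq_norm_sq, n1 a hcop]; simp
      have u2 : ev χ' a * conj (ev χ' a) = 1 := by
        rw [mul_conj, normSq_eq_norm_sq, n2 a hcop]; simp
      have u3 : ev χ a * ev χ' a * (a : ℂ) = ((star a : ZI) : ℂ) := by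
        refine mul_left_cancel₀ (sub_ne_zero.2 hne) ?_
        linear_combination (ev χ a * ev χ' a) * hsum - ev χ' a * ((star a : ZI) : ℂ) * u1 +
          ev χ a * ((star a : ZI) : ℂ) * u2
      have u4 : a ^ N = star (a ^ N) := by
        rw [← GaussianInt.toComplex_inj, star_pow, map_pow, map_pow]
        have := congrArg (· ^ N) u3
        simpa only [mul_pow, hN2, one_mul] using this
      have u5 := congrArg Zsqrtd.im u4
      rw [Zsqrtd.im_star] at u5
      exact hint 1 (by rw [hPRIM.2.1 a N hpq hN (by omega)]; simp)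
    · intro b hb'
      rw [Set.indicator_apply_eq_zero]
      intro hbn
      have hbn' : b.norm.natAbs = n := hbn
      by_cases hp : Pr b
      · exfalso
        have g1 := GaussianInt.norm_nonneg a
        have g2 := GaussianInt.norm_nonneg b
        have e1 : b.norm = a.norm := by omega
        have e2 : a ∣ b * star b := by
          rw [← Zsqrtd.norm_eq_mul_conj, e1, Zsqrtd.norm_eq_mul_conj]
          exact dvd_mul_right _ _
        apply hb'
        rcases hirr.prime.dvd_or_dvd e2 with h | h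
        · simp [inj_same ha hp a0 e1 h]
        · rw [← inj_same ha (inj_star hp) a0 (by rw [Zsqrtd.norm_conj, e1]) h]
          simp
      · simp [ph, hp]
  refine MulChar.ext' fun x => ?_
  obtain ⟨a, rfl⟩ := Ideal.Quotient.mk_surjective x
  have hp : Pr (a + l * (l * (1 - a))) := by
    obtain ⟨k, hk⟩ := hl.odd_of_ne_two h2
    refine ⟨(1 - a) * (k * k + k) * ⟨1, -1⟩, ?_⟩
    have e4 : (⟨2, 2⟩ : ZI) * ⟨1, -1⟩ = 4 := by decide
    rw [hk]
    push_cast
    linear_combination (-(1 - a) * ((k : ZI) * k + k)) * e4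
  have := main _ _ rfl hp
  rwa [s1, s2] at this

end Pool.Agent.P.MP_e7a540_nt.BC
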