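import Pool.Agent.P.MP_e7a540_nt.BC.If

/-! Proof of LONG. -/

namespace Pool.Agent.P.MP_e7a540_nt.BC

open Complex Filter Topology CongruenceSubgroup
open UpperHalfPlane hiding I
open scoped Real ComplexConjugate MatrixGroups

theorem long_floor {x y : ℝ} (h : ⌊x⌋ = ⌊y⌋) : |x - y| < 1 := Int.abs_sub_lt_one_of_floor_eq_floor h

theorem long_card {l J : ℕ} (hl : 0 < l) (B : Finset ZI)
    (h1 : ∀ a ∈ B, ∀ b ∈ B, a ≠ b → (l : ℤ) ≤ |(a * star b).im|)
    (h2 : ∀ a ∈ B, (a.norm : ℝ) < J * l) : B.card ≤ 25 * J ^ 4 := by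
  rcases B.eq_empty_or_nonempty with rfl | ⟨a₀, ha₀⟩
  · simp
  have hl' : (0 : ℝ) < l := Nat.cast_pos.2 hl
  have hJ : 1 ≤ J := by
    rcases Nat.eq_zero_or_pos J with rfl | h
    · have := h2 a₀ ha₀
      have h3 : (0 : ℝ) ≤ a₀.norm := by exact_mod_cast GaussianInt.norm_nonneg a₀
      rw [Nat.cast_zero, zero_mul] at this
      linarith
    · exact h
  have hJ' : (1 : ℝ) ≤ J := Nat.one_le_cast.2 hJ
  set u := √(l : ℝ) with hu
  have hu0 : 0 < u := Real.sqrt_pos.2 hl'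
  have hu2 : u * u = l := Real.mul_self_sqrt hl'.le
  have hb : ∀ a ∈ B, |(a.re : ℝ)| ≤ J * u ∧ |(a.im : ℝ)| ≤ J * u := by
    intro a ha
    have h3 := h2 a ha
    rw [Zsqrtd.norm_def] at h3
    push_cast at h3
    have h4 : (J : ℝ) * l ≤ (J * u) ^ 2 := by
      rw [mul_pow, sq u, hu2]
      exact mul_le_mul_of_nonneg_right (by nlinarith) hl'.le
    constructor <;> refine abs_le.2 (abs_le_of_sq_le_sq' ?_ (by positivity)) <;>
      nlinarith [mul_self_nonneg (a.im : ℝ), mul_self_nonneg (a.re : ℝ)]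
  have hm : ∀ x : ℝ, |x| ≤ J * u → ⌊x * (2 * J / u)⌋ ∈ Finset.Icc (-(2 * J ^ 2 : ℤ)) (2 * J ^ 2) := by
    intro x hx
    have h3 : |x * (2 * J / u)| ≤ 2 * J ^ 2 := by
      rw [abs_mul, abs_of_pos (by positivity : (0 : ℝ) < 2 * J / u)]
      refine (mul_le_mul_of_nonneg_right hx (by positivity)).trans_eq ?_
      field_simp
    rw [abs_le] at h3
    rw [Finset.mem_Icc, Int.le_floor, ← Int.cast_le (R := ℝ)]
    push_cast
    exact ⟨h3.1, (Int.floor_le _).trans h3.2⟩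
  have hd : ∀ x y : ℝ, ⌊x * (2 * J / u)⌋ = ⌊y * (2 * J / u)⌋ → |x - y| * (2 * J) < u := by
    intro x y h
    have h3 := long_floor h
    rw [← sub_mul, abs_mul, abs_of_pos (by positivity : (0 : ℝ) < 2 * J / u), ← mul_div_assoc,
      div_lt_one hu0] at h3
    exact h3
  have h3 := Finset.card_le_card_of_injOn (s := B)
    (t := Finset.Icc (-(2 * J ^ 2 : ℤ)) (2 * J ^ 2) ×ˢ Finset.Icc (-(2 * J ^ 2 : ℤ)) (2 * J ^ 2))
    (fun a => (⌊(a.re : ℝ) * (2 * J / u)⌋, ⌊(a.im : ℝ) * (2 * J / u)⌋))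
    (fun a ha => Finset.mem_coe.2 (Finset.mem_product.2 ⟨hm _ (hb a ha).1, hm _ (hb a ha).2⟩)) (by
      intro a ha b hb' hab
      by_contra hne
      have h4 := h1 a ha b hb' hne
      have h5 := hd _ _ (congrArg Prod.fst hab)
      have h6 := hd _ _ (congrArg Prod.snd hab)
      have h7 : (l : ℝ) ≤ |(a.re : ℝ) * (a.im - b.im) - a.im * (a.re - b.re)| := by
        have e : (a * star b).im = a.re * (a.im - b.im) - a.im * (a.re - b.re) := by
          simp; ring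
        rw [e] at h4
        exact_mod_cast h4
      have h8 := abs_sub ((a.re : ℝ) * (a.im - b.im)) (a.im * (a.re - b.re))
      rw [abs_mul, abs_mul] at h8
      have h9 := mul_le_mul_of_nonneg_right (hb a ha).1 (abs_nonneg ((a.im : ℝ) - b.im))
      have h10 := mul_le_mul_of_nonneg_right (hb a ha).2 (abs_nonneg ((a.re : ℝ) - b.re))
      nlinarith [mul_lt_mul_of_pos_right h5 hu0, mul_lt_mul_of_pos_right h6 hu0])
  rw [Finset.card_product, Int.card_Icc] at h3
  have h4 : (2 * (J : ℤ) ^ 2 + 1 - -(2 * J ^ 2)).toNat = 4 * J ^ 2 + 1 := by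
    rw [← Int.toNat_natCast (4 * J ^ 2 + 1)]
    congr 1
    push_cast
    ring
  rw [h4] at h3
  have h5 : 1 ≤ J ^ 2 := Nat.one_le_pow _ _ hJ
  nlinarith

theorem long_class : ∃ C : ℝ, 0 ≤ C ∧ ∀ l : ℕ, 0 < l → ∀ B : Finset ZI,
    (∀ a ∈ B, ∀ b ∈ B, a ≠ b → (l : ℤ) ≤ |(a * star b).im|) →
    ∑ a ∈ B, rexp (-(a.norm : ℝ) / l) ≤ C := by
  have hs : Summable fun j : ℕ => 25 * rexp 1 * (((j + 1 : ℕ) : ℝ) ^ 4 * rexp (-1 * (j + 1 : ℕ))) :=
    ((summable_nat_add_iff 1).2 (Real.summable_pow_mul_exp_neg_nat_mul 4 one_pos)).mul_left _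
  refine ⟨∑' j : ℕ, 25 * rexp 1 * (((j + 1 : ℕ) : ℝ) ^ 4 * rexp (-1 * (j + 1 : ℕ))),
    tsum_nonneg fun j => by positivity, fun l hl B h => ?_⟩
  have hl' : (0 : ℝ) < l := Nat.cast_pos.2 hl
  rw [← Finset.sum_fiberwise_of_maps_to (g := fun a : ZI => ⌊(a.norm : ℝ) / l⌋₊)
    (fun a ha => Finset.mem_image_of_mem (fun a : ZI => ⌊(a.norm : ℝ) / l⌋₊) ha)]
  refine (Finset.sum_le_sum fun j _ => ?_).trans (hs.sum_le_tsum _ fun j _ => by positivity)
  have h1 := long_card (J := j + 1) hl (B.filter fun a => ⌊(a.norm : ℝ) / l⌋₊ = j)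
    (fun a ha b hb => h a (Finset.mem_filter.1 ha).1 b (Finset.mem_filter.1 hb).1) fun a ha => by
      rw [← div_lt_iff₀ hl', ← (Finset.mem_filter.1 ha).2, Nat.cast_succ]
      exact Nat.lt_floor_add_one _
  refine (Finset.sum_le_card_nsmul _ _ (rexp (-j)) fun a ha => ?_).trans ?_
  · rw [Real.exp_le_exp, neg_div, neg_le_neg_iff, ← (Finset.mem_filter.1 ha).2]
    exact Nat.floor_le (div_nonneg (by exact_mod_cast GaussianInt.norm_nonneg a) hl'.le)
  · have e : rexp (-j) = rexp 1 * rexp (-1 * (j + 1 : ℕ)) := by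
      rw [← Real.exp_add]
      push_cast
      ring_nf
    rw [nsmul_eq_mul, e]
    have h2 : (((B.filter fun a => ⌊(a.norm : ℝ) / l⌋₊ = j).card : ℕ) : ℝ) ≤
        25 * ((j + 1 : ℕ) : ℝ) ^ 4 := by exact_mod_cast h1
    refine (mul_le_mul_of_nonneg_right h2 (by positivity)).trans_eq ?_
    ring

theorem long_norm {l : ℕ} (hl : l.Prime) {m : ZI} (h : IsCoprime m (l : ZI)) :
    ¬ (l : ℤ) ∣ m.norm := by
  rintro ⟨c, hc⟩
  have h1 : IsCoprime (star m) (l : ZI) := by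
    have := h.map (starRingEnd ZI)
    rwa [map_natCast] at this
  have h2 := h.mul_left h1
  rw [← Zsqrtd.norm_eq_mul_conj, hc] at h2
  have h3 := h2.isUnit_of_dvd' (x := (l : ZI)) (by push_cast; exact dvd_mul_right _ _) dvd_rfl
  rw [Zsqrtd.isUnit_iff_norm_isUnit, Zsqrtd.norm_natCast, Int.isUnit_iff_natAbs_eq] at h3
  rw [Int.natAbs_mul, Int.natAbs_natCast] at h3
  exact hl.ne_one (Nat.eq_one_of_mul_eq_one_right h3)

theorem long_split (hPRIM : S_PRIM) {C : ℝ} (hC : 0 ≤ C) {l : ℕ} (hl : l.Prime)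
    (h : ∀ B : Finset ZI, (∀ a ∈ B, ∀ b ∈ B, a ≠ b → (l : ℤ) ≤ |(a * star b).im|) →
      ∑ a ∈ B, rexp (-(a.norm : ℝ) / l) ≤ C) (k : ℕ) : ∀ A : Finset ZI, (∀ a ∈ A, a ∈ PP l) →
    (∀ M ⊆ A, (∀ a ∈ M, ∀ b ∈ M, (l : ℤ) ∣ (a * star b).im → a = b) → M.card ≤ k) →
    ∑ a ∈ A, rexp (-(a.norm : ℝ) / l) ≤ k * C := by
  classical
  induction k with
  | zero =>
    intro A _ hA
    rcases A.eq_empty_or_nonempty with rfl | ⟨m, hm⟩
    · simp
    · simpa using hA {m} (by simpa using hm) (by simp)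
  | succ k ih =>
    intro A h1 hA
    rcases A.eq_empty_or_nonempty with rfl | ⟨m, hm⟩
    · simp only [Finset.sum_empty]
      positivity
    rw [← Finset.sum_filter_add_sum_filter_not A fun a => (l : ℤ) ∣ (a * star m).im, Nat.cast_succ,
      add_mul, one_mul, add_comm (_ * C)]
    refine add_le_add (h _ fun a ha b hb hab => ?_) (ih _ (fun a ha =>
      h1 a (Finset.mem_filter.1 ha).1) fun M hM h2 => ?_)
    · rw [Finset.mem_filter] at ha hb
      refine Int.le_of_dvd (abs_pos.2 fun e => hab (hPRIM.1 a b (h1 a ha.1).1 (h1 b hb.1).1 e))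
        ((dvd_abs _ _).2 ?_)
      have e : (a * star b).im * m.norm =
          (a * star m).im * (b * star m).re - (a * star m).re * (b * star m).im := by
        simp [Zsqrtd.norm_def]; ring
      refine ((Nat.prime_iff_prime_int.1 hl).dvd_or_dvd ?_).resolve_right
        (long_norm hl (h1 m hm).2.2)
      rw [e]
      exact (ha.2.mul_right _).sub (hb.2.mul_left _)
    · have h3 : ∀ a ∈ M, ¬ (l : ℤ) ∣ (a * star m).im := fun a ha => (Finset.mem_filter.1 (hM ha)).2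
      have h4 : m ∉ M := fun e => h3 m e (by simp [mul_comm])
      have h5 := hA (insert m M) (Finset.insert_subset hm (hM.trans (Finset.filter_subset _ _))) (by
        intro a ha b hb hab
        rw [Finset.mem_insert] at ha hb
        rcases ha with rfl | ha <;> rcases hb with rfl | hb
        · rfl
        · refine absurd ?_ (h3 b hb)
          have e : (b * star a).im = -(a * star b).im := by simp; ring
          rw [e]
          exact hab.neg_right
        · exact absurd hab (h3 a ha)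
        · exact h2 a ha b hb hab)
      rw [Finset.card_insert_of_notMem h4] at h5
      omega

theorem p_LONG (hCLS : S_CLS) (hGRP : S_GRP) (hPRIM : S_PRIM) :
    S_LONG := by
  obtain ⟨C, hC, h⟩ := long_class
  refine ⟨C, fun l hl h2 A hA => ?_⟩
  obtain ⟨-, -, hg, -, -, hod⟩ := hGRP l hl h2
  have hg0 : gg l ≠ 0 := by
    have := hl.two_le
    omega
  have hl' : (0 : ℝ) < l := Nat.cast_pos.2 hl.pos
  rw [← Finset.sum_fiberwise_of_maps_to (g := od l) (t := (gg l).divisors)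
    (fun a ha => Nat.mem_divisors.2 ⟨(hod a (hA a ha).1.2.2).2.1, hg0⟩), DD, Finset.mul_sum,
    Finset.sum_div]
  refine Finset.sum_le_sum fun n hn => ?_
  have hn0 : 0 < n := Nat.pos_of_mem_divisors hn
  have hn' : (0 : ℝ) < n := Nat.cast_pos.2 hn0
  have h3 := long_split hPRIM hC hl (h l hl.pos) n (A.filter fun a => od l a = n)
    (fun a ha => (hA a (Finset.mem_filter.1 ha).1).1) fun M hM h4 =>
      hCLS l n hl h2 hn0 M (fun a ha => by
        obtain ⟨h5, h6⟩ := Finset.mem_filter.1 (hM ha)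
        exact ⟨(hA a h5).1.2.2, ((hod a (hA a h5).1.2.2).2.2.1 n).2 (h6 ▸ dvd_rfl)⟩) h4
  refine (Finset.sum_le_sum (g := fun a : ZI =>
    rexp (-(a.norm : ℝ) / l) * ((n.divisors.card / n) / √l)) fun a ha => ?_).trans ?_
  · obtain ⟨h5, h6⟩ := Finset.mem_filter.1 ha
    rw [wt, h6, div_mul_eq_mul_div, mul_div_assoc]
    have h7 : √(l : ℝ) ≤ √(a.norm : ℝ) := Real.sqrt_le_sqrt (by exact_mod_cast (hA a h5).2)
    gcongr
  · rw [← Finset.sum_mul]
    refine (mul_le_mul_of_nonneg_right h3 (by positivity)).trans_eq ?_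
    rw [neg_zero, Real.rpow_zero]
    field_simp

end Pool.Agent.P.MP_e7a540_nt.BC
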