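import Pool.Agent.P.MP_e7a540_nt.BC.If

/-! Proof of LV. -/

namespace Pool.Agent.P.MP_e7a540_nt.BC

open Complex Filter Topology CongruenceSubgroup MeasureTheory Set
open UpperHalfPlane hiding I
open scoped Real ComplexConjugate MatrixGroups

lemma lv_fe (F : ℝ → ℂ) (N : ℝ) (hN : 0 < N) (W : ℂ)
    (h : ∀ t : ℝ, 0 < t → F ((N * t)⁻¹) = W * N * t ^ 2 * F t) (s : ℂ) :
    (N : ℂ) ^ s * mellin F s = W * N * mellin F (2 - s) := by
  have a := mellin_comp_mul_left (fun u => F u⁻¹) (-s) hN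
  rw [mellin_comp_inv, neg_neg, smul_eq_mul] at a
  rw [← a, show 2 - s = -s + 2 by ring, ← mellin_cpow_smul, ← smul_eq_mul, ← mellin_const_smul]
  refine setIntegral_congr_fun measurableSet_Ioi fun t ht => ?_
  simp only [h t ht, smul_eq_mul, cpow_ofNat]
  ring

lemma lv_split (F : ℝ → ℂ) (N c : ℝ) (hN : 0 < N) (hc : 0 < c) (hNc : N * c ^ 2 = 1) (W : ℂ)
    (h : ∀ t : ℝ, 0 < t → F ((N * t)⁻¹) = W * N * t ^ 2 * F t) (hi : IntegrableOn F (Ioi 0)) :
    ∫ t in Ioi 0, F t = (1 + W) * ∫ t in Ioi c, F t := by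
  have im : (fun t : ℝ => (N * t)⁻¹) '' Ioi c = Ioo 0 c := by
    ext y
    constructor
    · rintro ⟨t, ht, rfl⟩
      have ht' : c < t := ht
      have p : 0 < N * t := mul_pos hN (hc.trans ht')
      refine ⟨inv_pos.2 p, ?_⟩
      rw [inv_lt_iff_one_lt_mul₀ p]
      nlinarith [mul_pos hN hc]
    · rintro ⟨h0, h1⟩
      have p : 0 < N * y := mul_pos hN h0
      refine ⟨(N * y)⁻¹, ?_, by field_simp⟩
      change c < _
      rw [← one_div, lt_div_iff₀ p]
      nlinarith [mul_pos hN hc]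
  have cv := integral_image_eq_integral_abs_deriv_smul (s := Ioi c)
    (f := fun t : ℝ => (N * t)⁻¹) (f' := fun t => -N / (N * t) ^ 2) measurableSet_Ioi
    (fun t ht => by
      have p : N * t ≠ 0 := (mul_pos hN (hc.trans ht)).ne'
      have := ((hasDerivAt_id t).const_mul N).inv p
      rw [mul_one] at this
      exact this.hasDerivWithinAt)
    (fun a _ b _ e => mul_left_cancel₀ hN.ne' (inv_injective e)) F
  have e2 : ∫ t in Ioi c, |-N / (N * t) ^ 2| • F ((N * t)⁻¹) = W * ∫ t in Ioi c, F t := by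
    rw [← integral_const_mul]
    refine setIntegral_congr_fun measurableSet_Ioi fun t ht => ?_
    have t0 : 0 < t := hc.trans ht
    have : |-N / (N * t) ^ 2| = N / (N * t) ^ 2 := by
      rw [neg_div, abs_neg, abs_of_pos (by positivity)]
    have n1 : (N : ℂ) ≠ 0 := ofReal_ne_zero.2 hN.ne'
    have n2 : (t : ℂ) ≠ 0 := ofReal_ne_zero.2 t0.ne'
    simp only [this, h t t0, real_smul]
    push_cast
    field_simp
  rw [im, e2] at cv
  rw [← Ioc_union_Ioi_eq_Ioi hc.le, setIntegral_union Ioc_disjoint_Ioi_same measurableSet_Ioi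
    (hi.mono_set Ioc_subset_Ioi_self) (hi.mono_set (Ioi_subset_Ioi hc.le)),
    integral_Ioc_eq_integral_Ioo, cv]
  ring

lemma lv_norm (a : ZI) (ha : Pr a) : 1 ≤ a.norm ∧ (a ≠ 1 → 2 ≤ a.norm) := by
  obtain ⟨b, hb⟩ := ha
  have h1 : a.re - 1 = 2 * b.re - 2 * b.im := by
    have := congrArg Zsqrtd.re hb
    simp at this
    linarith
  have h2 : a.im = 2 * b.im + 2 * b.re := by
    have := congrArg Zsqrtd.im hb
    simp at this
    linarith
  have hn : a.norm = a.re * a.re + a.im * a.im := by simp [Zsqrtd.norm]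
  have r : 1 ≤ a.re ∨ a.re ≤ -1 := by omega
  refine ⟨by rcases r with r | r <;> nlinarith [mul_self_nonneg a.im], fun ne => ?_⟩
  by_contra k
  have i0 : a.im = 0 := by
    have : a.im * a.im ≤ 0 := by rcases r with r | r <;> nlinarith
    exact mul_self_eq_zero.1 (le_antisymm this (mul_self_nonneg _))
  have r1 : a.re ≤ 1 := by nlinarith
  have r2 : -1 ≤ a.re := by nlinarith
  exact ne (Zsqrtd.ext (by simp; omega) (by simp [i0]))

lemma lv_tm {l : ℕ} (χ : CH l) (y : ℝ) (a : {a : ZI // Pr a}) :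
    tm χ (I * y) a = ev χ a * (a : ZI) *
      cexp (((-(2 * π * ((a : ZI).norm : ℤ)) : ℝ) : ℂ) * y) := by
  unfold tm
  congr 2
  push_cast
  linear_combination (2 * π * ((a : ZI).norm : ℤ) * y : ℂ) * I_sq

lemma lv_sum (hPOI : S_POI) (y : ℝ) (hy : 0 < y) : Summable fun a : {a : ZI // Pr a} =>
    ‖((a : ZI) : ℂ)‖ * rexp (-(y * ((a : ZI).norm : ℤ))) := by
  have := (hPOI.1 0 y hy).subtype {a : ZI | Pr a}
  refine this.congr fun a => ?_
  simp only [Function.comp, zero_add, GaussianInt.intCast_real_norm, neg_mul]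

lemma lv_ntm {l : ℕ} (χ : CH l) (hb : ∀ a, ‖ev χ a‖ ≤ 1) (y : ℝ) (a : {a : ZI // Pr a}) :
    ‖tm χ (I * y) a‖ ≤ ‖((a : ZI) : ℂ)‖ * rexp (-(2 * π * ((a : ZI).norm : ℤ)) * y) := by
  rw [lv_tm, norm_mul, norm_mul, ← ofReal_mul, norm_exp_ofReal]
  exact mul_le_mul_of_nonneg_right (mul_le_of_le_one_left (norm_nonneg _) (hb _))
    (Real.exp_pos _).le

lemma lv_int (hPOI : S_POI) {l : ℕ} (χ : CH l) (hb : ∀ a, ‖ev χ a‖ ≤ 1) (c : ℝ) (hc : 0 < c) :
    sm χ (2 * π * c) = 2 * π * ∫ y in Ioi c, th χ (I * y) := by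
  have neg : ∀ a : {a : ZI // Pr a}, (-(2 * π * ((a : ZI).norm : ℤ)) : ℝ) ≤ -1 := fun a => by
    have : (1 : ℝ) ≤ ((a : ZI).norm : ℤ) := by exact_mod_cast (lv_norm a a.2).1
    nlinarith [Real.pi_gt_three]
  have hi : ∀ a : {a : ZI // Pr a}, IntegrableOn (fun y : ℝ => tm χ (I * y) a) (Ioi c) := fun a => by
    simp only [lv_tm]
    exact (integrableOn_exp_mul_complex_Ioi (by rw [ofReal_re]; linarith [neg a]) c).const_mul _
  have hs : Summable fun a : {a : ZI // Pr a} => ∫ y in Ioi c, ‖tm χ (I * y) a‖ := by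
    refine (lv_sum hPOI (2 * π * c) (by positivity)).of_nonneg_of_le
      (fun a => integral_nonneg fun _ => norm_nonneg _) fun a => ?_
    have lt : (-(2 * π * ((a : ZI).norm : ℤ)) : ℝ) < 0 := by linarith [neg a]
    refine (integral_mono (hi a).norm ((integrableOn_exp_mul_Ioi lt c).const_mul _)
      fun y => lv_ntm χ hb y a).trans ?_
    rw [integral_const_mul, integral_exp_mul_Ioi lt, neg_div_neg_eq]
    refine mul_le_mul_of_nonneg_left ?_ (norm_nonneg _)
    refine (div_le_self (Real.exp_pos _).le (by linarith [neg a])).trans (le_of_eq ?_)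
    congr 1
    ring
  have : Countable ZI := Function.Injective.countable (f := fun a : ZI => (a.re, a.im))
    fun a b h => Zsqrtd.ext (congrArg Prod.fst h) (congrArg Prod.snd h)
  have H := (hasSum_integral_of_summable_integral_norm hi hs).mul_left (2 * π : ℂ)
  refine Eq.trans (tsum_congr fun a => ?_) H.tsum_eq
  have n0 : (((a : ZI).norm : ℤ) : ℂ) ≠ 0 := by
    have := (lv_norm a a.2).1
    exact_mod_cast (by omega : (a : ZI).norm ≠ 0)
  have p0 : (π : ℂ) ≠ 0 := ofReal_ne_zero.2 Real.pi_ne_zero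
  simp only [lv_tm]
  rw [integral_const_mul, integral_exp_mul_complex_Ioi (by rw [ofReal_re]; linarith [neg a]),
    ofReal_exp, show ((-(2 * π * c) * ((a : ZI).norm : ℤ) : ℝ) : ℂ) =
      ((-(2 * π * ((a : ZI).norm : ℤ)) : ℝ) : ℂ) * c by push_cast; ring]
  generalize cexp _ = E
  push_cast
  field_simp

lemma lv_ne (hPOI : S_POI) {l : ℕ} (χ : CH l) (hb : ∀ a, ‖ev χ a‖ ≤ 1) (h1 : ev χ 1 = 1) :
    ¬ ∀ y : ℝ, 0 < y → th χ (I * y) = 0 := by
  classical
  intro hz
  let o : {a : ZI // Pr a} := ⟨1, by simp [Pr]⟩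
  have bd : ∀ (y : ℝ) (a : {a : ZI // Pr a}), ‖(rexp (2 * π * y) : ℂ) * tm χ (I * y) a‖ ≤
      ‖((a : ZI) : ℂ)‖ * rexp (-(2 * π * (((a : ZI).norm : ℤ) - 1)) * y) := fun y a => by
    rw [norm_mul, norm_real, Real.norm_of_nonneg (Real.exp_pos _).le]
    refine (mul_le_mul_of_nonneg_left (lv_ntm χ hb y a) (Real.exp_pos _).le).trans (le_of_eq ?_)
    rw [mul_left_comm, ← Real.exp_add]
    congr 2
    ring
  have T := tendsto_tsum_of_dominated_convergence (𝓕 := atTop)
    (f := fun (y : ℝ) (a : {a : ZI // Pr a}) => (rexp (2 * π * y) : ℂ) * tm χ (I * y) a)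
    (g := fun a => if a = o then 1 else 0)
    ((lv_sum hPOI (2 * π) (by positivity)).mul_left (rexp (2 * π))) (fun a => ?_) ?_
  · rw [tsum_ite_eq] at T
    have : Tendsto (fun y : ℝ => ∑' a : {a : ZI // Pr a},
        (rexp (2 * π * y) : ℂ) * tm χ (I * y) a) atTop (𝓝 0) := by
      refine tendsto_const_nhds.congr' ?_
      filter_upwards [eventually_gt_atTop 0] with y hy
      rw [tsum_mul_left, show ∑' a, tm χ (I * y) a = 0 from hz y hy, mul_zero]
    exact one_ne_zero (tendsto_nhds_unique T this)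
  · split_ifs with ha
    · subst ha
      refine tendsto_const_nhds.congr fun y => ?_
      rw [lv_tm]
      simp only [o, h1, map_one, Zsqrtd.norm_one, one_mul, ofReal_exp, ← Complex.exp_add]
      rw [eq_comm, Complex.exp_eq_one_iff]
      exact ⟨0, by push_cast; ring⟩
    · have n2 : (2 : ℝ) ≤ ((a : ZI).norm : ℤ) := by
        exact_mod_cast (lv_norm a a.2).2 fun e => ha (Subtype.ext e)
      refine squeeze_zero_norm (fun y => bd y a) ?_
      rw [← mul_zero ‖((a : ZI) : ℂ)‖]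
      refine Tendsto.const_mul _ (Real.tendsto_exp_atBot.comp ?_)
      exact tendsto_id.const_mul_atTop_of_neg (by nlinarith [Real.pi_pos])
  · filter_upwards [eventually_ge_atTop 1] with y hy a
    refine (bd y a).trans ?_
    have n1 : (1 : ℝ) ≤ ((a : ZI).norm : ℤ) := by exact_mod_cast (lv_norm a a.2).1
    rw [mul_left_comm, ← Real.exp_add]
    refine mul_le_mul_of_nonneg_left (Real.exp_le_exp.2 ?_) (norm_nonneg _)
    nlinarith [mul_nonneg (mul_nonneg Real.pi_pos.le (sub_nonneg.2 n1)) (sub_nonneg.2 hy)]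

theorem p_LV (hEV : S_EV) (hPOI : S_POI) (hPCO : S_PCO) (hFRK : S_FRK) :
    S_LV := by
  intro l hl h2 χ hχ h1 f hf
  obtain ⟨-, -, -, -, hb, -, -, -, -, hW, -⟩ := hEV l hl.out h2 χ hχ
  have l0 : (0 : ℝ) < l := by exact_mod_cast hl.out.pos
  set F : ℝ → ℂ := fun t => f (ofComplex (I * t)) with hF
  have Fe : ∀ t : ℝ, 0 < t → F t = th χ (I * t) := fun t ht => by
    have := (hf (ofComplex (I * t))).tsum_eq
    rw [ofComplex_apply_of_im_pos (by simpa using ht)] at this
    simp only [hF]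
    rw [ofComplex_apply_of_im_pos (by simpa using ht)]
    exact this.symm
  have hN : (0 : ℝ) < 32 * l ^ 2 := by positivity
  have fe : ∀ t : ℝ, 0 < t →
      F ((32 * l ^ 2 * t)⁻¹) = WW χ * ((32 * l ^ 2 : ℝ) : ℂ) * t ^ 2 * F t := fun t ht => by
    have n1 : (l : ℂ) ≠ 0 := by exact_mod_cast l0.ne'
    have n2 : (t : ℂ) ≠ 0 := ofReal_ne_zero.2 ht.ne'
    have := hFRK l hl.out h2 χ hχ h1 (I * t) (by simpa using ht)
    rw [Fe _ (by positivity), Fe t ht, show I * (((32 * l ^ 2 * t)⁻¹ : ℝ) : ℂ) =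
      -1 / (32 * l ^ 2 * (I * t)) by
        push_cast
        field_simp
        rw [I_sq], this, mul_pow, I_sq]
    push_cast
    ring
  have hΛ : ModularForm.Λ two_pos f = mellin F := CuspForm.Λ_eq_mellin two_pos f
  have mc : ∀ s, MellinConvergent F s := fun s =>
    ((CuspForm.isStrongFEPair two_pos f).hasMellin s).1
  have hi : IntegrableOn F (Ioi 0) := by simpa [MellinConvergent] using mc 1
  have L1 : ModularForm.L two_pos f 1 = 2 * π * ∫ t in Ioi 0, F t := by
    have p0 : (π : ℂ) ≠ 0 := ofReal_ne_zero.2 Real.pi_ne_zero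
    rw [ModularForm.L, hΛ, Gammaℂ_one]
    simp only [mellin, sub_self, cpow_zero, one_smul]
    field_simp
  have sI : ∀ c : ℝ, 0 < c → sm χ (2 * π * c) = 2 * π * ∫ y in Ioi c, F y := fun c hc => by
    rw [lv_int hPOI χ hb c hc]
    congr 1
    exact setIntegral_congr_fun measurableSet_Ioi fun y hy => (Fe y (hc.trans hy)).symm
  refine ⟨?_, ?_, ?_⟩
  · have sq : 0 < √(32 * (l : ℝ) ^ 2) := Real.sqrt_pos.2 hN
    rw [L1, lv_split F _ (√(32 * l ^ 2))⁻¹ hN (inv_pos.2 sq) (by
      rw [inv_pow, Real.sq_sqrt hN.le, mul_inv_cancel₀ hN.ne']) _ fe hi, div_eq_mul_inv,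
      sI _ (inv_pos.2 sq)]
    ring
  · have T : Tendsto (sm χ) (𝓝[>] 0) (𝓝 (ModularForm.L two_pos f 1)) := by
      have a : Tendsto (fun t : ℝ => t / (2 * π)) (𝓝[>] 0) (𝓝[Ici 0] 0) := by
        refine tendsto_nhdsWithin_iff.2 ⟨?_, ?_⟩
        · exact (((continuous_id.div_const (2 * π)).tendsto' 0 0 (by simp))).mono_left
            nhdsWithin_le_nhds
        · filter_upwards [self_mem_nhdsWithin] with t ht
          exact (div_pos ht Real.two_pi_pos).le
      rw [L1]
      refine (((hi.continuousWithinAt_Ici_primitive_Ioi).tendsto.comp a).const_mul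
        (2 * π : ℂ)).congr' ?_
      filter_upwards [self_mem_nhdsWithin] with t ht
      have := sI _ (div_pos ht Real.two_pi_pos)
      rw [mul_div_cancel₀ _ Real.two_pi_pos.ne'] at this
      exact this.symm
    exact ⟨fun h => by rw [Van, ← h]; exact T, fun h => tendsto_nhds_unique T h⟩
  · have n0 : (32 * l ^ 2 : ℂ) ≠ 0 := by exact_mod_cast hN.ne'
    have key : ∀ s : ℂ, (32 * l ^ 2 : ℂ) ^ (s / 2) * mellin F s =
        WW χ * ((32 * l ^ 2 : ℂ) ^ ((2 - s) / 2) * mellin F (2 - s)) := fun s => by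
      have a := lv_fe F _ hN _ fe s
      push_cast at a
      have b : (32 * l ^ 2 : ℂ) ^ s = (32 * l ^ 2 : ℂ) ^ (s / 2) * (32 * l ^ 2 : ℂ) ^ (s / 2) := by
        rw [← cpow_add _ _ n0, add_halves]
      have c : (32 * l ^ 2 : ℂ) ^ (s / 2) * (32 * l ^ 2 : ℂ) ^ ((2 - s) / 2) = 32 * l ^ 2 := by
        rw [← cpow_add _ _ n0, show s / 2 + (2 - s) / 2 = 1 by ring, cpow_one]
      refine mul_left_cancel₀ (cpow_ne_zero_iff.2 (Or.inl n0) :
        (32 * l ^ 2 : ℂ) ^ (s / 2) ≠ 0) ?_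
      linear_combination a - mellin F s * b - WW χ * mellin F (2 - s) * c
    rw [hΛ]
    refine ⟨fun h => hW.resolve_right fun hm => ?_, fun h s => by rw [key, h, one_mul]⟩
    have z : mellin F = 0 := funext fun s => by
      have a := key s
      rw [hm, ← h s] at a
      have : (32 * l ^ 2 : ℂ) ^ (s / 2) * mellin F s = 0 := by linear_combination a / 2
      exact (mul_eq_zero.1 this).resolve_left (cpow_ne_zero_iff.2 (Or.inl n0))
    refine lv_ne hPOI χ hb ?_ fun y hy => ?_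
    · have := hχ 1 fun d => hl.out.one_lt.ne' (by exact_mod_cast Int.eq_one_of_dvd_one (by positivity) d)
      simpa using this
    · have cF : ContinuousAt F y := by
        have : ContinuousOn F (Ioi 0) := by
          simp only [hF]
          fun_prop
        exact this.continuousAt (Ioi_mem_nhds hy)
      have := mellinInv_mellin_eq 1 F hy (mc _) (by rw [z]; exact integrable_zero _ _ _) cF
      rw [← Fe y hy, ← this, z]
      simp [mellinInv]

end Pool.Agent.P.MP_e7a540_nt.BC
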