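import Pool.Agent.P.MP_e7a540_nt.BC.If

/-! Proof of MOD. -/

namespace Pool.Agent.P.MP_e7a540_nt.BC

open Complex Filter Topology CongruenceSubgroup
open UpperHalfPlane hiding I
open scoped Real ComplexConjugate MatrixGroups ModularForm Manifold

theorem mod_norm {l : ℕ} {χ : CH l} (h1 : ∀ a, ‖ev χ a‖ ≤ 1) (τ : ℂ) (y : ℝ) (hy : y ≤ τ.im)
    (a : {a : ZI // Pr a}) :
    ‖tm χ τ a‖ ≤ ‖((a : ZI) : ℂ)‖ * rexp (-(2 * π * y) * normSq ((a : ZI) : ℂ)) := by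
  unfold tm
  rw [norm_mul, norm_mul, Complex.norm_exp]
  have e : (2 * (π : ℂ) * I * (((a : ZI).norm : ℤ) : ℂ) * τ).re =
      -(2 * π * τ.im) * normSq ((a : ZI) : ℂ) := by
    rw [← GaussianInt.intCast_real_norm]
    simp
    ring
  rw [e]
  have h2 : rexp (-(2 * π * τ.im) * normSq ((a : ZI) : ℂ)) ≤
      rexp (-(2 * π * y) * normSq ((a : ZI) : ℂ)) := by
    apply Real.exp_le_exp.mpr
    apply mul_le_mul_of_nonneg_right _ (normSq_nonneg _)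
    have := Real.pi_pos
    nlinarith
  calc ‖ev χ a‖ * ‖((a : ZI) : ℂ)‖ * rexp (-(2 * π * τ.im) * normSq ((a : ZI) : ℂ))
      ≤ 1 * ‖((a : ZI) : ℂ)‖ * rexp (-(2 * π * y) * normSq ((a : ZI) : ℂ)) := by
        gcongr
        exact h1 _
    _ = _ := by rw [one_mul]

theorem mod_maj (hPOI : S_POI) (y : ℝ) (hy : 0 < y) :
    Summable fun b : ZI => ‖(b : ℂ)‖ * rexp (-(2 * π * y) * normSq (b : ℂ)) := by
  have := hPOI.1 0 (2 * π * y) (by have := Real.pi_pos; positivity)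
  simpa using this

theorem mod_summable (hPOI : S_POI) {l : ℕ} {χ : CH l} (h1 : ∀ a, ‖ev χ a‖ ≤ 1) (τ : ℂ)
    (hτ : 0 < τ.im) : Summable (tm χ τ) :=
  Summable.of_norm_bounded ((mod_maj hPOI τ.im hτ).subtype _) (mod_norm h1 τ τ.im le_rfl)

theorem mod_bound (hPOI : S_POI) {l : ℕ} {χ : CH l} (h1 : ∀ a, ‖ev χ a‖ ≤ 1) :
    ∃ C : ℝ, 0 ≤ C ∧ ∀ τ : ℂ, 0 < τ.im → ‖th χ τ‖ ≤ C * τ.im ^ (-(3 / 2 : ℝ)) := by
  obtain ⟨C, hC⟩ := hPOI.2.1
  have hp := Real.pi_pos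
  refine ⟨|C| * (2 * π) ^ (-(3 / 2 : ℝ)), by positivity, fun τ hτ => ?_⟩
  have hs := mod_maj hPOI τ.im hτ
  have h2 : ‖th χ τ‖ ≤ ∑' a : {a : ZI // Pr a},
      ‖((a : ZI) : ℂ)‖ * rexp (-(2 * π * τ.im) * normSq ((a : ZI) : ℂ)) :=
    tsum_of_norm_bounded (hs.subtype _).hasSum (mod_norm h1 τ τ.im le_rfl)
  have h3 : ∑' a : {a : ZI // Pr a},
      ‖((a : ZI) : ℂ)‖ * rexp (-(2 * π * τ.im) * normSq ((a : ZI) : ℂ)) ≤
      ∑' b : ZI, ‖(b : ℂ)‖ * rexp (-(2 * π * τ.im) * normSq (b : ℂ)) :=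
    Summable.tsum_subtype_le _ {a : ZI | Pr a} (fun b => by positivity) hs
  have h4 := hC (2 * π * τ.im) (by positivity)
  have h5 : (2 * π * τ.im) ^ (-(3 / 2 : ℝ)) =
      (2 * π) ^ (-(3 / 2 : ℝ)) * τ.im ^ (-(3 / 2 : ℝ)) :=
    Real.mul_rpow (by positivity) hτ.le
  calc ‖th χ τ‖ ≤ C * (2 * π * τ.im) ^ (-(3 / 2 : ℝ)) := h2.trans (h3.trans h4)
    _ ≤ |C| * (2 * π * τ.im) ^ (-(3 / 2 : ℝ)) :=
        mul_le_mul_of_nonneg_right (le_abs_self C) (by positivity)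
    _ = _ := by rw [h5]; ring

theorem mod_diff (hPOI : S_POI) {l : ℕ} {χ : CH l} (h1 : ∀ a, ‖ev χ a‖ ≤ 1) :
    DifferentiableOn ℂ (th χ) {z : ℂ | 0 < z.im} := by
  intro z hz
  have hz' : 0 < z.im := hz
  have hU : IsOpen {w : ℂ | z.im / 2 < w.im} := isOpen_lt continuous_const Complex.continuous_im
  have hd : DifferentiableOn ℂ (fun w : ℂ => ∑' a, tm χ w a) {w : ℂ | z.im / 2 < w.im} := by
    refine Complex.differentiableOn_tsum_of_summable_norm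
      ((mod_maj hPOI (z.im / 2) (by positivity)).subtype {a : ZI | Pr a}) (fun a => ?_) hU
      (fun a w hw => mod_norm h1 w (z.im / 2) (le_of_lt hw) a)
    unfold tm
    fun_prop
  have hm : z ∈ {w : ℂ | z.im / 2 < w.im} := by
    show z.im / 2 < z.im
    linarith
  exact (hd.differentiableAt (hU.mem_nhds hm)).differentiableWithinAt

theorem mod_inv (hSLA : S_SLA) {l : ℕ} (hl : l.Prime) (h2 : l ≠ 2) {χ : CH l} (hχ : χ ∈ XX l)
    (γ : SL(2, ℤ)) (hγ : γ ∈ Gamma0 (32 * l ^ 2)) :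
    (fun τ : ℍ => th χ τ) ∣[(2 : ℤ)] γ = fun τ : ℍ => th χ τ := by
  funext τ
  rw [ModularForm.slash_action_eq'_iff]
  have hd : γ 0 0 * γ 1 1 - γ 0 1 * γ 1 0 = 1 := by
    have := γ.det_coe
    rw [Matrix.det_fin_two] at this
    exact this
  have hc : (32 * l ^ 2 : ℤ) ∣ γ 1 0 := by
    have := (ZMod.intCast_zmod_eq_zero_iff_dvd _ _).mp (Gamma0_mem.mp hγ)
    exact_mod_cast this
  have := hSLA l hl h2 χ hχ (γ 0 0) (γ 0 1) (γ 1 0) (γ 1 1) hd hc τ τ.im_pos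
  rw [UpperHalfPlane.specialLinearGroup_apply]
  simpa using this

theorem mod_zero {N : ℕ} (hN : 0 < N) (f : ℍ → ℂ) (C : ℝ) (hC : 0 ≤ C)
    (hb : ∀ τ : ℍ, ‖f τ‖ ≤ C * τ.im ^ (-(3 / 2 : ℝ)))
    (hf : ∀ γ : SL(2, ℤ), γ ∈ Gamma0 N → f ∣[(2 : ℤ)] γ = f) (γ : SL(2, ℤ)) :
    IsZeroAtImInfty (f ∣[(2 : ℤ)] γ) := by
  have hper : ∀ (k : ℤ) (τ : ℍ), (f ∣[(2 : ℤ)] γ) (((N * k : ℤ) : ℝ) +ᵥ τ) =
      (f ∣[(2 : ℤ)] γ) τ := by
    intro k τ
    have hT : ModularGroup.T ^ ((N : ℤ) * k) ∈ CongruenceSubgroup.Gamma N :=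
      ModularGroup_T_pow_mem_Gamma N _ (dvd_mul_right _ _)
    have hδ : γ * ModularGroup.T ^ ((N : ℤ) * k) * γ⁻¹ ∈ Gamma0 N := by
      have := (Gamma_normal N).conj_mem _ hT γ
      rw [Gamma_mem] at this
      exact Gamma0_mem.mpr this.2.2.1
    have e : (f ∣[(2 : ℤ)] γ) ∣[(2 : ℤ)] (ModularGroup.T ^ ((N : ℤ) * k)) = f ∣[(2 : ℤ)] γ := by
      rw [← SlashAction.slash_mul]
      conv_rhs => rw [← hf _ hδ, ← SlashAction.slash_mul]
      congr 1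
      group
    have e2 := congrFun e τ
    rw [ModularForm.slash_action_eq'_iff, UpperHalfPlane.modular_T_zpow_smul] at e2
    rw [e2]
    simp [ModularGroup.coe_T_zpow]
  have hbd : ∀ τ : ℍ, ‖(f ∣[(2 : ℤ)] γ) τ‖ ≤ C * ‖denom γ τ‖ * τ.im ^ (-(3 / 2 : ℝ)) := by
    intro τ
    rw [ModularForm.SL_slash_apply, norm_mul, norm_zpow]
    have hd : 0 < ‖denom γ τ‖ := norm_pos_iff.mpr (denom_ne_zero _ _)
    have h1 := hb (γ • τ)
    rw [ModularGroup.im_smul_eq_div_normSq, Complex.normSq_eq_norm_sq,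
      Real.div_rpow τ.im_pos.le (by positivity)] at h1
    have e : (‖denom γ τ‖ ^ 2) ^ (-(3 / 2 : ℝ)) = (‖denom γ τ‖ ^ 3)⁻¹ := by
      rw [← Real.rpow_natCast, ← Real.rpow_mul hd.le, ← Real.rpow_natCast, ← Real.rpow_neg hd.le]
      norm_num
    rw [e] at h1
    calc ‖f (γ • τ)‖ * ‖denom γ τ‖ ^ (-2 : ℤ)
        ≤ C * (τ.im ^ (-(3 / 2 : ℝ)) / (‖denom γ τ‖ ^ 3)⁻¹) * ‖denom γ τ‖ ^ (-2 : ℤ) :=
          mul_le_mul_of_nonneg_right h1 (by positivity)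
      _ = _ := by
          rw [zpow_neg]
          field_simp
  set K : ℝ := |(γ 1 0 : ℝ)| * (N + 1) + |(γ 1 1 : ℝ)| with hK
  have hK0 : 0 ≤ K := by positivity
  have hmain : ∀ τ : ℍ, 1 ≤ τ.im → ‖(f ∣[(2 : ℤ)] γ) τ‖ ≤ C * K * τ.im ^ (-(1 / 2 : ℝ)) := by
    intro τ hτ
    have hN' : (0 : ℝ) < N := by exact_mod_cast hN
    set k : ℤ := -⌊τ.re / N⌋ with hk
    set σ : ℍ := ((N * k : ℤ) : ℝ) +ᵥ τ with hσ
    have him : σ.im = τ.im := by simp [hσ]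
    have hre : |σ.re| ≤ N := by
      have e : σ.re = N * (τ.re / N - ⌊τ.re / N⌋) := by
        simp only [hσ, vadd_re, hk]
        push_cast
        field_simp
        ring
      have a1 := Int.floor_le (τ.re / N)
      have a2 := Int.lt_floor_add_one (τ.re / N)
      rw [e, abs_of_nonneg (mul_nonneg hN'.le (by linarith))]
      nlinarith
    have hn : ‖(σ : ℂ)‖ ≤ (N + 1) * τ.im := by
      have := Complex.norm_le_abs_re_add_abs_im (σ : ℂ)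
      rw [coe_re, coe_im, him, abs_of_pos τ.im_pos] at this
      nlinarith
    have hden : ‖denom γ σ‖ ≤ K * τ.im := by
      rw [ModularGroup.denom_apply]
      refine (norm_add_le _ _).trans ?_
      rw [norm_mul, Complex.norm_intCast, Complex.norm_intCast, hK]
      have a1 := mul_le_mul_of_nonneg_left hn (abs_nonneg (γ 1 0 : ℝ))
      have a2 := abs_nonneg (γ 1 1 : ℝ)
      nlinarith
    rw [← hper k τ]
    refine (hbd σ).trans ?_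
    rw [him]
    have e : τ.im ^ (-(1 / 2 : ℝ)) = τ.im * τ.im ^ (-(3 / 2 : ℝ)) := by
      rw [← Real.rpow_one_add' τ.im_pos.le (by norm_num)]
      norm_num
    have hp : 0 ≤ τ.im ^ (-(3 / 2 : ℝ)) := Real.rpow_nonneg τ.im_pos.le _
    rw [e]
    calc C * ‖denom γ σ‖ * τ.im ^ (-(3 / 2 : ℝ)) ≤ C * (K * τ.im) * τ.im ^ (-(3 / 2 : ℝ)) := by
          gcongr
      _ = _ := by ring
  have ht : Tendsto (fun τ : ℍ => C * K * τ.im ^ (-(1 / 2 : ℝ))) atImInfty (𝓝 0) := by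
    have := ((tendsto_rpow_neg_atTop (by norm_num : (0 : ℝ) < 1 / 2)).comp
      (tendsto_comap : Tendsto UpperHalfPlane.im atImInfty atTop)).const_mul (C * K)
    rw [mul_zero] at this
    exact this
  refine squeeze_zero_norm' ?_ ht
  exact (atImInfty_mem _).mpr ⟨1, fun τ hτ => hmain τ hτ⟩

theorem p_MOD (hEV : S_EV) (hPOI : S_POI) (hPCO : S_PCO) (hSLA : S_SLA) :
    S_MOD := by
  intro l hl h2 χ hχ
  have h1 : ∀ a, ‖ev χ a‖ ≤ 1 := (hEV l hl h2 χ hχ).2.2.2.2.1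
  have hN : 0 < 32 * l ^ 2 := by have := hl.pos; positivity
  have : NeZero (32 * l ^ 2) := ⟨hN.ne'⟩
  obtain ⟨C, hC, hb⟩ := mod_bound hPOI h1
  refine ⟨⟨⟨fun τ : ℍ => th χ τ, ?_⟩, ?_, ?_⟩, fun τ => (mod_summable hPOI h1 τ τ.im_pos).hasSum⟩
  · rintro _ ⟨A, hA, rfl⟩
    exact mod_inv hSLA hl h2 hχ A hA
  · refine UpperHalfPlane.mdifferentiable_iff.mpr ((mod_diff hPOI h1).congr fun z hz => ?_)
    show th χ (ofComplex z) = th χ z
    rw [ofComplex_apply_of_im_pos hz]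
  · intro c hc
    rw [Subgroup.IsArithmetic.isCusp_iff_isCusp_SL2Z] at hc
    rw [OnePoint.isZeroAt_iff_forall_SL2Z hc]
    exact fun γ _ => mod_zero hN _ C hC (fun τ => hb τ τ.im_pos)
      (fun δ hδ => mod_inv hSLA hl h2 hχ δ hδ) γ

end Pool.Agent.P.MP_e7a540_nt.BC
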