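import Pool.Agent.P.MP_e7a540_nt.BC.If

/-! Proof of PCO. -/

namespace Pool.Agent.P.MP_e7a540_nt.BC

open Complex Filter Topology CongruenceSubgroup
open UpperHalfPlane hiding I
open scoped Real ComplexConjugate MatrixGroups

lemma pco_th (l : ℕ) (χ : CH l) (τ : ℂ) : th χ τ = TH (ph χ) τ := by
  refine (tsum_subtype {a : ZI | Pr a}
    fun a => ev χ a * a * cexp (2 * π * I * (a.norm : ℤ) * τ)).trans (tsum_congr fun a => ?_)
  unfold ph
  split_ifs with h
  · rw [Set.indicator_of_mem (s := {a : ZI | Pr a}) h]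
  · rw [Set.indicator_of_notMem (s := {a : ZI | Pr a}) h, zero_mul, zero_mul]

lemma pco_sum (hPOI : S_POI) (φ : ZI → ℂ) (C : ℝ) (hC : ∀ a, ‖φ a‖ ≤ C) (τ : ℂ) (h : 0 < τ.im) :
    Summable fun a : ZI => ‖φ a * a * cexp (2 * π * I * (a.norm : ℤ) * τ)‖ := by
  refine Summable.of_nonneg_of_le (fun _ => norm_nonneg _) (fun a => ?_)
    ((hPOI.1 0 (2 * π * τ.im) (by positivity)).mul_left C)
  have : (2 * π * I * (a.norm : ℤ) * τ : ℂ).re = -(2 * π * τ.im) * normSq a := by
    rw [← GaussianInt.intCast_real_norm]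
    simp
    ring
  rw [norm_mul, norm_mul, Complex.norm_exp, this, zero_add, mul_assoc]
  gcongr
  exact hC a

lemma pco_fin {m : ZI} (hm : m ≠ 0) : Finite (ZI ⧸ Ideal.span {m}) := by
  let f : Finset.Icc (-m.norm) m.norm × Finset.Icc (-m.norm) m.norm → ZI ⧸ Ideal.span {m} :=
    fun p => Ideal.Quotient.mk _ ⟨p.1, p.2⟩
  refine Finite.of_surjective f fun q => ?_
  obtain ⟨a, rfl⟩ := Ideal.Quotient.mk_surjective q
  have h := GaussianInt.norm_mod_lt a hm
  rw [Zsqrtd.norm_def] at h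
  refine ⟨(⟨(a % m).re, Finset.mem_Icc.2 ⟨?_, ?_⟩⟩, ⟨(a % m).im, Finset.mem_Icc.2 ⟨?_, ?_⟩⟩), ?_⟩
  · nlinarith [sq_nonneg ((a % m).re + 1), sq_nonneg (a % m).im, sq_nonneg (a % m).re]
  · nlinarith [sq_nonneg ((a % m).re - 1), sq_nonneg (a % m).im, sq_nonneg (a % m).re]
  · nlinarith [sq_nonneg ((a % m).im + 1), sq_nonneg (a % m).im, sq_nonneg (a % m).re]
  · nlinarith [sq_nonneg ((a % m).im - 1), sq_nonneg (a % m).im, sq_nonneg (a % m).re]
  · refine Ideal.Quotient.eq.2 (Ideal.mem_span_singleton.2 ⟨-(a / m), ?_⟩)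
    change a % m - a = _
    rw [GaussianInt.mod_def]
    ring

lemma pco_out (m a : ZI) :
    ∃ b, (Ideal.Quotient.mk (Ideal.span {m}) a).out + m * b = a := by
  obtain ⟨b, hb⟩ := Ideal.mem_span_singleton.1 (Ideal.Quotient.eq.1
    (Ideal.Quotient.mk_out (Ideal.Quotient.mk (Ideal.span {m}) a)).symm)
  exact ⟨b, by rw [← hb]; ring⟩

lemma pco_bij {m : ZI} (hm : m ≠ 0) :
    Function.Bijective fun p : (ZI ⧸ Ideal.span {m}) × ZI => p.1.out + m * p.2 := by
  refine ⟨?_, fun a => (pco_out m a).imp' (fun b => (_, b)) fun _ h => h⟩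
  rintro ⟨r, b⟩ ⟨s, c⟩ h
  simp only at h
  obtain rfl : r = s := by
    rw [← Ideal.Quotient.mk_out r, ← Ideal.Quotient.mk_out s]
    exact Ideal.Quotient.eq.2 (Ideal.mem_span_singleton.2 ⟨c - b, by linear_combination h⟩)
  rw [mul_left_cancel₀ hm (add_left_cancel h)]

theorem p_PCO (hPOI : S_POI) :
    S_PCO := by
  refine ⟨pco_th, pco_sum hPOI, fun _ => pco_fin, fun m φ hm hφ τ h => ?_⟩
  have := pco_fin hm
  have := Fintype.ofFinite (ZI ⧸ Ideal.span {m})
  obtain ⟨C, hC⟩ := (Set.finite_range fun r : ZI ⧸ Ideal.span {m} => ‖φ r.out‖).bddAbove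
  have hC' : ∀ a, ‖φ a‖ ≤ C := fun a => by
    obtain ⟨b, hb⟩ := pco_out m a
    rw [← hb, hφ]
    exact hC ⟨_, rfl⟩
  have t0 : τ ≠ 0 := fun e => by simp [e] at h
  have m0 : (m : ℂ) ≠ 0 := GaussianInt.toComplex_eq_zero.not.2 hm
  have n0 : (0 : ℝ) < (m.norm : ℤ) := by exact_mod_cast GaussianInt.norm_pos.2 hm
  have n1 : ((m.norm : ℤ) : ℂ) ≠ 0 := by exact_mod_cast (GaussianInt.norm_pos.2 hm).ne'
  have h1 : 0 < (2 * (m.norm : ℤ) * τ : ℂ).im := by
    have : (2 * (m.norm : ℤ) * τ : ℂ).im = 2 * (m.norm : ℤ) * τ.im := by simp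
    rw [this]
    positivity
  have h2 : 0 < (-1 / (4 * (m.norm : ℤ) * τ) : ℂ).im := by
    have : (4 * (m.norm : ℤ) * τ : ℂ).im = 4 * (m.norm : ℤ) * τ.im := by simp
    rw [neg_div, neg_im, one_div, inv_im, neg_div, neg_neg, this]
    exact div_pos (by positivity)
      (Complex.normSq_pos.2 (mul_ne_zero (mul_ne_zero (by norm_num) n1) t0))
  let e := Equiv.ofBijective _ (pco_bij hm)
  have S := (e.summable_iff.2 (pco_sum hPOI φ C hC' τ h).of_norm)
  rw [TH, ← e.tsum_eq]
  refine S.tsum_prod.trans ?_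
  have T := fun r : ZI ⧸ Ideal.span {m} => (pco_sum hPOI
    (fun w => φ r.out * cexp (2 * π * I * (((r.out * star w : ZI) : ℂ) / m).re)) C (fun w => by
      rw [norm_mul, mul_right_comm, ← ofReal_ofNat, ← ofReal_mul, ← ofReal_mul,
        norm_exp_ofReal_mul_I, mul_one]
      exact hC' _) _ h2).of_norm
  simp only [TH, FT, finsum_eq_sum_of_fintype, Finset.sum_mul]
  rw [tsum_fintype, Summable.tsum_finsetSum fun r _ => T r, Finset.mul_sum]
  refine Finset.sum_congr rfl fun r _ => ?_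
  have k := hPOI.2.2 ((r.out : ZI) / m) _ h1
  calc _ = ∑' b : ZI, φ r.out * m * (((r.out : ZI) / m + b) *
        cexp (π * I * (2 * (m.norm : ℤ) * τ) * normSq (((r.out : ZI) : ℂ) / m + b))) := by
        refine tsum_congr fun b => ?_
        have e1 : ((r.out + m * b : ZI) : ℂ) = m * ((r.out : ZI) / m + b) := by
          rw [map_add, map_mul]
          field_simp
        change φ (r.out + m * b) * (r.out + m * b : ZI) *
          cexp (2 * π * I * ((r.out + m * b : ZI).norm : ℤ) * τ) = _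
        rw [hφ, GaussianInt.intCast_complex_norm, GaussianInt.intCast_complex_norm, e1, normSq_mul,
          mul_assoc, mul_assoc, mul_assoc (φ _)]
        push_cast
        ring_nf
    _ = _ := by
        rw [tsum_mul_left, k, ← tsum_mul_left, ← tsum_mul_left, ← tsum_mul_left]
        refine tsum_congr fun w => ?_
        have e1 : cexp (-(π * I * normSq w / (2 * (m.norm : ℤ) * τ))) =
            cexp (2 * π * I * (w.norm : ℤ) * (-1 / (4 * (m.norm : ℤ) * τ))) := by
          rw [GaussianInt.intCast_complex_norm w]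
          congr 1
          field_simp
          ring
        rw [e1, map_mul, GaussianInt.toComplex_star, div_mul_eq_mul_div]
        ring

end Pool.Agent.P.MP_e7a540_nt.BC
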