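import Pool.Agent.P.MP_e7a540_nt.BC.If

/-! Proof of POI. -/

namespace Pool.Agent.P.MP_e7a540_nt.BC

open Complex Filter Topology CongruenceSubgroup
open UpperHalfPlane hiding I
open scoped Real ComplexConjugate MatrixGroups

/-- pairs of integers and Gaussian integers -/
def poiE : ℤ × ℤ ≃ ZI where
  toFun p := ⟨p.1, p.2⟩
  invFun b := (b.re, b.im)
  left_inv _ := rfl
  right_inv _ := rfl

lemma poi_prod {f g : ℤ → ℂ} {a b : ℂ} (hf : HasSum f a) (hg : HasSum g b) :
    HasSum (fun w : ZI => f w.re * g w.im) (a * b) := by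
  rw [← poiE.hasSum_iff]
  exact hf.mul hg (summable_mul_of_summable_norm hf.summable.norm hg.summable.norm)

lemma poi_congr {ι : Type} {f g : ι → ℂ} {a b : ℂ} (h : HasSum f a) (e : ∀ i, g i = f i)
    (e' : b = a) : HasSum g b := by
  rw [funext e, e']
  exact h

lemma poi_term (x τ : ℂ) (n : ℤ) :
    cexp (π * I * τ * x ^ 2) * jacobiTheta₂_term n (x * τ) τ = cexp (π * I * τ * (x + n) ^ 2) := by
  rw [jacobiTheta₂_term, ← Complex.exp_add]
  congr 1
  ring

lemma poi_one (x : ℂ) {τ : ℂ} (h : 0 < τ.im) :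
    HasSum (fun n : ℤ => cexp (π * I * τ * (x + n) ^ 2))
      (1 / (-I * τ) ^ (1 / 2 : ℂ) * jacobiTheta₂ x (-1 / τ)) ∧
    HasSum (fun n : ℤ => (x + n) * cexp (π * I * τ * (x + n) ^ 2))
      (1 / (-I * τ) ^ (1 / 2 : ℂ) / τ * (jacobiTheta₂' x (-1 / τ) / (2 * π * I))) := by
  have t0 : τ ≠ 0 := fun e => by simp [e] at h
  have hp : (π : ℂ) ≠ 0 := ofReal_ne_zero.2 Real.pi_ne_zero
  have k : cexp (π * I * τ * x ^ 2) * cexp (-π * I * (x * τ) ^ 2 / τ) = 1 := by
    rw [← Complex.exp_add, ← Complex.exp_zero]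
    congr 1
    field_simp
    ring
  have e : x * τ / τ = x := mul_div_cancel_right₀ x t0
  have h1 := (hasSum_jacobiTheta₂_term (x * τ) h).mul_left (cexp (π * I * τ * x ^ 2))
  have h2 := (h1.mul_left x).add
    (((hasSum_jacobiTheta₂'_term (x * τ) h).mul_left (cexp (π * I * τ * x ^ 2))).div_const
      (2 * π * I))
  rw [jacobiTheta₂_functional_equation, e] at h1 h2
  rw [jacobiTheta₂'_functional_equation, e] at h2
  generalize 1 / (-I * τ) ^ (1 / 2 : ℂ) = c at h1 h2 ⊢
  constructor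
  · refine poi_congr h1 (fun n => (poi_term x τ n).symm) ?_
    linear_combination (-c * jacobiTheta₂ x (-1 / τ)) * k
  · refine poi_congr h2 (fun n => ?_) ?_
    · rw [jacobiTheta₂'_term, ← poi_term]
      field_simp
    · generalize jacobiTheta₂ x (-1 / τ) = A, jacobiTheta₂' x (-1 / τ) = B
      generalize cexp (π * I * τ * x ^ 2) = E at k
      generalize cexp (-π * I * (x * τ) ^ 2 / τ) = F at k
      have : E * (c * F / τ * (B - 2 * π * I * (x * τ) * A)) / (2 * π * I) =
          E * F * (c / τ * (B / (2 * π * I)) - c * x * A) := by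
        field_simp
      rw [this]
      linear_combination (-(c / τ * (B / (2 * π * I)))) * k

lemma poi_two (z : ℂ) {τ : ℂ} (h : 0 < τ.im) :
    HasSum (fun b : ZI => (z + b) * cexp (π * I * τ * normSq (z + b)))
      (I / τ ^ 2 * ∑' w : ZI,
        w * cexp (-(π * I * normSq w / τ)) * cexp (2 * π * I * (z * conj (w : ℂ)).re)) := by
  have t0 : τ ≠ 0 := fun e => by simp [e] at h
  have hp : (π : ℂ) ≠ 0 := ofReal_ne_zero.2 Real.pi_ne_zero
  have h' : 0 < (-1 / τ).im := by
    rw [neg_div, neg_im, one_div, inv_im, neg_div, neg_neg]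
    exact div_pos h (normSq_pos.2 t0)
  have hc : 1 / (-I * τ) ^ (1 / 2 : ℂ) * (1 / (-I * τ) ^ (1 / 2 : ℂ)) = I / τ := by
    rw [one_div_mul_one_div, ← cpow_add _ _ (mul_ne_zero (neg_ne_zero.2 I_ne_zero) t0), add_halves,
      cpow_one]
    field_simp
    simp
  obtain ⟨a0, a1⟩ := poi_one z.re h
  obtain ⟨b0, b1⟩ := poi_one z.im h
  have L := (poi_prod a1 b0).add ((poi_prod a0 b1).mul_left I)
  have R := (poi_prod ((hasSum_jacobiTheta₂'_term z.re h').div_const (2 * π * I))
    (hasSum_jacobiTheta₂_term z.im h')).add ((poi_prod (hasSum_jacobiTheta₂_term z.re h')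
      ((hasSum_jacobiTheta₂'_term z.im h').div_const (2 * π * I))).mul_left I)
  have eR : ∀ w : ZI, (w : ℂ) * cexp (-(π * I * normSq w / τ)) *
      cexp (2 * π * I * (z * conj (w : ℂ)).re) =
      jacobiTheta₂'_term w.re z.re (-1 / τ) / (2 * π * I) * jacobiTheta₂_term w.im z.im (-1 / τ) +
      I * (jacobiTheta₂_term w.re z.re (-1 / τ) *
        (jacobiTheta₂'_term w.im z.im (-1 / τ) / (2 * π * I))) := by
    intro w
    have : cexp (-(π * I * normSq w / τ)) * cexp (2 * π * I * (z * conj (w : ℂ)).re) =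
        jacobiTheta₂_term w.re z.re (-1 / τ) * jacobiTheta₂_term w.im z.im (-1 / τ) := by
      rw [jacobiTheta₂_term, jacobiTheta₂_term, ← Complex.exp_add, ← Complex.exp_add, normSq_apply,
        mul_re, conj_re, conj_im, ← GaussianInt.intCast_re, ← GaussianInt.intCast_im]
      congr 1
      push_cast
      ring
    rw [mul_assoc, this, jacobiTheta₂'_term, jacobiTheta₂'_term, GaussianInt.toComplex_def]
    field_simp
  rw [tsum_congr eR, R.tsum_eq]
  refine poi_congr L (fun b => ?_) ?_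
  · have e1 : z + b = (z.re + b.re) + I * (z.im + b.im) := by
      rw [GaussianInt.toComplex_def]
      linear_combination -Complex.re_add_im z
    have e2 : cexp (π * I * τ * normSq (z + b)) =
        cexp (π * I * τ * (z.re + b.re) ^ 2) * cexp (π * I * τ * (z.im + b.im) ^ 2) := by
      rw [← Complex.exp_add, normSq_apply, add_re, add_im, ← GaussianInt.intCast_re,
        ← GaussianInt.intCast_im]
      congr 1
      push_cast
      ring
    rw [e2]
    conv_lhs => rw [e1]
    ring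
  · generalize 1 / (-I * τ) ^ (1 / 2 : ℂ) = c at hc
    generalize jacobiTheta₂' z.re (-1 / τ) / (2 * π * I) = A, jacobiTheta₂ z.im (-1 / τ) = B,
      jacobiTheta₂ z.re (-1 / τ) = C, jacobiTheta₂' z.im (-1 / τ) / (2 * π * I) = D
    have : I / τ ^ 2 = c * c / τ := by
      rw [hc]
      field_simp
    rw [this]
    ring

lemma poi_sum (z : ℂ) {y : ℝ} (hy : 0 < y) :
    Summable fun b : ZI => ‖z + b‖ * rexp (-y * normSq (z + b)) := by
  have h : 0 < (I * (y / π : ℝ) : ℂ).im := by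
    rw [I_mul_im, ofReal_re]
    positivity
  refine (poi_two z h).summable.norm.congr fun b => ?_
  have : (π * I * (I * (y / π : ℝ)) * normSq (z + b) : ℂ) = (-y * normSq (z + b) : ℝ) := by
    have hp : (π : ℂ) ≠ 0 := ofReal_ne_zero.2 Real.pi_ne_zero
    push_cast
    field_simp
    simp
  rw [norm_mul, this, norm_exp_ofReal]

/-- an enumeration of the integers -/
def poiN (m : ℤ) : ℕ := (if 0 ≤ m then 2 * m else -2 * m - 1).toNat

lemma poi_inj : Function.Injective fun b : ZI => Nat.pair (poiN b.re) (poiN b.im) := by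
  intro a b h
  obtain ⟨h1, h2⟩ := Nat.pair_eq_pair.1 h
  unfold poiN at h1 h2
  ext
  · split_ifs at h1 <;> omega
  · split_ifs at h2 <;> omega

lemma poi_le {b : ZI} (hb : b ≠ 0) :
    ((Nat.pair (poiN b.re) (poiN b.im) + 1 : ℕ) : ℝ) ≤ 9 * normSq b := by
  have h := Nat.pair_lt_max_add_one_sq (poiN b.re) (poiN b.im)
  obtain ⟨M, hM⟩ : ∃ M, M = max b.re.natAbs b.im.natAbs := ⟨_, rfl⟩
  have h0 : 1 ≤ M := by
    by_contra hc
    exact hb (by ext <;> simp only [Zsqrtd.re_zero, Zsqrtd.im_zero] <;> omega)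
  have h1 : max (poiN b.re) (poiN b.im) + 1 ≤ 3 * M := by
    unfold poiN
    split_ifs <;> omega
  have h2 : M * M ≤ b.norm.natAbs := by
    rw [GaussianInt.natAbs_norm_eq, hM]
    rcases max_choice b.re.natAbs b.im.natAbs with e | e <;> rw [e] <;> omega
  rw [← GaussianInt.intCast_real_norm, ← GaussianInt.natCast_natAbs_norm]
  have := Nat.pow_le_pow_left h1 2
  exact_mod_cast (by nlinarith : Nat.pair (poiN b.re) (poiN b.im) + 1 ≤ 9 * b.norm.natAbs)

lemma poi_bd {y : ℝ} (hy : 0 < y) :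
    ∑' b : ZI, ‖(b : ℂ)‖ * rexp (-y * normSq b) ≤ 18 * y ^ (-(3 / 2 : ℝ)) := by
  obtain ⟨r, hr⟩ : ∃ r, r = rexp (-y / 18) := ⟨_, rfl⟩
  have r0 : 0 < r := hr ▸ Real.exp_pos _
  have r1 : r < 1 := hr ▸ Real.exp_lt_one_iff.2 (by linarith)
  have s0 : 0 < √y := Real.sqrt_pos.2 hy
  have hs : √y * √y = y := Real.mul_self_sqrt hy.le
  have hg := (hasSum_geometric_of_lt_one r0.le r1).mul_left (r / √y)
  have hf : Summable fun b : ZI => ‖(b : ℂ)‖ * rexp (-y * normSq b) := by
    simpa using poi_sum 0 hy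
  refine (hf.tsum_le_tsum_of_inj _ poi_inj (fun _ _ => by positivity) (fun b => ?_)
    hg.summable).trans ?_
  · rcases eq_or_ne b 0 with rfl | hb
    · simp only [GaussianInt.toComplex_zero, norm_zero, zero_mul]
      positivity
    have h1 : rexp (-y / 2 * normSq b) ≤ r ^ (Nat.pair (poiN b.re) (poiN b.im) + 1) := by
      rw [hr, ← Real.exp_nat_mul, Real.exp_le_exp]
      nlinarith [poi_le hb]
    have h2 : ‖(b : ℂ)‖ * rexp (-y / 2 * normSq b) ≤ 1 / √y := by
      rw [le_div_iff₀ s0, neg_div, neg_mul, Real.exp_neg, mul_right_comm, ← div_eq_mul_inv,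
        div_le_one (Real.exp_pos _)]
      refine le_trans ?_ (Real.add_one_le_exp _)
      rw [normSq_eq_norm_sq]
      nlinarith [sq_nonneg (‖(b : ℂ)‖ * √y - 1)]
    calc _ = ‖(b : ℂ)‖ * rexp (-y / 2 * normSq b) * rexp (-y / 2 * normSq b) := by
          rw [mul_assoc, ← Real.exp_add]
          congr 2
          ring
      _ ≤ 1 / √y * r ^ (Nat.pair (poiN b.re) (poiN b.im) + 1) := by gcongr
      _ = _ := by ring
  · rw [hg.tsum_eq]
    have h1 : y ^ (-(3 / 2 : ℝ)) = 1 / (y * √y) := by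
      rw [Real.rpow_neg hy.le, Real.sqrt_eq_rpow, one_div, ← Real.rpow_one_add' hy.le (by norm_num)]
      norm_num
    have h2 : r * (y / 18 + 1) ≤ 1 := by
      rw [hr, neg_div, Real.exp_neg, inv_mul_le_iff₀ (Real.exp_pos _), mul_one]
      exact Real.add_one_le_exp _
    have h3 : 0 < 1 - r := by linarith
    rw [h1, ← div_eq_mul_inv, div_div, mul_one_div, div_le_div_iff₀ (by positivity) (by positivity)]
    nlinarith

theorem p_POI :
    S_POI :=
  ⟨fun z _ hy => poi_sum z hy, ⟨18, fun _ hy => poi_bd hy⟩, fun z _ h => (poi_two z h).tsum_eq⟩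

end Pool.Agent.P.MP_e7a540_nt.BC
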