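import Pool.Agent.P.MP_e7a540_nt.BC.If

/-! Proof of PRIM. -/

namespace Pool.Agent.P.MP_e7a540_nt.BC

open Complex Filter Topology CongruenceSubgroup
open UpperHalfPlane hiding I
open scoped Real ComplexConjugate MatrixGroups

theorem prim_pr_iff (a : ZI) : Pr a ↔ a.im % 2 = 0 ∧ (a.re + a.im) % 4 = 1 := by
  constructor
  · rintro ⟨c, hc⟩
    have h1 := congrArg Zsqrtd.re hc
    have h2 := congrArg Zsqrtd.im hc
    simp at h1 h2
    omega
  · rintro ⟨h1, h2⟩
    refine ⟨⟨(a.re + a.im - 1) / 4, (a.im - a.re + 1) / 4⟩, ?_⟩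
    ext
    · simp
      omega
    · simp
      omega

theorem prim_one (a b : ZI) (ha : PQ a) (hb : PQ b) (h : (a * star b).im = 0) : a = b := by
  obtain ⟨ha1, ha2⟩ := ha
  obtain ⟨hb1, hb2⟩ := hb
  rw [prim_pr_iff] at ha1 hb1
  have h0 : a.re * b.im = a.im * b.re := by
    simp at h
    linarith
  have d1 : a.re ∣ b.re := ha2.dvd_of_dvd_mul_left ⟨b.im, h0.symm⟩
  have d2 : b.re ∣ a.re := hb2.dvd_of_dvd_mul_right ⟨a.im, by rw [h0, mul_comm]⟩
  have hne : b.re ≠ 0 := by omega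
  rcases Int.natAbs_eq_natAbs_iff.1 (Int.natAbs_eq_of_dvd_dvd d1 d2) with h1 | h1
  · have h2 : b.re * b.im = b.re * a.im := by
      rw [h1] at h0
      linarith
    exact Zsqrtd.ext h1 (mul_left_cancel₀ hne h2).symm
  · have h2 : b.re * (-b.im) = b.re * a.im := by
      rw [h1] at h0
      linarith
    have h3 := mul_left_cancel₀ hne h2
    omega

theorem prim_two (a : ZI) (n : ℕ) (ha : PQ a) (hn : 0 < n) (h : (a ^ n).im = 0) : a = 1 := by
  obtain ⟨ha1, u, v, huv⟩ := ha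
  rw [prim_pr_iff] at ha1
  obtain ⟨p, hp⟩ : ∃ p, a.re = 2 * p + 1 := ⟨a.re / 2, by omega⟩
  obtain ⟨q, hq⟩ : ∃ q, a.im = 2 * q := ⟨a.im / 2, by omega⟩
  have hc : IsCoprime a (star a) := by
    refine ⟨star a + ⟨-(2 * p * p + 2 * p + 2 * q * q) * u, (2 * p * p + 2 * p + 2 * q * q) * v⟩,
      ⟨-(2 * p * p + 2 * p + 2 * q * q) * u, -(2 * p * p + 2 * p + 2 * q * q) * v⟩, ?_⟩
    rw [hp, hq] at huv
    ext
    · simp [hp, hq]
      linear_combination (-2 * (2 * p * p + 2 * p + 2 * q * q)) * huv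
    · simp [hp, hq]
      ring
  have hs : star a ^ n = a ^ n := by
    rw [← star_pow]
    ext
    · rw [Zsqrtd.re_star]
    · rw [Zsqrtd.im_star, h, neg_zero]
  have hu : IsUnit (a ^ n) := by
    have := hc.pow (m := n) (n := n)
    rwa [hs, isCoprime_self] at this
  have h1 : a.norm = 1 :=
    (Zsqrtd.norm_eq_one_iff' (by norm_num) a).2 ((isUnit_pow_iff hn.ne').1 hu)
  rw [Zsqrtd.norm_def, hp, hq] at h1
  have hq0 : q = 0 := by nlinarith [sq_nonneg (2 * p + 1), sq_nonneg q, sq_nonneg (q - 1), sq_nonneg (q + 1)]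
  subst hq0
  have hp0 : p * (p + 1) = 0 := by linarith
  ext
  · rcases mul_eq_zero.1 hp0 with h2 | h2
    · simp [hp, h2]
    · omega
  · simp [hq]

theorem prim_sign (g : ℕ) (hg : g % 2 = 1) : ((-1 : ℤ) ^ (g / 2) * g) % 4 = 1 := by
  rcases Nat.even_or_odd (g / 2) with h | h
  · rw [h.neg_one_pow]
    obtain ⟨c, hc⟩ := h
    omega
  · rw [h.neg_one_pow]
    obtain ⟨c, hc⟩ := h
    omega

theorem prim_cast (g : ℕ) (c : ZI) :
    (-1) ^ (g / 2) * (g : ZI) * c = (((-1 : ℤ) ^ (g / 2) * g : ℤ) : ZI) * c := by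
  push_cast
  rfl

theorem p_PRIM :
    S_PRIM := by
  refine ⟨prim_one, prim_two, fun b hb => ?_⟩
  have hb' := (prim_pr_iff b).1 hb
  refine existsUnique_of_exists_of_unique ?_ ?_
  · have hg : 0 < Int.gcd b.re b.im := Int.gcd_pos_of_ne_zero_left _ (by omega)
    obtain ⟨c, hc, hcop⟩ := Zsqrtd.exists_coprime_of_gcd_pos hg
    have hodd : Int.gcd b.re b.im % 2 = 1 := by
      obtain ⟨d, hd⟩ := Int.gcd_dvd_left b.re b.im
      by_contra hcon
      obtain ⟨e, he⟩ : ∃ e : ℤ, (Int.gcd b.re b.im : ℤ) = 2 * e :=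
        ⟨(Int.gcd b.re b.im : ℤ) / 2, by omega⟩
      rw [he, mul_assoc] at hd
      omega
    generalize Int.gcd b.re b.im = g at hc hodd
    have hsq : ((-1 : ZI) ^ (g / 2)) * (-1) ^ (g / 2) = 1 := by
      rw [← mul_pow]
      simp
    have hbc : b = (-1) ^ (g / 2) * (g : ZI) * ((-1) ^ (g / 2) * c) := by
      rw [hc]
      push_cast
      linear_combination (-(g : ZI) * c) * hsq
    refine ⟨(g, (-1) ^ (g / 2) * c), hodd, ⟨?_, ?_⟩, hbc⟩
    · have hm := prim_sign g hodd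
      rw [prim_cast] at hbc
      change Pr ((-1) ^ (g / 2) * c)
      generalize (-1) ^ (g / 2) * c = c' at hbc ⊢
      generalize (-1 : ℤ) ^ (g / 2) * g = m at hbc hm
      obtain ⟨k, rfl⟩ : ∃ k, m = 4 * k + 1 := ⟨m / 4, by omega⟩
      have h1 : b.re = 4 * (k * c'.re) + c'.re := by
        rw [hbc, Zsqrtd.re_smul]
        ring
      have h2 : b.im = 4 * (k * c'.im) + c'.im := by
        rw [hbc, Zsqrtd.im_smul]
        ring
      rw [prim_pr_iff]
      omega
    · rcases neg_one_pow_eq_or ZI (g / 2) with h | h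
      · simpa [h] using hcop
      · simpa [h, IsCoprime.neg_left_iff, IsCoprime.neg_right_iff] using hcop
  · rintro ⟨g, c⟩ ⟨g', c'⟩ ⟨h1, h2, h3⟩ ⟨h1', h2', h3'⟩
    simp only at h1 h2 h3 h1' h2' h3'
    rw [prim_cast] at h3 h3'
    have hm := prim_sign g h1
    have e := h3.symm.trans h3'
    have e1 := congrArg Zsqrtd.re e
    have e2 := congrArg Zsqrtd.im e
    rw [Zsqrtd.re_smul, Zsqrtd.re_smul] at e1
    rw [Zsqrtd.im_smul, Zsqrtd.im_smul] at e2
    have hcc : c = c' := by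
      refine prim_one c c' h2 h2' (mul_left_cancel₀ (a := (-1 : ℤ) ^ (g / 2) * g)
        (fun h0 => by rw [h0] at hm; simp at hm) ?_)
      simp only [Zsqrtd.im_mul, Zsqrtd.im_star, Zsqrtd.re_star]
      linear_combination c'.re * e2 - c'.im * e1
    subst hcc
    have hc0 : c.re ≠ 0 := by
      have := (prim_pr_iff c).1 h2.1
      omega
    have e3 := congrArg Int.natAbs (mul_right_cancel₀ hc0 e1)
    simp [Int.natAbs_mul, Int.natAbs_pow] at e3
    rw [e3]

end Pool.Agent.P.MP_e7a540_nt.BC
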