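import Pool.Agent.P.MP_e7a540_nt.BC.If

/-! Proof of RK. -/

namespace Pool.Agent.P.MP_e7a540_nt.BC

open Complex Filter Topology CongruenceSubgroup
open UpperHalfPlane hiding I
open scoped Real ComplexConjugate MatrixGroups

/-- the difference of the multiplicities of a prime and of its conjugate -/
noncomputable def rkN (p b : ZI) : ℤ := (multiplicity p b : ℤ) - multiplicity p (star b)

theorem rk_mul {p a b : ZI} (hp : Prime p) (ha : a ≠ 0) (hb : b ≠ 0) :
    rkN p (a * b) = rkN p a + rkN p b := by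
  unfold rkN
  rw [star_mul', multiplicity_mul hp (.of_prime_left hp (mul_ne_zero ha hb)),
    multiplicity_mul hp (.of_prime_left hp (mul_ne_zero (star_ne_zero.2 ha) (star_ne_zero.2 hb)))]
  push_cast
  ring

theorem rk_star (p b : ZI) : rkN p (star b) = -rkN p b := by
  simp [rkN]

theorem rk_one (p : ZI) : rkN p 1 = 0 := by
  simp [rkN]

theorem rk_pow {p a : ZI} (hp : Prime p) (ha : a ≠ 0) (k : ℕ) : rkN p (a ^ k) = k * rkN p a := by
  induction k with
  | zero => simp [rk_one]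
  | succ k ih => rw [pow_succ, rk_mul hp (pow_ne_zero k ha) ha, ih]; push_cast; ring

theorem rk_prod {p : ZI} (hp : Prime p) {ι : Type} (s : Finset ι) (f : ι → ZI)
    (h : ∀ i, f i ≠ 0) : rkN p (∏ i ∈ s, f i) = ∑ i ∈ s, rkN p (f i) := by
  classical
  induction s using Finset.induction_on with
  | empty => simp [rk_one]
  | insert i s hi ih =>
    rw [Finset.prod_insert hi, Finset.sum_insert hi,
      rk_mul hp (h i) (Finset.prod_ne_zero_iff.2 fun j _ => h j), ih]

theorem rk_ms (p b : ZI) : multiplicity (star p) b = multiplicity p (star b) := by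
  have := multiplicity_map_eq (starRingAut : ZI ≃+* ZI) (a := p) (b := star b)
  simpa using this

theorem rk_starl (p b : ZI) : rkN (star p) b = -rkN p b := by
  simp [rkN, rk_ms]

theorem rk_ass {p q : ZI} (h : Associated p q) (b : ZI) : rkN p b = rkN q b := by
  simp [rkN, multiplicity_eq_of_associated_left h]

theorem rk_real {p b : ZI} (h : b.im = 0) : rkN p b = 0 := by
  have : star b = b := by ext <;> simp [h]
  simp [rkN, this]

theorem rk_prime {p : ZI} (hp : Prime p) : Prime (star p) :=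
  (MulEquiv.prime_iff (starRingAut : ZI ≃+* ZI)).2 hp

theorem rk_ne {a : ZI} (h : Pr a) : a ≠ 0 := by
  rintro rfl
  obtain ⟨c, hc⟩ := h
  have := congrArg Zsqrtd.re hc
  simp at this
  omega

theorem rk_five {p b : ZI} (h : rkN p b ≠ 0) : 5 ≤ p.norm := by
  by_contra hc
  refine h ?_
  have : Associated p (star p) := by
    obtain ⟨x, y⟩ := p
    simp only [Zsqrtd.norm_def, not_le] at hc
    have hx : x ≤ 2 ∧ -2 ≤ x := by constructor <;> nlinarith [mul_self_nonneg y]
    have hy : y ≤ 2 ∧ -2 ≤ y := by constructor <;> nlinarith [mul_self_nonneg x]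
    have u : ∀ v : ZI, v.norm = 1 → (⟨x, y⟩ : ZI) * v = star ⟨x, y⟩ →
        Associated (⟨x, y⟩ : ZI) (star ⟨x, y⟩) := fun v hv e =>
      e ▸ associated_mul_unit_right _ v ((Zsqrtd.norm_eq_one_iff' (by decide) v).1 hv)
    obtain ⟨h1, h2⟩ := hx
    obtain ⟨h3, h4⟩ := hy
    interval_cases x <;> interval_cases y <;> first
      | exact u 1 rfl rfl
      | exact u (-1) rfl rfl
      | exact u ⟨0, 1⟩ rfl rfl
      | exact u ⟨0, -1⟩ rfl rfl
      | omega
  have h1 := rk_ass this b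
  rw [rk_starl] at h1
  omega

theorem rk_sep (hPRIM : S_PRIM) {a b : ZI} (ha : PQ a) (hb : PQ b) (hab : a ≠ b) :
    ∃ p, Prime p ∧ rkN p (a * star b) ≠ 0 := by
  by_contra! h
  refine hab (hPRIM.1 a b ha hb ?_)
  have x0 : a * star b ≠ 0 := mul_ne_zero (rk_ne ha.1) (star_ne_zero.2 (rk_ne hb.1))
  have hs : ∀ c, Pr c → Pr (star c) := fun c ⟨e, he⟩ => ⟨⟨0, -1⟩ * star e, by
    have := congrArg star he
    rw [star_sub, star_one, star_mul'] at this
    rw [this, ← mul_assoc]; rfl⟩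
  have hx : Pr (a * star b) := by
    have := dvd_add (dvd_mul_of_dvd_left ha.1 (star b)) (hs b hb.1)
    rwa [show (a - 1) * star b + (star b - 1) = a * star b - 1 by ring] at this
  generalize a * star b = x at *
  obtain ⟨u, hu⟩ : x ∣ star x := (UniqueFactorizationMonoid.dvd_iff_emultiplicity_le x0).2
    fun p hp => by
      rw [(FiniteMultiplicity.of_prime_left hp x0).emultiplicity_eq_multiplicity,
        (FiniteMultiplicity.of_prime_left hp (star_ne_zero.2 x0)).emultiplicity_eq_multiplicity]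
      have := h p hp
      unfold rkN at this
      exact_mod_cast (by omega)
  have n1 : u.norm = 1 := by
    have := congrArg Zsqrtd.norm hu
    rw [Zsqrtd.norm_conj, Zsqrtd.norm_mul] at this
    exact (mul_left_cancel₀ (mt GaussianInt.norm_eq_zero.1 x0) (by linarith)).symm
  obtain ⟨c, hc⟩ : Pr u := by
    have := dvd_sub (hs x hx) (dvd_mul_of_dvd_left hx u)
    rwa [hu, show x * u - 1 - (x - 1) * u = u - 1 by ring] at this
  have h1 := congrArg Zsqrtd.re hc
  have h2 := congrArg Zsqrtd.im hc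
  have h3 := congrArg Zsqrtd.im hu
  obtain ⟨s, t⟩ := u
  simp only [Zsqrtd.norm_def] at n1
  simp at h1 h2 h3
  have h4 : s ≤ 1 ∧ -1 ≤ s := by constructor <;> nlinarith [mul_self_nonneg t]
  have h5 : t ≤ 1 ∧ -1 ≤ t := by constructor <;> nlinarith [mul_self_nonneg s]
  obtain rfl : t = 0 := by omega
  obtain rfl : s = 1 := by omega
  omega

theorem rk_norm {r : ℕ} (q : Fin r → ZI) (k : Fin r → ℕ) :
    (∏ i, q i ^ k i).norm = ∏ i, (q i).norm ^ k i :=
  (map_prod Zsqrtd.normMonoidHom _ _).trans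
    (Finset.prod_congr rfl fun _ _ => map_pow Zsqrtd.normMonoidHom _ _)

/-- a triangular system -/
def rkT (A : Finset ZI) (r : ℕ) (p d : ℕ → ZI) : Prop :=
  ∀ i < r, Prime (p i) ∧ (∃ a ∈ A, ∃ b ∈ A, d i = a * star b) ∧ rkN (p i) (d i) ≠ 0 ∧
    ∀ j < i, rkN (p j) (d i) = 0

theorem rk_low {A : Finset ZI} {r : ℕ} {p d : ℕ → ZI} (h : rkT A r p d) {a : ZI} (ha : a ≠ 0) :
    ∏ i : Fin r, (5 : ℤ) ^ (rkN (p i) a).natAbs ≤ a.norm := by
  have h1 : ∀ i : Fin r, ∃ q, (q = p i ∨ q = star (p i)) ∧ q ^ (rkN (p i) a).natAbs ∣ a := fun i => by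
    rcases le_total (multiplicity (p i) a) (multiplicity (p i) (star a)) with e | e
    · exact ⟨_, .inr rfl, pow_dvd_of_le_multiplicity (by rw [rk_ms, rkN]; omega)⟩
    · exact ⟨_, .inl rfl, pow_dvd_of_le_multiplicity (by rw [rkN]; omega)⟩
  choose q hq hd using h1
  have h2 : ∀ i, Prime (q i) := fun i => by
    rcases hq i with e | e <;> rw [e]
    exacts [(h i i.2).1, rk_prime (h i i.2).1]
  have h3 : ∀ i b, rkN (q i) b = 0 ↔ rkN (p i) b = 0 := fun i b => by
    rcases hq i with e | e <;> simp [e, rk_starl]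
  have h4 : ∀ i j : Fin r, j < i → ¬ Associated (q i) (q j) := fun i j hij e =>
    (h i i.2).2.2.1 ((h3 i _).1 ((rk_ass e _).trans ((h3 j _).2 ((h i i.2).2.2.2 j hij))))
  obtain ⟨c, hc⟩ : ∏ i, q i ^ (rkN (p i) a).natAbs ∣ a :=
    Fintype.prod_dvd_of_coprime (fun i j hij => IsCoprime.pow ((h2 i).coprime_iff_not_dvd.2 fun e => by
      have e' := (h2 i).associated_of_dvd (h2 j) e
      rcases lt_or_gt_of_ne hij with l | l
      exacts [h4 _ _ l e'.symm, h4 _ _ l e'])) hd
  have c0 : 0 < c.norm := GaussianInt.norm_pos.2 fun e => ha (by rw [hc, e, mul_zero])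
  have h5 := rk_norm q fun i => (rkN (p i) a).natAbs
  have h6 : ∏ i : Fin r, (5 : ℤ) ^ (rkN (p i) a).natAbs ≤ ∏ i, (q i).norm ^ (rkN (p i) a).natAbs :=
    Finset.prod_le_prod (fun _ _ => by positivity) fun i _ =>
      pow_le_pow_left₀ (by norm_num) (rk_five (mt (h3 i _).1 (h i i.2).2.2.1)) _
  rw [← h5] at h6
  conv_rhs => rw [hc, Zsqrtd.norm_mul]
  nlinarith [GaussianInt.norm_nonneg (∏ i, q i ^ (rkN (p i) a).natAbs)]

theorem rk_geo (T : Finset ℤ) : ∑ k ∈ T, (5 / 7 : ℝ) ^ k.natAbs ≤ 6 := by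
  have h := hasSum_geometric_of_lt_one (r := (5 / 7 : ℝ)) (by norm_num) (by norm_num)
  have h' := HasSum.of_nat_of_neg_add_one (f := fun k : ℤ => (5 / 7 : ℝ) ^ k.natAbs)
    (by simpa using h) (h.mul_right (5 / 7))
  exact (sum_le_hasSum T (fun _ _ => by positivity) h').trans (by norm_num)

theorem rk_sum {A : Finset ZI} {r : ℕ} {p d : ℕ → ZI} (h : rkT A r p d) (hA : ∀ a ∈ A, a ≠ 0)
    (hi : ∀ a ∈ A, ∀ b ∈ A, (∀ i < r, rkN (p i) a = rkN (p i) b) → a = b) :
    ∑ a ∈ A, (a.norm : ℝ) ^ (-(1 / 4 : ℝ)) ≤ 6 ^ r := by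
  classical
  let φ : ZI → Fin r → ℤ := fun a i => rkN (p i) a
  let T : Fin r → Finset ℤ := fun i => A.image fun a => φ a i
  calc _ ≤ ∑ a ∈ A, ∏ i, (5 / 7 : ℝ) ^ (φ a i).natAbs := Finset.sum_le_sum fun a ha => by
        have h1 : (5 : ℝ) ^ ∑ i, (φ a i).natAbs ≤ a.norm := by
          rw [← Finset.prod_pow_eq_pow_sum]
          exact_mod_cast rk_low h (hA a ha)
        rw [Finset.prod_pow_eq_pow_sum]
        generalize ∑ i, (φ a i).natAbs = m at *
        refine (Real.rpow_le_rpow_of_nonpos (by positivity) h1 (by norm_num)).trans ?_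
        rw [← Real.rpow_pow_comm (by norm_num)]
        refine pow_le_pow_left₀ (by positivity) ?_ m
        rw [Real.rpow_neg (by norm_num), inv_le_comm₀ (by positivity) (by norm_num),
          one_div, Real.le_rpow_inv_iff_of_pos (by norm_num) (by norm_num) (by norm_num)]
        norm_num
    _ = ∑ x ∈ A.image φ, ∏ i, (5 / 7 : ℝ) ^ (x i).natAbs :=
        (Finset.sum_image (f := fun x : Fin r → ℤ => ∏ i, (5 / 7 : ℝ) ^ (x i).natAbs)
          fun a ha b hb e => hi a ha b hb fun i l => congrFun e ⟨i, l⟩).symm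
    _ ≤ ∑ x ∈ Fintype.piFinset T, ∏ i, (5 / 7 : ℝ) ^ (x i).natAbs :=
        Finset.sum_le_sum_of_subset_of_nonneg (fun x hx => by
          obtain ⟨a, ha, rfl⟩ := Finset.mem_image.1 hx
          exact Fintype.mem_piFinset.2 fun i => Finset.mem_image_of_mem _ ha)
          fun _ _ _ => by positivity
    _ = ∏ i, ∑ k ∈ T i, (5 / 7 : ℝ) ^ k.natAbs :=
        (Finset.prod_univ_sum T fun _ k => (5 / 7 : ℝ) ^ k.natAbs).symm
    _ ≤ ∏ _i : Fin r, (6 : ℝ) := Finset.prod_le_prod (fun _ _ => by positivity) fun _ _ => rk_geo _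
    _ = _ := by simp

theorem rk_greedy (hPRIM : S_PRIM) {A : Finset ZI} (hA : ∀ a ∈ A, PQ a) (r : ℕ) :
    (∃ p d, rkT A r p d) ∨ ∑ a ∈ A, (a.norm : ℝ) ^ (-(1 / 4 : ℝ)) ≤ 6 ^ r / 6 := by
  induction r with
  | zero => exact .inl ⟨0, 0, fun _ h => absurd h (by simp)⟩
  | succ r ih =>
    rcases ih with ⟨p, d, h⟩ | h
    · by_cases hi : ∀ a ∈ A, ∀ b ∈ A, (∀ i < r, rkN (p i) a = rkN (p i) b) → a = b
      · exact .inr ((rk_sum h (fun a ha => rk_ne (hA a ha).1) hi).trans_eq (by ring))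
      push Not at hi
      obtain ⟨a, ha, b, hb, e, hab⟩ := hi
      obtain ⟨q, hq, hq'⟩ := rk_sep hPRIM (hA a ha) (hA b hb) hab
      refine .inl ⟨fun i => if i < r then p i else q, fun i => if i < r then d i else a * star b,
        fun i hi => ?_⟩
      by_cases l : i < r
      · simp only [l, if_true]
        exact ⟨(h i l).1, (h i l).2.1, (h i l).2.2.1, fun j hj => by
          rw [if_pos (hj.trans l)]; exact (h i l).2.2.2 j hj⟩
      · simp only [l, if_false]
        refine ⟨hq, ⟨a, ha, b, hb, rfl⟩, hq', fun j hj => ?_⟩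
        have l' : j < r := by omega
        rw [if_pos l', rk_mul (h j l').1 (rk_ne (hA a ha).1) (star_ne_zero.2 (rk_ne (hA b hb).1)),
          rk_star, e j l', add_neg_cancel]
    · refine .inr (h.trans ?_)
      gcongr <;> norm_num

theorem rk_box (hCLS : S_CLS) {l n K r : ℕ} (hl : l.Prime) (l2 : l ≠ 2) (hn : 0 < n)
    {A : Finset ZI} (hA : ∀ a ∈ A, a ∈ PP l ∧ (l : ℤ) ∣ (a ^ n).im ∧ a.norm ≤ (n : ℤ) ^ 4)
    {p d : ℕ → ZI} (h : rkT A r p d) (hK : n ^ (8 * K * r) < l) : (K + 1) ^ r ≤ n := by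
  classical
  let M : Submonoid ZI :=
    { carrier := {x | IsCoprime x (l : ZI) ∧ (l : ℤ) ∣ (x ^ n).im}
      one_mem' := ⟨isCoprime_one_left, by simp⟩
      mul_mem' := fun hx hy => ⟨hx.1.mul_left hy.1, by
        rw [mul_pow, Zsqrtd.im_mul]
        exact dvd_add (hy.2.mul_left _) (hx.2.mul_right _)⟩ }
  have hd : ∀ i : Fin r, d i ∈ M ∧ d i ≠ 0 ∧ (d i).norm ≤ (n : ℤ) ^ 8 := fun i => by
    obtain ⟨a, ha, b, hb, e⟩ := (h i i.2).2.1
    obtain ⟨⟨a1, -, a2⟩, a3, a4⟩ := hA a ha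
    obtain ⟨⟨b1, -, b2⟩, b3, b4⟩ := hA b hb
    rw [e]
    refine ⟨M.mul_mem ⟨a2, a3⟩ ⟨by simpa [starRingEnd_apply] using b2.map (starRingEnd ZI), ?_⟩,
      mul_ne_zero (rk_ne a1.1) (star_ne_zero.2 (rk_ne b1.1)), ?_⟩
    · rw [← star_pow, Zsqrtd.im_star]; exact b3.neg_right
    · rw [Zsqrtd.norm_mul, Zsqrtd.norm_conj, show 8 = 4 + 4 from rfl, pow_add]
      exact mul_le_mul a4 b4 (GaussianInt.norm_nonneg _) (by positivity)
  let F : (Fin r → Fin (K + 1)) → ZI := fun c => ∏ i : Fin r, d i ^ (c i : ℕ)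
  have F0 : ∀ c, F c ≠ 0 := fun c => Finset.prod_ne_zero_iff.2 fun i _ => pow_ne_zero _ (hd i).2.1
  have n1 : (1 : ℤ) ≤ n ^ 8 := one_le_pow₀ (by exact_mod_cast hn)
  have FN : ∀ c, (F c).norm < l := fun c => by
    rw [rk_norm]
    refine (Finset.prod_le_prod (g := fun _ => ((n : ℤ) ^ 8) ^ K)
      (fun i _ => pow_nonneg (GaussianInt.norm_nonneg _) _) fun i _ => (pow_le_pow_left₀
        (GaussianInt.norm_nonneg _) (hd i).2.2 _).trans
          (pow_le_pow_right₀ n1 (Nat.le_of_lt_succ (c i).2))).trans_lt ?_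
    rw [Finset.prod_const, Finset.card_univ, Fintype.card_fin, ← pow_mul, ← pow_mul, ← mul_assoc]
    exact_mod_cast hK
  have key : ∀ c c', (l : ℤ) ∣ (F c * star (F c')).im → c = c' := fun c c' e => by
    have e0 : (F c * star (F c')).im = 0 := by
      refine Int.eq_zero_of_abs_lt_dvd e (abs_lt_of_sq_lt_sq ?_ (by positivity))
      have h1 : (F c * star (F c')).norm < l * l := by
        rw [Zsqrtd.norm_mul, Zsqrtd.norm_conj]
        exact mul_lt_mul'' (FN c) (FN c') (GaussianInt.norm_nonneg _) (GaussianInt.norm_nonneg _)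
      rw [Zsqrtd.norm_def] at h1
      nlinarith [mul_self_nonneg (F c * star (F c')).re]
    by_contra hc
    obtain ⟨j, hj, hm⟩ := (Finset.univ.filter fun i => c i ≠ c' i).exists_min_image id
      ⟨_, Finset.mem_filter.2 ⟨Finset.mem_univ _, (Function.ne_iff.1 hc).choose_spec⟩⟩
    have hp := (h j j.2).1
    have h1 := rk_real (p := p j) e0
    rw [rk_mul hp (F0 c) (star_ne_zero.2 (F0 c')), rk_star,
      rk_prod hp _ _ fun i => pow_ne_zero _ (hd i).2.1,
      rk_prod hp _ _ fun i => pow_ne_zero _ (hd i).2.1, ← sub_eq_add_neg, ← Finset.sum_sub_distrib,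
      Finset.sum_eq_single j _ (by simp), rk_pow hp (hd j).2.1, rk_pow hp (hd j).2.1, ← sub_mul] at h1
    · refine (Finset.mem_filter.1 hj).2 (Fin.ext ?_)
      have := (mul_eq_zero.1 h1).resolve_right (h j j.2).2.2.1
      omega
    · intro i _ hij
      by_cases ci : c i = c' i
      · rw [ci, sub_self]
      · have : j < i := lt_of_le_of_ne (hm i (by simpa using ci)) hij.symm
        rw [rk_pow hp (hd i).2.1, rk_pow hp (hd i).2.1, (h i i.2).2.2.2 j this]
        simp
  have := hCLS l n hl l2 hn (Finset.univ.image F) (fun x hx => by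
    obtain ⟨c, -, rfl⟩ := Finset.mem_image.1 hx
    exact M.prod_mem fun i _ => M.pow_mem (hd i).1 _) fun x hx y hy e => by
      obtain ⟨c, -, rfl⟩ := Finset.mem_image.1 hx
      obtain ⟨c', -, rfl⟩ := Finset.mem_image.1 hy
      rw [key c c' e]
  rwa [Finset.card_image_of_injective _ fun c c' e => key c c' (by
    rw [e, ← Zsqrtd.norm_eq_mul_conj]; simp), Finset.card_univ, Fintype.card_fun, Fintype.card_fin,
    Fintype.card_fin] at this

theorem p_RK (hCLS : S_CLS) (hPRIM : S_PRIM) :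
    S_RK := by
  have h0 : Tendsto (fun l : ℕ => Real.log l ^ (1 / 10 : ℝ)) atTop atTop :=
    (tendsto_rpow_atTop (by norm_num)).comp (Real.tendsto_log_atTop.comp tendsto_natCast_atTop_atTop)
  filter_upwards [h0.eventually_gt_atTop 88, eventually_gt_atTop 2] with l ht l2 hl n hn hn' A hA
  have lp : (0 : ℝ) < l := by exact_mod_cast hl.pos
  have np : (0 : ℝ) < n := by exact_mod_cast hn
  have La := Real.log_natCast_nonneg l
  have Ln := Real.log_natCast_nonneg n
  have e1 : Real.log l = (Real.log l ^ (1 / 10 : ℝ)) ^ 10 := by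
    rw [← Real.rpow_natCast, ← Real.rpow_mul La]; norm_num
  have e2 : Real.log l ^ (2 / 5 : ℝ) = (Real.log l ^ (1 / 10 : ℝ)) ^ 4 := by
    rw [← Real.rpow_natCast, ← Real.rpow_mul La]; norm_num
  rw [e2] at hn'
  generalize Real.log l ^ (1 / 10 : ℝ) = t at *
  have t1 : 1 ≤ Real.log t := by
    rw [Real.le_log_iff_exp_le (by linarith)]
    linarith [Real.exp_one_lt_d9]
  have hR := Nat.floor_le (div_nonneg Ln (zero_le_one.trans t1))
  have hR' := Nat.lt_floor_add_one (Real.log n / Real.log t)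
  generalize ⌊Real.log n / Real.log t⌋₊ = R at *
  rcases rk_greedy hPRIM (fun a ha => (hA a ha).1.1) (R + 1) with ⟨p, d, h⟩ | h
  · exfalso
    have hK := Nat.floor_le (a := t) (by linarith)
    have hK' := Nat.lt_floor_add_one t
    generalize ⌊t⌋₊ = K at *
    have t4 : 1 ≤ t ^ 4 := one_le_pow₀ (by linarith)
    have hr : (R : ℝ) + 1 ≤ 2 * t ^ 4 := by linarith [div_le_self Ln t1]
    have h1 : ((K : ℝ) + 1) ^ (R + 1) ≤ n := by
      have : (n : ℝ) ^ (8 * K * (R + 1)) < l := by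
        rw [← Real.log_lt_log_iff (by positivity) lp, Real.log_pow, e1]
        push_cast
        calc _ ≤ 8 * t * (2 * t ^ 4) * t ^ 4 := by gcongr
          _ = 16 * t ^ 9 := by ring
          _ < t * t ^ 9 := by gcongr; linarith
          _ = _ := by ring
      exact_mod_cast rk_box hCLS hl l2.ne' hn hA h (by exact_mod_cast this)
    have h2 := Real.log_le_log (by positivity)
      ((pow_le_pow_left₀ (by linarith) hK'.le (R + 1)).trans h1)
    rw [Real.log_pow] at h2
    rw [div_lt_iff₀ (by linarith)] at hR'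
    push_cast at h2
    linarith
  · refine h.trans ?_
    have h6 : (6 : ℝ) ≤ rexp (9 / 5) := le_trans (by norm_num [Finset.sum_range_succ, Nat.factorial])
      (Real.sum_le_exp_of_nonneg (by norm_num) 7)
    rw [Real.rpow_def_of_pos np, e1, Real.log_pow]
    calc _ = (6 : ℝ) ^ R := by ring
      _ ≤ rexp (9 / 5) ^ R := by gcongr
      _ = rexp (R * (9 / 5)) := (Real.exp_nat_mul _ _).symm
      _ ≤ rexp (Real.log n / Real.log t * (9 / 5)) := by gcongr
      _ = _ := by congr 1; push_cast; ring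

end Pool.Agent.P.MP_e7a540_nt.BC
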