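import Pool.Agent.P.MP_e7a540_nt.BC.If

/-! Proof of SH. -/

namespace Pool.Agent.P.MP_e7a540_nt.BC

open Complex Filter Topology CongruenceSubgroup
open UpperHalfPlane hiding I
open scoped Real ComplexConjugate MatrixGroups

theorem sh_le (l : ℕ) (z : ZI) (h0 : z.im ≠ 0) (h : (l : ℤ) ∣ z.im) : (l : ℤ) ^ 2 ≤ z.norm := by
  have h1 : (l : ℤ) ≤ |z.im| := Int.le_of_dvd (abs_pos.2 h0) ((dvd_abs _ _).2 h)
  have h2 : (l : ℤ) ^ 2 ≤ |z.im| ^ 2 := pow_le_pow_left₀ (by positivity) h1 2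
  rw [sq_abs] at h2
  rw [Zsqrtd.norm_def]
  nlinarith [sq_nonneg z.re]

theorem p_SH (hCLS : S_CLS) (hPRIM : S_PRIM) :
    S_SH := by
  refine ⟨fun l n a ha h1 hn hd => ?_, fun l n hl h2 hn A hA => ?_⟩
  · have := sh_le l (a ^ n) (fun h => h1 (hPRIM.2.1 a n ha hn h)) hd
    rwa [show (a ^ n).norm = a.norm ^ n from map_pow Zsqrtd.normMonoidHom a n] at this
  · refine hCLS l n hl h2 hn A (fun a ha => ⟨(hA a ha).2.1, (hA a ha).2.2.1⟩) fun a ha b hb hd => ?_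
    refine hPRIM.1 a b (hA a ha).1 (hA b hb).1 ?_
    by_contra h0
    have h3 := sh_le l _ h0 hd
    rw [Zsqrtd.norm_mul, Zsqrtd.norm_conj] at h3
    have a1 := (hA a ha).2.2.2
    have b1 := (hA b hb).2.2.2
    have a0 := GaussianInt.norm_nonneg a
    have b0 := GaussianInt.norm_nonneg b
    nlinarith

end Pool.Agent.P.MP_e7a540_nt.BC
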