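import Pool.Agent.P.MP_e7a540_nt.BC.If

/-! Proof of SLA. -/

namespace Pool.Agent.P.MP_e7a540_nt.BC

open Complex Filter Topology CongruenceSubgroup
open UpperHalfPlane hiding I
open scoped Real ComplexConjugate MatrixGroups

lemma sla_gauss (d : ℕ) [NeZero d] (j B c w₁ w₂ : ZMod d) (hj : j ^ 2 = -1)
    (h : 4 * B * c = -1) :
    ∑ p : ZMod d × ZMod d, ZMod.stdAddChar
      (B * (p.1 ^ 2 + p.2 ^ 2) + p.1 * w₁ + p.2 * w₂ - c * (w₁ ^ 2 + w₂ ^ 2)) = (d : ℂ) := by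
  classical
  rw [Fintype.sum_prod_type_right]
  have h1 : ∀ y : ZMod d, ∑ x : ZMod d, ZMod.stdAddChar
      (B * (x ^ 2 + y ^ 2) + x * w₁ + y * w₂ - c * (w₁ ^ 2 + w₂ ^ 2)) =
      ∑ u : ZMod d, ZMod.stdAddChar (B * u ^ 2 + u * w₁ - c * (w₁ ^ 2 + w₂ ^ 2)) *
        ZMod.stdAddChar (y * (2 * B * j * u + j * w₁ + w₂)) := fun y => by
    rw [← Equiv.sum_comp (Equiv.addRight (j * y))]
    refine Finset.sum_congr rfl fun u _ => ?_
    rw [← AddChar.map_add_eq_mul]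
    congr 1
    simp only [Equiv.coe_addRight]
    linear_combination (B * y ^ 2) * hj
  simp_rw [h1]
  rw [Finset.sum_comm]
  simp_rw [← Finset.mul_sum, AddChar.sum_mulShift _ (ZMod.isPrimitive_stdAddChar d)]
  rw [Finset.sum_eq_single (2 * c * (w₁ - j * w₂))]
  · rw [if_pos (by linear_combination (j * w₁ - j ^ 2 * w₂) * h - w₂ * hj + 2 * w₂ * hj),
      show B * (2 * c * (w₁ - j * w₂)) ^ 2 + 2 * c * (w₁ - j * w₂) * w₁ - c * (w₁ ^ 2 + w₂ ^ 2) = 0
        by linear_combination (c * (w₁ - j * w₂) ^ 2) * h - c * w₂ ^ 2 * hj]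
    simp
  · intro u _ hu
    rw [if_neg, Nat.cast_zero, mul_zero]
    intro h0
    apply hu
    linear_combination (2 * c * j) * h0 - (j ^ 2 * u) * h + (u - 2 * c * w₁) * hj
  · simp

lemma sla_sum {ι : Type} [Fintype ι] (M : ZI) (f : ZI → ℂ) (hf : ∀ a b, f (a + M * b) = f a)
    (e : ι → ZI) (he : Function.Bijective fun i => Ideal.Quotient.mk (Ideal.span {M}) (e i)) :
    ∑ᶠ r : ZI ⧸ Ideal.span {M}, f r.out = ∑ i, f (e i) := by
  rw [← finsum_eq_sum_of_fintype, ← finsum_comp _ he]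
  refine finsum_congr fun i => ?_
  have h := Ideal.Quotient.mk_out (Ideal.Quotient.mk (Ideal.span {M}) (e i))
  rw [Ideal.Quotient.eq, Ideal.mem_span_singleton] at h
  obtain ⟨b, hb⟩ := h
  rw [← hf (e i) b, ← hb, add_sub_cancel]

lemma sla_bij (m : ZI) (hm : m ≠ 0) (d : ℕ) [NeZero d] (hc : IsCoprime (d : ZI) m) :
    Function.Bijective fun p : (ZI ⧸ Ideal.span {m}) × (ZMod d × ZMod d) =>
      Ideal.Quotient.mk (Ideal.span {m * d})
        (d * p.1.out + m * (⟨p.2.1.val, p.2.2.val⟩ : ZI)) := by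
  constructor
  · rintro ⟨r, x, y⟩ ⟨r', x', y'⟩ h
    simp only [Ideal.Quotient.eq, Ideal.mem_span_singleton] at h
    obtain ⟨k, hk⟩ := h
    have h1 : r = r' := by
      rw [← Ideal.Quotient.mk_out r, ← Ideal.Quotient.mk_out r', Ideal.Quotient.eq,
        Ideal.mem_span_singleton]
      refine hc.symm.dvd_of_dvd_mul_left ⟨d * k - ⟨x.val, y.val⟩ + ⟨x'.val, y'.val⟩, ?_⟩
      linear_combination hk
    subst h1
    have h2 : (⟨x.val, y.val⟩ : ZI) - ⟨x'.val, y'.val⟩ = d * k :=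
      mul_left_cancel₀ hm (by linear_combination hk)
    have h3 := congrArg (fun z : ZI => (z.re : ZMod d)) h2
    have h4 := congrArg (fun z : ZI => (z.im : ZMod d)) h2
    simp [sub_eq_zero] at h3 h4
    rw [h3, h4]
  · intro s
    obtain ⟨α, rfl⟩ := Ideal.Quotient.mk_surjective s
    obtain ⟨u, v, huv⟩ := hc
    refine ⟨(Ideal.Quotient.mk _ (u * α), ((v * α).re : ZMod d), ((v * α).im : ZMod d)), ?_⟩
    simp only [Ideal.Quotient.eq, Ideal.mem_span_singleton]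
    have h := Ideal.Quotient.mk_out (Ideal.Quotient.mk (Ideal.span {m}) (u * α))
    rw [Ideal.Quotient.eq, Ideal.mem_span_singleton] at h
    obtain ⟨k, hk⟩ := h
    have h2 : (⟨((v * α).re : ZMod d).val, ((v * α).im : ZMod d).val⟩ : ZI) =
        v * α - d * ⟨(v * α).re / d, (v * α).im / d⟩ := by
      generalize v * α = z
      rw [ZMod.val_intCast, ZMod.val_intCast]
      ext <;> simp [Int.emod_def]
    refine ⟨k - ⟨(v * α).re / d, (v * α).im / d⟩, ?_⟩
    rw [h2]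
    linear_combination d * hk + α * huv

lemma sla_exp (k : ℤ) : cexp (2 * π * I * k) = 1 := by
  rw [mul_comm]; exact exp_int_mul_two_pi_mul_I k

lemma sla_re (z : ZI) (d : ℕ) : (((z : ℂ) / d).re : ℂ) = (z.re : ℂ) / d := by
  rw [div_natCast_re, ← GaussianInt.intCast_re]; push_cast; rfl

lemma sla_per (m : ZI) (φ : ZI → ℂ) (hφ : ∀ a b, φ (a + m * b) = φ a) (d : ℕ) (hd : d ≠ 0) (b : ℤ)
    (α β : ZI) : φ (α + m * d * β) * cexp (2 * π * I * ((α + m * d * β).norm : ℤ) * (b / d)) =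
      φ α * cexp (2 * π * I * (α.norm : ℤ) * (b / d)) := by
  have hd' : (d : ℂ) ≠ 0 := Nat.cast_ne_zero.2 hd
  have h : (α + m * d * β).norm =
      α.norm + d * (2 * (α * star (m * β)).re + d * (m * β).norm) := by
    rw [show m * d * β = d * (m * β) by ring]
    generalize m * β = z
    simp [Zsqrtd.norm_def]; ring
  rw [mul_assoc m, hφ, ← mul_assoc m, h]
  generalize 2 * (α * star (m * β)).re + d * (m * β).norm = K
  rw [← mul_one (cexp (2 * π * I * (α.norm : ℤ) * (b / d))), ← sla_exp (K * b), ← exp_add]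
  congr 2
  push_cast
  field_simp

lemma sla_ft (m : ZI) (hm : m ≠ 0) (hF : Finite (ZI ⧸ Ideal.span {m})) (φ : ZI → ℂ)
    (hφ : ∀ a b, φ (a + m * b) = φ a) (d : ℕ) [NeZero d] (j : ZMod d) (hj : j ^ 2 = -1)
    (a b c : ℤ) (h : a * d - b * (4 * m.norm * c) = 1) (w : ZI) :
    FT (m * d) (fun α => φ α * cexp (2 * π * I * (α.norm : ℤ) * (b / d))) w *
      cexp (2 * π * I * (w.norm : ℤ) * (-c / d)) = d * FT m (fun α => φ (d * α)) w := by
  have hd : (d : ℂ) ≠ 0 := Nat.cast_ne_zero.2 (NeZero.ne d)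
  have hm' : (m : ℂ) ≠ 0 := fun h0 => hm (GaussianInt.toComplex_eq_zero.1 h0)
  have hc : IsCoprime (d : ZI) m := by
    refine ⟨a, -(b * (4 * star m * c)), ?_⟩
    have h1 := congrArg (Int.cast : ℤ → ZI) h
    push_cast at h1
    rw [Zsqrtd.norm_eq_mul_conj] at h1
    linear_combination h1
  let := Fintype.ofFinite (ZI ⧸ Ideal.span {m})
  unfold FT
  rw [sla_sum (m * d) (fun r => φ r * cexp (2 * π * I * (r.norm : ℤ) * (b / d)) *
    cexp (2 * π * I * (((r * star w : ZI) : ℂ) / (m * d : ZI)).re)) ?_ _ (sla_bij m hm d hc)]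
  · rw [finsum_eq_sum_of_fintype, Fintype.sum_prod_type, Finset.sum_mul, Finset.mul_sum]
    refine Finset.sum_congr rfl fun r _ => ?_
    have h4 : 4 * ((b * m.norm : ℤ) : ZMod d) * c = -1 := by
      have h1 := congrArg (Int.cast : ℤ → ZMod d) h
      push_cast at h1 ⊢
      rw [ZMod.natCast_self] at h1
      linear_combination -h1
    rw [Finset.sum_mul]
    refine Eq.trans ?_ (congrArg (· * _) (sla_gauss d j _ c w.re w.im hj h4))
    rw [Finset.sum_mul]
    refine Finset.sum_congr rfl fun p _ => ?_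
    obtain ⟨x, y⟩ := p
    have h5 : ((b * m.norm : ℤ) : ZMod d) * (x ^ 2 + y ^ 2) + x * w.re + y * w.im -
        c * (w.re ^ 2 + w.im ^ 2) = ((d * r.out + m * (⟨x.val, y.val⟩ : ZI)).norm * b +
          ((⟨x.val, y.val⟩ : ZI) * star w).re - w.norm * c : ℤ) := by
      simp [Zsqrtd.norm_def]; ring
    have h6 : ((((d * r.out + m * (⟨x.val, y.val⟩ : ZI)) * star w : ZI) : ℂ) / (m * d : ZI)) =
        ((r.out * star w : ZI) : ℂ) / m + (((⟨x.val, y.val⟩ : ZI) * star w : ZI) : ℂ) / d := by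
      generalize (⟨x.val, y.val⟩ : ZI) = z
      simp only [map_mul, map_add, map_natCast]
      field_simp
    dsimp only
    rw [h5, ZMod.stdAddChar_coe, hφ, h6, add_re, ofReal_add, sla_re, mul_assoc, mul_assoc,
      ← exp_add, ← exp_add, mul_left_comm, ← exp_add]
    congr 2
    push_cast
    ring
  · intro α β
    have h6 : ((((α + m * d * β) * star w : ZI) : ℂ) / (m * d : ZI)) =
        ((α * star w : ZI) : ℂ) / (m * d : ZI) + (β * star w : ZI) := by
      simp only [map_mul, map_add, map_natCast]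
      field_simp
    rw [sla_per m φ hφ d (NeZero.ne d), h6, add_re, ofReal_add, mul_add, exp_add,
      ← GaussianInt.intCast_re, ofReal_intCast, sla_exp, mul_one]

lemma sla_shift (φ : ZI → ℂ) (x σ : ℂ) :
    TH φ (x + σ) = TH (fun α => φ α * cexp (2 * π * I * (α.norm : ℤ) * x)) σ := by
  unfold TH
  refine tsum_congr fun α => ?_
  rw [mul_add, exp_add]; ring

lemma sla_const (φ : ZI → ℂ) (x σ : ℂ) : TH (fun α => x * φ α) σ = x * TH φ σ := by
  unfold TH
  rw [← tsum_mul_left]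
  exact tsum_congr fun α => by ring

lemma sla_gen (hPCO : S_PCO) (m : ZI) (hm : m ≠ 0) (φ : ZI → ℂ)
    (hφ : ∀ a b, φ (a + m * b) = φ a) (d : ℕ) [NeZero d] (j : ZMod d) (hj : j ^ 2 = -1)
    (a b c : ℤ) (h : a * d - b * (4 * m.norm * c) = 1) (τ : ℂ) (hτ : 0 < τ.im) :
    TH φ ((a * τ + b) / (4 * m.norm * c * τ + d)) =
      (4 * m.norm * c * τ + d) ^ 2 * TH (fun α => φ (d * α)) τ := by
  obtain ⟨-, -, hF, hP⟩ := hPCO
  have hd0 : (0 : ℝ) < d := Nat.cast_pos.2 (Nat.pos_of_ne_zero (NeZero.ne d))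
  have hd : (d : ℂ) ≠ 0 := Nat.cast_ne_zero.2 (NeZero.ne d)
  have hm' : (m : ℂ) ≠ 0 := fun h0 => hm (GaussianInt.toComplex_eq_zero.1 h0)
  have hn : ((m.norm : ℤ) : ℂ) ≠ 0 := Int.cast_ne_zero.2 fun h0 => hm (GaussianInt.norm_eq_zero.1 h0)
  have hτ0 : τ ≠ 0 := fun h0 => by simp [h0] at hτ
  obtain ⟨C, hC⟩ : ∃ C : ℝ, (C : ℂ) = 4 * m.norm * c := ⟨4 * m.norm * c, by push_cast; rfl⟩
  have hD : (C * τ + d : ℂ) ≠ 0 := fun h0 => by
    have h1 := congrArg Complex.im h0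
    have h2 := congrArg Complex.re h0
    simp [hτ.ne'] at h1
    simp [h1, NeZero.ne d] at h2
  have hσ : 0 < (τ / (d * (C * τ + d))).im := by
    have h1 : (τ / (d * (C * τ + d))).im = d * d * τ.im / normSq (d * (C * τ + d)) := by
      rw [div_im]; simp; ring
    rw [h1]
    exact div_pos (by positivity) (normSq_pos.2 (mul_ne_zero hd hD))
  have h' : (a : ℂ) * d - b * C = 1 := by rw [hC]; exact_mod_cast h
  have h1 : (a * τ + b) / (C * τ + d) = b / d + τ / (d * (C * τ + d)) := by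
    rw [div_add_div _ _ hd (mul_ne_zero hd hD), div_eq_div_iff hD (mul_ne_zero hd (mul_ne_zero hd hD))]
    linear_combination (τ * d * (C * τ + d)) * h'
  have hN : (((m * d).norm : ℤ) : ℂ) = m.norm * d ^ 2 := by
    rw [Zsqrtd.norm_mul, Zsqrtd.norm_natCast]; push_cast; ring
  have h2 : -1 / (4 * (m.norm * d ^ 2) * (τ / (d * (C * τ + d)))) =
      -c / d + -1 / (4 * (m.norm : ℤ) * τ) := by
    field_simp
    linear_combination (-τ) * hC
  rw [← hC, h1, sla_shift, hP (m * d) _ (mul_ne_zero hm (Nat.cast_ne_zero.2 (NeZero.ne d)))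
    (sla_per m φ hφ d (NeZero.ne d) b) _ hσ, hN, h2, sla_shift,
    funext (sla_ft m hm (hF m hm) φ hφ d j hj a b c h), sla_const,
    hP m (fun α => φ (d * α)) hm (fun α β => by rw [mul_add, mul_left_comm, hφ]) τ hτ]
  simp only [map_mul, map_natCast]
  field_simp

lemma sla_T (φ : ZI → ℂ) (τ : ℂ) (k : ℤ) : TH φ (k + τ) = TH φ τ := by
  rw [sla_shift]
  congr 1
  funext α
  rw [mul_assoc _ _ (k : ℂ), ← Int.cast_mul, sla_exp, mul_one]

lemma sla_prime (c d : ℤ) (hc : (4 : ℤ) ∣ c) (hd : d % 4 = 1) (h : IsCoprime d c) :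
    ∃ (k : ℤ) (p : ℕ) (j : ZMod p), p ≠ 0 ∧ j ^ 2 = -1 ∧ (p : ℤ) = d + c * k := by
  rcases eq_or_ne c 0 with rfl | h0
  · refine ⟨0, 1, 0, one_ne_zero, Subsingleton.elim _ _, ?_⟩
    rcases Int.isUnit_iff.1 (isCoprime_zero_right.1 h) with h1 | h1 <;> omega
  · obtain ⟨p, -, hp, h1⟩ := Nat.forall_exists_prime_gt_and_zmodEq 0 (q := c.natAbs) (a := d)
      (Int.natAbs_ne_zero.2 h0) (by rw [Int.natCast_natAbs]; exact IsCoprime.abs_right h)
    obtain ⟨k, hk⟩ := Int.natAbs_dvd.1 h1.symm.dvd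
    have := Fact.mk hp
    obtain ⟨c', rfl⟩ := hc
    obtain ⟨j, hj⟩ := (ZMod.exists_sq_eq_neg_one_iff (p := p)).2 (by
      have : (p : ℤ) = d + 4 * (c' * k) := by linear_combination hk
      omega)
    exact ⟨k, p, j, hp.ne_zero, by rw [hj, sq], by linear_combination hk⟩

theorem p_SLA (hEV : S_EV) (hPCO : S_PCO) :
    S_SLA := by
  intro l hl h2 χ hχ
  obtain ⟨hmul, hper, -⟩ := hEV l hl h2 χ hχ
  have hm : (⟨2, 2⟩ * l : ZI) ≠ 0 :=
    mul_ne_zero (by decide) (Nat.cast_ne_zero.2 hl.ne_zero)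
  have hn : (⟨2, 2⟩ * l : ZI).norm = 8 * l ^ 2 := by
    rw [Zsqrtd.norm_mul, Zsqrtd.norm_natCast]; simp [Zsqrtd.norm_def]; ring
  have hφ : ∀ a b, ph χ (a + ⟨2, 2⟩ * l * b) = ph χ a := fun a b => by
    have h1 : Pr (a + ⟨2, 2⟩ * l * b) ↔ Pr a := by
      unfold Pr
      rw [add_sub_right_comm, mul_assoc]
      exact dvd_add_left (dvd_mul_right _ _)
    unfold ph
    rw [h1, mul_comm _ (l : ZI), mul_assoc, hper]
  have key : ∀ a b c d : ℤ, d % 4 = 1 → a * d - b * c = 1 → (32 * l ^ 2 : ℤ) ∣ c → ∀ τ : ℂ,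
      0 < τ.im → th χ ((a * τ + b) / (c * τ + d)) = (c * τ + d) ^ 2 * th χ τ := by
    rintro a b _ d hd h ⟨c, rfl⟩ τ hτ
    obtain ⟨k, p, j, hp, hj, hk⟩ := sla_prime (32 * l ^ 2 * c) d ⟨8 * l ^ 2 * c, by ring⟩ hd
      ⟨a, -b, by linear_combination h⟩
    have := NeZero.mk hp
    have hdet : a * p - (b + a * k) * (4 * (⟨2, 2⟩ * l : ZI).norm * c) = 1 := by
      rw [hn, hk]; linear_combination h
    have h1 := sla_gen hPCO _ hm _ hφ p j hj a (b + a * k) c hdet (-k + τ) (by simpa using hτ)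
    have h3 : (fun α => ph χ (p * α)) = ph χ := funext fun α => by
      obtain ⟨q, hq⟩ : ∃ q : ℤ, (p : ℤ) = 1 + 4 * q :=
        ⟨d / 4 + 8 * (l ^ 2 * c * k), by rw [hk]; have := Int.mul_ediv_add_emod d 4; linarith⟩
      have hq' : (p : ZI) = 1 + ⟨2, 2⟩ * (⟨1, -1⟩ * q) := by
        rw [← mul_assoc, show (⟨2, 2⟩ * ⟨1, -1⟩ : ZI) = 4 by decide]
        exact_mod_cast congrArg (Int.cast : ℤ → ZI) hq
      have h4 : Pr (p * α) ↔ Pr α := by
        unfold Pr
        rw [show p * α - 1 = α - 1 + ⟨2, 2⟩ * (⟨1, -1⟩ * q * α) by rw [hq']; ring]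
        exact dvd_add_left (dvd_mul_right _ _)
      have h5 : ev χ (p : ZI) = 1 := by
        refine (Int.cast_natCast (R := ZI) p) ▸ hχ (p : ℤ) fun h0 => ?_
        have h6 : (l : ℤ) ∣ 1 := by
          rw [← hdet, hn]
          exact dvd_sub (h0.mul_left _) ⟨(b + a * k) * (32 * l * c), by ring⟩
        exact hl.one_lt.ne' (by exact_mod_cast Int.eq_one_of_dvd_one (by positivity) h6)
      unfold ph
      rw [h4, hmul, h5, one_mul]
    have hk' : (p : ℂ) = d + 32 * l ^ 2 * c * k := by exact_mod_cast hk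
    rw [h3, hn, ← Int.cast_neg, sla_T, hk'] at h1
    rw [hPCO.1, hPCO.1]
    convert h1 using 3 <;> push_cast <;> ring
  intro a b c d h hc τ hτ
  have hd : d % 4 = 1 ∨ -d % 4 = 1 := by
    obtain ⟨c', rfl⟩ := hc
    have h3 : Odd (a * d) := ⟨b * (16 * l ^ 2 * c'), by linear_combination h⟩
    obtain ⟨e, he⟩ := (Int.odd_mul.1 h3).2
    omega
  rcases hd with hd | hd
  · exact key a b c d hd h hc τ hτ
  · have h1 := key (-a) (-b) (-c) (-d) hd (by linear_combination h) hc.neg_right τ hτ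
    push_cast at h1
    rw [show -(a : ℂ) * τ + -b = -(a * τ + b) by ring, show -(c : ℂ) * τ + -d = -(c * τ + d) by ring,
      neg_div_neg_eq, neg_sq] at h1
    exact h1

end Pool.Agent.P.MP_e7a540_nt.BC
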