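import Pool.Agent.P.MP_e7a540_nt.BC.Fin
import Pool.Agent.P.MP_e7a540_nt.BC.TARI
import Pool.Agent.P.MP_e7a540_nt.BC.TAVG
import Pool.Agent.P.MP_e7a540_nt.BC.TCLS
import Pool.Agent.P.MP_e7a540_nt.BC.TCRU
import Pool.Agent.P.MP_e7a540_nt.BC.TDEC
import Pool.Agent.P.MP_e7a540_nt.BC.TEN
import Pool.Agent.P.MP_e7a540_nt.BC.TEV
import Pool.Agent.P.MP_e7a540_nt.BC.TFRK
import Pool.Agent.P.MP_e7a540_nt.BC.TGAL
import Pool.Agent.P.MP_e7a540_nt.BC.TGRP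
import Pool.Agent.P.MP_e7a540_nt.BC.TINJ
import Pool.Agent.P.MP_e7a540_nt.BC.TLONG
import Pool.Agent.P.MP_e7a540_nt.BC.TLV
import Pool.Agent.P.MP_e7a540_nt.BC.TMOD
import Pool.Agent.P.MP_e7a540_nt.BC.TPCO
import Pool.Agent.P.MP_e7a540_nt.BC.TPOI
import Pool.Agent.P.MP_e7a540_nt.BC.TPRIM
import Pool.Agent.P.MP_e7a540_nt.BC.TRK
import Pool.Agent.P.MP_e7a540_nt.BC.TSH
import Pool.Agent.P.MP_e7a540_nt.BC.TSLA
import Pool.Agent.P.MP_e7a540_nt.BC.TTT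

/-! Assembly of the project BC. -/

namespace Pool.Agent.P.MP_e7a540_nt.BC

theorem main : ∃ l₀ : ℕ, ∀ (l : ℕ) [Fact l.Prime], l₀ ≤ l →
    1 - Real.log l ^ (-(1 / 17 : ℝ)) ≤
      ({f ∈ PL l | ModularForm.L two_pos f 1 ≠ 0}.ncard : ℝ) / (PL l).ncard :=
  have hGRP := p_GRP p_EV p_CLS
  have hPCO := p_PCO p_POI
  have hSH := p_SH p_CLS p_PRIM
  have hMOD := p_MOD p_EV p_POI hPCO (p_SLA p_EV hPCO)
  have hLV := p_LV p_EV p_POI hPCO (p_FRK p_EV hPCO)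
  fin_main hGRP hMOD hLV (p_INJ p_EV p_PRIM hPCO)
    (p_AVG p_EV hGRP hMOD hLV (p_GAL p_EV hGRP) (p_DEC p_EV p_PRIM p_POI)) p_ARI
    (p_TT hGRP hSH p_ARI p_CRU (p_LONG p_CLS hGRP p_PRIM) (p_RK p_CLS p_PRIM)
      (p_EN p_PRIM hSH p_ARI p_CRU))

end Pool.Agent.P.MP_e7a540_nt.BC
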