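import Pool.Agent.P.MP_e7a540_nt.BC.If

/-! Proof of GRP. -/

namespace Pool.Agent.P.MP_e7a540_nt.BC

open Complex Filter Topology CongruenceSubgroup
open UpperHalfPlane hiding I
open scoped Real ComplexConjugate MatrixGroups

/-- reduction modulo `l` -/
abbrev grpMk (l : ℕ) : ZI →+* RR l := Ideal.Quotient.mk _

theorem grp_pos {G : Type*} [Group G] [Finite G] (x : G) : 0 < orderOf x := orderOf_pos x

theorem grp_opow {G : Type*} [Group G] [Finite G] (x : G) (m : ℕ) :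
    orderOf (x ^ m) * m.gcd (orderOf x) = orderOf x := by
  rw [orderOf_pow, Nat.gcd_comm m, Nat.div_mul_cancel (Nat.gcd_dvd_left _ _)]

theorem grp_eq {l : ℕ} {a b : ZI} :
    grpMk l a = grpMk l b ↔ (l : ℤ) ∣ a.re - b.re ∧ (l : ℤ) ∣ a.im - b.im := by
  rw [Ideal.Quotient.eq, Ideal.mem_span_singleton, ← Int.cast_natCast, Zsqrtd.intCast_dvd]
  simp

theorem grp_fin {l : ℕ} (hl : l.Prime) : Finite (RR l) := by
  have : NeZero l := ⟨hl.ne_zero⟩
  refine Finite.of_surjective (fun p : ZMod l × ZMod l => grpMk l ⟨p.1.cast, p.2.cast⟩) fun x => ?_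
  obtain ⟨a, rfl⟩ := Ideal.Quotient.mk_surjective x
  refine ⟨(a.re, a.im), grp_eq.2 ⟨?_, ?_⟩⟩ <;>
    exact (ZMod.intCast_eq_intCast_iff_dvd_sub _ _ _).1 (by simp)

theorem grp_unit {l : ℕ} {a : ZI} : IsUnit (grpMk l a) ↔ IsCoprime a (l : ZI) := by
  constructor
  · intro h
    obtain ⟨x, hx⟩ := h.exists_left_inv
    obtain ⟨b, rfl⟩ := Ideal.Quotient.mk_surjective x
    rw [← map_mul, ← map_one (grpMk l), Ideal.Quotient.eq, Ideal.mem_span_singleton] at hx
    obtain ⟨c, hc⟩ := hx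
    exact ⟨b, -c, by linear_combination hc⟩
  · rintro ⟨b, c, h⟩
    have := congrArg (grpMk l) h
    rw [map_add, map_mul, map_mul, show grpMk l (l : ZI) = 0 from
      Ideal.Quotient.eq_zero_iff_mem.2 (Ideal.mem_span_singleton_self _), mul_zero, add_zero,
      map_one] at this
    exact IsUnit.of_mul_eq_one_right _ this

theorem grp_int {l : ℕ} (hl : l.Prime) {n : ℤ} : IsCoprime (n : ZI) (l : ZI) ↔ ¬ (l : ℤ) ∣ n := by
  constructor
  · rintro h ⟨c, rfl⟩
    have h1 : IsUnit (l : ZI) := h.isUnit_of_dvd' (by simp) dvd_rfl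
    have h2 := (Zsqrtd.intCast_dvd (l : ℤ) (1 : ZI)).1 (by simpa using h1.dvd)
    exact hl.one_lt.ne' (Nat.dvd_one.1 (Int.natCast_dvd_natCast.1 h2.1))
  · intro h
    simpa using ((Nat.prime_iff_prime_int.1 hl).coprime_iff_not_dvd.2 h).symm.intCast (R := ZI)

theorem grp_norm {l : ℕ} (hl : l.Prime) {a : ZI} (h : ¬ (l : ℤ) ∣ a.norm) : IsCoprime a (l : ZI) := by
  have := (grp_int hl).2 h
  rw [Zsqrtd.norm_eq_mul_conj] at this
  exact this.of_mul_left_left

/-- the units which are rational integers -/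
def grpH {l : ℕ} (hl : l.Prime) : Subgroup (RR l)ˣ where
  carrier := {u | ∃ n : ℤ, (u : RR l) = grpMk l n}
  one_mem' := ⟨1, by simp⟩
  mul_mem' := by
    rintro u v ⟨n, h⟩ ⟨m, h'⟩
    exact ⟨n * m, by simp [h, h']⟩
  inv_mem' := by
    rintro u ⟨n, h⟩
    have := grp_fin hl
    obtain ⟨k, hk⟩ := mem_powers_iff_mem_zpowers.2 (inv_mem (Subgroup.mem_zpowers u))
    exact ⟨n ^ k, by simp [← hk, h]⟩

theorem grp_mem {l : ℕ} (hl : l.Prime) {a : ZI} {u : (RR l)ˣ} (h : (u : RR l) = grpMk l a) :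
    u ∈ grpH hl ↔ (l : ℤ) ∣ a.im :=
  ⟨fun ⟨n, hn⟩ => by simpa using (grp_eq.1 (h.symm.trans hn)).2,
    fun h' => ⟨a.re, h.trans (grp_eq.2 (by simpa using h'))⟩⟩

theorem grp_XX {l : ℕ} (hl : l.Prime) {χ : CH l} : χ ∈ XX l ↔ ∀ u ∈ grpH hl, χ u = 1 := by
  constructor
  · rintro h u ⟨n, hn⟩
    rw [hn]
    exact h n ((grp_int hl).1 (grp_unit.1 (hn ▸ u.isUnit)))
  · intro h n hn
    obtain ⟨u, hu⟩ := grp_unit.2 ((grp_int hl).2 hn)
    exact (congrArg χ hu.symm).trans (h u ⟨n, hu⟩)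

theorem grp_card {l : ℕ} (hl : l.Prime) (K : Subgroup (RR l)ˣ) :
    {χ : CH l | ∀ u ∈ K, χ u = 1}.ncard = K.index := by
  have := grp_fin hl
  have : NeZero (Monoid.exponent (RR l)ˣ) := ⟨Monoid.exponent_ne_zero_of_finite⟩
  rw [Subgroup.index, ← MulChar.card_subgroupOrderIsoSubgroupMulChar (R := ℂ), ← Nat.card_coe_set_eq]
  exact Nat.card_congr
    (Equiv.subtypeEquivRight fun _ => MulChar.mem_subgroupOrderIsoSubgroupMulChar_iff.symm)

theorem grp_gg {l : ℕ} (hl : l.Prime) : gg l = (grpH hl).index := by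
  rw [← grp_card hl, gg]
  congr 1
  ext χ
  exact grp_XX hl

theorem grp_pow {l : ℕ} (hl : l.Prime) {a : ZI} {u : (RR l)ˣ} (h : (u : RR l) = grpMk l a) (n : ℕ) :
    (l : ℤ) ∣ (a ^ n).im ↔ orderOf (u : (RR l)ˣ ⧸ grpH hl) ∣ n := by
  rw [orderOf_dvd_iff_pow_eq_one, ← QuotientGroup.mk_pow, QuotientGroup.eq_one_iff,
    grp_mem hl (a := a ^ n) (by simp [h])]

theorem grp_od {l : ℕ} (hl : l.Prime) {a : ZI} {u : (RR l)ˣ} (h : (u : RR l) = grpMk l a) :
    od l a = orderOf (u : (RR l)ˣ ⧸ grpH hl) := by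
  have := grp_fin hl
  simp only [od, grp_pow hl h]
  exact IsLeast.csInf_eq ⟨⟨grp_pos _, dvd_rfl⟩, fun n hn => Nat.le_of_dvd hn.1 hn.2⟩

theorem grp_count {l : ℕ} (hl : l.Prime) {a : ZI} {u : (RR l)ˣ} (h : (u : RR l) = grpMk l a)
    (m : ℕ) : {χ ∈ XX l | ev χ a ^ m = 1}.ncard * od l a = gg l * m.gcd (od l a) := by
  have := grp_fin hl
  set q : (RR l)ˣ ⧸ grpH hl := QuotientGroup.mk u with hq
  have e : {χ ∈ XX l | ev χ a ^ m = 1} = {χ : CH l | ∀ v ∈ (Subgroup.zpowers (q ^ m)).comap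
      (QuotientGroup.mk' (grpH hl)), χ v = 1} := by
    ext χ
    simp only [Set.mem_ofPred_eq, grp_XX hl, ev, ← h, ← map_pow, ← Units.val_pow_eq_pow_val]
    constructor
    · rintro ⟨h1, h2⟩ v hv
      obtain ⟨k, hk⟩ := mem_powers_iff_mem_zpowers.2 (Subgroup.mem_comap.1 hv)
      have h3 : (u ^ m) ^ k * (((u ^ m) ^ k)⁻¹ * v) = v := mul_inv_cancel_left _ _
      rw [← h3, Units.val_mul, map_mul, h1 _ (QuotientGroup.eq.1 hk), Units.val_pow_eq_pow_val,
        map_pow, h2, one_pow, one_mul]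
    · exact fun h1 => ⟨fun v hv => h1 v (Subgroup.mem_comap.2 (by
        rw [QuotientGroup.mk'_apply, (QuotientGroup.eq_one_iff v).2 hv]; exact one_mem _)),
        h1 _ (Subgroup.mem_zpowers _)⟩
  rw [e, grp_card hl, Subgroup.index_comap_of_surjective _ (QuotientGroup.mk'_surjective _),
    grp_gg hl, grp_od hl h, Subgroup.index, Subgroup.index,
    Subgroup.card_eq_card_quotient_mul_card_subgroup (Subgroup.zpowers (q ^ m)), Nat.card_zpowers,
    mul_assoc, grp_opow]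

theorem grp_le {l : ℕ} (hl : l.Prime) : gg l ≤ l + 1 := by
  classical
  have : NeZero l := ⟨hl.ne_zero⟩
  rw [grp_gg hl]
  refine (Nat.card_le_card_of_surjective (fun o : Option (ZMod l) => o.elim 1 fun x =>
    if h : IsUnit (grpMk l ⟨x.cast, 1⟩) then (h.unit : (RR l)ˣ ⧸ grpH hl) else 1) fun q => ?_).trans
    (by simp)
  obtain ⟨u, rfl⟩ := QuotientGroup.mk_surjective q
  obtain ⟨a, ha⟩ := Ideal.Quotient.mk_surjective (u : RR l)
  by_cases h : (l : ℤ) ∣ a.im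
  · exact ⟨none, ((QuotientGroup.eq_one_iff u).2 ((grp_mem hl ha.symm).2 h)).symm⟩
  obtain ⟨s, t, hst⟩ := (Nat.prime_iff_prime_int.1 hl).coprime_iff_not_dvd.2 h
  obtain ⟨v, hv⟩ := grp_unit.2 ((grp_int hl (n := t)).2 fun h' => hl.one_lt.ne' (by
    have : (l : ℤ) ∣ 1 := hst ▸ dvd_add (dvd_mul_left _ _) (h'.mul_right _)
    exact Nat.dvd_one.1 (by exact_mod_cast this)))
  have e : ((u * v : (RR l)ˣ) : RR l) = grpMk l ⟨((a.re * t : ℤ) : ZMod l).cast, 1⟩ := by
    rw [Units.val_mul, hv, ← ha, ← map_mul]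
    refine grp_eq.2 ⟨(ZMod.intCast_eq_intCast_iff_dvd_sub _ _ _).1 (by simp), -s, ?_⟩
    simp only [Zsqrtd.im_mul, Zsqrtd.im_intCast, Zsqrtd.re_intCast]
    linear_combination hst
  refine ⟨some (a.re * t : ℤ), ?_⟩
  simp only [Option.elim_some, ← e, Units.isUnit, dif_pos, IsUnit.unit_of_val_units]
  exact QuotientGroup.mk_mul_of_mem u ⟨t, hv⟩

theorem grp_ge (hCLS : S_CLS) {l : ℕ} (hl : l.Prime) (h2 : l ≠ 2) : l ≤ gg l + 2 := by
  classical
  have := Fact.mk hl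
  have := grp_fin hl
  have hi : Function.Injective fun x : ZMod l => (⟨x.cast, 1⟩ : ZI) := fun x y h => by
    simpa using congrArg (fun z : ZI => (z.re : ZMod l)) h
  have h1 := hCLS l (gg l) hl h2 (by rw [grp_gg hl]; exact Nat.card_pos)
    ((Finset.univ.filter fun x : ZMod l => ¬x ^ 2 = -1).image fun x => ⟨x.cast, 1⟩) ?_ ?_
  · have h3 := Finset.card_filter_add_card_filter_not (s := Finset.univ) fun x : ZMod l => x ^ 2 = -1
    have h4 : (Finset.univ.filter fun x : ZMod l => x ^ 2 = -1).card ≤ 2 := by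
      rcases (Finset.univ.filter fun x : ZMod l => x ^ 2 = -1).eq_empty_or_nonempty with h | ⟨x, h⟩
      · simp [h]
      · refine (Finset.card_le_card fun y hy => ?_).trans (Finset.card_le_two (a := x) (b := -x))
        simp only [Finset.mem_filter, Finset.mem_univ, true_and] at h hy
        simpa using sq_eq_sq_iff_eq_or_eq_neg.1 (hy.trans h.symm)
    rw [Finset.card_image_of_injective _ hi] at h1
    rw [Finset.card_univ, ZMod.card] at h3
    omega
  · simp only [Finset.mem_image, Finset.mem_filter, Finset.mem_univ, true_and]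
    rintro _ ⟨x, hx, rfl⟩
    have h3 : IsCoprime (⟨x.cast, 1⟩ : ZI) (l : ZI) := grp_norm hl fun h => hx (by
      have := (ZMod.intCast_zmod_eq_zero_iff_dvd _ l).2 h
      simp only [Zsqrtd.norm_def, Int.cast_sub, Int.cast_mul, ZMod.intCast_cast, ZMod.cast_id',
        id_eq, Int.cast_neg, Int.cast_one] at this
      linear_combination this)
    obtain ⟨u, hu⟩ := grp_unit.2 h3
    exact ⟨h3, (grp_pow hl hu _).2 (by rw [grp_gg hl]; exact orderOf_dvd_natCard _)⟩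
  · simp only [Finset.mem_image, Finset.mem_filter, Finset.mem_univ, true_and]
    rintro _ ⟨x, -, rfl⟩ _ ⟨y, -, rfl⟩ h
    have := (ZMod.intCast_zmod_eq_zero_iff_dvd _ l).2 h
    simp only [Zsqrtd.im_mul, Zsqrtd.im_star, Zsqrtd.re_star, Int.cast_add, Int.cast_mul,
      ZMod.intCast_cast, ZMod.cast_id', id_eq, Int.cast_neg, Int.cast_one] at this
    rw [show x = y by linear_combination -this]

theorem p_GRP (hEV : S_EV) (hCLS : S_CLS) :
    S_GRP := by
  intro l hl h2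
  have := grp_fin hl
  have h3 : ¬ (l : ℤ) ∣ 2 := fun h =>
    h2 ((Nat.prime_dvd_prime_iff_eq hl Nat.prime_two).1 (by exact_mod_cast h))
  refine ⟨Set.toFinite _, grp_le hl, grp_ge hCLS hl h2, fun χ hχ => ?_, ?_, fun a ha => ?_⟩
  · refine MulChar.ext fun u => ?_
    have h1 := (grp_XX hl).1 hχ _ ((grpH hl).pow_index_mem u)
    rw [MulChar.pow_apply_coe, MulChar.one_apply_coe, ← map_pow, grp_gg hl]
    exact h1
  · have h4 : IsCoprime (⟨1, 1⟩ : ZI) (l : ZI) := grp_norm hl h3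
    obtain ⟨u, hu⟩ := grp_unit.2 h4
    have h5 : od l ⟨1, 1⟩ = 4 := by
      rw [grp_od hl hu]
      refine orderOf_eq_prime_pow (p := 2) (n := 1) (fun h => h3 ?_) ?_
      · exact (grp_pow hl hu _).2 (orderOf_dvd_of_pow_eq_one h)
      · exact orderOf_dvd_iff_pow_eq_one.1 ((grp_pow hl hu _).1 (dvd_zero _))
    have n1 := grp_count hl hu 1
    have n2 := grp_count hl hu 2
    rw [h5] at n1 n2
    have hi : ∀ χ ∈ XX l, ev χ ⟨1, 1⟩ ^ 2 = 1 → ev χ ⟨0, 1⟩ = 1 := fun χ hχ h => by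
      rw [sq, ← (hEV l hl h2 χ hχ).1, show (⟨1, 1⟩ * ⟨1, 1⟩ : ZI) = ((2 : ℤ) : ZI) * ⟨0, 1⟩ by
        ext <;> simp, (hEV l hl h2 χ hχ).1, hχ 2 h3, one_mul] at h
      exact h
    norm_num only at n1 n2
    by_cases h6 : l % 4 = 1
    · have : {χ ∈ XX l | ev χ ⟨1, 1⟩ ^ 1 = 1} ⊆ insert 1 (XP l) := fun χ ⟨hχ, h⟩ => by
        rw [pow_one] at h
        exact or_iff_not_imp_left.2 fun e => ⟨hχ, e, by simp [WW, h6, h, hi χ hχ (by simp [h])]⟩
      have := (Set.ncard_le_ncard this).trans (Set.ncard_insert_le _ _)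
      simp only [pow_one] at this n1
      omega
    · have : {χ ∈ XX l | ev χ ⟨1, 1⟩ ^ 2 = 1} ⊆ {χ ∈ XX l | ev χ ⟨1, 1⟩ ^ 1 = 1} ∪ XP l :=
        fun χ ⟨hχ, h⟩ => by
          rcases sq_eq_one_iff.1 h with e | e
          · exact .inl ⟨hχ, by rw [pow_one, e]⟩
          · refine .inr ⟨hχ, ?_, by simp [WW, h6, e, hi χ hχ h]⟩
            rintro rfl
            rw [ev, ← hu, MulChar.one_apply_coe] at e
            norm_num at e
      have := (Set.ncard_le_ncard this).trans (Set.ncard_union_le _ _)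
      simp only [pow_one] at this n1
      omega
  · obtain ⟨u, hu⟩ := grp_unit.2 ha
    refine ⟨?_, ?_, fun n => ?_, grp_count hl hu⟩ <;> rw [grp_od hl hu]
    · exact grp_pos _
    · rw [grp_gg hl]
      exact orderOf_dvd_natCard _
    · exact grp_pow hl hu n

end Pool.Agent.P.MP_e7a540_nt.BC
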