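import Pool.Agent.P.MP_e7a540_nt.BC.If

/-! Proof of TT. -/

namespace Pool.Agent.P.MP_e7a540_nt.BC

open Complex Filter Topology CongruenceSubgroup
open UpperHalfPlane hiding I
open scoped Real ComplexConjugate MatrixGroups

/-- the five error terms are small -/
theorem tt_asy (C1 C2 C3 C : ℝ) : ∀ᶠ x : ℝ in atTop,
    C1 * rexp (-(2 / 5) * x) + C2 * x ^ (-(1 / 8 : ℝ)) + 2 * x ^ (-(1 / 8 : ℝ)) * Real.log x ^ C +
      C3 * rexp (-(2 / 25) * x ^ (2 / 5 : ℝ)) * rexp (C * x ^ (7 / 20 : ℝ)) +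
      9 * rexp (-(1 / 15) * x) ≤ x ^ (-(1 / 16 : ℝ)) := by
  have h1 := (tendsto_rpow_mul_exp_neg_mul_atTop_nhds_zero (1 / 16) (2 / 5) (by norm_num)).const_mul C1
  have h2 := (tendsto_rpow_neg_atTop (y := 1 / 16) (by norm_num)).const_mul C2
  have h3 := ((isLittleO_log_rpow_rpow_atTop C (s := 1 / 16)
    (by norm_num)).tendsto_div_nhds_zero).const_mul 2
  have h5 := (tendsto_rpow_mul_exp_neg_mul_atTop_nhds_zero (1 / 16) (1 / 15) (by norm_num)).const_mul 9
  have h4 : Tendsto (fun x : ℝ => C3 * (x ^ (1 / 16 : ℝ) *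
      (rexp (-(2 / 25) * x ^ (2 / 5 : ℝ)) * rexp (C * x ^ (7 / 20 : ℝ))))) atTop (𝓝 (C3 * 0)) := by
    refine Tendsto.const_mul _ ?_
    have a := (tendsto_rpow_mul_exp_neg_mul_atTop_nhds_zero (5 / 32) (1 / 25) (by norm_num)).comp
      (tendsto_rpow_atTop (y := 2 / 5) (by norm_num))
    refine squeeze_zero' ?_ ?_ a
    · filter_upwards [eventually_gt_atTop 0] with x hx
      positivity
    · filter_upwards [eventually_gt_atTop 0,
        (tendsto_rpow_atTop (y := 1 / 20) (by norm_num)).eventually_ge_atTop (25 * C)] with x hx hC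
      have e1 : (x ^ (2 / 5 : ℝ)) ^ (5 / 32 : ℝ) = x ^ (1 / 16 : ℝ) := by
        rw [← Real.rpow_mul hx.le]; norm_num
      have e2 : x ^ (2 / 5 : ℝ) = x ^ (1 / 20 : ℝ) * x ^ (7 / 20 : ℝ) := by
        rw [← Real.rpow_add hx]; norm_num
      simp only [Function.comp_apply, e1]
      rw [← Real.exp_add]
      have p : 0 < x ^ (7 / 20 : ℝ) := by positivity
      gcongr
      rw [e2]; nlinarith
  have h := (((h1.add h2).add h3).add h4).add h5
  simp only [mul_zero, add_zero] at h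
  filter_upwards [eventually_gt_atTop 0, h.eventually (gt_mem_nhds (show (0 : ℝ) < 1 by norm_num))]
    with x hx hs
  have p : 0 < x ^ (1 / 16 : ℝ) := by positivity
  have e1 : x ^ (-(1 / 16 : ℝ)) = (x ^ (1 / 16 : ℝ))⁻¹ := Real.rpow_neg hx.le _
  have e2 : x ^ (-(1 / 8 : ℝ)) = (x ^ (1 / 16 : ℝ))⁻¹ * (x ^ (1 / 16 : ℝ))⁻¹ := by
    rw [← e1, ← Real.rpow_add hx]; norm_num
  rw [e1] at hs
  rw [e1, e2, ← one_mul (x ^ (1 / 16 : ℝ))⁻¹, ← div_eq_mul_inv 1, le_div_iff₀ p]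
  refine le_trans (le_of_eq ?_) hs.le
  field_simp

theorem tt_npos {a : ZI} (ha : Pr a) : (1 : ℝ) ≤ a.norm := by
  have h0 : a ≠ 0 := by
    rintro rfl
    obtain ⟨c, hc⟩ := ha
    have := congrArg Zsqrtd.re hc
    simp at this
    omega
  exact_mod_cast GaussianInt.norm_pos.2 h0

/-- first range -/
theorem tt_r1 {x δ : ℝ} {n : ℕ} (hx : 0 < x) (hδ : 0 ≤ δ) (hn : 0 < n) (B : Finset ZI)
    (hc : B.card ≤ n) (hB : ∀ a ∈ B, x ^ (1 / 2 : ℝ) ≤ a.norm)
    (hR : ∑ a ∈ B.filter (fun a => a.norm ≤ (n : ℤ) ^ 4), (a.norm : ℝ) ^ (-(1 / 4 : ℝ)) ≤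
      (n : ℝ) ^ δ) :
    ∑ a ∈ B, 1 / √(a.norm : ℝ) ≤ 2 * x ^ (-(1 / 8 : ℝ)) * (n : ℝ) ^ δ := by
  have n1 : (1 : ℝ) ≤ n := by exact_mod_cast hn
  have p : 0 < x ^ (1 / 2 : ℝ) := by positivity
  have s1 : ∑ a ∈ B, 1 / √(a.norm : ℝ) ≤
      x ^ (-(1 / 8 : ℝ)) * ∑ a ∈ B, (a.norm : ℝ) ^ (-(1 / 4 : ℝ)) := by
    rw [Finset.mul_sum]
    refine Finset.sum_le_sum fun a ha => ?_
    have q : (0 : ℝ) < a.norm := p.trans_le (hB a ha)
    have e : 1 / √(a.norm : ℝ) = (a.norm : ℝ) ^ (-(1 / 4 : ℝ)) * (a.norm : ℝ) ^ (-(1 / 4 : ℝ)) := by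
      rw [← Real.rpow_add q, Real.sqrt_eq_rpow, one_div, ← Real.rpow_neg q.le]; norm_num
    have e' : x ^ (-(1 / 8 : ℝ)) = (x ^ (1 / 2 : ℝ)) ^ (-(1 / 4 : ℝ)) := by
      rw [← Real.rpow_mul hx.le]; norm_num
    rw [e, e']
    gcongr ?_ * _
    exact Real.rpow_le_rpow_of_nonpos p (hB a ha) (by norm_num)
  have s2 : ∑ a ∈ B.filter (fun a => ¬ a.norm ≤ (n : ℤ) ^ 4), (a.norm : ℝ) ^ (-(1 / 4 : ℝ)) ≤ 1 := by
    refine (Finset.sum_le_card_nsmul _ _ (1 / n : ℝ) fun a ha => ?_).trans ?_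
    · have h : ((n : ℝ) ^ 4) ≤ a.norm := by
        exact_mod_cast (not_le.1 (Finset.mem_filter.1 ha).2).le
      refine (Real.rpow_le_rpow_of_nonpos (by positivity) h (by norm_num)).trans (le_of_eq ?_)
      rw [← Real.rpow_natCast, ← Real.rpow_mul (by positivity), one_div (n : ℝ),
        ← Real.rpow_neg_one]
      norm_num
    · rw [nsmul_eq_mul, mul_one_div, div_le_one (by positivity)]
      exact_mod_cast (Finset.card_filter_le _ _).trans hc
  have s3 : (1 : ℝ) ≤ (n : ℝ) ^ δ := Real.one_le_rpow n1 hδ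
  rw [← Finset.sum_filter_add_sum_filter_not B (fun a => a.norm ≤ (n : ℤ) ^ 4)
    (fun a => (a.norm : ℝ) ^ (-(1 / 4 : ℝ)))] at s1
  have p2 : 0 < x ^ (-(1 / 8 : ℝ)) := by positivity
  nlinarith

/-- second range -/
theorem tt_r2 {C : ℝ} {n : ℕ} (hn : 0 < n) (B : Finset ZI) (hc : B.card ≤ n)
    (hR : ∑ a ∈ B.filter (fun a => a.norm ^ 2 ≤ (n : ℤ) ^ 3), 1 / √(a.norm : ℝ) ≤
      C * (n : ℝ) ^ (27 / 100 : ℝ)) :
    ∑ a ∈ B, 1 / √(a.norm : ℝ) ≤ (|C| + 1) * (n : ℝ) ^ (27 / 100 : ℝ) := by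
  have n1 : (1 : ℝ) ≤ n := by exact_mod_cast hn
  have n0 : (0 : ℝ) < n := by positivity
  have s2 : ∑ a ∈ B.filter (fun a => ¬ a.norm ^ 2 ≤ (n : ℤ) ^ 3), 1 / √(a.norm : ℝ) ≤
      (n : ℝ) ^ (27 / 100 : ℝ) := by
    refine (Finset.sum_le_card_nsmul _ _ ((n : ℝ) ^ (-(3 / 4 : ℝ))) fun a ha => ?_).trans ?_
    · have h : ((n : ℝ) ^ 3) ≤ (a.norm : ℝ) ^ 2 := by
        exact_mod_cast (not_le.1 (Finset.mem_filter.1 ha).2).le
      have q : (0 : ℝ) ≤ a.norm := by exact_mod_cast GaussianInt.norm_nonneg a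
      have e : 1 / √(a.norm : ℝ) = ((a.norm : ℝ) ^ 2) ^ (-(1 / 4 : ℝ)) := by
        rw [← Real.rpow_natCast, ← Real.rpow_mul q, Real.sqrt_eq_rpow, one_div,
          ← Real.rpow_neg q]
        norm_num
      rw [e]
      refine (Real.rpow_le_rpow_of_nonpos (by positivity) h (by norm_num)).trans (le_of_eq ?_)
      rw [← Real.rpow_natCast, ← Real.rpow_mul n0.le]
      norm_num
    · rw [nsmul_eq_mul]
      have : ((B.filter (fun a => ¬ a.norm ^ 2 ≤ (n : ℤ) ^ 3)).card : ℝ) ≤ (n : ℝ) ^ (1 : ℝ) := by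
        rw [Real.rpow_one]
        exact_mod_cast (Finset.card_filter_le _ _).trans hc
      refine (mul_le_mul_of_nonneg_right this (by positivity)).trans ?_
      rw [← Real.rpow_add n0]
      exact Real.rpow_le_rpow_of_exponent_le n1 (by norm_num)
  rw [← Finset.sum_filter_add_sum_filter_not B (fun a => a.norm ^ 2 ≤ (n : ℤ) ^ 3)]
  have p : 0 < (n : ℝ) ^ (27 / 100 : ℝ) := by positivity
  nlinarith [le_abs_self C]

theorem tt_DD (g : ℕ) (σ : ℝ) : 0 ≤ DD g σ := Finset.sum_nonneg fun n _ => by positivity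

theorem tt_wt (l : ℕ) (a : ZI) :
    wt l a ≤ 1 / √(a.norm : ℝ) * ((od l a).divisors.card / od l a) := by
  unfold wt
  gcongr
  rw [Real.exp_le_one_iff]
  have q : (0 : ℝ) ≤ a.norm := by exact_mod_cast GaussianInt.norm_nonneg a
  exact div_nonpos_of_nonpos_of_nonneg (by linarith) (by positivity)

theorem p_TT (hGRP : S_GRP) (hSH : S_SH) (hARI : S_ARI) (hCRU : S_CRU) (hLONG : S_LONG)
    (hRK : S_RK) (hEN : S_EN) : S_TT := by
  classical
  obtain ⟨C1, hL⟩ := hLONG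
  obtain ⟨C3, hE⟩ := hEN
  obtain ⟨C2, hD⟩ := hARI.1 (1 / 2) (by norm_num)
  obtain ⟨C, hA⟩ := hARI.2
  have tl : Tendsto (fun l : ℕ => Real.log l) atTop atTop :=
    Real.tendsto_log_atTop.comp tendsto_natCast_atTop_atTop
  filter_upwards [hA, hRK, tl.eventually (tt_asy |C1| (8 * |C2|) (|C3| + 1) C),
    tl.eventually_gt_atTop 1, eventually_gt_atTop 2] with l hA hRK hasy hx hl2 hl
  have hl2' : l ≠ 2 := hl2.ne'
  obtain ⟨-, hg, hg', -, -, hod⟩ := hGRP l hl hl2'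
  have g0 : 0 < gg l := by omega
  obtain ⟨-, d1, d2, d3⟩ := hA (gg l) g0 hg
  set x := Real.log l with hxd
  have x0 : 0 < x := by linarith
  have l0 : (0 : ℝ) < l := by exact_mod_cast hl.pos
  have lx : ∀ s : ℝ, (l : ℝ) ^ s = rexp (s * x) := fun s => by
    rw [Real.rpow_def_of_pos l0, mul_comm]
  have L0 : 0 < Real.log x := Real.log_pos hx
  set δ := 18 / Real.log x with hδ
  have δ0 : 0 ≤ δ := by positivity
  refine le_trans ?_ hasy
  have key : ∀ A : Finset ZI, (∀ a ∈ A, a ∈ PP l) → ∑ a ∈ A, wt l a ≤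
      |C1| * rexp (-(2 / 5) * x) + 8 * |C2| * x ^ (-(1 / 8 : ℝ)) +
      2 * x ^ (-(1 / 8 : ℝ)) * Real.log x ^ C +
      (|C3| + 1) * rexp (-(2 / 25) * x ^ (2 / 5 : ℝ)) * rexp (C * x ^ (7 / 20 : ℝ)) +
      9 * rexp (-(1 / 15) * x) := by
    intro A hA
    have hdv : ∀ a ∈ A, (l : ℤ) ∣ (a ^ od l a).im := fun a ha =>
      ((hod a (hA a ha).2.2).2.2.1 _).2 dvd_rfl
    -- long elements
    have b1 : ∑ a ∈ A.filter (fun a => (l : ℤ) ≤ a.norm), wt l a ≤ |C1| * rexp (-(2 / 5) * x) := by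
      refine (hL l hl hl2' _ fun a ha => ⟨hA a (Finset.mem_filter.1 ha).1,
        (Finset.mem_filter.1 ha).2⟩).trans ?_
      have e : rexp (-(2 / 5) * x) = (l : ℝ) ^ (1 / 10 : ℝ) / √(l : ℝ) := by
        rw [Real.sqrt_eq_rpow, lx, lx, ← Real.exp_sub]; congr 1; ring
      rw [e, ← mul_div_assoc]
      gcongr ?_ / _
      exact mul_le_mul (le_abs_self _) d3 (tt_DD _ _) (abs_nonneg _)
    set S := A.filter (fun a => ¬ (l : ℤ) ≤ a.norm) with hS
    -- tiny elements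
    have b2 : ∑ a ∈ S.filter (fun a => (a.norm : ℝ) ≤ x ^ (1 / 2 : ℝ)), wt l a ≤
        8 * |C2| * x ^ (-(1 / 8 : ℝ)) := by
      have c := hCRU.1 (S.filter (fun a => (a.norm : ℝ) ≤ x ^ (1 / 2 : ℝ))) (x ^ (1 / 4 : ℝ))
        (by positivity) fun a ha => by
          rw [← Real.rpow_natCast, ← Real.rpow_mul x0.le]
          convert (Finset.mem_filter.1 ha).2 using 2
          norm_num
      have t : ∀ a ∈ S.filter (fun a => (a.norm : ℝ) ≤ x ^ (1 / 2 : ℝ)),
          wt l a ≤ 1 / √(a.norm : ℝ) * (|C2| * x ^ (-(3 / 8 : ℝ))) := by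
        intro a ha
        obtain ⟨ha1, ha2⟩ := Finset.mem_filter.1 ha
        have haA := (Finset.mem_filter.1 ha1).1
        have n0 := (hod a (hA a haA).2.2).1
        have n0' : (0 : ℝ) < od l a := by exact_mod_cast n0
        have q := tt_npos (hA a haA).1.1
        have h1 : (l : ℝ) ^ 2 ≤ (a.norm : ℝ) ^ od l a := by
          exact_mod_cast hSH.1 l _ a (hA a haA).1 (hA a haA).2.1 n0 (hdv a haA)
        have h2 : 2 * x ≤ od l a * Real.log a.norm := by
          have := Real.log_le_log (by positivity) h1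
          rwa [Real.log_pow, Real.log_pow, Nat.cast_ofNat] at this
        have h3 : Real.log a.norm ≤ 1 / 2 * Real.log x := by
          rw [← Real.log_rpow x0]; exact Real.log_le_log (by linarith) ha2
        have h4 : Real.log x ≤ x ^ (1 / 4 : ℝ) / (1 / 4) := Real.log_le_rpow_div x0.le (by norm_num)
        have h5 : x = x ^ (3 / 4 : ℝ) * x ^ (1 / 4 : ℝ) := by
          rw [← Real.rpow_add x0]; norm_num
        have p : 0 < x ^ (1 / 4 : ℝ) := by positivity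
        have h6 : x ^ (3 / 4 : ℝ) ≤ od l a := by
          refine le_of_mul_le_mul_right ?_ p
          rw [← h5]; nlinarith
        refine (tt_wt l a).trans ?_
        gcongr
        calc ((od l a).divisors.card / od l a : ℝ) ≤ |C2| * (od l a : ℝ) ^ (1 / 2 : ℝ) / od l a := by
              gcongr
              exact (hD _).trans (mul_le_mul_of_nonneg_right (le_abs_self _) (by positivity))
          _ = |C2| * (od l a : ℝ) ^ (-(1 / 2 : ℝ)) := by
              rw [mul_div_assoc, ← Real.rpow_sub_one n0'.ne']; norm_num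
          _ ≤ |C2| * (x ^ (3 / 4 : ℝ)) ^ (-(1 / 2 : ℝ)) := by
              gcongr _ * ?_
              exact Real.rpow_le_rpow_of_nonpos (by positivity) h6 (by norm_num)
          _ = _ := by rw [← Real.rpow_mul x0.le]; norm_num
      refine (Finset.sum_le_sum t).trans ?_
      rw [← Finset.sum_mul]
      refine (mul_le_mul_of_nonneg_right c (by positivity)).trans (le_of_eq ?_)
      have : x ^ (-(1 / 8 : ℝ)) = x ^ (1 / 4 : ℝ) * x ^ (-(3 / 8 : ℝ)) := by
        rw [← Real.rpow_add x0]; norm_num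
      rw [this]; ring
    -- the other short elements
    set R := S.filter (fun a => ¬ (a.norm : ℝ) ≤ x ^ (1 / 2 : ℝ)) with hR
    have hRA : ∀ a ∈ R, a ∈ A ∧ a.norm < l ∧ x ^ (1 / 2 : ℝ) ≤ a.norm := fun a ha => by
      obtain ⟨h1, h2⟩ := Finset.mem_filter.1 ha
      obtain ⟨h3, h4⟩ := Finset.mem_filter.1 h1
      exact ⟨h3, not_le.1 h4, (not_le.1 h2).le⟩
    set K1 := 2 * x ^ (-(1 / 8 : ℝ))
    set K2 := (|C3| + 1) * rexp (-(2 / 25) * x ^ (2 / 5 : ℝ))
    set K3 := 9 * rexp (-(1 / 6) * x)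
    have k1 : 0 ≤ K1 := by positivity
    have k2 : 0 ≤ K2 := by positivity
    have k3 : 0 ≤ K3 := by positivity
    have fib : ∀ n : ℕ, 0 < n → (∑ a ∈ R.filter (fun a => od l a = n), 1 / √(a.norm : ℝ)) / n ≤
        K1 * (n : ℝ) ^ (-(1 - δ)) + K2 * (n : ℝ) ^ (-(13 / 20 : ℝ)) + K3 * (n : ℝ) ^ (-(0 : ℝ)) := by
      intro n hn
      have n0 : (0 : ℝ) < n := by exact_mod_cast hn
      set B := R.filter (fun a => od l a = n)
      have hB : ∀ a ∈ B, a ∈ PP l ∧ (l : ℤ) ∣ (a ^ n).im ∧ a.norm < l ∧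
          x ^ (1 / 2 : ℝ) ≤ a.norm := fun a ha => by
        obtain ⟨h1, h2⟩ := Finset.mem_filter.1 ha
        obtain ⟨h3, h4, h5⟩ := hRA a h1
        exact ⟨hA a h3, h2 ▸ hdv a h3, h4, h5⟩
      have hc : B.card ≤ n := hSH.2 l n hl hl2' hn B fun a ha =>
        ⟨(hB a ha).1.1, (hB a ha).1.2.2, (hB a ha).2.1, (hB a ha).2.2.1⟩
      have p1 : 0 ≤ K1 * (n : ℝ) ^ (-(1 - δ)) := by positivity
      have p2 : 0 ≤ K2 * (n : ℝ) ^ (-(13 / 20 : ℝ)) := by positivity
      have p3 : 0 ≤ K3 * (n : ℝ) ^ (-(0 : ℝ)) := by positivity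
      by_cases c1 : Real.log n ≤ x ^ (2 / 5 : ℝ)
      · have := tt_r1 x0 δ0 hn B hc (fun a ha => (hB a ha).2.2.2)
          (hRK hl n hn c1 _ fun a ha => by
            obtain ⟨h1, h2⟩ := Finset.mem_filter.1 ha
            exact ⟨(hB a h1).1, (hB a h1).2.1, h2⟩)
        have e : K1 * (n : ℝ) ^ (-(1 - δ)) = K1 * (n : ℝ) ^ δ / n := by
          rw [mul_div_assoc, ← Real.rpow_sub_one n0.ne']; norm_num
        have h : _ ≤ K1 * (n : ℝ) ^ δ / n := div_le_div_of_nonneg_right this n0.le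
        exact (h.trans e.ge).trans ((le_add_of_nonneg_right p2).trans (le_add_of_nonneg_right p3))
      by_cases c2 : n ^ 3 < l
      · have := tt_r2 hn B hc (hE l n hl hl2' hn c2 _ fun a ha => by
            obtain ⟨h1, h2⟩ := Finset.mem_filter.1 ha
            exact ⟨(hB a h1).1, (hB a h1).2.1, h2⟩)
        have := div_le_div_of_nonneg_right this n0.le
        have e : (|C3| + 1) * (n : ℝ) ^ (27 / 100 : ℝ) / n ≤ K2 * (n : ℝ) ^ (-(13 / 20 : ℝ)) := by
          have e1 : (n : ℝ) ^ (27 / 100 : ℝ) / n =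
              rexp (-(2 / 25) * Real.log n) * (n : ℝ) ^ (-(13 / 20 : ℝ)) := by
            rw [mul_comm _ (Real.log n), ← Real.rpow_def_of_pos n0, ← Real.rpow_add n0,
              ← Real.rpow_sub_one n0.ne']
            norm_num
          rw [mul_div_assoc, e1, ← mul_assoc]
          gcongr ?_ * _
          refine mul_le_mul_of_nonneg_left (Real.exp_le_exp.2 ?_) (by positivity)
          linarith [not_le.1 c1]
        exact (this.trans e).trans ((le_add_of_nonneg_left p1).trans (le_add_of_nonneg_right p3))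
      · have h1 : ∑ a ∈ B, 1 / √(a.norm : ℝ) ≤ 9 * √(n : ℝ) :=
          (hCRU.2 B).trans (by gcongr)
        have := div_le_div_of_nonneg_right h1 n0.le
        have h2 : (l : ℝ) ≤ (n : ℝ) ^ 3 := by exact_mod_cast not_lt.1 c2
        have e : 9 * √(n : ℝ) / n ≤ K3 * (n : ℝ) ^ (-(0 : ℝ)) := by
          rw [neg_zero, Real.rpow_zero, mul_one, mul_div_assoc]
          refine mul_le_mul_of_nonneg_left ?_ (by norm_num)
          rw [← lx, Real.sqrt_eq_rpow, ← Real.rpow_sub_one n0.ne']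
          refine le_trans (le_of_eq ?_) (Real.rpow_le_rpow_of_nonpos l0 h2 (by norm_num))
          rw [← Real.rpow_natCast, ← Real.rpow_mul n0.le]; norm_num
        exact (this.trans e).trans (le_add_of_nonneg_left (add_nonneg p1 p2))
    have b3 : ∑ a ∈ R, wt l a ≤ K1 * DD (gg l) (1 - δ) + K2 * DD (gg l) (13 / 20) +
        K3 * DD (gg l) 0 := by
      rw [← Finset.sum_fiberwise_of_maps_to (t := (gg l).divisors) (g := od l) fun a ha =>
        Nat.mem_divisors.2 ⟨(hod a (hA a (hRA a ha).1).2.2).2.1, g0.ne'⟩]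
      simp only [DD, Finset.mul_sum, ← Finset.sum_add_distrib]
      refine Finset.sum_le_sum fun n hn => ?_
      have := mul_le_mul_of_nonneg_left (fib n (Nat.pos_of_mem_divisors hn))
        (show (0 : ℝ) ≤ n.divisors.card by positivity)
      refine le_trans ?_ (this.trans (le_of_eq (by ring)))
      rw [Finset.sum_div, Finset.mul_sum]
      refine Finset.sum_le_sum fun a ha => (tt_wt l a).trans (le_of_eq ?_)
      rw [(Finset.mem_filter.1 ha).2]; ring
    have b4 : K3 * DD (gg l) 0 ≤ 9 * rexp (-(1 / 15) * x) := by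
      refine (mul_le_mul_of_nonneg_left d3 k3).trans (le_of_eq ?_)
      rw [lx, mul_assoc, ← Real.exp_add]; congr 2; ring
    rw [← Finset.sum_filter_add_sum_filter_not A (fun a => (l : ℤ) ≤ a.norm), ← hS,
      ← Finset.sum_filter_add_sum_filter_not S (fun a => (a.norm : ℝ) ≤ x ^ (1 / 2 : ℝ)), ← hR]
    have := mul_le_mul_of_nonneg_left d1 k1
    have := mul_le_mul_of_nonneg_left d2 k2
    linarith
  refine Real.tsum_le_of_sum_le (fun a => by unfold wt; positivity) fun u => ?_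
  have := key (u.map (Function.Embedding.subtype _)) fun a ha => by
    obtain ⟨b, -, rfl⟩ := Finset.mem_map.1 ha
    exact b.2
  rwa [Finset.sum_map] at this

end Pool.Agent.P.MP_e7a540_nt.BC
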